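import Pool.Agent.Lib.MP_29559a_lc.OL.Spec

/-!
# MP_29559a_lc, module ABV: the comparison of heights
-/

set_option autoImplicit false

namespace Pool.Agent.Lib.MP29559a

open Pool.Agent.PolyTime

namespace ABVM

theorem cl_nodup (X : Ctx) : ∀ o : List ℕ, Cl X o → o.Nodup ∧ ∀ i ∈ o, i < X.1.length := by
  intro o
  induction o with
  | nil =>
    intro _
    exact ⟨List.nodup_nil, fun i hi => absurd hi List.not_mem_nil⟩
  | cons c o ih =>
    intro h
    obtain ⟨h1, h2, h3, -⟩ := h
    obtain ⟨h4, h5⟩ := ih h1
    refine ⟨List.nodup_cons.2 ⟨h3, h4⟩, fun i hi => ?_⟩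
    rcases List.mem_cons.1 hi with rfl | hi
    · exact h2
    · exact h5 i hi

theorem dw_self (a : ℕ) (o : List ℕ) :
    (a :: o).dropWhile (fun x => decide (x ≠ a)) = a :: o := by
  rw [List.dropWhile_cons]
  simp

theorem dw_ne (a i : ℕ) (h : a ≠ i) (o : List ℕ) :
    (a :: o).dropWhile (fun x => decide (x ≠ i)) = o.dropWhile (fun x => decide (x ≠ i)) := by
  rw [List.dropWhile_cons]
  simp [h]

theorem tm_self (a : ℕ) (o : List ℕ) : tm (a :: o) a = o.length + 1 := by
  unfold tm
  rw [dw_self]
  rfl

theorem tm_ne (a i : ℕ) (h : a ≠ i) (o : List ℕ) : tm (a :: o) i = tm o i := by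
  unfold tm
  rw [dw_ne a i h]

theorem tm_le (o : List ℕ) (i : ℕ) : tm o i ≤ o.length := by
  induction o with
  | nil => exact le_refl _
  | cons a o ih =>
    by_cases h : a = i
    · subst h
      rw [tm_self]
      rfl
    · rw [tm_ne a i h]
      exact ih.trans (Nat.le_succ _)

theorem tm_pos (o : List ℕ) (i : ℕ) (hi : i ∈ o) : 0 < tm o i := by
  induction o with
  | nil => exact absurd hi List.not_mem_nil
  | cons a o ih =>
    by_cases h : a = i
    · subst h
      rw [tm_self]
      exact Nat.succ_pos _
    · rw [tm_ne a i h]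
      rcases List.mem_cons.1 hi with h' | h'
      · exact absurd h'.symm h
      · exact ih h'

theorem tm_lt (i p : ℕ) (hip : i ≠ p) : ∀ o : List ℕ, o.Nodup → i ∈ o → p ∈ o →
    (i ∈ o.dropWhile (fun x => decide (x ≠ p)) → tm o i < tm o p) ∧
    (i ∉ o.dropWhile (fun x => decide (x ≠ p)) → tm o p < tm o i) := by
  intro o
  induction o with
  | nil => intro _ hi; exact absurd hi List.not_mem_nil
  | cons a o ih =>
    intro hn hi hp
    obtain ⟨hna, hno⟩ := List.nodup_cons.1 hn
    by_cases hap : a = p
    · subst hap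
      rw [dw_self, tm_self, tm_ne a i (Ne.symm hip)]
      exact ⟨fun _ => Nat.lt_succ_of_le (tm_le o i), fun h => absurd hi h⟩
    · have hpo : p ∈ o := by
        rcases List.mem_cons.1 hp with h' | h'
        · exact absurd h'.symm hap
        · exact h'
      rw [dw_ne a p hap, tm_ne a p hap]
      by_cases hai : a = i
      · subst hai
        rw [tm_self]
        refine ⟨fun h => absurd ((List.dropWhile_suffix _).subset h) hna, fun _ => ?_⟩
        exact Nat.lt_succ_of_le (tm_le o p)
      · have hio : i ∈ o := by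
          rcases List.mem_cons.1 hi with h' | h'
          · exact absurd h'.symm hai
          · exact h'
        rw [tm_ne a i hai]
        exact ih hno hio hpo

/-- the comparison when the second one is later -/
theorem cmp_gt (a b : Bool) (s t : ℕ) (h : s < t) :
    decide ((if a then (s : ℤ) else -(s : ℤ)) < (if b then (t : ℤ) else -(t : ℤ))) = b := by
  cases a <;> cases b <;> simp <;> omega

/-- the comparison when the first one is later -/
theorem cmp_lt (a b : Bool) (s t : ℕ) (h : t < s) :
    decide ((if a then (s : ℤ) else -(s : ℤ)) < (if b then (t : ℤ) else -(t : ℤ))) = !a := by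
  cases a <;> cases b <;> simp <;> omega

theorem cmp_zero_l (b : Bool) (t : ℕ) (h : 0 < t) :
    decide ((0 : ℤ) < (if b then (t : ℤ) else -(t : ℤ))) = b := by
  cases b <;> simp <;> omega

theorem cmp_zero_r (a : Bool) (s : ℕ) (h : 0 < s) :
    decide ((if a then (s : ℤ) else -(s : ℤ)) < (0 : ℤ)) = !a := by
  cases a <;> simp <;> omega

theorem gm_nil (i : ℕ) : gm [] i = false := by
  unfold gm
  simp

end ABVM

open ABVM in
theorem specABV (hPRT : SpecPRT) (hSTJ : SpecSTJ) : SpecABV := by
  intro R X hG hr c o hCl e he hne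
  obtain ⟨hClo, hcn, hco, hbef⟩ := hCl
  obtain ⟨hnod, hlt⟩ := cl_nodup X o hClo
  obtain ⟨hJ1, hJ2⟩ := hSTJ R X hG hr o hClo c hcn
  rcases hpar : par X c with _ | p
  · -- no parent
    have hJ : gJ (stOf X o) c = [] := by
      refine hJ2 (Or.inr fun p hp => ?_)
      rw [hpar] at hp
      exact absurd hp (by simp)
    rcases he with rfl | ⟨i, hi, rfl⟩
    · exact absurd hpar.symm hne
    · have h1 : above X (gJ (stOf X o) c) c (some i) = dirS X i := by
        rw [hJ]
        unfold above
        simp [gm_nil]
      rw [h1]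
      exact cmp_zero_l (dirS X i) (tm o i) (tm_pos o i hi)
  · obtain ⟨hpn, hanc⟩ := (hPRT R X hG hr c hcn).1 p hpar
    have hpo : p ∈ o := by
      refine hbef p hpn ?_
      unfold bef
      rw [hanc]
      rfl
    obtain ⟨-, hJ⟩ := hJ1 p hco hpar hpo
    rcases he with rfl | ⟨i, hi, rfl⟩
    · have h1 : above X (gJ (stOf X o) c) c none = !(dirS X p) := by
        unfold above
        rw [hpar]
        simp [dirO]
      rw [h1]
      exact cmp_zero_r (dirS X p) (tm o p) (tm_pos o p hpo)
    · have hip : i ≠ p := by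
        rintro rfl
        exact hne hpar.symm
      obtain ⟨h2, h3⟩ := tm_lt i p hip o hnod hi hpo
      by_cases hg : gm (gJ (stOf X o) c) i = true
      · have h1 : above X (gJ (stOf X o) c) c (some i) = !(dirS X p) := by
          unfold above
          rw [hpar]
          simp [dirO, hg]
        rw [h1]
        exact cmp_lt (dirS X p) (dirS X i) (tm o p) (tm o i) (h2 ((hJ i (hlt i hi)).1 hg))
      · have h1 : above X (gJ (stOf X o) c) c (some i) = dirS X i := by
          unfold above
          simp [hg]
        rw [h1]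
        exact cmp_gt (dirS X p) (dirS X i) (tm o p) (tm o i) (h3 fun h => hg ((hJ i (hlt i hi)).2 h))

end Pool.Agent.Lib.MP29559a
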