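import Pool.Agent.Lib.MP_29559a_lc.OL.Spec

/-!
# MP_29559a_lc, module ASY: `anc` is asymmetric (helper64)
-/

set_option autoImplicit false

namespace Pool.Agent.Lib.MP29559a

namespace ASYM

/-- the cap and the strict opposite side are disjoint -/
lemma disj (X : Ctx) (i : ℕ) (p : Pt) (h1 : capc X i p) (h2 : ncap X i p) : False := by
  unfold capc ncap gtc ltc at *
  by_cases hc : capU X i = true
  · rw [if_pos hc] at h1 h2
    linarith
  · rw [if_neg hc] at h1 h2
    linarith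

lemma lc_seg (v : Bool) (x y : Pt) (t : ℝ) :
    lc v (x.1 + t * (y.1 - x.1), x.2 + t * (y.2 - x.2)) = lc v x + t * (lc v y - lc v x) := by
  cases v <;> simp [lc]

/-- the segment from the opposite side to the cap crosses the line -/
lemma cross (hCVX : SpecCVX) (R : Rct) (X : Ctx) (j : ℕ) (x y : Pt) (hx : inn R x) (hy : inn R y)
    (h1 : ncap X j x) (h2 : capc X j y) :
    ∃ t : ℝ, 0 < t ∧ t < 1 ∧ inn R (x.1 + t * (y.1 - x.1), x.2 + t * (y.2 - x.2)) ∧
      onc X.1 j (x.1 + t * (y.1 - x.1), x.2 + t * (y.2 - x.2)) := by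
  unfold capc ncap gtc ltc at *
  by_cases hc : capU X j = true
  · rw [if_pos hc] at h1 h2
    obtain ⟨t, ht0, ht1, hin, hon⟩ := hCVX R (vt (cr X.1 j)) (at' (cr X.1 j)) x y hx hy h1 h2
    exact ⟨t, ht0, ht1, hin, hon⟩
  · rw [if_neg hc] at h1 h2
    obtain ⟨t, ht0, ht1, hin, hon⟩ := hCVX R (vt (cr X.1 j)) (at' (cr X.1 j)) y x hy hx h2 h1
    have e : ((x.1 + (1 - t) * (y.1 - x.1), x.2 + (1 - t) * (y.2 - x.2)) : Pt) =
        (y.1 + t * (x.1 - y.1), y.2 + t * (x.2 - y.2)) := by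
      apply Prod.ext
      · show x.1 + (1 - t) * (y.1 - x.1) = y.1 + t * (x.1 - y.1)
        ring
      · show x.2 + (1 - t) * (y.2 - x.2) = y.2 + t * (x.2 - y.2)
        ring
    refine ⟨1 - t, by linarith, by linarith, ?_, ?_⟩
    · rw [e]
      exact hin
    · rw [e]
      exact hon

/-- a point of a segment from the strict opposite side to the line is on the opposite side -/
lemma stay (X : Ctx) (i : ℕ) (x y : Pt) (t : ℝ) (ht : t < 1) (h1 : ncap X i x)
    (h2 : onc X.1 i y) : ncap X i (x.1 + t * (y.1 - x.1), x.2 + t * (y.2 - x.2)) := by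
  unfold ncap gtc ltc at *
  unfold onc at h2
  rw [lc_seg]
  by_cases hc : capU X i = true
  · rw [if_pos hc] at h1 ⊢
    rw [h2]
    nlinarith
  · rw [if_neg hc] at h1 ⊢
    rw [h2]
    nlinarith

end ASYM

theorem specASY (hCVX : SpecCVX) (hSID : SpecSID) (hSDC : SpecSDC) : SpecASY := by
  intro R X hG hr i hi j hj hij
  obtain ⟨h1, h2⟩ := hij
  have hne : i ≠ j := by
    intro h
    subst h
    unfold anc at h1
    simp at h1
  obtain ⟨a1, -, a3⟩ := hSDC R X hG hr i hi j hj hne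
  obtain ⟨b1, -, b3⟩ := hSDC R X hG hr j hj i hi hne.symm
  have hir : i ≠ X.2.1 := by
    intro h
    rw [h] at h2
    rw [b3] at h2
    exact Bool.false_ne_true h2
  have hjr : j ≠ X.2.1 := by
    intro h
    rw [h] at h1
    rw [a3] at h1
    exact Bool.false_ne_true h1
  obtain ⟨-, c2, -⟩ := hSDC R X hG hr i hi X.2.1 hr hir
  obtain ⟨-, d2, -⟩ := hSDC R X hG hr j hj X.2.1 hr hjr
  obtain ⟨x, hx, hxo⟩ := (hSID R X.1 hG).1 X.2.1 hr
  obtain ⟨y, hy, hyo⟩ := (hSID R X.1 hG).1 i hi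
  have hxi : ncap X i x := c2.mp a3 x hx hxo
  have hxj : ncap X j x := d2.mp b3 x hx hxo
  have hyj : capc X j y := b1.mp h2 y hy hyo
  obtain ⟨t, ht0, ht1, hin, hon⟩ := ASYM.cross hCVX R X j x y hx hy hxj hyj
  exact ASYM.disj X i _ (a1.mp h1 _ hin hon) (ASYM.stay X i x y t ht1 hxi hyo)

end Pool.Agent.Lib.MP29559a
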