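import Pool.Agent.Lib.MP_29559a_lc.OL.Base

/-!
# MP_29559a_lc: integers (in binary) in polynomial time
-/

set_option autoImplicit false

namespace Pool.Agent.Lib.MP29559a

open Pool.Agent.PolyTime

instance : Rep ℤ := ⟨fun z => toT ((Bin.mk z.toNat, Bin.mk (-z).toNat) : Bin × Bin)⟩

section
variable {α β γ : Type} [Rep α] [Rep β] [Rep γ]

theorem pt_pos {f : α → ℤ} (h : PT f) : BT (fun a => (f a).toNat) :=
  PT.fst (f := fun a => ((Bin.mk (f a).toNat, Bin.mk (-(f a)).toNat) : Bin × Bin)) h

theorem pt_neg {f : α → ℤ} (h : PT f) : BT (fun a => (-(f a)).toNat) :=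
  PT.snd (f := fun a => ((Bin.mk (f a).toNat, Bin.mk (-(f a)).toNat) : Bin × Bin)) h

theorem pt_of_sub {f : α → ℤ} {p k : α → ℕ} (hp : BT p) (hk : BT k)
    (h : ∀ a, f a = (p a : ℤ) - k a) : PT f := by
  have h1 : BT (fun a => (f a).toNat) := (BT.sub hp hk).congr fun a => by
    rw [h a]; omega
  have h2 : BT (fun a => (-(f a)).toNat) := (BT.sub hk hp).congr fun a => by
    rw [h a]; omega
  exact (PT.pair h1 h2 :
    PT (fun a => ((Bin.mk (f a).toNat, Bin.mk (-(f a)).toNat) : Bin × Bin)))

theorem toNat_sub (z : ℤ) : z = (z.toNat : ℤ) - ((-z).toNat : ℤ) := by omega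

@[fun_prop]
theorem pt_zneg {f : α → ℤ} (hf : PT f) : PT (fun a => -(f a)) :=
  pt_of_sub (pt_neg hf) (pt_pos hf) fun a => by omega

@[fun_prop]
theorem pt_zadd {f g : α → ℤ} (hf : PT f) (hg : PT g) : PT (fun a => f a + g a) :=
  pt_of_sub (BT.add (pt_pos hf) (pt_pos hg)) (BT.add (pt_neg hf) (pt_neg hg)) fun a => by
    push_cast; omega

@[fun_prop]
theorem pt_zsub {f g : α → ℤ} (hf : PT f) (hg : PT g) : PT (fun a => f a - g a) :=
  pt_of_sub (BT.add (pt_pos hf) (pt_neg hg)) (BT.add (pt_neg hf) (pt_pos hg)) fun a => by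
    push_cast; omega

@[fun_prop]
theorem pt_zmul {f g : α → ℤ} (hf : PT f) (hg : PT g) : PT (fun a => f a * g a) :=
  pt_of_sub (BT.add (BT.mul (pt_pos hf) (pt_pos hg)) (BT.mul (pt_neg hf) (pt_neg hg)))
    (BT.add (BT.mul (pt_pos hf) (pt_neg hg)) (BT.mul (pt_neg hf) (pt_pos hg))) fun a => by
    have h1 := toNat_sub (f a)
    have h2 := toNat_sub (g a)
    push_cast
    conv_lhs => rw [h1, h2]
    ring

@[fun_prop]
theorem pt_zlt {f g : α → ℤ} (hf : PT f) (hg : PT g) : PT (fun a => decide (f a < g a)) :=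
  (BT.lt (BT.add (pt_pos hf) (pt_neg hg)) (BT.add (pt_pos hg) (pt_neg hf))).congr fun a => by
    apply decide_eq_decide.2
    omega

@[fun_prop]
theorem pt_zle {f g : α → ℤ} (hf : PT f) (hg : PT g) : PT (fun a => decide (f a ≤ g a)) :=
  (BT.le (BT.add (pt_pos hf) (pt_neg hg)) (BT.add (pt_pos hg) (pt_neg hf))).congr fun a => by
    apply decide_eq_decide.2
    omega

@[fun_prop]
theorem pt_zeq {f g : α → ℤ} (hf : PT f) (hg : PT g) : PT (fun a => decide (f a = g a)) :=
  (BT.eq (BT.add (pt_pos hf) (pt_neg hg)) (BT.add (pt_pos hg) (pt_neg hf))).congr fun a => by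
    apply decide_eq_decide.2
    omega

@[fun_prop]
theorem pt_zv {f : α → ZB} (hf : PT f) : PT (fun a => zv (f a)) :=
  pt_of_sub (p := fun a => if (f a).1 = true then 0 else (f a).2.val)
    (k := fun a => if (f a).1 = true then (f a).2.val else 0)
    ((BT.ite hf.fst (BT.const 0) hf.snd.val).congr fun a => rfl)
    ((BT.ite hf.fst hf.snd.val (BT.const 0)).congr fun a => rfl) fun a => by
    unfold zv
    split_ifs <;> simp

theorem bt_sum {l : α → List Bin} (hl : PT l) : BT (fun a => ((l a).map Bin.val).sum) := by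
  have key : ∀ (l : List Bin) (s : Bin),
      l.foldl (fun (acc b : Bin) => Bin.mk (acc.val + b.val)) s =
        Bin.mk (s.val + (l.map Bin.val).sum) := by
    intro l
    induction l with
    | nil => intro s; simp
    | cons b l ih =>
      intro s
      rw [List.foldl_cons, ih]
      simp only [List.map_cons, List.sum_cons]
      congr 1
      omega
  have hsz : ∀ l : List Bin, ((l.map Bin.val).sum).size ≤ sz l := by
    intro l
    induction l with
    | nil => simp
    | cons b l ih =>
      simp only [List.map_cons, List.sum_cons, sz_cons]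
      have h1 := size_add_le b.val (l.map Bin.val).sum
      have h2 := size_le_sz b
      omega
  have h := PT.foldl (g := fun (_ : α) (acc b : Bin) => Bin.mk (acc.val + b.val)) hl
    (PT.const (Bin.mk 0)) (B := fun a => 4 * sz (l a) + 1) ?_ ?_ ?_
  · refine PT.congr h fun a => ?_
    rw [key]
    simp
  · exact BT.add (PT.val (f := fun p : α × (Bin × Bin) => p.2.1) PT.id.snd.fst)
      (PT.val (f := fun p : α × (Bin × Bin) => p.2.2) PT.id.snd.snd)
  · exact ((Bdd.const 4).mul hl.bdd).add (Bdd.const 1)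
  · intro a l' hl'
    rw [key]
    have h1 := sz_bin_le (Bin.mk (0 + (l'.map Bin.val).sum))
    have h2 := hsz l'
    have h3 := sz_sublist hl'.sublist
    simp only [zero_add] at h1 ⊢
    omega

theorem pt_zsum {l : α → List β} {g : α → β → ℤ} (hl : PT l)
    (hg : PT (fun p : α × β => g p.1 p.2)) : PT (fun a => ((l a).map (g a)).sum) := by
  have h1 : BT (fun a => (((l a).map fun b => Bin.mk (g a b).toNat).map Bin.val).sum) :=
    bt_sum (PT.map (g := fun a b => Bin.mk (g a b).toNat) hl (pt_pos hg))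
  have h2 : BT (fun a => (((l a).map fun b => Bin.mk (-(g a b)).toNat).map Bin.val).sum) :=
    bt_sum (PT.map (g := fun a b => Bin.mk (-(g a b)).toNat) hl (pt_neg hg))
  refine pt_of_sub h1 h2 fun a => ?_
  induction l a with
  | nil => simp
  | cons b l ih =>
    simp only [List.map_cons, List.sum_cons] at ih ⊢
    rw [ih]
    push_cast
    omega

@[fun_prop]
theorem pt_zite {c : α → Bool} {f g : α → ℤ} (hc : PT c) (hf : PT f) (hg : PT g) :
    PT (fun a => if c a = true then f a else g a) :=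
  (PT.ite hc hf hg).congr fun a => by cases c a <;> rfl

end

instance : InjRep ℤ := ⟨fun a b h => by
  have h1 : ((Bin.mk a.toNat, Bin.mk (-a).toNat) : Bin × Bin) = (Bin.mk b.toNat, Bin.mk (-b).toNat) :=
    InjRep.inj h
  simp only [Prod.mk.injEq, Bin.mk.injEq] at h1
  omega⟩

end Pool.Agent.Lib.MP29559a
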