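import Pool.Agent.Lib.MP_29559a_lc.OL.Spec

/-!
# Module BFS: the breadth first search finds the valid histories.
-/

set_option autoImplicit false

namespace Pool.Agent.Lib.MP29559a

open Pool.Agent.PolyTime

namespace BFSM

theorem key (hVCL : SpecVCL) (hCNT : SpecCNT) (hNUB : SpecNUB) (R : Rct) (X : Ctx)
    (hG : Geo R X.1) (hr : X.2.1 < X.1.length) (k : ℕ) :
    ((nxt R X)^[k] [S0 X]).Nodup ∧
      ∀ S, S ∈ (nxt R X)^[k] [S0 X] ↔ ∃ o, VH R X o ∧ o.length = k ∧ S = stOf X o := by
  induction k with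
  | zero =>
    refine ⟨by simp, ?_⟩
    intro S
    constructor
    · intro h
      have : S = S0 X := by simpa using h
      exact ⟨[], trivial, rfl, this⟩
    · rintro ⟨o, -, ho, hS⟩
      have h0 : o = [] := List.length_eq_zero_iff.mp ho
      subst h0
      have : S = S0 X := hS
      simp [this]
  | succ k ih =>
    obtain ⟨_, ihm⟩ := ih
    rw [Function.iterate_succ_apply']
    obtain ⟨L, hL⟩ : ∃ L, L = (nxt R X)^[k] [S0 X] := ⟨_, rfl⟩
    rw [← hL] at ihm ⊢
    obtain ⟨n1, n2⟩ := hNUB State (L.flatMap (succs R X))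
    have mem : ∀ S, S ∈ nub (L.flatMap (succs R X)) ↔
        ∃ o, VH R X o ∧ o.length = k + 1 ∧ S = stOf X o := by
      intro S
      rw [n2, List.mem_flatMap]
      constructor
      · rintro ⟨T, hT, hS⟩
        obtain ⟨o, ho, hk, rfl⟩ := (ihm T).1 hT
        unfold succs at hS
        rw [List.mem_map] at hS
        obtain ⟨c, hc, rfl⟩ := hS
        rw [List.mem_filter, List.mem_range] at hc
        exact ⟨c :: o, ⟨ho, hc.1, hc.2⟩, by simp [hk], rfl⟩
      · rintro ⟨o, ho, hk, rfl⟩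
        cases o with
        | nil => simp at hk
        | cons c o =>
          obtain ⟨h1, h2, h3⟩ := ho
          refine ⟨stOf X o, (ihm _).2 ⟨o, h1, by simpa using hk, rfl⟩, ?_⟩
          unfold succs
          rw [List.mem_map]
          exact ⟨c, List.mem_filter.mpr ⟨List.mem_range.mpr h2, h3⟩, rfl⟩
    have len : (nub (L.flatMap (succs R X))).length ≤ (X.1.length + 1) ^ 20 := by
      apply hCNT R X hG hr _ n1
      intro S hS
      obtain ⟨o, ho, -, hS'⟩ := (mem S).1 hS
      exact ⟨o, hVCL R X o ho, hS'⟩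
    have e : nxt R X L = nub (L.flatMap (succs R X)) := by
      unfold nxt
      exact List.take_of_length_le len
    rw [e]
    exact ⟨n1, mem⟩

end BFSM

theorem specBFS (hVCL : SpecVCL) (hCNT : SpecCNT) (hNUB : SpecNUB) : SpecBFS := by
  intro R X hG hr
  obtain ⟨-, h⟩ := BFSM.key hVCL hCNT hNUB R X hG hr X.1.length
  unfold srch
  rw [Bool.not_eq_true', List.isEmpty_eq_false_iff_exists_mem]
  constructor
  · rintro ⟨S, hS⟩
    obtain ⟨o, h1, h2, -⟩ := (h S).1 hS
    exact ⟨o, h1, h2⟩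
  · rintro ⟨o, h1, h2⟩
    exact ⟨stOf X o, (h _).2 ⟨o, h1, h2, rfl⟩⟩

end Pool.Agent.Lib.MP29559a
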