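import Mathlib
import Pool.Agent.Lib.PolyTime.Raw
import Pool.Agent.Lib.PolyTime.Binary
import Pool.Agent.Lib.MP_7fc3ed_lc.PTX

/-!
# MP_29559a_lc: one-layer simple folds of a rectangle with orthogonal creases.  Definitions

The coordinates are chosen such that the creases are parallel to the axes; the rectangle of paper is
in arbitrary position.
-/

set_option autoImplicit false

namespace Pool.Agent.Lib.MP29559a

open Pool.Agent.PolyTime

/-! ## Instances -/

/-- an integer: sign and absolute value in binary -/
abbrev ZB : Type := Bool × Bin

/-- the integer coded by `z` -/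
def zv (z : ZB) : ℤ := if z.1 then -(z.2.val : ℤ) else (z.2.val : ℤ)

/-- a crease: is it vertical?, the coordinate of its line, its lower end, its upper end, is it a
valley? -/
abbrev Crs : Type := Bool × ZB × ZB × ZB × Bool

def vt (c : Crs) : Bool := c.1
def at' (c : Crs) : ℤ := zv c.2.1
def lo (c : Crs) : ℤ := zv c.2.2.1
def hi (c : Crs) : ℤ := zv c.2.2.2.1
def vl (c : Crs) : Bool := c.2.2.2.2

/-- `a, b, α, β, γ, δ`: the paper is the rectangle `α ≤ a x + b y ≤ β`, `γ ≤ a y - b x ≤ δ` -/
abbrev Rct : Type := ZB × ZB × ZB × ZB × ZB × ZB

def rA (R : Rct) : ℤ := zv R.1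
def rB (R : Rct) : ℤ := zv R.2.1
def r1 (R : Rct) : ℤ := zv R.2.2.1
def r2 (R : Rct) : ℤ := zv R.2.2.2.1
def r3 (R : Rct) : ℤ := zv R.2.2.2.2.1
def r4 (R : Rct) : ℤ := zv R.2.2.2.2.2

/-- an instance: the paper and the crease pattern -/
abbrev Inp : Type := Rct × List Crs

abbrev Pt : Type := ℝ × ℝ

/-- interior points of the paper -/
def inn (R : Rct) (p : Pt) : Prop :=
  (r1 R : ℝ) < rA R * p.1 + rB R * p.2 ∧ rA R * p.1 + rB R * p.2 < r2 R ∧
    (r3 R : ℝ) < rA R * p.2 - rB R * p.1 ∧ rA R * p.2 - rB R * p.1 < r4 R

/-- points of the paper -/
def clo (R : Rct) (p : Pt) : Prop :=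
  (r1 R : ℝ) ≤ rA R * p.1 + rB R * p.2 ∧ rA R * p.1 + rB R * p.2 ≤ r2 R ∧
    (r3 R : ℝ) ≤ rA R * p.2 - rB R * p.1 ∧ rA R * p.2 - rB R * p.1 ≤ r4 R

/-- the coordinate `x` for `v = true`, `y` for `v = false` -/
def lc (v : Bool) (p : Pt) : ℝ := if v then p.1 else p.2

/-- the crease segment -/
def seg (c : Crs) (p : Pt) : Prop :=
  lc (vt c) p = at' c ∧ (lo c : ℝ) ≤ lc (!vt c) p ∧ lc (!vt c) p ≤ hi c

/-- The paper is a rectangle, the creases are nondegenerate segments in the paper, not contained in
its boundary, and two creases of the same kind on the same line are disjoint (they are maximal). -/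
structure Valid (I : Inp) : Prop where
  dir : ¬ (rA I.1 = 0 ∧ rB I.1 = 0)
  wid : r1 I.1 < r2 I.1
  hei : r3 I.1 < r4 I.1
  crs : ∀ c ∈ I.2, lo c < hi c ∧ (∀ p, seg c p → clo I.1 p) ∧ ∃ p, seg c p ∧ inn I.1 p
  dis : I.2.Pairwise fun c c' => vt c = vt c' → at' c = at' c' → vl c = vl c' →
    hi c < lo c' ∨ hi c' < lo c

/-! ## One-layer simple folds -/

/-- A fold: the part `u · p > s` of the paper is rotated by `180°` about the crease `u · p = s`,
upwards (`d = true`) or downwards. -/
structure Fold where
  u : Pt
  s : ℝ
  d : Bool

namespace Fold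

noncomputable def lin (F : Fold) (p : Pt) : ℝ := F.u.1 * p.1 + F.u.2 * p.2

/-- the part of the paper which is rotated -/
def cap (F : Fold) (p : Pt) : Prop := F.s < F.lin p

/-- the line of the crease -/
def on (F : Fold) (p : Pt) : Prop := F.lin p = F.s

/-- the reflection of the plane of the paper in the line of the crease -/
noncomputable def refl (F : Fold) (p : Pt) : Pt :=
  p - (2 * (F.lin p - F.s) / (F.u.1 ^ 2 + F.u.2 ^ 2)) • F.u

end Fold

open Classical in
/-- The isometry of the plane by which the layer of the point `p` of the paper has been moved by the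
folds in the list `H` (newest first). -/
noncomputable def iso : List Fold → Pt → Pt → Pt
  | [], _ => id
  | F :: H, p => if F.cap p then fun z => iso H p (F.refl z) else iso H p

open Classical in
/-- The height of the layer of the point `p` in the folded state: a rotated layer is placed above
(below) everything else. -/
noncomputable def hgt : List Fold → Pt → ℤ
  | [], _ => 0
  | F :: H, p => if F.cap p then (if F.d then (H.length + 1 : ℤ) else -(H.length + 1 : ℤ)) else hgt H p

open Classical in
/-- Is the upper side of the paper up at `p` in the folded state? -/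
noncomputable def face : List Fold → Pt → Bool
  | [], _ => true
  | F :: H, p => if F.cap p then !(face H p) else face H p

/-- The folds in the list `H` (newest first) are one-layer simple folds of the paper `R`:
the new crease divides the paper, no earlier crease meets the new crease or the rotated part (which
is therefore a part of one layer), and if the rotated part is rotated upwards (downwards) then no
other layer is above (below) it. -/
def ok (R : Rct) : List Fold → Prop
  | [] => True
  | F :: H => ok R H ∧ F.u ≠ 0 ∧ (∃ p, inn R p ∧ F.cap p) ∧ (∃ p, inn R p ∧ F.lin p < F.s) ∧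
      (∀ G ∈ H, ∀ p, inn R p → G.on p → F.lin p < F.s) ∧
      ∀ p q, inn R p → F.cap p → inn R q → F.lin q < F.s → (∀ G ∈ H, ¬ G.on q) →
        iso H p p = iso H q q → if F.d then hgt H q < hgt H p else hgt H p < hgt H q

/-- The valley creases made by the folds in `H`: the rotated layer has its upper side up and is
rotated upwards, or its upper side down and is rotated downwards. -/
def vall (R : Rct) : List Fold → Pt → Prop
  | [], _ => False
  | F :: H, p => vall R H p ∨ (inn R p ∧ F.on p ∧ ∃ q, inn R q ∧ F.cap q ∧ face H q = F.d)

/-- the mountain creases -/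
def mntn (R : Rct) : List Fold → Pt → Prop
  | [], _ => False
  | F :: H, p => mntn R H p ∨ (inn R p ∧ F.on p ∧ ∃ q, inn R q ∧ F.cap q ∧ face H q ≠ F.d)

/-- the creases of the pattern of kind `b` (valley or mountain) in the interior of the paper -/
def VS (I : Inp) (b : Bool) (p : Pt) : Prop := inn I.1 p ∧ ∃ c ∈ I.2, vl c = b ∧ seg c p

/-- The pattern is simply foldable in the one-layer model: some sequence of one-layer simple folds
folds the paper along exactly the given creases, in the assigned directions. -/
def Foldable (I : Inp) : Prop :=
  ∃ H : List Fold, ok I.1 H ∧ (∀ p, vall I.1 H p ↔ VS I true p) ∧ ∀ p, mntn I.1 H p ↔ VS I false p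

/-! ## The algorithm: the creases -/

def dC : Crs := (false, (false, ⟨0⟩), (false, ⟨0⟩), (false, ⟨0⟩), false)

/-- the crease with index `i` -/
def cr (cs : List Crs) (i : ℕ) : Crs := cs[i]?.getD dC

/-- a point of the line of the crease -/
def innZ (R : Rct) (x y : ℤ) : Bool :=
  decide (r1 R < rA R * x + rB R * y) && decide (rA R * x + rB R * y < r2 R) &&
    (decide (r3 R < rA R * y - rB R * x) && decide (rA R * y - rB R * x < r4 R))

/-- both ends are on the boundary -/
def fullB (R : Rct) (c : Crs) : Bool :=
  if vt c then !(innZ R (at' c) (lo c)) && !(innZ R (at' c) (hi c))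
  else !(innZ R (lo c) (at' c)) && !(innZ R (hi c) (at' c))

/-- the crease `j` is strictly on the lower side of the line of the crease `i` -/
def loS (cs : List Crs) (i j : ℕ) : Bool :=
  if vt (cr cs i) = vt (cr cs j) then decide (at' (cr cs j) < at' (cr cs i))
  else decide (hi (cr cs j) ≤ at' (cr cs i))

/-- the crease `j` is strictly on the upper side of the line of the crease `i` -/
def upS (cs : List Crs) (i j : ℕ) : Bool :=
  if vt (cr cs i) = vt (cr cs j) then decide (at' (cr cs i) < at' (cr cs j))
  else decide (at' (cr cs i) ≤ lo (cr cs j))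

def sepB (cs : List Crs) : Bool :=
  (List.range cs.length).all fun i => (List.range cs.length).all fun j =>
    decide (i = j) || (loS cs i j || upS cs i j)

/-- The context of the search: the creases, the index `r` of the first crease to be folded, and
whether its upper side is rotated. -/
abbrev Ctx : Type := List Crs × ℕ × Bool

/-- is the rotated part for the crease `i` the upper side?  For `i ≠ r` it is the side of `i` which
does not contain `r`. -/
def capU (X : Ctx) (i : ℕ) : Bool := if i = X.2.1 then X.2.2 else loS X.1 i X.2.1

/-- the crease `j` is in the cap of the crease `i` -/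
def anc (X : Ctx) (i j : ℕ) : Bool :=
  decide (i ≠ j) && (if capU X i then upS X.1 i j else loS X.1 i j)

/-- the crease `i` has to be folded before `j` -/
def bef (X : Ctx) (i j : ℕ) : Bool := anc X i j || (decide (i = X.2.1) && decide (j ≠ X.2.1))

/-- the innermost cap that contains the crease `j` -/
def par (X : Ctx) (j : ℕ) : Option ℕ :=
  (List.range X.1.length).find? fun i => anc X i j &&
    (List.range X.1.length).all fun k => !(anc X i k && anc X k j)

/-- `i` is `e` or its cap contains `e` -/
def aoe (X : Ctx) (i : ℕ) (e : Option ℕ) : Bool := e.isSome && (decide (e = some i) || anc X i (e.getD 0))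

/-- the number of caps of kind `v` which contain the crease `i` -/
def na (X : Ctx) (v : Bool) (i : ℕ) : ℕ :=
  ((List.range X.1.length).filter fun k => anc X k i && decide (vt (cr X.1 k) = v)).length

/-- the same for the cell `e` -/
def naO (X : Ctx) (v : Bool) (e : Option ℕ) : ℕ :=
  ((List.range X.1.length).filter fun k => aoe X k e && decide (vt (cr X.1 k) = v)).length

/-- `(-1)^n` -/
def sg (n : ℕ) : ℤ := if n % 2 = 0 then 1 else -1

/-- the translation part of the isometry of the cell `e` -/
def bbO (X : Ctx) (v : Bool) (e : Option ℕ) : ℤ :=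
  (((List.range X.1.length).filter fun k => aoe X k e && decide (vt (cr X.1 k) = v)).map
    fun k => sg (na X v k) * (2 * at' (cr X.1 k))).sum

/-- the side of the paper which is up in the cell `e` -/
def faceO (X : Ctx) (e : Option ℕ) : Bool := decide ((naO X true e + naO X false e) % 2 = 0)

/-- the direction of the fold at the crease `i` -/
def dirS (X : Ctx) (i : ℕ) : Bool := decide (vl (cr X.1 i) = faceO X (par X i))

/-- the direction in which the cell `e` has been placed -/
def dirO (X : Ctx) (e : Option ℕ) : Bool := if e.isSome then dirS X (e.getD 0) else true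

/-! ## Linear inequalities in the plane -/

/-- `(A, B, C)`: the inequality `A x + B y < C` -/
abbrev Cn : Type := ℤ × ℤ × ℤ

def sat (k : Cn) (x y : ℝ) : Prop := (k.1 : ℝ) * x + (k.2.1 : ℝ) * y < k.2.2

/-- elimination of `y` -/
def elim (L : List Cn) : List (ℤ × ℤ) :=
  ((L.filter fun k => decide (k.2.1 = 0)).map fun k => (k.1, k.2.2)) ++
    (L.filter fun k => decide (0 < k.2.1)).flatMap fun p =>
      (L.filter fun k => decide (k.2.1 < 0)).map fun m =>
        (-(m.2.1 * p.1) + p.2.1 * m.1, -(m.2.1 * p.2.2) + p.2.1 * m.2.2)

/-- solvability in one variable -/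
def feas1 (L : List (ℤ × ℤ)) : Bool :=
  (L.all fun k => !(decide (k.1 = 0)) || decide (0 < k.2)) &&
    L.all fun p => L.all fun m => !(decide (0 < p.1) && decide (m.1 < 0)) ||
      decide (0 < -(m.1 * p.2) + p.1 * m.2)

def feasB (L : List Cn) : Bool := feas1 (elim L)

/-- the inequality `k` for the preimage of `(x, y)` under the isometry with the signs `sg nx`,
`sg ny` and the translations `bx`, `by'` -/
def tr (nx : ℕ) (bx : ℤ) (ny : ℕ) (by' : ℤ) (k : Cn) : Cn :=
  (k.1 * sg nx, k.2.1 * sg ny, k.2.2 + k.1 * sg nx * bx + k.2.1 * sg ny * by')

def rectC (R : Rct) : List Cn :=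
  [(rA R, rB R, r2 R), (-(rA R), -(rB R), -(r1 R)), (-(rB R), rA R, r4 R), (rB R, -(rA R), -(r3 R))]

/-- strictly above (below) the line of a crease -/
def sideC (c : Crs) (upper : Bool) : Cn :=
  let e : ℤ := if upper then -1 else 1
  if vt c then (e, 0, e * at' c) else (0, e, e * at' c)

/-! ## The search -/

/-- the entry of a bit vector -/
def gm (m : List Bool) (i : ℕ) : Bool := m[i]?.getD false

/-- the descendants of the cell `e` among the folded creases `m` -/
def dsc (X : Ctx) (m : List Bool) (e : Option ℕ) : List ℕ :=
  (List.range X.1.length).filter fun g => gm m g && (decide (e = none) || anc X (e.getD 0) g)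

/-- the inequalities for the common points of the cap of the crease `c` and the cell `e` in the folded
state -/
def cons (R : Rct) (X : Ctx) (m : List Bool) (c : ℕ) (e : Option ℕ) : List Cn :=
  ((rectC R ++ [sideC (cr X.1 c) (capU X c)]).map
    (tr (naO X true (par X c)) (bbO X true (par X c)) (naO X false (par X c)) (bbO X false (par X c)))) ++
  ((rectC R ++ ((if e.isSome then [sideC (cr X.1 (e.getD 0)) (capU X (e.getD 0))] else []) ++
      (dsc X m e).map fun g => sideC (cr X.1 g) (!(capU X g)))).map
    (tr (naO X true e) (bbO X true e) (naO X false e) (bbO X false e)))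

/-- Is the cell `e` above the cell which contains the crease `c`?  `J` is the set of the creases
which were folded when the parent of `c` was folded. -/
def above (X : Ctx) (J : List Bool) (c : ℕ) (e : Option ℕ) : Bool :=
  if e.isSome then (if gm J (e.getD 0) then !(dirO X (par X c)) else dirS X (e.getD 0))
  else !(dirO X (par X c))

/-- the fold of `c` is blocked -/
def blkB (R : Rct) (X : Ctx) (m J : List Bool) (c : ℕ) : Bool :=
  (none :: ((List.range X.1.length).filter (gm m)).map some).any fun e =>
    !(decide (e = par X c)) && (decide (dirS X c = above X J c e) && feasB (cons R X m c e))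

/-- the crease `c` may be folded next, as far as the order is concerned -/
def avB (X : Ctx) (m : List Bool) (c : ℕ) : Bool :=
  !(gm m c) && (List.range X.1.length).all fun i => !(bef X i c) || gm m i

/-- A state: the set of the folded creases, and for every crease `c` which is not folded and
whose parent is folded the set of the creases which were folded up to the fold of the parent. -/
abbrev State : Type := List Bool × List (List Bool)

def gJ (S : State) (c : ℕ) : List Bool := S.2[c]?.getD []

def stepB (R : Rct) (X : Ctx) (S : State) (c : ℕ) : Bool :=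
  avB X S.1 c && !(blkB R X S.1 (gJ S c) c)

def addm (X : Ctx) (m : List Bool) (c : ℕ) : List Bool :=
  (List.range X.1.length).map fun i => decide (i = c) || gm m i

def upd (X : Ctx) (S : State) (c : ℕ) : State :=
  (addm X S.1 c, (List.range X.1.length).map fun k =>
    if par X k = some c then addm X S.1 c else if k = c then [] else gJ S k)

def S0 (X : Ctx) : State :=
  ((List.range X.1.length).map fun _ => false, (List.range X.1.length).map fun _ => [])

def succs (R : Rct) (X : Ctx) (S : State) : List State :=
  ((List.range X.1.length).filter fun c => stepB R X S c).map fun c => upd X S c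

/-- one round of the breadth first search -/
def nxt (R : Rct) (X : Ctx) (L : List State) : List State :=
  (nub (L.flatMap (succs R X))).take ((X.1.length + 1) ^ 20)

def srch (R : Rct) (X : Ctx) : Bool := !((nxt R X)^[X.1.length] [S0 X]).isEmpty

/-- the algorithm -/
def decB (I : Inp) : Bool :=
  I.2.all (fullB I.1) && (sepB I.2 && (decide (I.2.length = 0) ||
    (List.range I.2.length).any fun r => srch I.1 (I.2, r, true) || srch I.1 (I.2, r, false)))

end Pool.Agent.Lib.MP29559a
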