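import Pool.Agent.Lib.MP_29559a_lc.OL.Spec

/-!
# CEL: the cells
-/

set_option autoImplicit false

namespace Pool.Agent.Lib.MP29559a

open Pool.Agent.PolyTime

namespace CELM

theorem cl_lt {X : Ctx} : ∀ {o : List ℕ}, Cl X o → ∀ i ∈ o, i < X.1.length
  | [], _, i, hi => absurd hi (by simp)
  | c :: o, h, i, hi => by
    rcases List.mem_cons.1 hi with rfl | hi
    · exact h.2.1
    · exact cl_lt h.1 i hi

theorem cl_bef {X : Ctx} : ∀ {o : List ℕ}, Cl X o → ∀ i ∈ o, ∀ j < X.1.length,
    bef X j i = true → j ∈ o
  | [], _, i, hi, _, _, _ => absurd hi (by simp)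
  | c :: o, h, i, hi, j, hj, hb => by
    rcases List.mem_cons.1 hi with rfl | hi
    · exact List.mem_cons_of_mem _ (h.2.2.2 j hj hb)
    · exact List.mem_cons_of_mem _ (cl_bef h.1 i hi j hj hb)

theorem anc_ne {X : Ctx} {i j : ℕ} (h : anc X i j = true) : i ≠ j := by
  intro hij
  subst hij
  simp [anc] at h

theorem bef_of_anc {X : Ctx} {i j : ℕ} (h : anc X i j = true) : bef X i j = true := by
  simp [bef, h]

end CELM

open CELM in
theorem specCEL (hSDC : SpecSDC) (hASY : SpecASY) (hNST : SpecNST) (hTRN : SpecTRN)
    (hPRT : SpecPRT) : SpecCEL := by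
  intro R X hG hr o ho
  have hlt := cl_lt ho
  have hbf := cl_bef ho
  refine ⟨?_, ?_, ?_⟩
  · -- every point is in a cell
    clear hlt hbf
    intro q hq
    induction o with
    | nil =>
      refine ⟨none, hq, fun i hi => absurd hi (by simp), fun g hg => absurd hg (by simp)⟩
    | cons c o ih =>
      by_cases hc : capc X c q
      · refine ⟨some c, hq, ?_, ?_⟩
        · intro i hi
          have h1 : c = i := Option.some.inj hi
          subst h1
          exact ⟨List.mem_cons_self, hc⟩
        · rintro g hg (h | ⟨i, h, hig⟩)
          · exact absurd h (by simp)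
          · have h1 : c = i := Option.some.inj h
            subst h1
            rcases List.mem_cons.1 hg with rfl | hg
            · exact absurd rfl (anc_ne hig)
            · exact absurd (cl_bef ho.1 g hg c ho.2.1 (bef_of_anc hig)) ho.2.2.1
      · obtain ⟨e, h1, h2, h3⟩ := ih ho.1
        refine ⟨e, h1, fun i hi => ⟨List.mem_cons_of_mem _ (h2 i hi).1, (h2 i hi).2⟩, ?_⟩
        intro g hg h
        rcases List.mem_cons.1 hg with rfl | hg
        · exact hc
        · exact h3 g hg h
  · -- uniqueness
    intro q e e' he he'
    have key : ∀ i j, inC R X o (some i) q → inC R X o (some j) q → i = j := by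
      intro i j hi hj
      by_contra hij
      obtain ⟨hi1, hi2⟩ := hi.2.1 i rfl
      obtain ⟨hj1, hj2⟩ := hj.2.1 j rfl
      rcases Bool.eq_false_or_eq_true (anc X i j) with h | h
      · exact hi.2.2 j hj1 (Or.inr ⟨i, rfl, h⟩) hj2
      · have h1 := (hNST R X hG hr i (hlt i hi1) j (hlt j hj1) hij q hi.1 (Or.inl hj2)).2 h hi2
        exact hj.2.2 i hi1 (Or.inr ⟨j, rfl, h1⟩) hi2
    cases e with
    | none =>
      cases e' with
      | none => rfl
      | some j =>
        obtain ⟨hj1, hj2⟩ := he'.2.1 j rfl
        exact absurd hj2 (he.2.2 j hj1 (Or.inl rfl))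
    | some i =>
      cases e' with
      | none =>
        obtain ⟨hi1, hi2⟩ := he.2.1 i rfl
        exact absurd hi2 (he'.2.2 i hi1 (Or.inl rfl))
      | some j => rw [key i j he he']
  · intro c hc hco hcb
    refine ⟨?_, ?_⟩
    · intro q hq hcq
      obtain ⟨hP1, hP2⟩ := hPRT R X hG hr c hc
      refine ⟨hq, ?_, ?_⟩
      · intro i hi
        obtain ⟨h1, h2⟩ := hP1 i hi
        exact ⟨hcb i h1 (bef_of_anc h2), (hNST R X hG hr i h1 c hc (anc_ne h2) q hq hcq).1 h2⟩
      · intro g hg h hgq
        have hgc : g ≠ c := fun h1 => hco (h1 ▸ hg)
        have hgl := hlt g hg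
        have h1 : anc X g c = true := by
          by_contra h2
          have h3 : anc X g c = false := by simpa using h2
          have h4 := (hNST R X hG hr g hgl c hc hgc q hq hcq).2 h3 hgq
          exact hco (hbf g hg c hc (bef_of_anc h4))
        rw [← hP2 g hgl] at h1
        rcases h with h | ⟨i, h, hig⟩
        · rw [h] at h1
          simp [aoe] at h1
        · rw [h] at h1
          simp only [aoe, Option.isSome_some, Option.getD_some, Bool.true_and, Bool.or_eq_true,
            decide_eq_true_eq] at h1
          rcases h1 with h1 | h1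
          · have h5 : i = g := Option.some.inj h1
            exact anc_ne hig h5
          · exact hASY R X hG hr g hgl i (hP1 i h).1 ⟨h1, hig⟩
    · intro q e
      constructor
      · rintro ⟨h1, h2, h3⟩
        by_cases hcq : capc X c q
        · left
          refine ⟨hcq, ?_, h1⟩
          cases e with
          | none => exact absurd hcq (h3 c List.mem_cons_self (Or.inl rfl))
          | some i =>
            obtain ⟨hi1, hi2⟩ := h2 i rfl
            by_contra hne
            have hic : i ≠ c := fun h => hne (by rw [h])
            have hio : i ∈ o := by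
              rcases List.mem_cons.1 hi1 with h | h
              · exact absurd h hic
              · exact h
            have h4 : anc X i c = false := by
              by_contra h5
              have h6 : anc X i c = true := by simpa using h5
              exact h3 c List.mem_cons_self (Or.inr ⟨i, rfl, h6⟩) hcq
            have h7 := (hNST R X hG hr i (hlt i hio) c hc hic q h1 (Or.inl hcq)).2 h4 hi2
            exact hco (hbf i hio c hc (bef_of_anc h7))
        · right
          refine ⟨hcq, h1, ?_, fun g hg h => h3 g (List.mem_cons_of_mem _ hg) h⟩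
          intro i hi
          obtain ⟨hi1, hi2⟩ := h2 i hi
          refine ⟨?_, hi2⟩
          rcases List.mem_cons.1 hi1 with h | h
          · subst h
            exact absurd hi2 hcq
          · exact h
      · rintro (⟨hcq, rfl, h1⟩ | ⟨hcq, h1, h2, h3⟩)
        · refine ⟨h1, ?_, ?_⟩
          · intro i hi
            have h4 : c = i := Option.some.inj hi
            subst h4
            exact ⟨List.mem_cons_self, hcq⟩
          · rintro g hg (h | ⟨i, h, hig⟩)
            · exact absurd h (by simp)
            · have h4 : c = i := Option.some.inj h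
              subst h4
              rcases List.mem_cons.1 hg with rfl | hg
              · exact absurd rfl (anc_ne hig)
              · exact absurd (hbf g hg c hc (bef_of_anc hig)) hco
        · refine ⟨h1, fun i hi => ⟨List.mem_cons_of_mem _ (h2 i hi).1, (h2 i hi).2⟩, ?_⟩
          intro g hg h
          rcases List.mem_cons.1 hg with rfl | hg
          · exact hcq
          · exact h3 g hg h

end Pool.Agent.Lib.MP29559a
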