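import Pool.Agent.Lib.MP_29559a_lc.OL.Spec

/-!
# CNT (helper37): the number of states
-/

set_option autoImplicit false

namespace Pool.Agent.Lib.MP29559a

open Pool.Agent.PolyTime

namespace CNTM

lemma cl_bef {X : Ctx} : ∀ {o : List ℕ}, Cl X o → ∀ j ∈ o, ∀ i < X.1.length,
    bef X i j = true → i ∈ o
  | [], _, j, hj, _, _, _ => by simp at hj
  | c :: o, h, j, hj, i, hi, hb => by
    obtain ⟨h1, h2, h3, h4⟩ := h
    rcases List.mem_cons.1 hj with rfl | hj
    · exact List.mem_cons_of_mem _ (h4 i hi hb)
    · exact List.mem_cons_of_mem _ (cl_bef h1 j hj i hi hb)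

lemma cl_drop {X : Ctx} (f : ℕ → Bool) : ∀ {o : List ℕ}, Cl X o → Cl X (o.dropWhile f)
  | [], h => by simpa using h
  | c :: o, h => by
    rw [List.dropWhile_cons]
    split
    · exact cl_drop f h.1
    · exact h

lemma ct_lt (X : Ctx) (m : List Bool) (t : Bool × Bool) : ct X m t < X.1.length + 1 := by
  unfold ct
  have := List.length_filter_le (fun i => gm m i && decide (ty X i = t))
    (List.range X.1.length)
  rw [List.length_range] at this
  omega

lemma ext_gm {n : ℕ} {m m' : List Bool} (h : m.length = n) (h' : m'.length = n)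
    (he : ∀ i < n, gm m i = gm m' i) : m = m' := by
  apply List.ext_getElem (h.trans h'.symm)
  intro i h1 h2
  have := he i (h ▸ h1)
  simpa [gm, List.getElem?_eq_getElem h1, List.getElem?_eq_getElem h2] using this

lemma ext_gJ {n : ℕ} {S S' : State} (h : S.2.length = n) (h' : S'.2.length = n)
    (he : ∀ i < n, gJ S i = gJ S' i) : S.2 = S'.2 := by
  apply List.ext_getElem (h.trans h'.symm)
  intro i h1 h2
  have := he i (h ▸ h1)
  simpa [gJ, List.getElem?_eq_getElem h1, List.getElem?_eq_getElem h2] using this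

open Classical in
/-- the numbers of the set `J` of the crease of type `t` -/
noncomputable def val (X : Ctx) (S : State) (t t' : Bool × Bool) : ℕ :=
  if h : ∃ c, c < X.1.length ∧ ty X c = t ∧ gJ S c ≠ [] then ct X (gJ S h.choose) t' else 0

lemma val_lt (X : Ctx) (S : State) (t t' : Bool × Bool) : val X S t t' < X.1.length + 1 := by
  unfold val
  split_ifs with h
  · exact ct_lt _ _ _
  · omega

/-- the code of a state -/
noncomputable def code (X : Ctx) (S : State) :
    (Bool × Bool → Fin (X.1.length + 1)) × (Bool × Bool → Bool × Bool → Fin (X.1.length + 1)) :=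
  (fun t => ⟨ct X S.1 t, ct_lt _ _ _⟩, fun t t' => ⟨val X S t t', val_lt _ _ _ _⟩)

end CNTM

open CNTM in
theorem specCNT (_hASY : SpecASY) (hTRN : SpecTRN) (hPRT : SpecPRT) (hSTM : SpecSTM)
    (hSTJ : SpecSTJ) (hMSK : SpecMSK) : SpecCNT := by
  intro R X hG hr L hL hS
  have hinact : ∀ o, Cl X o → ∀ c < X.1.length, gJ (stOf X o) c ≠ [] →
      c ∉ o ∧ ∃ p, par X c = some p ∧ p ∈ o := by
    intro o ho c hc hne
    have h2 := (hSTJ R X hG hr o ho c hc).2
    by_contra hcon
    apply hne
    apply h2
    by_cases h : c ∈ o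
    · exact Or.inl h
    · right
      intro p hp hpo
      exact hcon ⟨h, p, hp, hpo⟩
  have hnocmp : ∀ o, Cl X o → ∀ c < X.1.length, ∀ c' < X.1.length, c ∉ o →
      (∃ p, par X c' = some p ∧ p ∈ o) → anc X c c' = true → False := by
    intro o ho c hc c' hc' hco hp hanc
    obtain ⟨p, hp, hpo⟩ := hp
    have h1 := (hPRT R X hG hr c' hc').2 c hc
    rw [hanc, hp] at h1
    simp only [aoe, Option.isSome_some, Option.some.injEq, Option.getD_some, Bool.true_and,
      Bool.or_eq_true, decide_eq_true_eq] at h1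
    rcases h1 with h1 | h1
    · exact hco (h1 ▸ hpo)
    · exact hco (cl_bef ho p hpo c hc (by simp [bef, h1]))
  have huniq : ∀ o, Cl X o → ∀ c < X.1.length, ∀ c' < X.1.length,
      gJ (stOf X o) c ≠ [] → gJ (stOf X o) c' ≠ [] → ty X c = ty X c' → c = c' := by
    intro o ho c hc c' hc' h1 h2 hty
    by_contra hne
    obtain ⟨hco, hcp⟩ := hinact o ho c hc h1
    obtain ⟨hco', hcp'⟩ := hinact o ho c' hc' h2
    have hv0 : (ty X c).1 = (ty X c').1 := congrArg Prod.fst hty
    have hu0 : (ty X c).2 = (ty X c').2 := congrArg Prod.snd hty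
    have hv : vt (cr X.1 c) = vt (cr X.1 c') := hv0
    have hu : capU X c = capU X c' := hu0
    rcases (hTRN R X hG hr c hc c' hc').2.2 hne hv hu with h | h
    · exact hnocmp o ho c hc c' hc' hco hcp' h
    · exact hnocmp o ho c' hc' c hc hco' hcp h
  have hval : ∀ o, Cl X o → ∀ c < X.1.length, gJ (stOf X o) c ≠ [] → ∀ t',
      val X (stOf X o) (ty X c) t' = ct X (gJ (stOf X o) c) t' := by
    intro o ho c hc hne t'
    have hex : ∃ c', c' < X.1.length ∧ ty X c' = ty X c ∧ gJ (stOf X o) c' ≠ [] :=
      ⟨c, hc, rfl, hne⟩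
    unfold val
    rw [dif_pos hex]
    have hsp := hex.choose_spec
    rw [huniq o ho _ hsp.1 c hc hsp.2.2 hne hsp.2.1]
  have hcl1 : ∀ o, Cl X o → ∀ i < X.1.length, ∀ j < X.1.length, anc X i j = true →
      gm (stOf X o).1 j = true → gm (stOf X o).1 i = true := by
    intro o ho i hi j hj hanc hgj
    rw [(hSTM X o).2.2 i hi]
    rw [(hSTM X o).2.2 j hj] at hgj
    exact cl_bef ho j hgj i hi (by simp [bef, hanc])
  have hcl2 : ∀ o, Cl X o → ∀ c < X.1.length, ∀ p, c ∉ o → par X c = some p → p ∈ o →
      ∀ i < X.1.length, ∀ j < X.1.length, anc X i j = true →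
      gm (gJ (stOf X o) c) j = true → gm (gJ (stOf X o) c) i = true := by
    intro o ho c hc p hco hp hpo i hi j hj hanc hgj
    have h1 := ((hSTJ R X hG hr o ho c hc).1 p hco hp hpo).2
    rw [h1 i hi]
    rw [h1 j hj] at hgj
    exact cl_bef (cl_drop _ ho) j hgj i hi (by simp [bef, hanc])
  have hinj : ∀ o o', Cl X o → Cl X o' → code X (stOf X o) = code X (stOf X o') →
      stOf X o = stOf X o' := by
    intro o o' ho ho' he
    have he1 : ∀ t, ct X (stOf X o).1 t = ct X (stOf X o').1 t := by
      intro t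
      have := congrFun (congrArg Prod.fst he) t
      exact congrArg Fin.val this
    have he2 : ∀ t t', val X (stOf X o) t t' = val X (stOf X o') t t' := by
      intro t t'
      have := congrFun (congrFun (congrArg Prod.snd he) t) t'
      exact congrArg Fin.val this
    have hgm := hMSK R X hG hr _ _ (hcl1 o ho) (hcl1 o' ho') he1
    have hS1 : (stOf X o).1 = (stOf X o').1 := ext_gm (hSTM X o).1 (hSTM X o').1 hgm
    have hmem : ∀ i < X.1.length, (i ∈ o ↔ i ∈ o') := by
      intro i hi
      rw [← (hSTM X o).2.2 i hi, ← (hSTM X o').2.2 i hi, hgm i hi]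
    have hS2 : (stOf X o).2 = (stOf X o').2 := by
      refine ext_gJ (hSTM X o).2.1 (hSTM X o').2.1 ?_
      intro c hc
      by_cases hact : c ∉ o ∧ ∃ p, par X c = some p ∧ p ∈ o
      · obtain ⟨hco, p, hp, hpo⟩ := hact
        have hpl : p < X.1.length := ((hPRT R X hG hr c hc).1 p hp).1
        have hco' : c ∉ o' := fun h => hco ((hmem c hc).2 h)
        have hpo' : p ∈ o' := (hmem p hpl).1 hpo
        have hl := ((hSTJ R X hG hr o ho c hc).1 p hco hp hpo).1
        have hl' := ((hSTJ R X hG hr o' ho' c hc).1 p hco' hp hpo').1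
        have hne : gJ (stOf X o) c ≠ [] := by
          intro h0
          rw [h0, List.length_nil] at hl
          omega
        have hne' : gJ (stOf X o') c ≠ [] := by
          intro h0
          rw [h0, List.length_nil] at hl'
          omega
        refine ext_gm hl hl' ?_
        refine hMSK R X hG hr _ _ (hcl2 o ho c hc p hco hp hpo)
          (hcl2 o' ho' c hc p hco' hp hpo') ?_
        intro t'
        rw [← hval o ho c hc hne, ← hval o' ho' c hc hne', he2]
      · have h1 : gJ (stOf X o) c = [] := by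
          by_contra hne
          exact hact (hinact o ho c hc hne)
        have h2 : gJ (stOf X o') c = [] := by
          by_contra hne
          obtain ⟨hco', p, hp, hpo'⟩ := hinact o' ho' c hc hne
          have hpl : p < X.1.length := ((hPRT R X hG hr c hc).1 p hp).1
          exact hact ⟨fun h => hco' ((hmem c hc).1 h), p, hp, (hmem p hpl).2 hpo'⟩
        rw [h1, h2]
    exact Prod.ext hS1 hS2
  have hnd : (L.map (code X)).Nodup := by
    refine List.Nodup.map_on ?_ hL
    intro S hSL S' hSL' he
    obtain ⟨o, ho, rfl⟩ := hS S hSL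
    obtain ⟨o', ho', rfl⟩ := hS S' hSL'
    exact hinj o o' ho ho' he
  have hle := hnd.length_le_card
  rw [List.length_map] at hle
  refine hle.trans (le_of_eq ?_)
  simp only [Fintype.card_prod, Fintype.card_pi, Fintype.card_fin, Finset.prod_const,
    Finset.card_univ, Fintype.card_bool]
  ring

end Pool.Agent.Lib.MP29559a
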