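import Pool.Agent.Lib.MP_29559a_lc.OL.Spec

/-!
# MP_29559a_lc, module CST
-/

set_option autoImplicit false

namespace Pool.Agent.Lib.MP29559a

namespace CSTM

/-- a point of the segment -/
noncomputable def pt (t : ℝ) (p q : Pt) : Pt := ((1 - t) * p.1 + t * q.1, (1 - t) * p.2 + t * q.2)

theorem lt_cvx (a x y t : ℝ) (h0 : 0 ≤ t) (h1 : t ≤ 1) (hx : a < x) (hy : a < y) :
    a < (1 - t) * x + t * y := by
  rcases eq_or_lt_of_le h0 with h | h
  · rw [← h]; simpa using hx
  · have h2 : (1 - t) * a ≤ (1 - t) * x := mul_le_mul_of_nonneg_left hx.le (by linarith)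
    have h3 : t * a < t * y := mul_lt_mul_of_pos_left hy h
    nlinarith

theorem cvx_lt (a x y t : ℝ) (h0 : 0 ≤ t) (h1 : t ≤ 1) (hx : x < a) (hy : y < a) :
    (1 - t) * x + t * y < a := by
  have := lt_cvx (-a) (-x) (-y) t h0 h1 (by linarith) (by linarith)
  linarith

theorem inn_cvx (R : Rct) (p q : Pt) (t : ℝ) (h0 : 0 ≤ t) (h1 : t ≤ 1) (hp : inn R p) (hq : inn R q) :
    inn R (pt t p q) := by
  obtain ⟨p1, p2, p3, p4⟩ := hp
  obtain ⟨q1, q2, q3, q4⟩ := hq
  have a1 := lt_cvx _ _ _ t h0 h1 p1 q1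
  have a2 := cvx_lt _ _ _ t h0 h1 p2 q2
  have a3 := lt_cvx _ _ _ t h0 h1 p3 q3
  have a4 := cvx_lt _ _ _ t h0 h1 p4 q4
  refine ⟨?_, ?_, ?_, ?_⟩ <;> simp only [pt] <;> linarith

theorem lin_pt (F : Fold) (p q : Pt) (t : ℝ) :
    F.lin (pt t p q) = (1 - t) * F.lin p + t * F.lin q := by
  simp only [Fold.lin, pt]
  ring

theorem cap_of (R : Rct) (F G : Fold) (hG : ∀ p, inn R p → G.on p → F.lin p < F.s) (p q : Pt)
    (hp : inn R p) (hq : inn R q) (cp : F.cap p) (cq : F.cap q) (h : G.cap p) : G.cap q := by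
  by_contra hc
  simp only [Fold.cap, not_lt] at hc h
  have ha : 0 < G.lin p - G.s := by linarith
  have hb : 0 ≤ G.s - G.lin q := by linarith
  have hab : 0 < (G.lin p - G.s) + (G.s - G.lin q) := by linarith
  set t : ℝ := (G.lin p - G.s) / ((G.lin p - G.s) + (G.s - G.lin q)) with ht
  have t0 : 0 ≤ t := div_nonneg ha.le hab.le
  have t1 : t ≤ 1 := by
    rw [ht, div_le_one hab]
    linarith
  have hon : G.on (pt t p q) := by
    simp only [Fold.on]
    rw [lin_pt]
    have h2 : t * ((G.lin p - G.s) + (G.s - G.lin q)) = G.lin p - G.s := by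
      rw [ht]
      exact div_mul_cancel₀ _ hab.ne'
    linarith
  have h3 := hG _ (inn_cvx R p q t t0 t1 hp hq) hon
  have h4 : F.s < F.lin (pt t p q) := by
    rw [lin_pt]
    exact lt_cvx _ _ _ t t0 t1 cp cq
  linarith

theorem same (H : List Fold) (p q : Pt) (h : ∀ G ∈ H, (G.cap p ↔ G.cap q)) :
    iso H p = iso H q ∧ hgt H p = hgt H q ∧ face H p = face H q := by
  induction H with
  | nil => exact ⟨rfl, rfl, rfl⟩
  | cons G H ih =>
    obtain ⟨i1, i2, i3⟩ := ih (fun G' hG' => h G' (List.mem_cons_of_mem _ hG'))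
    have hG := h G List.mem_cons_self
    by_cases hc : G.cap p
    · have hd : G.cap q := hG.1 hc
      refine ⟨?_, ?_, ?_⟩
      · simp only [iso, hc, hd, i1]
      · simp only [hgt, hc, hd, if_true]
      · simp only [face, hc, hd, i3]
    · have hd : ¬ G.cap q := fun h' => hc (hG.2 h')
      refine ⟨?_, ?_, ?_⟩
      · simp only [iso, hc, hd, i1]
      · simp only [hgt, hc, hd, i2]
      · simp only [face, hc, hd, i3]

end CSTM

open CSTM in
theorem specCST : SpecCST := by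
  intro R F H hok p q hp hq cp cq
  obtain ⟨-, -, -, -, hG, -⟩ := hok
  exact same H p q (fun G hGH => ⟨cap_of R F G (hG G hGH) p q hp hq cp cq,
    cap_of R F G (hG G hGH) q p hq hp cq cp⟩)

end Pool.Agent.Lib.MP29559a
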