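import Pool.Agent.Lib.MP_29559a_lc.OL.Spec

/-!
# CVL (MP_29559a_lc): coverings of a segment of a line
-/

set_option autoImplicit false

namespace Pool.Agent.Lib.MP29559a

theorem specCVL : SpecCVL := by
  intro T L P v s l h hlh hcov
  by_contra hcon
  obtain ⟨S, hS⟩ : ∃ S : Set Pt, ∀ p, p ∈ S ↔ lc v p = s ∧ l < lc (!v) p ∧ lc (!v) p < h :=
    ⟨{p | lc v p = s ∧ l < lc (!v) p ∧ lc (!v) p < h}, fun _ => Iff.rfl⟩
  have hinf : S.Infinite := by
    refine Set.infinite_of_injOn_mapsTo (s := Set.Ioo l h)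
      (f := fun t : ℝ => if v then ((s, t) : Pt) else (t, s)) ?_ ?_ (Set.Ioo_infinite hlh)
    · intro t _ t' _ hh
      cases v
      · have h1 : ((t, s) : Pt) = (t', s) := by simpa using hh
        exact (Prod.mk.inj h1).1
      · have h1 : ((s, t) : Pt) = (s, t') := by simpa using hh
        exact (Prod.mk.inj h1).2
    · intro t ht
      rw [hS]
      cases v
      · exact ⟨by simp [lc], by simpa [lc] using ht.1, by simpa [lc] using ht.2⟩
      · exact ⟨by simp [lc], by simpa [lc] using ht.1, by simpa [lc] using ht.2⟩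
  apply hinf
  have hsub : S ⊆ ⋃ z ∈ {z | z ∈ L}, {p | p ∈ S ∧ P z p} := by
    intro p hp
    obtain ⟨h1, h2, h3⟩ := (hS p).1 hp
    obtain ⟨z, hz, hP⟩ := hcov p h1 h2 h3
    exact Set.mem_biUnion hz ⟨hp, hP⟩
  refine Set.Finite.subset (Set.Finite.biUnion (List.finite_toSet L) fun z hz => ?_) hsub
  apply Set.Subsingleton.finite
  intro p hp q hq
  by_contra hne
  apply hcon
  obtain ⟨a1, a2, a3⟩ := (hS p).1 hp.1
  obtain ⟨b1, b2, b3⟩ := (hS q).1 hq.1
  exact ⟨z, hz, p, q, hp.2, hq.2, hne, a1, b1, a2, a3, b2, b3⟩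

end Pool.Agent.Lib.MP29559a
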