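import Pool.Agent.Lib.MP_29559a_lc.OL.Spec

/-! # MP_29559a_lc, module CVX: a segment crosses the line of a crease inside the paper -/

set_option autoImplicit false

namespace Pool.Agent.Lib.MP29559a

open Pool.Agent.PolyTime

namespace CVXM

lemma lowSeg {a u w t : ℝ} (h0 : 0 < t) (h1 : t < 1) (hu : a < u) (hw : a < w) : a < u + t * (w - u) := by
  have e1 : 0 < (1 - t) * (u - a) := mul_pos (by linarith) (by linarith)
  have e2 : 0 < t * (w - a) := mul_pos h0 (by linarith)
  nlinarith [e1, e2]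

lemma upSeg {a u w t : ℝ} (h0 : 0 < t) (h1 : t < 1) (hu : u < a) (hw : w < a) : u + t * (w - u) < a := by
  have e1 : 0 < (1 - t) * (a - u) := mul_pos (by linarith) (by linarith)
  have e2 : 0 < t * (a - w) := mul_pos h0 (by linarith)
  nlinarith [e1, e2]

end CVXM

open CVXM in
theorem specCVX : SpecCVX := by
  intro R v s p q hp hq h1 h2
  obtain ⟨t, ht⟩ : ∃ t : ℝ, t = (s - lc v p) / (lc v q - lc v p) := ⟨_, rfl⟩
  have hd : 0 < lc v q - lc v p := by linarith
  have ht0 : 0 < t := by rw [ht]; exact div_pos (by linarith) hd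
  have ht1 : t < 1 := by rw [ht, div_lt_one hd]; linarith
  have hts : t * (lc v q - lc v p) = s - lc v p := by
    rw [ht]; exact div_mul_cancel₀ _ (ne_of_gt hd)
  obtain ⟨p1, p2, p3, p4⟩ := hp
  obtain ⟨q1, q2, q3, q4⟩ := hq
  refine ⟨t, ht0, ht1, ⟨?_, ?_, ?_, ?_⟩, ?_⟩
  · have := lowSeg ht0 ht1 p1 q1
    dsimp only
    linarith [this, show (rA R : ℝ) * (p.1 + t * (q.1 - p.1)) + rB R * (p.2 + t * (q.2 - p.2)) =
      (rA R * p.1 + rB R * p.2) + t * ((rA R * q.1 + rB R * q.2) - (rA R * p.1 + rB R * p.2)) by ring]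
  · have := upSeg ht0 ht1 p2 q2
    dsimp only
    linarith [this, show (rA R : ℝ) * (p.1 + t * (q.1 - p.1)) + rB R * (p.2 + t * (q.2 - p.2)) =
      (rA R * p.1 + rB R * p.2) + t * ((rA R * q.1 + rB R * q.2) - (rA R * p.1 + rB R * p.2)) by ring]
  · have := lowSeg ht0 ht1 p3 q3
    dsimp only
    linarith [this, show (rA R : ℝ) * (p.2 + t * (q.2 - p.2)) - rB R * (p.1 + t * (q.1 - p.1)) =
      (rA R * p.2 - rB R * p.1) + t * ((rA R * q.2 - rB R * q.1) - (rA R * p.2 - rB R * p.1)) by ring]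
  · have := upSeg ht0 ht1 p4 q4
    dsimp only
    linarith [this, show (rA R : ℝ) * (p.2 + t * (q.2 - p.2)) - rB R * (p.1 + t * (q.1 - p.1)) =
      (rA R * p.2 - rB R * p.1) + t * ((rA R * q.2 - rB R * q.1) - (rA R * p.2 - rB R * p.1)) by ring]
  · cases v
    · simp only [lc, Bool.false_eq_true, if_false] at hts ⊢
      linarith
    · simp only [lc, if_true] at hts ⊢
      linarith

end Pool.Agent.Lib.MP29559a
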