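import Pool.Agent.Lib.MP_29559a_lc.OL.Spec

/-!
# Module DAT: the data of a cell from those of its parent
-/

set_option autoImplicit false

namespace Pool.Agent.Lib.MP29559a

open Pool.Agent.PolyTime

namespace DATM

lemma len_eq (n : ℕ) (p : ℕ → Bool) :
    ((List.range n).filter p).length = ∑ k ∈ Finset.range n, (if p k = true then 1 else 0) := by
  induction n with
  | zero => simp
  | succ n ih =>
    rw [List.range_succ, List.filter_append, List.length_append, ih, Finset.sum_range_succ]
    by_cases h : p n = true
    · simp [h]
    · simp [h]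

lemma sum_eq (n : ℕ) (p : ℕ → Bool) (f : ℕ → ℤ) :
    (((List.range n).filter p).map f).sum =
      ∑ k ∈ Finset.range n, (if p k = true then f k else 0) := by
  induction n with
  | zero => simp
  | succ n ih =>
    rw [List.range_succ, List.filter_append, List.map_append, List.sum_append, ih,
      Finset.sum_range_succ]
    by_cases h : p n = true
    · simp [h]
    · simp [h]

lemma anc_self (X : Ctx) (c : ℕ) : anc X c c = false := by
  simp [anc]

lemma aoe_none (X : Ctx) (k : ℕ) : aoe X k none = false := by
  simp [aoe]

lemma aoe_some (X : Ctx) (k c : ℕ) : aoe X k (some c) = (decide (c = k) || anc X k c) := by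
  simp [aoe]

/-- one element more -/
lemma sum_split {M : Type} [AddCommMonoid M] (X : Ctx) (v : Bool) (c : ℕ) (hc : c < X.1.length)
    (f : ℕ → M) :
    (∑ k ∈ Finset.range X.1.length,
      (if (aoe X k (some c) && decide (vt (cr X.1 k) = v)) = true then f k else 0)) =
    (∑ k ∈ Finset.range X.1.length,
      (if (anc X k c && decide (vt (cr X.1 k) = v)) = true then f k else 0)) +
      (if vt (cr X.1 c) = v then f c else 0) := by
  have h1 : (if vt (cr X.1 c) = v then f c else 0) =
      ∑ k ∈ Finset.range X.1.length, (if c = k then (if vt (cr X.1 c) = v then f c else 0) else 0) := by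
    rw [Finset.sum_ite_eq, if_pos (Finset.mem_range.2 hc)]
  rw [h1, ← Finset.sum_add_distrib]
  refine Finset.sum_congr rfl fun k _ => ?_
  rw [aoe_some]
  by_cases hk : c = k
  · subst hk
    rw [anc_self]
    by_cases hv : vt (cr X.1 c) = v
    · simp [hv]
    · simp [hv]
  · rw [if_neg hk, add_zero]
    simp [hk]

end DATM

theorem specDAT (hPRT : SpecPRT) : SpecDAT := by
  intro R X hG hr
  have hn : ∀ v, naO X v none = 0 := by
    intro v
    unfold naO
    rw [DATM.len_eq]
    refine Finset.sum_eq_zero fun k _ => ?_
    rw [DATM.aoe_none]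
    simp
  refine ⟨fun v => ⟨hn v, ?_⟩, ?_, ?_⟩
  · unfold bbO
    rw [DATM.sum_eq]
    refine Finset.sum_eq_zero fun k _ => ?_
    rw [DATM.aoe_none]
    simp
  · unfold faceO
    rw [hn, hn]
    simp
  · intro c hc
    have hpar := (hPRT R X hG hr c hc).2
    have hna : ∀ v, na X v c = naO X v (par X c) := by
      intro v
      unfold na naO
      rw [DATM.len_eq, DATM.len_eq]
      refine Finset.sum_congr rfl fun k hk => ?_
      rw [hpar k (Finset.mem_range.1 hk)]
    have hns : ∀ v, naO X v (some c) = naO X v (par X c) + (if vt (cr X.1 c) = v then 1 else 0) := by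
      intro v
      rw [← hna v]
      unfold na naO
      rw [DATM.len_eq, DATM.len_eq, DATM.sum_split X v c hc]
    refine ⟨?_, fun v => ⟨hna v, hns v, ?_⟩⟩
    · unfold faceO
      rw [hns true, hns false]
      have hp : naO X true (par X c) + (if vt (cr X.1 c) = true then 1 else 0) +
          (naO X false (par X c) + (if vt (cr X.1 c) = false then 1 else 0)) =
          naO X true (par X c) + naO X false (par X c) + 1 := by
        cases vt (cr X.1 c) <;> simp <;> omega
      rw [hp]
      by_cases h2 : (naO X true (par X c) + naO X false (par X c)) % 2 = 0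
      · have h3 : ¬ (naO X true (par X c) + naO X false (par X c) + 1) % 2 = 0 := by omega
        simp [h2, h3]
      · have h3 : (naO X true (par X c) + naO X false (par X c) + 1) % 2 = 0 := by omega
        simp [h2, h3]
    · rw [← hna v]
      unfold bbO
      rw [DATM.sum_eq, DATM.sum_eq, DATM.sum_split X v c hc]
      congr 1
      refine Finset.sum_congr rfl fun k hk => ?_
      rw [hpar k (Finset.mem_range.1 hk)]

end Pool.Agent.Lib.MP29559a
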