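import Pool.Agent.Lib.MP_29559a_lc.OL.Spec

/-!
# EXA: the creases of the pattern are full chords
-/

set_option autoImplicit false

namespace Pool.Agent.Lib.MP29559a

open Pool.Agent.PolyTime

namespace EXAM

/-- the splittings of a list -/
def splits : List Fold → List (Fold × List Fold)
  | [] => []
  | F :: H => (F, H) :: splits H

theorem mem_splits : ∀ (H : List Fold) (z : Fold × List Fold), z ∈ splits H →
    ∃ H1, H = H1 ++ z.1 :: z.2
  | [], z, hz => absurd hz (by simp [splits])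
  | F :: H, z, hz => by
    rcases List.mem_cons.1 hz with rfl | hz
    · exact ⟨[], rfl⟩
    · obtain ⟨H1, h1⟩ := mem_splits H z hz
      exact ⟨F :: H1, by rw [List.cons_append, ← h1]⟩

/-- the creases of one kind -/
def Wk (R : Rct) (b : Bool) (z : Fold × List Fold) (p : Pt) : Prop :=
  z.1.on p ∧ ∃ q, inn R q ∧ z.1.cap q ∧ (b = true ↔ face z.2 q = z.1.d)

theorem vall_iff (R : Rct) : ∀ (H : List Fold) (p : Pt),
    vall R H p ↔ ∃ z ∈ splits H, inn R p ∧ Wk R true z p
  | [], p => by simp [vall, splits]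
  | F :: H, p => by
    simp only [vall, splits, vall_iff R H p, List.exists_mem_cons_iff, Wk]
    constructor
    · rintro (h | ⟨h1, h2, q, h3, h4, h5⟩)
      · exact Or.inr h
      · exact Or.inl ⟨h1, h2, q, h3, h4, by simp [h5]⟩
    · rintro (⟨h1, h2, q, h3, h4, h5⟩ | h)
      · exact Or.inr ⟨h1, h2, q, h3, h4, h5.1 trivial⟩
      · exact Or.inl h

theorem mntn_iff (R : Rct) : ∀ (H : List Fold) (p : Pt),
    mntn R H p ↔ ∃ z ∈ splits H, inn R p ∧ Wk R false z p
  | [], p => by simp [mntn, splits]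
  | F :: H, p => by
    simp only [mntn, splits, mntn_iff R H p, List.exists_mem_cons_iff, Wk]
    constructor
    · rintro (h | ⟨h1, h2, q, h3, h4, h5⟩)
      · exact Or.inr h
      · exact Or.inl ⟨h1, h2, q, h3, h4, by simp [h5]⟩
    · rintro (⟨h1, h2, q, h3, h4, h5⟩ | h)
      · exact Or.inr ⟨h1, h2, q, h3, h4, fun h6 => by simp [h6] at h5⟩
      · exact Or.inl h

theorem ok_suffix {R : Rct} : ∀ (H1 : List Fold) {H : List Fold}, ok R (H1 ++ H) → ok R H
  | [], _, h => h
  | _ :: H1, _, h => ok_suffix H1 h.1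

/-- a point on an axis-parallel line -/
def mk (v : Bool) (s y : ℝ) : Pt := if v then (s, y) else (y, s)

theorem lc_mk (v : Bool) (s y : ℝ) : lc v (mk v s y) = s := by
  cases v <;> simp [lc, mk]

theorem lc_mk' (v : Bool) (s y : ℝ) : lc (!v) (mk v s y) = y := by
  cases v <;> simp [lc, mk]

theorem eq_mk {v : Bool} {s : ℝ} {p : Pt} (h : lc v p = s) : p = mk v s (lc (!v) p) := by
  cases v
  · simp only [lc, mk, Bool.not_false, Bool.false_eq_true, if_false, if_true] at h ⊢
    exact Prod.ext rfl h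
  · simp only [lc, mk, Bool.not_true, Bool.false_eq_true, if_false, if_true] at h ⊢
    exact Prod.ext h rfl

theorem inn_clo {R : Rct} {p : Pt} (h : inn R p) : clo R p :=
  ⟨h.1.le, h.2.1.le, h.2.2.1.le, h.2.2.2.le⟩

theorem mix {R : Rct} {p q : Pt} {t : ℝ} (hp : inn R p) (hq : clo R q) (ht0 : 0 ≤ t) (ht1 : t < 1)
    {z : Pt} (hz1 : z.1 = p.1 + t * (q.1 - p.1)) (hz2 : z.2 = p.2 + t * (q.2 - p.2)) :
    inn R z := by
  obtain ⟨p1, p2, p3, p4⟩ := hp
  obtain ⟨q1, q2, q3, q4⟩ := hq
  have h1 : (rA R : ℝ) * z.1 + rB R * z.2 =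
      (1 - t) * (rA R * p.1 + rB R * p.2) + t * (rA R * q.1 + rB R * q.2) := by
    rw [hz1, hz2]; ring
  have h2 : (rA R : ℝ) * z.2 - rB R * z.1 =
      (1 - t) * (rA R * p.2 - rB R * p.1) + t * (rA R * q.2 - rB R * q.1) := by
    rw [hz1, hz2]; ring
  have ht : 0 < 1 - t := by linarith
  refine ⟨?_, ?_, ?_, ?_⟩
  · rw [h1]
    have a1 := mul_lt_mul_of_pos_left p1 ht
    have a2 := mul_le_mul_of_nonneg_left q1 ht0
    linarith
  · rw [h1]
    have a1 := mul_lt_mul_of_pos_left p2 ht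
    have a2 := mul_le_mul_of_nonneg_left q2 ht0
    linarith
  · rw [h2]
    have a1 := mul_lt_mul_of_pos_left p3 ht
    have a2 := mul_le_mul_of_nonneg_left q3 ht0
    linarith
  · rw [h2]
    have a1 := mul_lt_mul_of_pos_left p4 ht
    have a2 := mul_le_mul_of_nonneg_left q4 ht0
    linarith

theorem line_mix {R : Rct} {v : Bool} {s y0 y1 y : ℝ} (h0 : inn R (mk v s y0))
    (h1 : clo R (mk v s y1)) (h : (y0 ≤ y ∧ y < y1) ∨ (y1 < y ∧ y ≤ y0)) : inn R (mk v s y) := by
  have hne : y1 - y0 ≠ 0 := by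
    rcases h with h | h <;> intro h2 <;> linarith
  have ht0 : 0 ≤ (y - y0) / (y1 - y0) := by
    rcases h with h | h
    · exact div_nonneg (by linarith) (by linarith)
    · exact div_nonneg_of_nonpos (by linarith) (by linarith)
  have ht1 : (y - y0) / (y1 - y0) < 1 := by
    rcases h with h | h
    · rw [div_lt_one (by linarith)]
      linarith
    · rw [div_lt_one_of_neg (by linarith)]
      linarith
  have hy : y = y0 + (y - y0) / (y1 - y0) * (y1 - y0) := by
    rw [div_mul_cancel₀ _ hne]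
    ring
  refine mix h0 h1 ht0 ht1 ?_ ?_
  · cases v
    · exact hy
    · simp [mk]
  · cases v
    · simp [mk]
    · exact hy

theorem line_open {R : Rct} {v : Bool} {s : ℝ} : IsOpen {y : ℝ | inn R (mk v s y)} := by
  have h1 : Continuous fun y : ℝ => (mk v s y).1 := by
    cases v <;> simp only [mk, Bool.false_eq_true, if_false, if_true] <;> fun_prop
  have h2 : Continuous fun y : ℝ => (mk v s y).2 := by
    cases v <;> simp only [mk, Bool.false_eq_true, if_false, if_true] <;> fun_prop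
  have h3 : Continuous fun y : ℝ => (rA R : ℝ) * (mk v s y).1 + rB R * (mk v s y).2 :=
    (continuous_const.mul h1).add (continuous_const.mul h2)
  have h4 : Continuous fun y : ℝ => (rA R : ℝ) * (mk v s y).2 - rB R * (mk v s y).1 :=
    (continuous_const.mul h2).sub (continuous_const.mul h1)
  exact (isOpen_lt continuous_const h3).inter ((isOpen_lt h3 continuous_const).inter
    ((isOpen_lt continuous_const h4).inter (isOpen_lt h4 continuous_const)))

theorem cr_mem {cs : List Crs} {i : ℕ} (hi : i < cs.length) : cr cs i ∈ cs := by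
  unfold cr
  rw [List.getElem?_eq_getElem hi]
  exact List.getElem_mem hi

/-- a segment which contains two points of the line of `c` -/
theorem same_line {c c' : Crs} {p q : Pt} (hp : seg c' p) (hq : seg c' q) (hpq : p ≠ q)
    (h1 : lc (vt c) p = at' c) (h2 : lc (vt c) q = at' c) :
    vt c = vt c' ∧ at' c = at' c' := by
  have hv : vt c = vt c' := by
    by_contra h
    have h3 : vt c' = !vt c := by
      revert h
      cases vt c <;> cases vt c' <;> simp
    apply hpq
    have h4 := hp.1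
    have h5 := hq.1
    rw [h3] at h4 h5
    rw [eq_mk h1, eq_mk h2, h4, h5]
  refine ⟨hv, ?_⟩
  have h3 := hp.1
  rw [← hv, h1] at h3
  exact_mod_cast h3

end EXAM

open EXAM in
theorem specEXA (hCVL : SpecCVL) (hLNE : SpecLNE) : SpecEXA := by
  intro I hV H hok hvall hmntn i hil
  have hW : ∀ b p, (∃ z ∈ splits H, inn I.1 p ∧ Wk I.1 b z p) ↔ VS I b p := by
    intro b p
    cases b
    · rw [← hmntn p, mntn_iff]
    · rw [← hvall p, vall_iff]
  obtain ⟨c, hc⟩ : ∃ c, c = cr I.2 i := ⟨_, rfl⟩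
  have hcm : c ∈ I.2 := by
    rw [hc]
    exact cr_mem hil
  have hon : ∀ z, onc I.2 i z ↔ lc (vt c) z = at' c := fun z => by rw [hc]; rfl
  simp only [hon]
  rw [← hc]
  obtain ⟨hlt, hclo, p0, hp0, hp0i⟩ := hV.crs c hcm
  have hlt' : (lo c : ℝ) < hi c := by exact_mod_cast hlt
  obtain ⟨v, hv⟩ : ∃ v, v = vt c := ⟨_, rfl⟩
  obtain ⟨s, hs⟩ : ∃ s : ℝ, s = at' c := ⟨_, rfl⟩
  have hseg : ∀ y : ℝ, (lo c : ℝ) ≤ y → y ≤ hi c → seg c (mk v s y) := by
    intro y h1 h2
    refine ⟨?_, ?_, ?_⟩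
    · rw [← hv, lc_mk, hs]
    · rw [← hv, lc_mk']
      exact h1
    · rw [← hv, lc_mk']
      exact h2
  -- the open segment is in the interior
  have hJ : ∀ y : ℝ, (lo c : ℝ) < y → y < hi c → inn I.1 (mk v s y) := by
    intro y h1 h2
    have e0 : p0 = mk v s (lc (!v) p0) := eq_mk (by rw [hv, hs]; exact hp0.1)
    rw [e0] at hp0i
    rcases le_or_gt (lc (!v) p0) y with h3 | h3
    · exact line_mix hp0i (hclo _ (hseg (hi c) hlt'.le le_rfl)) (Or.inl ⟨h3, h2⟩)
    · exact line_mix hp0i (hclo _ (hseg (lo c) le_rfl hlt'.le)) (Or.inr ⟨h1, h3.le⟩)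
  -- the fold of the crease
  have hF : ∃ z ∈ splits H, (∀ x, z.1.on x ↔ lc (vt c) x = at' c) ∧
      ∃ q, inn I.1 q ∧ z.1.cap q ∧ (vl c = true ↔ face z.2 q = z.1.d) := by
    obtain ⟨z, hz, p, q, hp, hq, hpq, h1, h2, -⟩ := hCVL (Fold × List Fold) (splits H)
      (fun z p => Wk I.1 (vl c) z p) v s (lo c) (hi c) hlt' (by
        intro p h1 h2 h3
        have e1 := eq_mk h1
        have h4 : VS I (vl c) p := by
          rw [e1]
          exact ⟨hJ _ h2 h3, c, hcm, rfl, hseg _ h2.le h3.le⟩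
        obtain ⟨z, hz, -, h5⟩ := (hW _ _).2 h4
        exact ⟨z, hz, h5⟩)
    obtain ⟨H1, hH1⟩ := mem_splits H z hz
    have hu : z.1.u ≠ 0 := by
      rw [hH1] at hok
      exact (ok_suffix H1 hok).2.1
    obtain ⟨l, -, -, -, h6⟩ := hLNE z.1 v s p q hu hp.1 hq.1 hpq h1 h2
    refine ⟨z, hz, ?_, hp.2⟩
    intro x
    rw [h6 x, hv, hs]
  obtain ⟨z, hz, hz1, hz2⟩ := hF
  -- the whole chord is covered
  have hcov : ∀ y : ℝ, inn I.1 (mk v s y) → ∃ c' ∈ I.2, vl c' = vl c ∧ seg c' (mk v s y) := by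
    intro y hy
    have h1 : VS I (vl c) (mk v s y) :=
      (hW _ _).1 ⟨z, hz, hy, (hz1 _).2 (by rw [← hv, lc_mk, hs]), hz2⟩
    exact h1.2
  have hsym : Std.Symm fun c c' : Crs => vt c = vt c' → at' c = at' c' → vl c = vl c' →
      hi c < lo c' ∨ hi c' < lo c :=
    ⟨fun a b h h1 h2 h3 => (h h1.symm h2.symm h3.symm).symm⟩
  have hdis : ∀ c' ∈ I.2, c ≠ c' → vt c = vt c' → at' c = at' c' → vl c = vl c' →
      hi c < lo c' ∨ hi c' < lo c := fun c' hc' hne => hV.dis.forall hcm hc' hne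
  -- the ends are not in the interior
  have hnh : ¬ inn I.1 (mk v s (hi c)) := by
    intro hin
    obtain ⟨ε, hε, hball⟩ := Metric.isOpen_iff.1 (line_open (R := I.1) (v := v) (s := s)) _ hin
    obtain ⟨c', hc', p, q, ⟨hp1, hp2⟩, ⟨hq1, hq2⟩, hpq, h1, h2, h3, h4, h5, h6⟩ := hCVL Crs I.2
      (fun c' p => vl c' = vl c ∧ seg c' p) v s (hi c) (hi c + min ε 1)
      (by linarith [lt_min hε one_pos]) (by
        intro p h1 h2 h3
        have e1 := eq_mk h1
        have h4 : inn I.1 (mk v s (lc (!v) p)) := by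
          apply hball
          rw [Metric.mem_ball, Real.dist_eq, abs_lt]
          have := min_le_left ε 1
          constructor <;> linarith
        obtain ⟨c', hc', h5, h6⟩ := hcov _ h4
        rw [← e1] at h6
        exact ⟨c', hc', h5, h6⟩)
    obtain ⟨e1, e2⟩ := same_line (c := c) hp2 hq2 hpq (by rw [← hv, h1, hs]) (by rw [← hv, h2, hs])
    have h7 : (lo c' : ℝ) ≤ lc (!v) p ∧ lc (!v) p ≤ hi c' := by
      rw [hv, e1]
      exact hp2.2
    have h8 : lo c' < hi c + 1 := by
      have : (lo c' : ℝ) < hi c + 1 := by linarith [min_le_right ε 1, h7.1]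
      exact_mod_cast this
    have h9 : hi c < hi c' := by
      have : (hi c : ℝ) < hi c' := by linarith [h7.2]
      exact_mod_cast this
    have hne : c ≠ c' := by
      intro h
      rw [← h] at h9
      exact lt_irrefl _ h9
    rcases hdis c' hc' hne e1 e2 hp1.symm with h | h <;> omega
  have hnl : ¬ inn I.1 (mk v s (lo c)) := by
    intro hin
    obtain ⟨ε, hε, hball⟩ := Metric.isOpen_iff.1 (line_open (R := I.1) (v := v) (s := s)) _ hin
    obtain ⟨c', hc', p, q, ⟨hp1, hp2⟩, ⟨hq1, hq2⟩, hpq, h1, h2, h3, h4, h5, h6⟩ := hCVL Crs I.2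
      (fun c' p => vl c' = vl c ∧ seg c' p) v s (lo c - min ε 1) (lo c)
      (by linarith [lt_min hε one_pos]) (by
        intro p h1 h2 h3
        have e1 := eq_mk h1
        have h4 : inn I.1 (mk v s (lc (!v) p)) := by
          apply hball
          rw [Metric.mem_ball, Real.dist_eq, abs_lt]
          have := min_le_left ε 1
          constructor <;> linarith
        obtain ⟨c', hc', h5, h6⟩ := hcov _ h4
        rw [← e1] at h6
        exact ⟨c', hc', h5, h6⟩)
    obtain ⟨e1, e2⟩ := same_line (c := c) hp2 hq2 hpq (by rw [← hv, h1, hs]) (by rw [← hv, h2, hs])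
    have h7 : (lo c' : ℝ) ≤ lc (!v) p ∧ lc (!v) p ≤ hi c' := by
      rw [hv, e1]
      exact hp2.2
    have h8 : lo c - 1 < hi c' := by
      have : (lo c : ℝ) - 1 < hi c' := by linarith [min_le_right ε 1, h7.2]
      exact_mod_cast this
    have h9 : lo c' < lo c := by
      have : (lo c' : ℝ) < lo c := by linarith [h7.1]
      exact_mod_cast this
    have hne : c ≠ c' := by
      intro h
      rw [← h] at h9
      exact lt_irrefl _ h9
    rcases hdis c' hc' hne e1 e2 hp1.symm with h | h <;> omega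
  refine ⟨?_, ?_⟩
  · intro p hp
    have e1 : p = mk v s (lc (!v) p) := eq_mk (by rw [hv, hs]; exact hp)
    have hmid := hJ (((lo c : ℝ) + hi c) / 2) (by linarith) (by linarith)
    rw [← hv]
    constructor
    · intro hin
      rw [e1] at hin
      constructor
      · by_contra h
        exact hnl (line_mix hin (inn_clo hmid) (Or.inl ⟨not_lt.1 h, by linarith⟩))
      · by_contra h
        exact hnh (line_mix hin (inn_clo hmid) (Or.inr ⟨by linarith, not_lt.1 h⟩))
    · rintro ⟨h1, h2⟩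
      rw [e1]
      exact hJ _ h1 h2
  · obtain ⟨H1, hH1⟩ := mem_splits H z hz
    exact ⟨H1, z.1, z.2, hH1, hz1, hz2⟩

end Pool.Agent.Lib.MP29559a
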