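import Pool.Agent.Lib.MP_29559a_lc.OL.Spec

/-!
# EXB (helper37): every fold belongs to a crease
-/

set_option autoImplicit false

namespace Pool.Agent.Lib.MP29559a

open Pool.Agent.PolyTime Filter Topology

namespace EXBM

lemma comb {a x y t : ℝ} (hx : a < x) (hy : a < y) (h0 : 0 < t) (h1 : t < 1) :
    a < x + t * (y - x) := by
  have h2 := mul_pos (sub_pos.2 h1) (sub_pos.2 hx)
  have h3 := mul_pos h0 (sub_pos.2 hy)
  nlinarith

lemma comb' {a x y t : ℝ} (hx : x < a) (hy : y < a) (h0 : 0 < t) (h1 : t < 1) :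
    x + t * (y - x) < a := by
  have h2 := mul_pos (sub_pos.2 h1) (sub_pos.2 hx)
  have h3 := mul_pos h0 (sub_pos.2 hy)
  nlinarith

lemma inn_conv {R : Rct} {p q : Pt} {t : ℝ} (hp : inn R p) (hq : inn R q) (h0 : 0 < t)
    (h1 : t < 1) : inn R (p.1 + t * (q.1 - p.1), p.2 + t * (q.2 - p.2)) := by
  obtain ⟨a1, a2, a3, a4⟩ := hp
  obtain ⟨b1, b2, b3, b4⟩ := hq
  have c1 := comb a1 b1 h0 h1
  have c2 := comb' a2 b2 h0 h1
  have c3 := comb a3 b3 h0 h1
  have c4 := comb' a4 b4 h0 h1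
  refine ⟨?_, ?_, ?_, ?_⟩
  · show (r1 R : ℝ) < rA R * (p.1 + t * (q.1 - p.1)) + rB R * (p.2 + t * (q.2 - p.2))
    linarith [c1]
  · show rA R * (p.1 + t * (q.1 - p.1)) + rB R * (p.2 + t * (q.2 - p.2)) < (r2 R : ℝ)
    linarith [c2]
  · show (r3 R : ℝ) < rA R * (p.2 + t * (q.2 - p.2)) - rB R * (p.1 + t * (q.1 - p.1))
    linarith [c3]
  · show rA R * (p.2 + t * (q.2 - p.2)) - rB R * (p.1 + t * (q.1 - p.1)) < (r4 R : ℝ)
    linarith [c4]

lemma inn_open {R : Rct} {z : Pt} (w : Pt) (h : inn R z) :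
    ∀ᶠ t in 𝓝 (0 : ℝ), inn R (z.1 + t * w.1, z.2 + t * w.2) := by
  obtain ⟨a1, a2, a3, a4⟩ := h
  have c1 : Continuous fun t : ℝ => (rA R : ℝ) * (z.1 + t * w.1) + rB R * (z.2 + t * w.2) := by
    fun_prop
  have c2 : Continuous fun t : ℝ => (rA R : ℝ) * (z.2 + t * w.2) - rB R * (z.1 + t * w.1) := by
    fun_prop
  have e1 : ∀ᶠ t in 𝓝 (0 : ℝ),
      (r1 R : ℝ) < (rA R : ℝ) * (z.1 + t * w.1) + rB R * (z.2 + t * w.2) :=
    continuousAt_const.eventually_lt c1.continuousAt (by simpa using a1)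
  have e2 : ∀ᶠ t in 𝓝 (0 : ℝ),
      (rA R : ℝ) * (z.1 + t * w.1) + rB R * (z.2 + t * w.2) < (r2 R : ℝ) :=
    c1.continuousAt.eventually_lt continuousAt_const (by simpa using a2)
  have e3 : ∀ᶠ t in 𝓝 (0 : ℝ),
      (r3 R : ℝ) < (rA R : ℝ) * (z.2 + t * w.2) - rB R * (z.1 + t * w.1) :=
    continuousAt_const.eventually_lt c2.continuousAt (by simpa using a3)
  have e4 : ∀ᶠ t in 𝓝 (0 : ℝ),
      (rA R : ℝ) * (z.2 + t * w.2) - rB R * (z.1 + t * w.1) < (r4 R : ℝ) :=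
    c2.continuousAt.eventually_lt continuousAt_const (by simpa using a4)
  filter_upwards [e1, e2, e3, e4] with t h1 h2 h3 h4
  exact ⟨h1, h2, h3, h4⟩

lemma ok_suf {R : Rct} : ∀ (H1 K : List Fold), ok R (H1 ++ K) → ok R K
  | [], _, h => h
  | _ :: H1, K, h => ok_suf H1 K h.1

lemma vall_suf {R : Rct} {p : Pt} : ∀ (H1 K : List Fold), vall R K p → vall R (H1 ++ K) p
  | [], _, h => h
  | _ :: H1, K, h => Or.inl (vall_suf H1 K h)

lemma mntn_suf {R : Rct} {p : Pt} : ∀ (H1 K : List Fold), mntn R K p → mntn R (H1 ++ K) p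
  | [], _, h => h
  | _ :: H1, K, h => Or.inl (mntn_suf H1 K h)

lemma ex_index {cs : List Crs} {c : Crs} (h : c ∈ cs) : ∃ i < cs.length, cr cs i = c := by
  obtain ⟨i, hi, he⟩ := List.mem_iff_getElem.1 h
  exact ⟨i, hi, by simp [cr, List.getElem?_eq_getElem hi, he]⟩

/-- a point of the line `lc v p = s` with the other coordinate `y` -/
def mk (v : Bool) (s y : ℝ) : Pt := if v then (s, y) else (y, s)

lemma lc_mk (v : Bool) (s y : ℝ) : lc v (mk v s y) = s ∧ lc (!v) (mk v s y) = y := by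
  cases v <;> simp [lc, mk]

/-- a point of the chord of a fold -/
lemma chord {R : Rct} {F : Fold} (h1 : ∃ p, inn R p ∧ F.cap p) (h2 : ∃ p, inn R p ∧ F.lin p < F.s) :
    ∃ z, inn R z ∧ F.on z := by
  obtain ⟨p, hp, hc⟩ := h1
  obtain ⟨q, hq, hl⟩ := h2
  have hc' : F.s < F.lin p := hc
  have hd : 0 < F.lin p - F.lin q := by linarith
  refine ⟨_, inn_conv (t := (F.s - F.lin q) / (F.lin p - F.lin q)) hq hp
    (div_pos (by linarith) hd) ((div_lt_one hd).2 (by linarith)), ?_⟩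
  have h3 : (F.s - F.lin q) / (F.lin p - F.lin q) * (F.lin p - F.lin q) = F.s - F.lin q :=
    div_mul_cancel₀ _ hd.ne'
  have h4 : F.lin (q.1 + (F.s - F.lin q) / (F.lin p - F.lin q) * (p.1 - q.1),
      q.2 + (F.s - F.lin q) / (F.lin p - F.lin q) * (p.2 - q.2)) =
      F.lin q + (F.s - F.lin q) / (F.lin p - F.lin q) * (F.lin p - F.lin q) := by
    simp only [Fold.lin]
    ring
  show F.lin _ = F.s
  rw [h4, h3]
  ring

/-- the fold belongs to a crease -/
lemma belongs (hLNE : SpecLNE) {R : Rct} {F : Fold} (hu : F.u ≠ 0)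
    {z : Pt} (hz : inn R z) (hon : F.on z) (cs : List Crs) (b : Bool)
    (hcov : ∀ p, inn R p → F.on p → ∃ c ∈ cs, vl c = b ∧ seg c p) :
    ∃ i < cs.length, (∀ y, F.on y ↔ onc cs i y) ∧ vl (cr cs i) = b := by
  have hinf : {t : ℝ | inn R (z.1 + t * (-F.u.2), z.2 + t * F.u.1)}.Infinite :=
    infinite_of_mem_nhds (0 : ℝ) (inn_open (-F.u.2, F.u.1) hz)
  have hline : ∀ t : ℝ, F.on (z.1 + t * (-F.u.2), z.2 + t * F.u.1) := by
    intro t
    have h1 : F.lin z = F.s := hon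
    show F.lin _ = F.s
    rw [← h1]
    simp only [Fold.lin]
    ring
  have hex : ∀ t ∈ {t : ℝ | inn R (z.1 + t * (-F.u.2), z.2 + t * F.u.1)},
      ∃ i : ℕ, i < cs.length ∧ vl (cr cs i) = b ∧
        onc cs i (z.1 + t * (-F.u.2), z.2 + t * F.u.1) := by
    intro t ht
    obtain ⟨c, hc, hv, hs⟩ := hcov _ ht (hline t)
    obtain ⟨i, hi, he⟩ := ex_index hc
    refine ⟨i, hi, by rw [he, hv], ?_⟩
    show lc (vt (cr cs i)) _ = at' (cr cs i)
    rw [he]
    exact hs.1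
  choose! f hf using hex
  obtain ⟨t1, h1, t2, h2, hne, heq⟩ := hinf.exists_ne_map_eq_of_mapsTo
    (f := f) (t := Set.Iio cs.length) (fun t ht => (hf t ht).1) (Set.finite_Iio _)
  obtain ⟨hi, hv, ho1⟩ := hf t1 h1
  obtain ⟨-, -, ho2⟩ := hf t2 h2
  rw [← heq] at ho2
  have hzne : ((z.1 + t1 * (-F.u.2), z.2 + t1 * F.u.1) : Pt) ≠
      (z.1 + t2 * (-F.u.2), z.2 + t2 * F.u.1) := by
    intro h
    have e1 := congrArg Prod.fst h
    have e2 := congrArg Prod.snd h
    simp only at e1 e2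
    have hd : t1 - t2 ≠ 0 := sub_ne_zero.2 hne
    have e3 : (t1 - t2) * F.u.2 = 0 := by linarith
    have e4 : (t1 - t2) * F.u.1 = 0 := by linarith
    apply hu
    exact Prod.ext ((mul_eq_zero.1 e4).resolve_left hd) ((mul_eq_zero.1 e3).resolve_left hd)
  obtain ⟨l, -, -, -, hall⟩ := hLNE F (vt (cr cs (f t1))) (at' (cr cs (f t1))) _ _ hu (hline t1)
    (hline t2) hzne ho1 ho2
  exact ⟨f t1, hi, hall, hv⟩

lemma later {R : Rct} {F G : Fold} {H' : List Fold} {p0 : Pt} (hok : ok R (F :: H')) (hG : G ∈ H')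
    (hp0 : inn R p0) (hGo : G.on p0) (hFo : F.on p0) : False := by
  obtain ⟨-, -, -, -, h, -⟩ := hok
  exact (h G hG p0 hp0 hGo).ne hFo

end EXBM

open EXBM in
theorem specEXB (_hCVL : SpecCVL) (hLNE : SpecLNE) (hCST : SpecCST) (hEXA : SpecEXA) :
    SpecEXB := by
  intro I hI H hok hV hM
  constructor
  · intro H1 F H' hH
    subst hH
    have hokF := ok_suf H1 _ hok
    obtain ⟨-, hu, hcap, hopp, -, -⟩ := id hokF
    obtain ⟨q0, hq0, hc0⟩ := id hcap
    obtain ⟨z, hz, hon⟩ := chord hcap hopp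
    have hconst : ∀ q, inn I.1 q → F.cap q → face H' q = face H' q0 := fun q hq hc =>
      (hCST I.1 F H' hokF q q0 hq hq0 hc hc0).2.2
    obtain ⟨i, hi, hall, hv⟩ := belongs hLNE hu hz hon I.2 (decide (face H' q0 = F.d)) (by
      intro p hp hpo
      by_cases hf : face H' q0 = F.d
      · have h1 : vall I.1 (H1 ++ F :: H') p :=
          vall_suf H1 _ (Or.inr ⟨hp, hpo, q0, hq0, hc0, hf⟩)
        obtain ⟨-, c, hc, hvl, hs⟩ := (hV p).1 h1
        exact ⟨c, hc, by rw [hvl]; simp [hf], hs⟩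
      · have h1 : mntn I.1 (H1 ++ F :: H') p :=
          mntn_suf H1 _ (Or.inr ⟨hp, hpo, q0, hq0, hc0, hf⟩)
        obtain ⟨-, c, hc, hvl, hs⟩ := (hM p).1 h1
        exact ⟨c, hc, by rw [hvl]; simp [hf], hs⟩)
    refine ⟨i, hi, hall, ?_⟩
    intro q hq hc
    rw [hv, hconst q hq hc, decide_eq_true_iff]
  · rintro i hi j hj hij ⟨hvt, hat⟩
    obtain ⟨hfi, H1, F, H', hH, hFon, q1, hq1, hc1, hface1⟩ := hEXA I hI H hok hV hM i hi
    obtain ⟨hfj, H2, G, H2', hH2, hGon, q2, hq2, hc2, hface2⟩ := hEXA I hI H hok hV hM j hj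
    have hmem : ∀ k < I.2.length, cr I.2 k ∈ I.2 := by
      intro k hk
      simp [cr, List.getElem?_eq_getElem hk]
    have hli := (hI.crs _ (hmem i hi)).1
    have hliR : ((lo (cr I.2 i) : ℤ) : ℝ) < ((MP29559a.hi (cr I.2 i) : ℤ) : ℝ) := by
      exact_mod_cast hli
    have hkey : ∀ y : ℝ, ((lo (cr I.2 i) : ℝ) < y ∧ y < MP29559a.hi (cr I.2 i)) ↔
        ((lo (cr I.2 j) : ℝ) < y ∧ y < MP29559a.hi (cr I.2 j)) := by
      intro y
      have h1 := hfi (mk (vt (cr I.2 i)) (at' (cr I.2 i)) y) (lc_mk _ _ _).1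
      have h2 := hfj (mk (vt (cr I.2 j)) (at' (cr I.2 j)) y) (lc_mk _ _ _).1
      rw [(lc_mk _ _ _).2] at h1 h2
      rw [← h1, ← h2, hvt, hat]
    have hmid := (hkey (((lo (cr I.2 i) : ℝ) + MP29559a.hi (cr I.2 i)) / 2)).1
      ⟨by linarith, by linarith⟩
    have hsame : vl (cr I.2 i) ≠ vl (cr I.2 j) := by
      intro hvl
      have hno1 : ¬ MP29559a.hi (cr I.2 i) < lo (cr I.2 j) := by
        intro h
        have h' : ((MP29559a.hi (cr I.2 i) : ℤ) : ℝ) < ((lo (cr I.2 j) : ℤ) : ℝ) := by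
          exact_mod_cast h
        linarith [hmid.1]
      have hno2 : ¬ MP29559a.hi (cr I.2 j) < lo (cr I.2 i) := by
        intro h
        have h' : ((MP29559a.hi (cr I.2 j) : ℤ) : ℝ) < ((lo (cr I.2 i) : ℤ) : ℝ) := by
          exact_mod_cast h
        linarith [hmid.2]
      have hcr : ∀ k (hk : k < I.2.length), I.2[k] = cr I.2 k := by
        intro k hk
        simp [cr, List.getElem?_eq_getElem hk]
      rcases lt_or_gt_of_ne hij with hlt | hlt
      · have h := List.pairwise_iff_getElem.1 hI.dis i j hi hj hlt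
        rw [hcr i hi, hcr j hj] at h
        rcases h hvt hat hvl with h | h
        · exact hno1 h
        · exact hno2 h
      · have h := List.pairwise_iff_getElem.1 hI.dis j i hj hi hlt
        rw [hcr i hi, hcr j hj] at h
        rcases h hvt.symm hat.symm hvl.symm with h | h
        · exact hno2 h
        · exact hno1 h
    obtain ⟨p0, hp0, hFp0, hGp0⟩ : ∃ p0, inn I.1 p0 ∧ F.on p0 ∧ G.on p0 := by
      refine ⟨mk (vt (cr I.2 i)) (at' (cr I.2 i))
        (((lo (cr I.2 i) : ℝ) + MP29559a.hi (cr I.2 i)) / 2), ?_, ?_, ?_⟩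
      · rw [hfi _ (lc_mk _ _ _).1, (lc_mk _ _ _).2]
        constructor <;> linarith
      · rw [hFon]
        exact (lc_mk _ _ _).1
      · rw [hGon, hvt, hat]
        exact (lc_mk _ _ _).1
    have hEq : H1 ++ F :: H' = H2 ++ G :: H2' := hH.symm.trans hH2
    rcases List.append_eq_append_iff.1 hEq with ⟨a', -, h2⟩ | ⟨a', -, h2⟩
    · cases a' with
      | nil =>
        rw [List.nil_append, List.cons.injEq] at h2
        obtain ⟨rfl, rfl⟩ := h2
        have hokF : ok I.1 (F :: H') := ok_suf H1 _ (hH ▸ hok)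
        have hc := (hCST I.1 F H' hokF q1 q2 hq1 hq2 hc1 hc2).2.2
        apply hsame
        rw [Bool.eq_iff_iff, hface1, hface2, hc]
      | cons x a'' =>
        rw [List.cons_append, List.cons.injEq] at h2
        have hokF : ok I.1 (F :: H') := ok_suf H1 _ (hH ▸ hok)
        exact later hokF (by rw [h2.2]; simp) hp0 hGp0 hFp0
    · cases a' with
      | nil =>
        rw [List.nil_append, List.cons.injEq] at h2
        obtain ⟨rfl, rfl⟩ := h2
        have hokF : ok I.1 (G :: H2') := ok_suf H1 _ (hH ▸ hok)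
        have hc := (hCST I.1 G H2' hokF q1 q2 hq1 hq2 hc1 hc2).2.2
        apply hsame
        rw [Bool.eq_iff_iff, hface1, hface2, hc]
      | cons x a'' =>
        rw [List.cons_append, List.cons.injEq] at h2
        have hokG : ok I.1 (G :: H2') := ok_suf H2 _ (hH2 ▸ hok)
        exact later hokG (by rw [h2.2]; simp) hp0 hFp0 hGp0

end Pool.Agent.Lib.MP29559a
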