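import Pool.Agent.Lib.MP_29559a_lc.OL.Spec

/-! MP_29559a_lc, module EXC: the creases do not cross. -/

set_option autoImplicit false

namespace Pool.Agent.Lib.MP29559a

open Pool.Agent.PolyTime

namespace EXCM

theorem ok_suf (R : Rct) : ∀ (H1 K : List Fold), ok R (H1 ++ K) → ok R K
  | [], _, h => h
  | _ :: H1, K, h => ok_suf R H1 K h.1

theorem later {R : Rct} {F : Fold} {H : List Fold} (h : ok R (F :: H)) {G : Fold} (hG : G ∈ H)
    {z : Pt} (hz : inn R z) (h1 : G.on z) (h2 : F.on z) : False := by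
  obtain ⟨_, _, _, _, h5, _⟩ := h
  have h6 := h5 G hG z hz h1
  unfold Fold.on at h2
  linarith

theorem noX {R : Rct} {H H1 H' H2 H'' : List Fold} {F G : Fold} (h : ok R H)
    (hF : H = H1 ++ F :: H') (hG : H = H2 ++ G :: H'')
    (hne : F ≠ G) {z : Pt} (hz : inn R z) (h1 : F.on z) (h2 : G.on z) : False := by
  have e : H1 ++ F :: H' = H2 ++ G :: H'' := hF.symm.trans hG
  have okF : ok R (F :: H') := ok_suf R H1 _ (hF ▸ h)
  have okG : ok R (G :: H'') := ok_suf R H2 _ (hG ▸ h)
  rcases List.append_eq_append_iff.1 e with ⟨a, _, hb⟩ | ⟨a, _, hb⟩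
  · cases a with
    | nil =>
      simp only [List.nil_append, List.cons.injEq] at hb
      exact hne hb.1
    | cons x a =>
      simp only [List.cons_append, List.cons.injEq] at hb
      exact later okF (by rw [hb.2]; simp) hz h2 h1
  · cases a with
    | nil =>
      simp only [List.nil_append, List.cons.injEq] at hb
      exact hne hb.1.symm
    | cons x a =>
      simp only [List.cons_append, List.cons.injEq] at hb
      exact later okG (by rw [hb.2]; simp) hz h1 h2

theorem crm {cs : List Crs} {i : ℕ} (hi : i < cs.length) : cr cs i ∈ cs := by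
  unfold cr
  rw [List.getElem?_eq_getElem hi]
  exact List.getElem_mem hi

/-- the point with coordinate `x` in direction `v`, `y` in the other direction -/
def pnt (v : Bool) (x y : ℝ) : Pt := if v then (x, y) else (y, x)

theorem lc_pnt (v : Bool) (x y : ℝ) : lc v (pnt v x y) = x := by
  cases v <;> simp [lc, pnt]

theorem lc_pnt' (v : Bool) (x y : ℝ) : lc (!v) (pnt v x y) = y := by
  cases v <;> simp [lc, pnt]

end EXCM

open EXCM in
theorem specEXC (_hCVX : SpecCVX) (hEXA : SpecEXA) (hEXB : SpecEXB) : SpecEXC := by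
  intro I hV H hok hv hm
  have hA := hEXA I hV H hok hv hm
  have hB := hEXB I hV H hok hv hm
  refine ⟨hV.dir, fun i hi => (hV.crs _ (crm hi)).1, fun i hi => (hA i hi).1, ?_⟩
  intro i hi j hj hne
  by_cases hvt : vt (cr I.2 i) = vt (cr I.2 j)
  · have h1 := hB.2 i hi j hj hne
    have h2 : at' (cr I.2 i) ≠ at' (cr I.2 j) := fun h => h1 ⟨hvt, h⟩
    unfold loS upS
    rw [if_pos hvt, if_pos hvt]
    rcases lt_or_gt_of_ne h2 with h3 | h3
    · exact Or.inr (decide_eq_true h3)
    · exact Or.inl (decide_eq_true h3)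
  · unfold loS upS
    rw [if_neg hvt, if_neg hvt]
    by_contra hcon
    rw [not_or, decide_eq_true_eq, decide_eq_true_eq, not_le, not_le] at hcon
    obtain ⟨hc1, hc2⟩ := hcon
    have hji : vt (cr I.2 j) = !vt (cr I.2 i) := by
      revert hvt
      cases vt (cr I.2 i) <;> cases vt (cr I.2 j) <;> simp
    have hij : (!vt (cr I.2 j)) = vt (cr I.2 i) := by
      rw [hji, Bool.not_not]
    obtain ⟨_, H1, F, H', hF, hFon, _⟩ := hA i hi
    obtain ⟨hfull, H2, G, H'', hG, hGon, _⟩ := hA j hj
    have oni : ∀ y : ℝ, onc I.2 i (pnt (vt (cr I.2 i)) (at' (cr I.2 i)) y) := by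
      intro y
      unfold onc
      exact lc_pnt _ _ _
    have hz1 := oni (at' (cr I.2 j))
    have hz2 : onc I.2 j (pnt (vt (cr I.2 i)) (at' (cr I.2 i)) (at' (cr I.2 j))) := by
      unfold onc
      rw [hji]
      exact lc_pnt' _ _ _
    have hinn : inn I.1 (pnt (vt (cr I.2 i)) (at' (cr I.2 i)) (at' (cr I.2 j))) := by
      rw [hfull _ hz2, hij, lc_pnt]
      exact ⟨by exact_mod_cast hc2, by exact_mod_cast hc1⟩
    refine noX hok hF hG ?_ hinn ((hFon _).2 hz1) ((hGon _).2 hz2)
    intro hFG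
    have h5 := oni (at' (cr I.2 j) + 1)
    rw [← hFon, hFG, hGon] at h5
    unfold onc at h5
    rw [hji, lc_pnt'] at h5
    linarith

end Pool.Agent.Lib.MP29559a
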