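import Pool.Agent.Lib.MP_29559a_lc.OL.Spec

/-!
# MP_29559a, module EXD: the history of a folding
-/

set_option autoImplicit false

namespace Pool.Agent.Lib.MP29559a

namespace EXDM

theorem ok_suffix (R : Rct) (A B : List Fold) (h : ok R (A ++ B)) : ok R B := by
  induction A with
  | nil => exact h
  | cons F A ih => exact ih h.1

/-- the line of the fold is the line of the crease -/
def Idx (cs : List Crs) (F : Fold) (i : ℕ) : Prop := i < cs.length ∧ ∀ z, F.on z ↔ onc cs i z

theorem onc_inj (cs : List Crs) (i j : ℕ) (h : ∀ z, onc cs i z ↔ onc cs j z) :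
    vt (cr cs i) = vt (cr cs j) ∧ at' (cr cs i) = at' (cr cs j) := by
  have key : vt (cr cs i) = vt (cr cs j) := by
    by_contra hne
    cases hi : vt (cr cs i) <;> cases hj : vt (cr cs j)
    · exact hne (by rw [hi, hj])
    · have h1 := (h ((at' (cr cs j) : ℝ) + 1, (at' (cr cs i) : ℝ))).1 (by simp [onc, lc, hi])
      simp [onc, lc, hj] at h1
    · have h1 := (h ((at' (cr cs i) : ℝ), (at' (cr cs j) : ℝ) + 1)).1 (by simp [onc, lc, hi])
      simp [onc, lc, hj] at h1
    · exact hne (by rw [hi, hj])
  refine ⟨key, ?_⟩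
  cases hi : vt (cr cs i)
  · have hj : vt (cr cs j) = false := by rw [← key, hi]
    have h1 := (h ((0 : ℝ), (at' (cr cs i) : ℝ))).1 (by simp [onc, lc, hi])
    simp only [onc, lc, hj] at h1
    exact_mod_cast h1
  · have hj : vt (cr cs j) = true := by rw [← key, hi]
    have h1 := (h ((at' (cr cs i) : ℝ), (0 : ℝ))).1 (by simp [onc, lc, hi])
    simp only [onc, lc, hj] at h1
    exact_mod_cast h1

/-- the side of a fold -/
theorem side (hLNE : SpecLNE) (cs : List Crs) (F : Fold) (i : ℕ) (hu : F.u ≠ 0)
    (h : Idx cs F i) : ∃ b : Bool, ∃ l : ℝ, 0 < l ∧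
      F.u = l • (if vt (cr cs i) then ((if b then (1 : ℝ) else -1), (0 : ℝ))
        else ((0 : ℝ), (if b then (1 : ℝ) else -1))) ∧
      F.s = l * ((if b then (1 : ℝ) else -1) * at' (cr cs i)) ∧
      (∀ p, F.cap p ↔ if b then gtc cs i p else ltc cs i p) ∧
      ∀ p, F.lin p < F.s ↔ if b then ltc cs i p else gtc cs i p := by
  obtain ⟨l, hl, hlu, hls, -⟩ : ∃ l : ℝ, l ≠ 0 ∧
      F.u = (if vt (cr cs i) then (l, 0) else (0, l)) ∧ F.s = l * (at' (cr cs i) : ℝ) ∧
      ∀ z, F.on z ↔ lc (vt (cr cs i)) z = (at' (cr cs i) : ℝ) := by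
    refine hLNE F (vt (cr cs i)) (at' (cr cs i))
      (if vt (cr cs i) then ((at' (cr cs i) : ℝ), 0) else (0, (at' (cr cs i) : ℝ)))
      (if vt (cr cs i) then ((at' (cr cs i) : ℝ), 1) else (1, (at' (cr cs i) : ℝ))) hu ?_ ?_ ?_ ?_ ?_
    · rw [h.2]
      cases hv : vt (cr cs i) <;> simp [onc, lc, hv]
    · rw [h.2]
      cases hv : vt (cr cs i) <;> simp [onc, lc, hv]
    · cases hv : vt (cr cs i) <;> simp
    · cases hv : vt (cr cs i) <;> simp [lc]
    · cases hv : vt (cr cs i) <;> simp [lc]
  have hlin : ∀ p : Pt, F.lin p = l * lc (vt (cr cs i)) p := by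
    intro p
    rw [Fold.lin, hlu]
    cases hv : vt (cr cs i) <;> simp [lc]
  rcases lt_or_gt_of_ne hl with hneg | hpos
  · refine ⟨false, -l, by linarith, ?_, ?_, ?_, ?_⟩
    · rw [hlu]
      cases hv : vt (cr cs i) <;> simp
    · rw [hls]
      simp
    · intro p
      rw [Fold.cap, hlin, hls]
      simp only [ltc, Bool.false_eq_true, if_false]
      exact mul_lt_mul_left_of_neg hneg
    · intro p
      rw [hlin, hls]
      simp only [gtc, Bool.false_eq_true, if_false]
      exact mul_lt_mul_left_of_neg hneg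
  · refine ⟨true, l, hpos, ?_, ?_, ?_, ?_⟩
    · rw [hlu]
      cases hv : vt (cr cs i) <;> simp
    · rw [hls]
      simp
    · intro p
      rw [Fold.cap, hlin, hls]
      simp only [gtc, if_true]
      exact mul_lt_mul_iff_right₀ hpos
    · intro p
      rw [hlin, hls]
      simp only [ltc, if_true]
      exact mul_lt_mul_iff_right₀ hpos

theorem cl_nodup (X : Ctx) (o : List ℕ) (h : Cl X o) : o.Nodup ∧ ∀ i ∈ o, i < X.1.length := by
  induction o with
  | nil => simp
  | cons c o ih =>
    obtain ⟨h1, h2, h3, -⟩ := h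
    obtain ⟨ih1, ih2⟩ := ih h1
    refine ⟨List.nodup_cons.2 ⟨h3, ih1⟩, ?_⟩
    intro i hi
    rcases List.mem_cons.1 hi with rfl | hi
    · exact h2
    · exact ih2 i hi

end EXDM

open EXDM in
theorem specEXD (hSID : SpecSID) (hSDC : SpecSDC) (hCEL : SpecCEL) (hMKF : SpecMKF)
    (hISO : SpecISO) (hNRM : SpecNRM) (hLNE : SpecLNE) (hEXA : SpecEXA) (hEXB : SpecEXB)
    (hEXC : SpecEXC) : SpecEXD := by
  intro I hV hne H hok hv hm
  have G : Geo I.1 I.2 := hEXC I hV H hok hv hm
  obtain ⟨hA, hB⟩ := hEXB I hV H hok hv hm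
  have hE := hEXA I hV H hok hv hm
  have hn : 0 < I.2.length := List.length_pos_iff.2 hne
  obtain ⟨hch, hlu⟩ := hSID I.1 I.2 G
  -- uniqueness of the index
  have uniq : ∀ F i j, Idx I.2 F i → Idx I.2 F j → i = j := by
    intro F i j hi hj
    by_contra hij
    exact hB i hi.1 j hj.1 hij (onc_inj I.2 i j (fun z => (hi.2 z).symm.trans (hj.2 z)))
  -- folds at different places have different lines
  have diff : ∀ F K, ok I.1 (F :: K) → ∀ F' ∈ K, ∀ i j, Idx I.2 F i → Idx I.2 F' j → i ≠ j := by
    intro F K hK F' hF' i j hi hj hij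
    subst hij
    obtain ⟨p, hp1, hp2⟩ := hch i hi.1
    have h1 := hK.2.2.2.2.1 F' hF' p hp1 ((hj.2 p).2 hp2)
    have h2 : F.lin p = F.s := (hi.2 p).2 hp2
    rw [h2] at h1
    exact lt_irrefl _ h1
  -- the fold of a crease
  have hH : H ≠ [] := by
    obtain ⟨-, H1, F, H', h1, -⟩ := hE 0 hn
    rw [h1]
    simp
  obtain ⟨H0, F1, hH0⟩ : ∃ H0 F1, H = H0 ++ [F1] := by
    refine ⟨H.dropLast, H.getLast hH, ?_⟩
    rw [List.dropLast_append_getLast]
  obtain ⟨r, hr, hr1, -⟩ := hA H0 F1 [] hH0
  have hidr : Idx I.2 F1 r := ⟨hr, hr1⟩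
  have hok1 : ok I.1 [F1] := ok_suffix I.1 H0 [F1] (hH0 ▸ hok)
  obtain ⟨sb, l1, hl1, hu1, hs1, hc1, hn1⟩ := side hLNE I.2 F1 r hok1.2.1 hidr
  obtain ⟨X, hX⟩ : ∃ X : Ctx, X = (I.2, r, sb) := ⟨_, rfl⟩
  have hX1 : X.1 = I.2 := by rw [hX]
  have hXr : X.2.1 = r := by rw [hX]
  have hXs : X.2.2 = sb := by rw [hX]
  have GX : Geo I.1 X.1 := by rw [hX1]; exact G
  have hXl : X.2.1 < X.1.length := by rw [hX1, hXr]; exact hr
  -- the tail of a suffix contains F1
  have hlast : ∀ A F B, H = A ++ F :: B → (B = [] ∧ F = F1) ∨ F1 ∈ B := by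
    intro A F B h
    rcases List.eq_nil_or_concat B with hb | ⟨B', x, hb⟩
    · left
      refine ⟨hb, ?_⟩
      rw [hH0, hb] at h
      have h2 := congrArg List.getLast? h
      simpa using h2.symm
    · right
      rw [hH0, hb] at h
      have h2 := congrArg List.getLast? h
      have h3 : x = F1 := by
        have h4 : (A ++ F :: (B' ++ [x])).getLast? = some x := by
          rw [← List.cons_append, ← List.append_assoc, List.getLast?_append]
          simp
        have h5 : (H0 ++ [F1]).getLast? = some F1 := by simp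
        rw [List.concat_eq_append] at h2
        rw [h4, h5] at h2
        exact (Option.some.inj h2).symm
      rw [hb, h3]
      simp
  -- the side of a fold is the one of `capU`
  have hside : ∀ A F B i, H = A ++ F :: B → Idx I.2 F i →
      (∃ l : ℝ, 0 < l ∧ F.u = l • (mkF X i).u ∧ F.s = l * (mkF X i).s) ∧
      (∀ p, F.cap p ↔ capc X i p) ∧ ∀ p, F.lin p < F.s ↔ ncap X i p := by
    intro A F B i h hi
    have hokB : ok I.1 (F :: B) := ok_suffix I.1 A _ (h ▸ hok)
    obtain ⟨b, l, hl, hu, hs, hc, hn'⟩ := side hLNE I.2 F i hokB.2.1 hi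
    have hcap : capU X i = b := by
      rcases hlast A F B h with ⟨hb, hF⟩ | hF
      · subst hF
        have hir : i = r := uniq _ _ _ hi hidr
        subst hir
        have h1 : capU X i = sb := by
          rw [capU, hXr, hXs, if_pos rfl]
        rw [h1]
        -- the two sides agree
        obtain ⟨q, hq1, hq2⟩ := hokB.2.2.1
        have h2 := (hc q).1 hq2
        have h3 := (hc1 q).1 hq2
        cases sb <;> cases b
        · rfl
        · simp only [Bool.false_eq_true, if_false, if_true, ltc, gtc] at h2 h3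
          exact absurd h3 (not_lt.2 h2.le)
        · simp only [Bool.false_eq_true, if_false, if_true, ltc, gtc] at h2 h3
          exact absurd h3 (not_lt.2 h2.le)
        · rfl
      · have hir : i ≠ r := diff F B hokB F1 hF i r hi hidr
        have h1 : capU X i = loS I.2 i r := by
          rw [capU, hXr, if_neg hir, hX1]
        rw [h1]
        have h2 : ∀ p, inn I.1 p → onc I.2 r p → F.lin p < F.s := fun p hp1 hp2 =>
          hokB.2.2.2.2.1 F1 hF p hp1 ((hr1 p).2 hp2)
        cases hb : b
        · rw [hb] at hn'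
          have h3 : upS I.2 i r = true := (hlu i hi.1 r hr).2.2 (fun p hp1 hp2 => by
            have := (hn' p).1 (h2 p hp1 hp2)
            simpa using this)
          cases hlo : loS I.2 i r
          · rfl
          · exfalso
            obtain ⟨p, hp1, hp2⟩ := hch r hr
            have h4 := (hlu i hi.1 r hr).1.1 hlo p hp1 hp2
            have h5 := (hlu i hi.1 r hr).2.1 h3 p hp1 hp2
            exact absurd h4 (not_lt.2 (le_of_lt h5))
        · rw [hb] at hn'
          exact (hlu i hi.1 r hr).1.2 (fun p hp1 hp2 => by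
            have := (hn' p).1 (h2 p hp1 hp2)
            simpa using this)
    refine ⟨⟨l, hl, ?_, ?_⟩, ?_, ?_⟩
    · rw [hu, mkF, hcap, hX1]
    · rw [hs, mkF, hcap, hX1]
    · intro p
      rw [hc, capc, hcap, hX1]
    · intro p
      rw [hn', ncap, hcap, hX1]
  -- induction on the suffixes
  have main : ∀ K A, H = A ++ K → ∃ o : List ℕ, Cl X o ∧
      List.Forall₂ Eqv K (o.map (mkF X)) ∧ (∀ j ∈ o, ∃ F ∈ K, Idx I.2 F j) ∧
      ∀ F ∈ K, ∃ j ∈ o, Idx I.2 F j := by
    intro K
    induction K with
    | nil =>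
      intro A _
      exact ⟨[], trivial, List.Forall₂.nil, by simp, by simp⟩
    | cons F K ih =>
      intro A h
      obtain ⟨o, ho1, ho2, ho3, ho4⟩ := ih (A ++ [F]) (by rw [h]; simp)
      have hokB : ok I.1 (F :: K) := ok_suffix I.1 A _ (h ▸ hok)
      obtain ⟨i, hi, hi1, hi2⟩ := hA A F K h
      have hid : Idx I.2 F i := ⟨hi, hi1⟩
      have hio : i ∉ o := by
        intro hmem
        obtain ⟨F', hF', hid'⟩ := ho3 i hmem
        exact diff F K hokB F' hF' i i hid hid' rfl
      obtain ⟨hsl, hsc, hsn⟩ := hside A F K i h hid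
      have hbef : ∀ j < X.1.length, bef X j i = true → j ∈ o := by
        intro j hj hb
        rw [hX1] at hj
        by_cases hjr : j = r ∧ i ≠ r
        · rcases hlast A F K h with ⟨-, hF⟩ | hF
          · exact absurd (uniq F1 i r (hF ▸ hid) hidr) hjr.2
          · obtain ⟨j', hj', hid'⟩ := ho4 F1 hF
            have : j' = r := uniq F1 j' r hid' hidr
            rw [hjr.1, ← this]
            exact hj'
        · have hanc : anc X j i = true := by
            rw [bef, Bool.or_eq_true] at hb
            rcases hb with hb | hb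
            · exact hb
            · exfalso
              rw [Bool.and_eq_true, decide_eq_true_eq, decide_eq_true_eq, hXr] at hb
              exact hjr hb
          have hji : j ≠ i := by
            intro hji
            subst hji
            simp [anc] at hanc
          by_contra hjo
          obtain ⟨-, A', F', B', hH', hF'1, -⟩ := hE j hj
          have hid' : Idx I.2 F' j := ⟨hj, hF'1⟩
          have hF'K : F' ∉ K := by
            intro hmem
            obtain ⟨j', hj', hid''⟩ := ho4 F' hmem
            exact hjo (uniq F' j' j hid'' hid' ▸ hj')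
          have hF'F : F' ≠ F := by
            intro hff
            rw [hff] at hid'
            exact hji (uniq F j i hid' hid)
          have hF'A : F' ∈ A := by
            have h1 : F' ∈ H := by rw [hH']; simp
            rw [h] at h1
            rcases List.mem_append.1 h1 with h1 | h1
            · exact h1
            · rcases List.mem_cons.1 h1 with h1 | h1
              · exact absurd h1 hF'F
              · exact absurd h1 hF'K
          obtain ⟨A1, A2, hA12⟩ := List.append_of_mem hF'A
          have h2 : H = A1 ++ F' :: (A2 ++ F :: K) := by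
            rw [h, hA12]
            simp
          have hok2 : ok I.1 (F' :: (A2 ++ F :: K)) := ok_suffix I.1 A1 _ (h2 ▸ hok)
          obtain ⟨-, -, hs2⟩ := hside A1 F' _ j h2 hid'
          obtain ⟨p, hp1, hp2⟩ := hch i hi
          have h3 := hok2.2.2.2.2.1 F (by simp) p hp1 ((hi1 p).2 hp2)
          have h4 := (hs2 p).1 h3
          have hSD := (hSDC I.1 X GX hXl j (by rw [hX1]; exact hj) i (by rw [hX1]; exact hi) hji).1
          have h5 := hSD.1 hanc p hp1 (by rw [hX1]; exact hp2)
          rw [ncap] at h4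
          rw [capc] at h5
          cases hcj : capU X j
          · rw [hcj] at h4 h5
            simp only [Bool.false_eq_true, if_false, ltc, gtc] at h4 h5
            exact absurd h4 (not_lt.2 h5.le)
          · rw [hcj] at h4 h5
            simp only [if_true, ltc, gtc] at h4 h5
            exact absurd h4 (not_lt.2 h5.le)
      have hdir : F.d = dirS X i := by
        obtain ⟨q, hq1, hq2⟩ := hokB.2.2.1
        have h1 := hi2 q hq1 hq2
        have h2 : face K q = face (o.map (mkF X)) q := ((hNRM I.1 K _ ho2).1 q).2.2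
        have hcel := (hCEL I.1 X GX hXl o ho1).2.2 i (by rw [hX1]; exact hi) hio hbef
        have h3 := hcel.1 q hq1 (Or.inl ((hsc q).1 hq2))
        have h4 := (hISO I.1 X GX hXl o ho1 q _ h3).2.2
        rw [h2, h4] at h1
        rw [dirS, hX1]
        cases hvl : vl (cr I.2 i)
        · rw [hvl] at h1
          cases hf : faceO X (par X i) <;> cases hd : F.d
          · rw [hf, hd] at h1
            simp at h1
          · simp
          · simp
          · rw [hf, hd] at h1
            simp at h1
        · rw [hvl] at h1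
          have h5 := h1.1 rfl
          rw [h5]
          cases F.d <;> simp
      refine ⟨i :: o, ⟨ho1, by rw [hX1]; exact hi, hio, hbef⟩, ?_, ?_, ?_⟩
      · rw [List.map_cons]
        refine List.Forall₂.cons ⟨?_, hsl⟩ ho2
        rw [hdir]
        rfl
      · intro j hj
        rcases List.mem_cons.1 hj with rfl | hj
        · exact ⟨F, by simp, hid⟩
        · obtain ⟨F', hF', hid'⟩ := ho3 j hj
          exact ⟨F', by simp [hF'], hid'⟩
      · intro F' hF'
        rcases List.mem_cons.1 hF' with rfl | hF'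
        · exact ⟨i, by simp, hid⟩
        · obtain ⟨j, hj, hid'⟩ := ho4 F' hF'
          exact ⟨j, by simp [hj], hid'⟩
  obtain ⟨o, ho1, ho2, ho3, ho4⟩ := main H [] rfl
  refine ⟨r, hr, sb, o, hX ▸ ho1, ?_, hX ▸ ho2⟩
  obtain ⟨hnd, hlt⟩ := cl_nodup X o ho1
  have h1 : o.toFinset = Finset.range I.2.length := by
    ext j
    rw [List.mem_toFinset, Finset.mem_range]
    constructor
    · intro hj
      rw [← hX1]
      exact hlt j hj
    · intro hj
      obtain ⟨-, A', F', B', hH', hF'1, -⟩ := hE j hj
      obtain ⟨j', hj', hid'⟩ := ho4 F' (by rw [hH']; simp)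
      exact uniq F' j' j hid' ⟨hj, hF'1⟩ ▸ hj'
  rw [← List.toFinset_card_of_nodup hnd, h1, Finset.card_range]

end Pool.Agent.Lib.MP29559a
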