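import Pool.Agent.Lib.MP_29559a_lc.OL.Spec

/-! Module FEA of `OL/Spec.lean`: elimination. -/

set_option autoImplicit false

namespace Pool.Agent.Lib.MP29559a

namespace FEAM

/-- solvability in one real variable -/
theorem one {α : Type} (L : List α) (A C : α → ℝ) :
    (∃ x : ℝ, ∀ k ∈ L, A k * x < C k) ↔
      (∀ k ∈ L, A k = 0 → 0 < C k) ∧
        ∀ p ∈ L, ∀ m ∈ L, 0 < A p → A m < 0 → 0 < -(A m * C p) + A p * C m := by
  classical
  constructor
  · rintro ⟨x, hx⟩
    refine ⟨fun k hk h0 => ?_, fun p hp m hm h1 h2 => ?_⟩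
    · have h := hx k hk
      rw [h0, zero_mul] at h
      exact h
    · have h3 := mul_pos (neg_pos.2 h2) (sub_pos.2 (hx p hp))
      have h4 := mul_pos h1 (sub_pos.2 (hx m hm))
      nlinarith [h3, h4]
  · rintro ⟨h0, h1⟩
    obtain ⟨x, hx1, hx2⟩ := Order.exists_between_finsets
      (((L.filter fun m => decide (A m < 0)).map fun m => C m / A m).toFinset)
      (((L.filter fun p => decide (0 < A p)).map fun p => C p / A p).toFinset)
      (by
        intro s hs t ht
        rw [List.mem_toFinset, List.mem_map] at hs ht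
        obtain ⟨m, hm, rfl⟩ := hs
        obtain ⟨p, hp, rfl⟩ := ht
        rw [List.mem_filter, decide_eq_true_eq] at hm hp
        have h2 := h1 p hp.1 m hm.1 hp.2 hm.2
        rw [div_lt_iff_of_neg hm.2, div_mul_eq_mul_div, div_lt_iff₀ hp.2]
        nlinarith [h2])
    refine ⟨x, fun k hk => ?_⟩
    rcases lt_trichotomy (A k) 0 with h2 | h2 | h2
    · have h3 := hx1 (C k / A k) (by
        rw [List.mem_toFinset, List.mem_map]
        exact ⟨k, List.mem_filter.2 ⟨hk, by simpa using h2⟩, rfl⟩)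
      rw [div_lt_iff_of_neg h2] at h3
      linarith
    · rw [h2, zero_mul]
      exact h0 k hk h2
    · have h3 := hx2 (C k / A k) (by
        rw [List.mem_toFinset, List.mem_map]
        exact ⟨k, List.mem_filter.2 ⟨hk, by simpa using h2⟩, rfl⟩)
      rw [lt_div_iff₀ h2] at h3
      linarith

theorem feas1_iff (L : List (ℤ × ℤ)) :
    feas1 L = true ↔ ∃ x : ℝ, ∀ k ∈ L, (k.1 : ℝ) * x < (k.2 : ℝ) := by
  rw [one L (fun k => (k.1 : ℝ)) (fun k => (k.2 : ℝ))]
  unfold feas1
  rw [Bool.and_eq_true, List.all_eq_true, List.all_eq_true]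
  refine and_congr ?_ ?_
  · refine forall_congr' (fun k => forall_congr' (fun _ => ?_))
    by_cases h : k.1 = 0
    · simp [h]
    · simp [h]
  · refine forall_congr' (fun p => forall_congr' (fun _ => ?_))
    rw [List.all_eq_true]
    refine forall_congr' (fun m => forall_congr' (fun _ => ?_))
    by_cases h1 : 0 < p.1
    · by_cases h2 : m.1 < 0
      · have e1 : (0 : ℝ) < (p.1 : ℝ) := by exact_mod_cast h1
        have e2 : (m.1 : ℝ) < 0 := by exact_mod_cast h2
        have e3 : ((0 : ℝ) < -((m.1 : ℝ) * (p.2 : ℝ)) + (p.1 : ℝ) * (m.2 : ℝ)) ↔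
            0 < -(m.1 * p.2) + p.1 * m.2 := by exact_mod_cast Iff.rfl
        simp only [h1, h2, e1, e2, e3, decide_true, Bool.and_self, Bool.not_true, Bool.false_or,
          decide_eq_true_eq, forall_true_left]
      · have e2 : ¬ (m.1 : ℝ) < 0 := by exact_mod_cast h2
        simp [h2, e2]
    · have e1 : ¬ (0 : ℝ) < (p.1 : ℝ) := by exact_mod_cast h1
      simp [h1, e1]

theorem elim_iff (L : List Cn) (x : ℝ) :
    (∃ y : ℝ, ∀ k ∈ L, sat k x y) ↔ ∀ k ∈ elim L, (k.1 : ℝ) * x < (k.2 : ℝ) := by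
  have h := one L (fun k => (k.2.1 : ℝ)) (fun k => (k.2.2 : ℝ) - (k.1 : ℝ) * x)
  have h' : (∃ y : ℝ, ∀ k ∈ L, sat k x y) ↔
      ∃ y : ℝ, ∀ k ∈ L, (k.2.1 : ℝ) * y < (k.2.2 : ℝ) - (k.1 : ℝ) * x := by
    refine exists_congr (fun y => forall_congr' (fun k => forall_congr' (fun _ => ?_)))
    unfold sat
    constructor <;> intro h1 <;> linarith
  rw [h', h]
  unfold elim
  constructor
  · rintro ⟨h0, h1⟩ k hk
    rw [List.mem_append] at hk
    rcases hk with hk | hk
    · rw [List.mem_map] at hk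
      obtain ⟨k', hk', rfl⟩ := hk
      rw [List.mem_filter, decide_eq_true_eq] at hk'
      have h2 := h0 k' hk'.1 (by exact_mod_cast hk'.2)
      show (k'.1 : ℝ) * x < (k'.2.2 : ℝ)
      linarith
    · rw [List.mem_flatMap] at hk
      obtain ⟨p, hp, hk⟩ := hk
      rw [List.mem_map] at hk
      obtain ⟨m, hm, rfl⟩ := hk
      rw [List.mem_filter, decide_eq_true_eq] at hp hm
      have h2 := h1 p hp.1 m hm.1 (by exact_mod_cast hp.2) (by exact_mod_cast hm.2)
      push_cast
      nlinarith [h2]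
  · intro h1
    refine ⟨fun k hk h0 => ?_, fun p hp m hm h2 h3 => ?_⟩
    · have h4 := h1 (k.1, k.2.2) (List.mem_append.2 (Or.inl (List.mem_map.2 ⟨k, List.mem_filter.2 ⟨hk, by
        rw [decide_eq_true_eq]
        exact_mod_cast h0⟩, rfl⟩)))
      have h5 : (k.1 : ℝ) * x < (k.2.2 : ℝ) := h4
      linarith
    · have h4 := h1 (-(m.2.1 * p.1) + p.2.1 * m.1, -(m.2.1 * p.2.2) + p.2.1 * m.2.2)
        (List.mem_append.2 (Or.inr (List.mem_flatMap.2 ⟨p, List.mem_filter.2 ⟨hp, by
          rw [decide_eq_true_eq]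
          exact_mod_cast h2⟩, List.mem_map.2 ⟨m, List.mem_filter.2 ⟨hm, by
          rw [decide_eq_true_eq]
          exact_mod_cast h3⟩, rfl⟩⟩)))
      push_cast at h4
      nlinarith [h4]

end FEAM

theorem specFEA : SpecFEA := by
  intro L
  unfold feasB
  rw [FEAM.feas1_iff]
  exact exists_congr (fun x => (FEAM.elim_iff L x).symm)

end Pool.Agent.Lib.MP29559a
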