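import Pool.Agent.Lib.MP_29559a_lc.OL.Spec

/-!
# MP_29559a_lc, module FIN: the theorem
-/

set_option autoImplicit false

namespace Pool.Agent.Lib.MP29559a

open Pool.Agent.PolyTime

namespace FINM

theorem cr_eq {cs : List Crs} {i : ℕ} (h : i < cs.length) : cr cs i = cs[i] := by
  unfold cr
  rw [List.getElem?_eq_getElem h, Option.getD_some]

theorem cr_mem {cs : List Crs} {i : ℕ} (h : i < cs.length) : cr cs i ∈ cs := by
  rw [cr_eq h]
  exact List.getElem_mem h

theorem sepB_iff (cs : List Crs) : sepB cs = true ↔ ∀ i < cs.length, ∀ j < cs.length, i ≠ j →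
    loS cs i j = true ∨ upS cs i j = true := by
  unfold sepB
  simp only [List.all_eq_true, List.mem_range, Bool.or_eq_true, decide_eq_true_eq]
  constructor
  · intro h i hi j hj hij
    rcases h i hi j hj with h1 | h1
    · exact absurd h1 hij
    · exact h1
  · intro h i hi j hj
    by_cases hij : i = j
    · exact Or.inl hij
    · exact Or.inr (h i hi j hj hij)

theorem geo_iff (hFLB : SpecFLB) (I : Inp) (hI : Valid I) :
    (I.2.all (fullB I.1) = true ∧ sepB I.2 = true) ↔ Geo I.1 I.2 := by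
  constructor
  · rintro ⟨h1, h2⟩
    refine ⟨hI.dir, fun i hi => (hI.crs _ (cr_mem hi)).1, ?_, (sepB_iff _).1 h2⟩
    intro i hi p hp
    have h3 : fullB I.1 (cr I.2 i) = true := (List.all_eq_true.1 h1) _ (cr_mem hi)
    exact (hFLB I hI _ (cr_mem hi)).1 h3 p hp
  · intro hG
    refine ⟨?_, (sepB_iff _).2 hG.sep⟩
    rw [List.all_eq_true]
    intro c hc
    obtain ⟨i, hi, rfl⟩ := List.mem_iff_getElem.1 hc
    have h4 := hG.full i hi
    rw [← cr_eq hi]
    exact (hFLB I hI _ (cr_mem hi)).2 h4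

end FINM

open FINM in
/-- the algorithm is correct -/
theorem decB_iff (hVHC : SpecVHC) (hLAB : SpecLAB) (hNRM : SpecNRM) (hEXC : SpecEXC)
    (hEXD : SpecEXD) (hBFS : SpecBFS) (hFLB : SpecFLB) (I : Inp) (hI : Valid I) :
    decB I = true ↔ Foldable I := by
  have hdec : decB I = true ↔ Geo I.1 I.2 ∧ (I.2.length = 0 ∨
      ∃ r < I.2.length, ∃ sb : Bool, srch I.1 (I.2, r, sb) = true) := by
    rw [← geo_iff hFLB I hI]
    unfold decB
    simp only [Bool.and_eq_true, Bool.or_eq_true, decide_eq_true_eq, List.any_eq_true,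
      List.mem_range]
    constructor
    · rintro ⟨h1, h2, h3⟩
      refine ⟨⟨h1, h2⟩, ?_⟩
      rcases h3 with h3 | ⟨r, hr, h3 | h3⟩
      · exact Or.inl h3
      · exact Or.inr ⟨r, hr, true, h3⟩
      · exact Or.inr ⟨r, hr, false, h3⟩
    · rintro ⟨⟨h1, h2⟩, h3⟩
      refine ⟨h1, h2, ?_⟩
      rcases h3 with h3 | ⟨r, hr, sb, h3⟩
      · exact Or.inl h3
      · cases sb
        · exact Or.inr ⟨r, hr, Or.inr h3⟩
        · exact Or.inr ⟨r, hr, Or.inl h3⟩
  rw [hdec]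
  constructor
  · rintro ⟨hG, h3⟩
    rcases h3 with h3 | ⟨r, hr, sb, h3⟩
    · have h4 : I.2 = [] := List.length_eq_zero_iff.1 h3
      refine ⟨[], trivial, fun p => ?_, fun p => ?_⟩
      · simp only [vall, VS, h4, List.not_mem_nil, false_and, exists_false, and_false]
      · simp only [mntn, VS, h4, List.not_mem_nil, false_and, exists_false, and_false]
    · obtain ⟨o, ho, hlen⟩ := (hBFS I.1 (I.2, r, sb) hG hr).1 h3
      obtain ⟨hcl, hok⟩ := (hVHC I.1 (I.2, r, sb) hG hr o).1 ho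
      obtain ⟨h5, h6⟩ := hLAB I.1 (I.2, r, sb) hG hr o hcl hlen hok
      exact ⟨o.map (mkF (I.2, r, sb)), hok, h5, h6⟩
  · rintro ⟨H, hok, hv, hm⟩
    have hG := hEXC I hI H hok hv hm
    refine ⟨hG, ?_⟩
    by_cases h0 : I.2 = []
    · left
      rw [h0]
      rfl
    · right
      obtain ⟨r, hr, sb, o, hcl, hlen, hF⟩ := hEXD I hI h0 H hok hv hm
      have hok' : ok I.1 (o.map (mkF (I.2, r, sb))) := (hNRM I.1 H _ hF).2.1.1 hok
      have hVH := (hVHC I.1 (I.2, r, sb) hG hr o).2 ⟨hcl, hok'⟩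
      exact ⟨r, hr, sb, (hBFS I.1 (I.2, r, sb) hG hr).2 ⟨o, hVH, hlen⟩⟩

theorem specFIN (hVHC : SpecVHC) (hLAB : SpecLAB) (hNRM : SpecNRM) (hEXC : SpecEXC)
    (hEXD : SpecEXD) (hBFS : SpecBFS) (hFLB : SpecFLB) (hPTN : SpecPTN) : SpecFIN :=
  ⟨decB, PT.tm2Bool hPTN, decB_iff hVHC hLAB hNRM hEXC hEXD hBFS hFLB⟩

end Pool.Agent.Lib.MP29559a
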