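import Pool.Agent.Lib.MP_29559a_lc.OL.Spec

/-!
# MP_29559a_lc, module FLB: the test for full chords
-/

set_option autoImplicit false

namespace Pool.Agent.Lib.MP29559a

namespace FLBM

theorem aff (a b x y z : ℝ) (hxy : x < y) (hyz : y ≤ z) (hx : 0 ≤ a + b * x) (hz : 0 < a + b * z) :
    0 < a + b * y := by
  have h : (z - x) * (a + b * y) = (z - y) * (a + b * x) + (y - x) * (a + b * z) := by ring
  have h1 : 0 < (z - x) * (a + b * y) := by
    rw [h]
    have := mul_nonneg (sub_nonneg.2 hyz) hx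
    have := mul_pos (sub_pos.2 hxy) hz
    linarith
  exact (mul_pos_iff_of_pos_left (by linarith)).1 h1

theorem aff' (a b x y z : ℝ) (hxy : x ≤ y) (hyz : y < z) (hx : 0 < a + b * x) (hz : 0 ≤ a + b * z) :
    0 < a + b * y := by
  have := aff a (-b) (-z) (-y) (-x) (by linarith) (by linarith) (by linarith) (by linarith)
  linarith

theorem core (a b : Fin 4 → ℝ) (l h t₀ : ℝ) (h0 : l ≤ t₀) (h1 : t₀ ≤ h)
    (hJ : ∀ i, 0 < a i + b i * t₀) (hc : ∀ t, l ≤ t → t ≤ h → ∀ i, 0 ≤ a i + b i * t) :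
    ((¬ ∀ i, 0 < a i + b i * l) ∧ (¬ ∀ i, 0 < a i + b i * h)) ↔
      ∀ t, (∀ i, 0 < a i + b i * t) ↔ (l < t ∧ t < h) := by
  constructor
  · rintro ⟨hl, hh⟩ t
    have hlt : l < t₀ := by
      rcases h0.lt_or_eq with h' | h'
      · exact h'
      · subst h'; exact absurd hJ hl
    have hht : t₀ < h := by
      rcases h1.lt_or_eq with h' | h'
      · exact h'
      · subst h'; exact absurd hJ hh
    constructor
    · intro ht
      constructor
      · by_contra hcon
        refine hl fun i => ?_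
        exact aff' (a i) (b i) t l t₀ (not_lt.1 hcon) hlt (ht i) (hJ i).le
      · by_contra hcon
        refine hh fun i => ?_
        exact aff (a i) (b i) t₀ h t hht (not_lt.1 hcon) (hJ i).le (ht i)
    · rintro ⟨h3, h4⟩ i
      rcases le_total t t₀ with h5 | h5
      · exact aff (a i) (b i) l t t₀ h3 h5 (hc l le_rfl (h0.trans h1) i) (hJ i)
      · exact aff' (a i) (b i) t₀ t h h5 h4 (hJ i) (hc h (h0.trans h1) le_rfl i)
  · intro H
    exact ⟨fun hl => absurd ((H l).1 hl).1 (lt_irrefl _), fun hh => absurd ((H h).1 hh).2 (lt_irrefl _)⟩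

theorem innZ_iff (R : Rct) (x y : ℤ) : innZ R x y = true ↔ inn R ((x : ℝ), (y : ℝ)) := by
  unfold innZ inn
  simp only [Bool.and_eq_true, decide_eq_true_eq]
  constructor
  · rintro ⟨⟨h1, h2⟩, h3, h4⟩
    exact ⟨by exact_mod_cast h1, by exact_mod_cast h2, by exact_mod_cast h3, by exact_mod_cast h4⟩
  · rintro ⟨h1, h2, h3, h4⟩
    exact ⟨⟨by exact_mod_cast h1, by exact_mod_cast h2⟩, by exact_mod_cast h3, by exact_mod_cast h4⟩

/-- the four affine functions on the line with fixed first coordinate -/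
theorem line1 (R : Rct) (x : ℝ) : ∃ a b : Fin 4 → ℝ, ∀ t : ℝ,
    (inn R (x, t) ↔ ∀ i, 0 < a i + b i * t) ∧ (clo R (x, t) ↔ ∀ i, 0 ≤ a i + b i * t) := by
  refine ⟨![rA R * x - r1 R, r2 R - rA R * x, -(rB R * x) - r3 R, r4 R + rB R * x],
    ![rB R, -(rB R : ℝ), rA R, -(rA R : ℝ)], fun t => ⟨?_, ?_⟩⟩
  · simp only [Fin.forall_fin_succ, inn]
    simp
    constructor
    · rintro ⟨h1, h2, h3, h4⟩
      exact ⟨by linarith, by linarith, by linarith, by linarith⟩
    · rintro ⟨h1, h2, h3, h4⟩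
      exact ⟨by linarith, by linarith, by linarith, by linarith⟩
  · simp only [Fin.forall_fin_succ, clo]
    simp
    constructor
    · rintro ⟨h1, h2, h3, h4⟩
      exact ⟨by linarith, by linarith, by linarith, by linarith⟩
    · rintro ⟨h1, h2, h3, h4⟩
      exact ⟨by linarith, by linarith, by linarith, by linarith⟩

/-- the four affine functions on the line with fixed second coordinate -/
theorem line2 (R : Rct) (x : ℝ) : ∃ a b : Fin 4 → ℝ, ∀ t : ℝ,
    (inn R (t, x) ↔ ∀ i, 0 < a i + b i * t) ∧ (clo R (t, x) ↔ ∀ i, 0 ≤ a i + b i * t) := by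
  refine ⟨![rB R * x - r1 R, r2 R - rB R * x, rA R * x - r3 R, r4 R - rA R * x],
    ![rA R, -(rA R : ℝ), -(rB R : ℝ), rB R], fun t => ⟨?_, ?_⟩⟩
  · simp only [Fin.forall_fin_succ, inn]
    simp
    constructor
    · rintro ⟨h1, h2, h3, h4⟩
      exact ⟨by linarith, by linarith, by linarith, by linarith⟩
    · rintro ⟨h1, h2, h3, h4⟩
      exact ⟨by linarith, by linarith, by linarith, by linarith⟩
  · simp only [Fin.forall_fin_succ, clo]
    simp
    constructor
    · rintro ⟨h1, h2, h3, h4⟩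
      exact ⟨by linarith, by linarith, by linarith, by linarith⟩
    · rintro ⟨h1, h2, h3, h4⟩
      exact ⟨by linarith, by linarith, by linarith, by linarith⟩

end FLBM

open FLBM in
theorem specFLB : SpecFLB := by
  intro I hI c hc
  obtain ⟨hlt, hclo, p0, ⟨hs0, hs1, hs2⟩, hi0⟩ := hI.crs c hc
  cases hv : vt c
  · rw [hv] at hs0 hs1 hs2
    simp only [lc, Bool.not_false, if_true, Bool.false_eq_true, if_false] at hs0 hs1 hs2
    obtain ⟨a, b, hab⟩ := line2 I.1 (at' c : ℝ)
    have hp0 : p0 = (p0.1, (at' c : ℝ)) := Prod.ext rfl hs0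
    rw [hp0] at hi0
    have key := core a b (lo c) (hi c) p0.1 hs1 hs2 ((hab _).1.1 hi0) (by
      intro t h1 h2
      refine (hab t).2.1 (hclo (t, (at' c : ℝ)) ⟨?_, ?_, ?_⟩)
      · rw [hv]; simp [lc]
      · rw [hv]; simpa [lc] using h1
      · rw [hv]; simpa [lc] using h2)
    have hf : fullB I.1 c = true ↔ (¬ inn I.1 ((lo c : ℝ), (at' c : ℝ)) ∧ ¬ inn I.1 ((hi c : ℝ), (at' c : ℝ))) := by
      rw [← innZ_iff, ← innZ_iff]
      simp [fullB, hv]
    rw [hf, (hab _).1, (hab _).1, key]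
    constructor
    · intro H p hp
      simp only [lc, Bool.not_false, if_true, Bool.false_eq_true, if_false] at hp ⊢
      have e : p = (p.1, (at' c : ℝ)) := Prod.ext rfl hp
      rw [← H p.1, ← (hab p.1).1, ← e]
    · intro H t
      rw [← (hab t).1]
      have := H (t, (at' c : ℝ)) (by simp [lc])
      simpa [lc] using this
  · rw [hv] at hs0 hs1 hs2
    simp only [lc, Bool.not_true, if_true, Bool.false_eq_true, if_false] at hs0 hs1 hs2
    obtain ⟨a, b, hab⟩ := line1 I.1 (at' c : ℝ)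
    have hp0 : p0 = ((at' c : ℝ), p0.2) := Prod.ext hs0 rfl
    rw [hp0] at hi0
    have key := core a b (lo c) (hi c) p0.2 hs1 hs2 ((hab _).1.1 hi0) (by
      intro t h1 h2
      refine (hab t).2.1 (hclo ((at' c : ℝ), t) ⟨?_, ?_, ?_⟩)
      · rw [hv]; simp [lc]
      · rw [hv]; simpa [lc] using h1
      · rw [hv]; simpa [lc] using h2)
    have hf : fullB I.1 c = true ↔ (¬ inn I.1 ((at' c : ℝ), (lo c : ℝ)) ∧ ¬ inn I.1 ((at' c : ℝ), (hi c : ℝ))) := by
      rw [← innZ_iff, ← innZ_iff]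
      simp [fullB, hv]
    rw [hf, (hab _).1, (hab _).1, key]
    constructor
    · intro H p hp
      simp only [lc, Bool.not_true, if_true, Bool.false_eq_true, if_false] at hp ⊢
      have e : p = ((at' c : ℝ), p.2) := Prod.ext hp rfl
      rw [← H p.2, ← (hab p.2).1, ← e]
    · intro H t
      rw [← (hab t).1]
      have := H ((at' c : ℝ), t) (by simp [lc])
      simpa [lc] using this

end Pool.Agent.Lib.MP29559a
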