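import Pool.Agent.Lib.MP_29559a_lc.OL.GSpec

/-!
# MP_29559a_lc, module GAB: the layer order and the heights
-/

set_option autoImplicit false

namespace Pool.Agent.Lib.MP29559a

namespace GABM

theorem hgt_le (K : List Fold) (q : Pt) : hgt K q ≤ K.length ∧ -(K.length : ℤ) ≤ hgt K q := by
  induction K with
  | nil => simp [hgt]
  | cons G K ih =>
    have hl : ((G :: K).length : ℤ) = (K.length : ℤ) + 1 := by
      rw [List.length_cons]; push_cast; ring
    rw [hl]
    simp only [hgt]
    obtain ⟨h1, h2⟩ := ih
    split_ifs <;> constructor <;> omega

theorem main (hCST : SpecCST) (R : Rct) : ∀ (H : List SFold) (K : List Fold), Mat R H K → ok R K →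
    ∀ p q, inn R p → inn R q → (abv H p q ↔ hgt K q < hgt K p) := by
  intro H
  induction H with
  | nil =>
    intro K hM _ p q _ _
    cases K with
    | nil => simp [abv, hgt]
    | cons G K => exact absurd hM (by simp [Mat])
  | cons F H ih =>
    intro K hM hok p q hp hq
    cases K with
    | nil => exact absurd hM (by simp [Mat])
    | cons G K =>
      obtain ⟨hM', hP, hd, -, -, -⟩ := hM
      have hok' : ok R K := hok.1
      have hmem : ∀ z, inn R z → (z ∈ F.P ↔ G.cap z) := by
        intro z hz
        rw [hP]
        exact ⟨fun h => h.2, fun h => ⟨hz, h⟩⟩
      have ep := hmem p hp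
      have eq := hmem q hq
      obtain ⟨bp1, bp2⟩ := hgt_le K p
      obtain ⟨bq1, bq2⟩ := hgt_le K q
      by_cases cp : G.cap p
      · by_cases cq : G.cap q
        · obtain ⟨-, hh, -⟩ := hCST R G K hok p q hp hq cp cq
          have h1 := ih K hM' hok' q p hq hp
          have mp : p ∈ F.P := ep.2 cp
          have mq : q ∈ F.P := eq.2 cq
          simp only [abv, hgt, mp, mq, cp, cq, if_true, true_and, not_true, false_and, or_false,
            lt_irrefl, iff_false, h1, hh, not_false_iff]
        · have mp : p ∈ F.P := ep.2 cp
          have mq : q ∉ F.P := fun h => cq (eq.1 h)
          cases hG : G.d with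
          | true =>
            rw [hG] at hd
            simp only [abv, hgt, mp, mq, cp, cq, if_true, hd, hG, true_and, not_false_iff,
              false_and, or_false, false_or, not_true, true_iff, if_false, and_self, true_or]
            omega
          | false =>
            rw [hG] at hd
            simp only [abv, hgt, mp, mq, cp, cq, if_true, hd, hG, true_and, not_false_iff,
              false_and, or_false, false_or, not_true, if_false, and_self, Bool.false_eq_true,
              false_iff]
            omega
      · by_cases cq : G.cap q
        · have mp : p ∉ F.P := fun h => cp (ep.1 h)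
          have mq : q ∈ F.P := eq.2 cq
          cases hG : G.d with
          | true =>
            rw [hG] at hd
            simp only [abv, hgt, mp, mq, cp, cq, if_true, hd, hG, true_and, not_false_iff,
              false_and, or_false, false_or, not_true, if_false, and_self, Bool.true_eq_false,
              false_iff]
            omega
          | false =>
            rw [hG] at hd
            simp only [abv, hgt, mp, mq, cp, cq, if_true, hd, hG, true_and, not_false_iff,
              false_and, or_false, false_or, not_true, if_false, and_self, Bool.false_eq_true,
              true_iff, true_or]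
            omega
        · have mp : p ∉ F.P := fun h => cp (ep.1 h)
          have mq : q ∉ F.P := fun h => cq (eq.1 h)
          have h1 := ih K hM' hok' p q hp hq
          simp only [abv, hgt, mp, mq, cp, cq, if_false, true_and, not_false_iff, false_and,
            false_or, h1]

end GABM

theorem specGAB (hCST : SpecCST) : SpecGAB := fun R H K => GABM.main hCST R H K

end Pool.Agent.Lib.MP29559a
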