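import Pool.Agent.Lib.MP_29559a_lc.OL.GSpec

/-!
# GAF (MP_29559a_lc): the isometries of the layers
-/

set_option autoImplicit false

namespace Pool.Agent.Lib.MP29559a

open Pool.Agent.PolyTime

namespace GAFM

/-- the matrix `a b / c d` is orthogonal -/
structure Rel (a b c d : ℝ) : Prop where
  h1 : a ^ 2 + c ^ 2 = 1
  h2 : b ^ 2 + d ^ 2 = 1
  h3 : a * b + c * d = 0
  h4 : a ^ 2 + b ^ 2 = 1
  h5 : c ^ 2 + d ^ 2 = 1
  h6 : a * c + b * d = 0

lemma Rel.comp {a b c d p q r s : ℝ} (h : Rel a b c d) (k : Rel p q r s) :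
    Rel (a * p + b * r) (a * q + b * s) (c * p + d * r) (c * q + d * s) where
  h1 := by linear_combination p ^ 2 * h.h1 + r ^ 2 * h.h2 + 2 * p * r * h.h3 + k.h1
  h2 := by linear_combination q ^ 2 * h.h1 + s ^ 2 * h.h2 + 2 * q * s * h.h3 + k.h2
  h3 := by linear_combination p * q * h.h1 + r * s * h.h2 + (p * s + q * r) * h.h3 + k.h3
  h4 := by linear_combination a ^ 2 * k.h4 + b ^ 2 * k.h5 + 2 * a * b * k.h6 + h.h4
  h5 := by linear_combination c ^ 2 * k.h4 + d ^ 2 * k.h5 + 2 * c * d * k.h6 + h.h5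
  h6 := by linear_combination a * c * k.h4 + b * d * k.h5 + (a * d + b * c) * k.h6 + h.h6

lemma nsq {u : Pt} (hu : u ≠ 0) : 0 < u.1 ^ 2 + u.2 ^ 2 := by
  by_contra h
  have h1 : u.1 = 0 := by nlinarith [sq_nonneg u.1, sq_nonneg u.2]
  have h2 : u.2 = 0 := by nlinarith [sq_nonneg u.1, sq_nonneg u.2]
  exact hu (Prod.ext h1 h2)

lemma ne_of_nsq {u : Pt} (h : 0 < u.1 ^ 2 + u.2 ^ 2) : u ≠ 0 := by
  rintro rfl
  simp at h

lemma refl_rel {x y : ℝ} (h : 0 < x ^ 2 + y ^ 2) :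
    Rel (1 - 2 * x ^ 2 / (x ^ 2 + y ^ 2)) (-(2 * x * y / (x ^ 2 + y ^ 2)))
      (-(2 * x * y / (x ^ 2 + y ^ 2))) (1 - 2 * y ^ 2 / (x ^ 2 + y ^ 2)) := by
  have hn : x ^ 2 + y ^ 2 ≠ 0 := h.ne'
  constructor <;> (field_simp; ring)

lemma iso_form (K : List Fold) (p : Pt) (hK : ∀ G ∈ K, G.u ≠ 0) :
    ∃ a b c d e f : ℝ, Rel a b c d ∧
      ∀ z, iso K p z = (a * z.1 + b * z.2 + e, c * z.1 + d * z.2 + f) := by
  induction K with
  | nil =>
    refine ⟨1, 0, 0, 1, 0, 0, ⟨by norm_num, by norm_num, by norm_num, by norm_num, by norm_num,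
      by norm_num⟩, fun z => ?_⟩
    simp [iso]
  | cons G K ih =>
    obtain ⟨a, b, c, d, e, f, hr, hf⟩ := ih fun G' h' => hK G' (List.mem_cons_of_mem _ h')
    by_cases hc : G.cap p
    · have hn := nsq (hK G List.mem_cons_self)
      have hn' : G.u.1 ^ 2 + G.u.2 ^ 2 ≠ 0 := hn.ne'
      have hk := hr.comp (refl_rel hn)
      refine ⟨_, _, _, _, a * (2 * G.s * G.u.1 / (G.u.1 ^ 2 + G.u.2 ^ 2)) +
        b * (2 * G.s * G.u.2 / (G.u.1 ^ 2 + G.u.2 ^ 2)) + e,
        c * (2 * G.s * G.u.1 / (G.u.1 ^ 2 + G.u.2 ^ 2)) +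
        d * (2 * G.s * G.u.2 / (G.u.1 ^ 2 + G.u.2 ^ 2)) + f, hk, fun z => ?_⟩
      have h1 : iso (G :: K) p z = iso K p (G.refl z) := by
        simp only [iso, if_pos hc]
      rw [h1, hf]
      refine Prod.ext ?_ ?_
      · simp only [Fold.refl, Fold.lin, Prod.fst_sub, Prod.snd_sub, Prod.smul_fst, Prod.smul_snd,
          smul_eq_mul]
        field_simp
        ring
      · simp only [Fold.refl, Fold.lin, Prod.fst_sub, Prod.snd_sub, Prod.smul_fst, Prod.smul_snd,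
          smul_eq_mul]
        field_simp
        ring
    · refine ⟨a, b, c, d, e, f, hr, fun z => ?_⟩
      have h1 : iso (G :: K) p z = iso K p z := by
        simp only [iso, if_neg hc]
      rw [h1, hf]

end GAFM

open GAFM in
theorem specGAF : SpecGAF := by
  intro K p hK
  obtain ⟨a, b, c, d, e, f, hr, hf⟩ := iso_form K p hK
  refine ⟨?_, ?_⟩
  · intro P u s dd hu
    have hn := nsq hu
    have hsq : (a * u.1 + c * u.2) ^ 2 + (b * u.1 + d * u.2) ^ 2 = u.1 ^ 2 + u.2 ^ 2 := by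
      linear_combination u.1 ^ 2 * hr.h4 + u.2 ^ 2 * hr.h5 + 2 * u.1 * u.2 * hr.h6
    refine ⟨⟨(a * u.1 + c * u.2, b * u.1 + d * u.2), s - e * u.1 - f * u.2, dd⟩, ?_, rfl, ?_⟩
    · exact ne_of_nsq (by show 0 < (a * u.1 + c * u.2) ^ 2 + (b * u.1 + d * u.2) ^ 2; rw [hsq]; exact hn)
    · intro z
      constructor
      · simp only [SFold.lin, Fold.lin, hf]
        ring
      · rw [hf, hf]
        have hM1 : a * (a * u.1 + c * u.2) + b * (b * u.1 + d * u.2) = u.1 := by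
          linear_combination u.1 * hr.h4 + u.2 * hr.h6
        have hM2 : c * (a * u.1 + c * u.2) + d * (b * u.1 + d * u.2) = u.2 := by
          linear_combination u.1 * hr.h6 + u.2 * hr.h5
        refine Prod.ext ?_ ?_
        · simp only [SFold.refl, SFold.lin, Fold.refl, Fold.lin, Prod.fst_sub, Prod.snd_sub,
            Prod.smul_fst, Prod.smul_snd, smul_eq_mul, hsq]
          linear_combination (2 * ((a * u.1 + c * u.2) * z.1 + (b * u.1 + d * u.2) * z.2 -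
            (s - e * u.1 - f * u.2)) / (u.1 ^ 2 + u.2 ^ 2)) * hM1
        · simp only [SFold.refl, SFold.lin, Fold.refl, Fold.lin, Prod.fst_sub, Prod.snd_sub,
            Prod.smul_fst, Prod.smul_snd, smul_eq_mul, hsq]
          linear_combination (2 * ((a * u.1 + c * u.2) * z.1 + (b * u.1 + d * u.2) * z.2 -
            (s - e * u.1 - f * u.2)) / (u.1 ^ 2 + u.2 ^ 2)) * hM2
  · intro P G hG
    have hn := nsq hG
    have hsq : (a * G.u.1 + b * G.u.2) ^ 2 + (c * G.u.1 + d * G.u.2) ^ 2 =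
        G.u.1 ^ 2 + G.u.2 ^ 2 := by
      linear_combination G.u.1 ^ 2 * hr.h1 + G.u.2 ^ 2 * hr.h2 + 2 * G.u.1 * G.u.2 * hr.h3
    have hlin : ∀ z : Pt, (a * G.u.1 + b * G.u.2) * (a * z.1 + b * z.2 + e) +
        (c * G.u.1 + d * G.u.2) * (c * z.1 + d * z.2 + f) -
        (G.s + e * (a * G.u.1 + b * G.u.2) + f * (c * G.u.1 + d * G.u.2)) =
        G.u.1 * z.1 + G.u.2 * z.2 - G.s := by
      intro z
      linear_combination G.u.1 * z.1 * hr.h1 + G.u.2 * z.2 * hr.h2 +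
        (G.u.1 * z.2 + G.u.2 * z.1) * hr.h3
    refine ⟨⟨P, (a * G.u.1 + b * G.u.2, c * G.u.1 + d * G.u.2),
      G.s + e * (a * G.u.1 + b * G.u.2) + f * (c * G.u.1 + d * G.u.2), G.d⟩, rfl, ?_, rfl, ?_⟩
    · exact ne_of_nsq (by
        show 0 < (a * G.u.1 + b * G.u.2) ^ 2 + (c * G.u.1 + d * G.u.2) ^ 2
        rw [hsq]; exact hn)
    · intro z
      constructor
      · simp only [SFold.lin, Fold.lin, hf]
        exact hlin z
      · rw [hf, hf]
        refine Prod.ext ?_ ?_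
        · simp only [SFold.refl, SFold.lin, Fold.refl, Fold.lin, Prod.fst_sub, Prod.snd_sub,
            Prod.smul_fst, Prod.smul_snd, smul_eq_mul, hsq, hlin]
          ring
        · simp only [SFold.refl, SFold.lin, Fold.refl, Fold.lin, Prod.fst_sub, Prod.snd_sub,
            Prod.smul_fst, Prod.smul_snd, smul_eq_mul, hsq, hlin]
          ring

end Pool.Agent.Lib.MP29559a
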