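import Pool.Agent.Lib.MP_29559a_lc.OL.GSpec

/-! # Module GCP: the rotated part is the whole cap -/

set_option autoImplicit false

namespace Pool.Agent.Lib.MP29559a

theorem specGCP (hGFR : SpecGFR) : SpecGCP := by
  intro R G P hu hne hP hfr
  obtain ⟨-, hpre, -⟩ := hGFR R G hu
  refine Set.Subset.antisymm (fun p hp => hP p hp) fun q hq => ?_
  by_contra hqP
  obtain ⟨p0, hp0⟩ := hne
  -- no point of the cap is in the frontier of `P`
  have key : ∀ p, (inn R p ∧ G.cap p) → p ∈ closure P → p ∈ interior P := by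
    intro p hp hcl
    by_contra hint
    have h1 : G.lin p = G.s := hfr p ⟨hcl, hint⟩ hp.1
    have h2 : G.s < G.lin p := hp.2
    exact h2.ne h1.symm
  obtain ⟨z, -, hz1, hz2⟩ := hpre (interior P) (closure P)ᶜ isOpen_interior
    isClosed_closure.isOpen_compl
    (fun p hp => by
      by_cases h : p ∈ closure P
      · exact Or.inl (key p hp h)
      · exact Or.inr h)
    ⟨p0, hP p0 hp0, key p0 (hP p0 hp0) (subset_closure hp0)⟩
    ⟨q, hq, fun h => hqP (interior_subset (key q hq h))⟩
  exact hz2 (interior_subset_closure hz1)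

end Pool.Agent.Lib.MP29559a
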