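import Pool.Agent.Lib.MP_29559a_lc.OL.GSpec

/-!
# MP_29559a_lc, module GEQ: the general folding process gives the same patterns
-/

set_option autoImplicit false

namespace Pool.Agent.Lib.MP29559a

namespace GEQM

theorem exK (hGTO : SpecGTO) (R : Rct) :
    ∀ H : List SFold, OneLayer R H → ∃ K : List Fold, Mat R H K
  | [], _ => ⟨[], trivial⟩
  | F :: H, h => by
      have h0 : OneLayer R H := by
        unfold OneLayer at h
        exact h.1
      obtain ⟨K, hK⟩ := exK hGTO R H h0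
      obtain ⟨G, hG⟩ := hGTO R F H K hK h
      exact ⟨G :: K, hG⟩

theorem exH (hGFM : SpecGFM) (R : Rct) :
    ∀ K : List Fold, ok R K → ∃ H : List SFold, Mat R H K
  | [], _ => ⟨[], trivial⟩
  | G :: K, h => by
      have h0 : ok R K := by
        unfold ok at h
        exact h.1
      obtain ⟨H, hH⟩ := exH hGFM R K h0
      obtain ⟨F, hF⟩ := hGFM R H G K hH h
      exact ⟨F :: H, hF⟩

end GEQM

open GEQM

theorem specGEQ (hGMT : SpecGMT) (hGOK : SpecGOK) (hGTO : SpecGTO) (hGFM : SpecGFM) :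
    SpecGEQ := by
  intro I
  constructor
  · rintro ⟨H, hH, hv, hm⟩
    obtain ⟨K, hK⟩ := exK hGTO I.1 H hH
    obtain ⟨_, _, _, h1, h2⟩ := hGMT I.1 H K hK
    exact ⟨K, (hGOK I.1 H K hK).1 hH, fun p => (h1 p).symm.trans (hv p),
      fun p => (h2 p).symm.trans (hm p)⟩
  · rintro ⟨K, hK, hv, hm⟩
    obtain ⟨H, hH⟩ := exH hGFM I.1 K hK
    obtain ⟨_, _, _, h1, h2⟩ := hGMT I.1 H K hH
    exact ⟨H, (hGOK I.1 H K hH).2 hK, fun p => (h1 p).trans (hv p),
      fun p => (h2 p).trans (hm p)⟩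

end Pool.Agent.Lib.MP29559a
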