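import Pool.Agent.Lib.MP_29559a_lc.OL.GSpec

/-! MP_29559a_lc, module GFM: a fold of the paper as a fold of the folded state. -/

set_option autoImplicit false

namespace Pool.Agent.Lib.MP29559a

open Pool.Agent.PolyTime

theorem specGFM (hGAF : SpecGAF) (hGMT : SpecGMT) (hCST : SpecCST) : SpecGFM := by
  intro R H G K hM hok
  have hok' := hok
  obtain ⟨_, hGu, ⟨p0, hp0, hc0⟩, _⟩ := hok'
  have hK := (hGMT R H K hM).1
  obtain ⟨F, hFP, hFu, hFd, hL⟩ := (hGAF K p0 hK).2 {p | inn R p ∧ G.cap p} G hGu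
  refine ⟨F, hM, hFP, hFd, hFu, hGu, ?_⟩
  intro p hp
  rw [hFP] at hp
  have h1 := (hCST R G K hok p p0 hp.1 hp0 hp.2 hc0).1
  rw [h1]
  exact hL

end Pool.Agent.Lib.MP29559a
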