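import Pool.Agent.Lib.MP_29559a_lc.OL.GSpec

/-!
# MP_29559a_lc: module GFR (the cap of a line)
-/

set_option autoImplicit false

namespace Pool.Agent.Lib.MP29559a

open Pool.Agent.PolyTime

namespace GFRM

open Set Filter Topology

theorem isLin (a b : ℝ) : IsLinearMap ℝ (fun p : Pt => a * p.1 + b * p.2) := by
  constructor
  · intro x y
    simp only [Prod.fst_add, Prod.snd_add]
    ring
  · intro c x
    simp only [Prod.smul_fst, Prod.smul_snd, smul_eq_mul]
    ring

theorem isLin' (a b : ℝ) : IsLinearMap ℝ (fun p : Pt => a * p.2 - b * p.1) := by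
  constructor
  · intro x y
    simp only [Prod.fst_add, Prod.snd_add]
    ring
  · intro c x
    simp only [Prod.smul_fst, Prod.smul_snd, smul_eq_mul]
    ring

theorem cont (a b : ℝ) : Continuous (fun p : Pt => a * p.1 + b * p.2) := by fun_prop

theorem cont' (a b : ℝ) : Continuous (fun p : Pt => a * p.2 - b * p.1) := by fun_prop

theorem inn_open (R : Rct) : IsOpen {p : Pt | inn R p} := by
  unfold inn
  exact (isOpen_lt continuous_const (cont _ _)).inter ((isOpen_lt (cont _ _) continuous_const).inter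
    ((isOpen_lt continuous_const (cont' _ _)).inter (isOpen_lt (cont' _ _) continuous_const)))

theorem inn_conv (R : Rct) : Convex ℝ {p : Pt | inn R p} := by
  unfold inn
  exact (convex_halfSpace_gt (isLin _ _) _).inter ((convex_halfSpace_lt (isLin _ _) _).inter
    ((convex_halfSpace_gt (isLin' _ _) _).inter (convex_halfSpace_lt (isLin' _ _) _)))

theorem lin_cont (G : Fold) : Continuous G.lin := cont _ _

theorem lin_add (G : Fold) (p : Pt) (t : ℝ) :
    G.lin (p + t • G.u) = G.lin p + t * (G.u.1 ^ 2 + G.u.2 ^ 2) := by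
  unfold Fold.lin
  simp only [Prod.fst_add, Prod.snd_add, Prod.smul_fst, Prod.smul_snd, smul_eq_mul]
  ring

theorem sq_pos {G : Fold} (hu : G.u ≠ 0) : 0 < G.u.1 ^ 2 + G.u.2 ^ 2 := by
  by_contra h
  have h1 : G.u.1 = 0 := by nlinarith [sq_nonneg G.u.1, sq_nonneg G.u.2]
  have h2 : G.u.2 = 0 := by nlinarith [sq_nonneg G.u.1, sq_nonneg G.u.2]
  exact hu (Prod.ext h1 h2)

theorem tend (p u : Pt) : Tendsto (fun t : ℝ => p + t • u) (𝓝 0) (𝓝 p) := by
  have h : Continuous fun t : ℝ => p + t • u := by fun_prop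
  have h2 := h.tendsto 0
  rwa [zero_smul, add_zero] at h2

/-- near a point of the interior -/
theorem ev (R : Rct) {p : Pt} (hp : inn R p) (u : Pt) : ∀ᶠ t in 𝓝 (0 : ℝ), inn R (p + t • u) :=
  (tend p u).eventually ((inn_open R).mem_nhds hp)

theorem up {R : Rct} {G : Fold} (hu : G.u ≠ 0) {p : Pt} (hp : inn R p) (ho : G.on p) :
    ∀ᶠ t in 𝓝[>] (0 : ℝ), p + t • G.u ∈ {p | inn R p ∧ G.cap p} := by
  filter_upwards [(ev R hp G.u).filter_mono nhdsWithin_le_nhds, self_mem_nhdsWithin] with t h1 h2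
  refine ⟨h1, ?_⟩
  show G.s < G.lin (p + t • G.u)
  have h3 : G.lin p = G.s := ho
  rw [lin_add, h3]
  have h4 : 0 < t * (G.u.1 ^ 2 + G.u.2 ^ 2) := mul_pos h2 (sq_pos hu)
  linarith

theorem down {R : Rct} {G : Fold} (hu : G.u ≠ 0) {p : Pt} (hp : inn R p) (ho : G.on p) :
    ∃ q, inn R q ∧ G.lin q < G.s := by
  have h : ∀ᶠ t in 𝓝[<] (0 : ℝ), inn R (p + t • G.u) ∧ G.lin (p + t • G.u) < G.s := by
    filter_upwards [(ev R hp G.u).filter_mono nhdsWithin_le_nhds, self_mem_nhdsWithin] with t h1 h2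
    refine ⟨h1, ?_⟩
    have h3 : G.lin p = G.s := ho
    rw [lin_add, h3]
    have h4 : t * (G.u.1 ^ 2 + G.u.2 ^ 2) < 0 := mul_neg_of_neg_of_pos h2 (sq_pos hu)
    linarith
  obtain ⟨t, ht⟩ := h.exists
  exact ⟨_, ht⟩

end GFRM

open GFRM Set Filter Topology in
theorem specGFR : SpecGFR := by
  intro R G hu
  have hopen : IsOpen {p | inn R p ∧ G.cap p} :=
    (inn_open R).inter (isOpen_lt continuous_const (lin_cont G))
  refine ⟨hopen, ?_, ?_, ?_, ?_, ?_⟩
  · have h : Convex ℝ {p | inn R p ∧ G.cap p} :=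
      (inn_conv R).inter (convex_halfSpace_gt (isLin _ _) _)
    exact h.isPreconnected
  · have h : Convex ℝ {p | inn R p ∧ G.s ≤ G.lin p} :=
      (inn_conv R).inter (convex_halfSpace_ge (isLin _ _) _)
    exact h.isPreconnected
  · intro p hp
    rw [hopen.frontier_eq]
    constructor
    · rintro ⟨h1, h2⟩
      have h3 : closure {p | inn R p ∧ G.cap p} ⊆ {p | G.s ≤ G.lin p} :=
        closure_minimal (fun q hq => le_of_lt hq.2) (isClosed_le continuous_const (lin_cont G))
      have h4 : G.s ≤ G.lin p := h3 h1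
      by_contra h5
      exact h2 ⟨hp, lt_of_le_of_ne h4 (Ne.symm h5)⟩
    · intro ho
      refine ⟨?_, fun h => ?_⟩
      · exact mem_closure_of_tendsto ((tend p G.u).mono_left nhdsWithin_le_nhds) (up hu hp ho)
      · have h1 : G.s < G.lin p := h.2
        have h2 : G.lin p = G.s := ho
        linarith
  · rintro ⟨p, hp, ho⟩
    refine ⟨?_, down hu hp ho⟩
    obtain ⟨t, ht⟩ := (up hu hp ho).exists
    exact ⟨_, ht⟩
  · rintro ⟨p, hp, hc⟩ ⟨q, hq, hl⟩
    have h1 := (inn_conv R).isPreconnected.intermediate_value hq hp (lin_cont G).continuousOn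
    obtain ⟨z, hz, hz2⟩ := h1 ⟨le_of_lt hl, le_of_lt hc⟩
    exact ⟨z, hz, hz2⟩

end Pool.Agent.Lib.MP29559a
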