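import Pool.Agent.Lib.MP_29559a_lc.OL.GSpec

/-!
# MP_29559a_lc, module GMT: matching sequences of folds
-/

set_option autoImplicit false

namespace Pool.Agent.Lib.MP29559a

open Pool.Agent.PolyTime

open Classical in
theorem specGMT (hGFR : SpecGFR) : SpecGMT := by
  intro R H
  induction H with
  | nil =>
    intro K hM
    cases K with
    | nil =>
      refine ⟨fun G hG => absurd hG (by simp), fun p _ => ⟨rfl, rfl⟩, fun p => ?_,
        fun p => Iff.rfl, fun p => Iff.rfl⟩
      simp [Crease]
    | cons G K => exact False.elim hM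
  | cons F H ih =>
    intro K hM
    cases K with
    | nil => exact False.elim hM
    | cons G K =>
      obtain ⟨hM', hP, hd, hFu, hGu, hL⟩ := hM
      obtain ⟨h1, h2, h3, h4, h5⟩ := ih K hM'
      have hfr : ∀ p, inn R p → (p ∈ frontier F.P ↔ G.on p) := by
        intro p hp
        rw [hP]
        exact (hGFR R G hGu).2.2.2.1 p hp
      have hmem : ∀ p, inn R p → (p ∈ F.P ↔ G.cap p) := by
        intro p hp
        rw [hP]
        exact ⟨fun h => h.2, fun h => ⟨hp, h⟩⟩
      have hinn : ∀ p, p ∈ F.P → inn R p := by
        intro p hp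
        rw [hP] at hp
        exact hp.1
      refine ⟨?_, ?_, ?_, ?_, ?_⟩
      · intro G' hG'
        rcases List.mem_cons.mp hG' with h | h
        · rw [h]
          exact hGu
        · exact h1 G' h
      · intro p hp
        by_cases hc : G.cap p
        · have hm : p ∈ F.P := (hmem p hp).mpr hc
          constructor
          · show (if p ∈ F.P then F.refl (pos H p) else pos H p) =
              (if G.cap p then fun z => iso K p (G.refl z) else iso K p) p
            rw [if_pos hm, if_pos hc, (h2 p hp).1]
            exact (hL p hm p).2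
          · show (if p ∈ F.P then !(top H p) else top H p) =
              if G.cap p then !(face K p) else face K p
            rw [if_pos hm, if_pos hc, (h2 p hp).2]
        · have hm : p ∉ F.P := fun h => hc ((hmem p hp).mp h)
          constructor
          · show (if p ∈ F.P then F.refl (pos H p) else pos H p) =
              (if G.cap p then fun z => iso K p (G.refl z) else iso K p) p
            rw [if_neg hm, if_neg hc, (h2 p hp).1]
          · show (if p ∈ F.P then !(top H p) else top H p) =
              if G.cap p then !(face K p) else face K p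
            rw [if_neg hm, if_neg hc, (h2 p hp).2]
      · intro p
        constructor
        · rintro ⟨hp, F', hF', hpF'⟩
          refine ⟨hp, ?_⟩
          rcases List.mem_cons.mp hF' with h | h
          · rw [h] at hpF'
            exact ⟨G, List.mem_cons_self, (hfr p hp).mp hpF'⟩
          · obtain ⟨G', hG', hon⟩ := ((h3 p).mp ⟨hp, F', h, hpF'⟩).2
            exact ⟨G', List.mem_cons_of_mem _ hG', hon⟩
        · rintro ⟨hp, G', hG', hon⟩
          refine ⟨hp, ?_⟩
          rcases List.mem_cons.mp hG' with h | h
          · rw [h] at hon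
            exact ⟨F, List.mem_cons_self, (hfr p hp).mpr hon⟩
          · obtain ⟨F', hF', hf⟩ := ((h3 p).mpr ⟨hp, G', h, hon⟩).2
            exact ⟨F', List.mem_cons_of_mem _ hF', hf⟩
      · intro p
        show (vly R H p ∨ (inn R p ∧ p ∈ frontier F.P ∧ ∃ q ∈ F.P, top H q = F.d)) ↔
          (vall R K p ∨ (inn R p ∧ G.on p ∧ ∃ q, inn R q ∧ G.cap q ∧ face K q = G.d))
        refine or_congr (h4 p) ?_
        constructor
        · rintro ⟨hp, hf, q, hq, ht⟩
          refine ⟨hp, (hfr p hp).mp hf, q, hinn q hq, (hmem q (hinn q hq)).mp hq, ?_⟩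
          rw [← (h2 q (hinn q hq)).2, ht, hd]
        · rintro ⟨hp, hon, q, hq, hc, ht⟩
          refine ⟨hp, (hfr p hp).mpr hon, q, (hmem q hq).mpr hc, ?_⟩
          rw [(h2 q hq).2, ht, hd]
      · intro p
        show (mnt R H p ∨ (inn R p ∧ p ∈ frontier F.P ∧ ∃ q ∈ F.P, top H q ≠ F.d)) ↔
          (mntn R K p ∨ (inn R p ∧ G.on p ∧ ∃ q, inn R q ∧ G.cap q ∧ face K q ≠ G.d))
        refine or_congr (h5 p) ?_
        constructor
        · rintro ⟨hp, hf, q, hq, ht⟩
          refine ⟨hp, (hfr p hp).mp hf, q, hinn q hq, (hmem q (hinn q hq)).mp hq, ?_⟩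
          rw [← (h2 q (hinn q hq)).2, ← hd]
          exact ht
        · rintro ⟨hp, hon, q, hq, hc, ht⟩
          refine ⟨hp, (hfr p hp).mpr hon, q, (hmem q hq).mpr hc, ?_⟩
          rw [(h2 q hq).2, hd]
          exact ht

end Pool.Agent.Lib.MP29559a
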