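import Pool.Agent.Lib.MP_29559a_lc.OL.GSpec

/-!
# GOK: the conditions for general layers and for caps are equivalent
-/

set_option autoImplicit false

namespace Pool.Agent.Lib.MP29559a

open Pool.Agent.PolyTime

namespace GOKM

lemma fwd (hGFR : SpecGFR) (hGMT : SpecGMT) (hGAB : SpecGAB) (R : Rct) (F : SFold)
    (H : List SFold) (G : Fold) (K : List Fold) (hM : Mat R H K)
    (hP : F.P = {p | inn R p ∧ G.cap p}) (hd : F.d = G.d) (hG : G.u ≠ 0)
    (hK : ok R K) (h : OneLayer R (F :: H)) : ok R (G :: K) := by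
  obtain ⟨_, _, _, hconn, hA, ⟨p1, hp1, hp1i⟩, hC, hD⟩ := h
  obtain ⟨_, hpos, hcr, _, _⟩ := hGMT R H K hM
  obtain ⟨_, _, _, hfr, hboth, _⟩ := hGFR R G hG
  have hmem : ∀ p, p ∈ F.P ↔ inn R p ∧ G.cap p := by
    intro p; rw [hP]; exact Iff.rfl
  have hfr' : ∀ p, inn R p → (p ∈ frontier F.P ↔ G.on p) := by
    intro p hp; rw [hP]; exact hfr p hp
  obtain ⟨ha, hb⟩ := hboth ⟨p1, hp1i, (hfr' p1 hp1i).1 hp1⟩
  refine ⟨hK, hG, ha, hb, ?_, ?_⟩
  · intro G' hG' p hp hon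
    have hc : Crease R H p := (hcr p).2 ⟨hp, G', hG', hon⟩
    rcases lt_trichotomy (G.lin p) G.s with h1 | h1 | h1
    · exact h1
    · exact absurd hc (hC p ((hfr' p hp).2 h1) hp).2
    · exact absurd hc (hA p ((hmem p).2 ⟨hp, h1⟩)).2.1
  · intro p q hp hcap hq hlt hno heq
    have hpP : p ∈ F.P := (hmem p).2 ⟨hp, hcap⟩
    have hqP : q ∉ F.P := by
      intro h2
      exact lt_asymm hlt ((hmem q).1 h2).2
    have hqc : ¬ Crease R H q := by
      intro h2
      obtain ⟨_, G', hG', hon⟩ := (hcr q).1 h2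
      exact hno G' hG' hon
    have h3 := hD p hpP q hq hqP hqc (by rw [(hpos p hp).1, (hpos q hq).1]; exact heq)
    rw [hd] at h3
    by_cases hdd : G.d = true
    · rw [if_pos hdd] at h3 ⊢
      exact (hGAB R H K hM hK p q hp hq).1 h3
    · rw [if_neg hdd] at h3 ⊢
      exact (hGAB R H K hM hK q p hq hp).1 h3

lemma bwd (hGST : SpecGST) (hGFR : SpecGFR) (hGMT : SpecGMT) (hGAB : SpecGAB) (R : Rct)
    (F : SFold) (H : List SFold) (G : Fold) (K : List Fold) (hM : Mat R H K)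
    (hP : F.P = {p | inn R p ∧ G.cap p}) (hd : F.d = G.d) (hF : F.u ≠ 0) (hG : G.u ≠ 0)
    (hL : ∀ p ∈ F.P, Lk F G (iso K p))
    (hH : OneLayer R H) (h : ok R (G :: K)) : OneLayer R (F :: H) := by
  obtain ⟨hK, _, ha, hb, hc, hdc⟩ := h
  obtain ⟨_, hpos, hcr, _, _⟩ := hGMT R H K hM
  obtain ⟨hop, hpre, hclo, hfr, _, hex⟩ := hGFR R G hG
  have hmem : ∀ p, p ∈ F.P ↔ inn R p ∧ G.cap p := by
    intro p; rw [hP]; exact Iff.rfl
  have hfr' : ∀ p, inn R p → (p ∈ frontier F.P ↔ G.on p) := by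
    intro p hp; rw [hP]; exact hfr p hp
  have hnc : ∀ p, inn R p → G.s ≤ G.lin p → ¬ Crease R H p := by
    intro p hp hle hcc
    obtain ⟨_, G', hG', hon⟩ := (hcr p).1 hcc
    exact absurd (hc G' hG' p hp hon) (not_lt.2 hle)
  obtain ⟨p0, hp0, hp0c⟩ := ha
  have hA : ∀ p ∈ F.P, inn R p ∧ ¬ Crease R H p ∧ F.s < F.lin (pos H p) := by
    intro p hp
    obtain ⟨h1, h2⟩ := (hmem p).1 hp
    refine ⟨h1, hnc p h1 (le_of_lt h2), ?_⟩
    rw [(hpos p h1).1]
    have h3 := (hL p hp p).1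
    have h4 : G.s < G.lin p := h2
    linarith
  have hC : ∀ p ∈ frontier F.P, inn R p → F.lin (pos H p) = F.s ∧ ¬ Crease R H p := by
    intro p hp hpi
    have hon : G.lin p = G.s := (hfr' p hpi).1 hp
    refine ⟨?_, hnc p hpi (le_of_eq hon.symm)⟩
    have hiso : iso K p = iso K p0 := by
      refine (hGST K {p | inn R p ∧ G.s ≤ G.lin p} hclo ?_ p ⟨hpi, le_of_eq hon.symm⟩ p0
        ⟨hp0, le_of_lt hp0c⟩).1
      intro G' hG' x hx hxon
      exact absurd (hc G' hG' x hx.1 hxon) (not_lt.2 hx.2)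
    rw [(hpos p hpi).1, hiso]
    have h3 := (hL p0 ((hmem p0).2 ⟨hp0, hp0c⟩) p).1
    linarith
  refine ⟨hH, hF, ?_, ⟨⟨p0, (hmem p0).2 ⟨hp0, hp0c⟩⟩, ?_⟩, hA, ?_, hC, ?_⟩
  · rw [hP]; exact hop
  · rw [hP]; exact hpre
  · obtain ⟨p, hp, hon⟩ := hex ⟨p0, hp0, hp0c⟩ hb
    exact ⟨p, (hfr' p hp).2 hon, hp⟩
  · intro p hp q hq hqP hqc heq
    obtain ⟨hpi, hpc⟩ := (hmem p).1 hp
    have hlt : G.lin q < G.s := by
      rcases lt_trichotomy (G.lin q) G.s with h1 | h1 | h1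
      · exact h1
      · have h2 := (hC q ((hfr' q hq).2 h1) hq).1
        have h3 := (hA p hp).2.2
        rw [heq] at h3
        exact absurd h2 (ne_of_gt h3)
      · exact absurd ((hmem q).2 ⟨hq, h1⟩) hqP
    have hno : ∀ G' ∈ K, ¬ G'.on q := by
      intro G' hG' hon
      exact hqc ((hcr q).2 ⟨hq, G', hG', hon⟩)
    have h3 := hdc p q hpi hpc hq hlt hno (by rw [← (hpos p hpi).1, ← (hpos q hq).1]; exact heq)
    rw [hd]
    by_cases hdd : G.d = true
    · rw [if_pos hdd] at h3 ⊢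
      exact (hGAB R H K hM hK p q hpi hq).2 h3
    · rw [if_neg hdd] at h3 ⊢
      exact (hGAB R H K hM hK q p hq hpi).2 h3

end GOKM

theorem specGOK (hGST : SpecGST) (hGFR : SpecGFR) (hGMT : SpecGMT) (hGAB : SpecGAB) :
    SpecGOK := by
  intro R H
  induction H with
  | nil =>
    intro K hM
    cases K with
    | nil => exact Iff.rfl
    | cons G K => exact absurd hM (by simp [Mat])
  | cons F H ih =>
    intro K hM
    cases K with
    | nil => exact absurd hM (by simp [Mat])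
    | cons G K =>
      obtain ⟨hM', hP, hd, hF, hG, hL⟩ := hM
      constructor
      · intro h
        exact GOKM.fwd hGFR hGMT hGAB R F H G K hM' hP hd hG ((ih K hM').1 h.1) h
      · intro h
        exact GOKM.bwd hGST hGFR hGMT hGAB R F H G K hM' hP hd hF hG hL ((ih K hM').2 h.1) h

end Pool.Agent.Lib.MP29559a
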