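import Pool.Agent.Lib.MP_29559a_lc.OL.GSpec

/-!
# GST : a connected set which meets no line of a fold is one layer
-/

set_option autoImplicit false

namespace Pool.Agent.Lib.MP29559a

open Pool.Agent.PolyTime

namespace GSTM

lemma cont (G : Fold) : Continuous G.lin := by
  unfold Fold.lin
  fun_prop

/-- the cap contains all points of the set or none -/
lemma capImp (G : Fold) (C : Set Pt) (hC : IsPreconnected C) (hG : ∀ p ∈ C, ¬ G.on p) (p : Pt)
    (hp : p ∈ C) (q : Pt) (hq : q ∈ C) (h : G.cap p) : G.cap q := by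
  unfold Fold.cap at h ⊢
  by_contra hlt
  rw [not_lt] at hlt
  have h1 := hC.intermediate_value hq hp (cont G).continuousOn
  obtain ⟨z, hz, hzs⟩ := h1 ⟨hlt, h.le⟩
  exact hG z hz hzs

lemma capIff (G : Fold) (C : Set Pt) (hC : IsPreconnected C) (hG : ∀ p ∈ C, ¬ G.on p) (p : Pt)
    (hp : p ∈ C) (q : Pt) (hq : q ∈ C) : G.cap p ↔ G.cap q :=
  ⟨capImp G C hC hG p hp q hq, capImp G C hC hG q hq p hp⟩

end GSTM

theorem specGST : SpecGST := by
  intro K C hC
  induction K with
  | nil =>
    intro _ p _ q _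
    exact ⟨rfl, rfl, rfl⟩
  | cons G K ih =>
    intro hG p hp q hq
    obtain ⟨h1, h2, h3⟩ := ih (fun F hF => hG F (List.mem_cons_of_mem _ hF)) p hp q hq
    have h4 := GSTM.capIff G C hC (hG G List.mem_cons_self) p hp q hq
    by_cases h5 : G.cap p
    · have h6 : G.cap q := h4.1 h5
      simp only [iso, hgt, face, h5, h6, if_true, h1, h3, and_self]
    · have h6 : ¬ G.cap q := fun h => h5 (h4.2 h)
      simp only [iso, hgt, face, h5, h6, if_false, h1, h2, h3, and_self]

end Pool.Agent.Lib.MP29559a
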