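import Pool.Agent.Lib.MP_29559a_lc.OL.Spec

/-!
# MP_29559a_lc: the one-layer model with general layers.  Specification (captain: helper97)

`Base.lean` describes a one-layer fold by a cap of the paper without earlier creases.  Here the folding
process is defined without this: the rotated part `P` is any open set of points of the paper, moved
about a line of the plane in which the FOLDED state lies; it is one layer if it is connected and
contains no point of an earlier crease.  THEOREM (module GEQ): a pattern is simply foldable in this
sense iff it is `Foldable`.  So the hand-in is about this general model.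

CONVENTIONS for the modules as in `Spec.lean`: file `OL/XXX.lean`, import only
`Pool.Agent.Lib.MP_29559a_lc.OL.GSpec`, namespace `Pool.Agent.Lib.MP29559a`,
`theorem specXXX (hYYY : SpecYYY) ... : SpecXXX` (deps in the order of USES).
-/

set_option autoImplicit false

namespace Pool.Agent.Lib.MP29559a

open Pool.Agent.PolyTime

/-! ## The folding process -/

/-- A simple fold: the part `P` of the paper is rotated by `180°` about the line `u · z = s` of the
plane in which the folded state lies, upwards (`d = true`) or downwards. -/
structure SFold where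
  P : Set Pt
  u : Pt
  s : ℝ
  d : Bool

namespace SFold

noncomputable def lin (F : SFold) (z : Pt) : ℝ := F.u.1 * z.1 + F.u.2 * z.2

/-- the reflection of the plane in the line of the fold -/
noncomputable def refl (F : SFold) (z : Pt) : Pt :=
  z - (2 * (F.lin z - F.s) / (F.u.1 ^ 2 + F.u.2 ^ 2)) • F.u

end SFold

open Classical in
/-- the position of the point `p` of the paper after the folds in the list `H` (newest first) -/
noncomputable def pos : List SFold → Pt → Pt
  | [], p => p
  | F :: H, p => if p ∈ F.P then F.refl (pos H p) else pos H p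

open Classical in
/-- is the upper side of the paper up at the point `p`? -/
noncomputable def top : List SFold → Pt → Bool
  | [], _ => true
  | F :: H, p => if p ∈ F.P then !(top H p) else top H p

/-- The layer order: the layer of `p` is above the layer of `q` (for points with the same position).
The rotated part is turned over and is then above (below) the rest of the paper. -/
def abv : List SFold → Pt → Pt → Prop
  | [], _, _ => False
  | F :: H, p, q => (p ∈ F.P ∧ q ∈ F.P ∧ abv H q p) ∨ (p ∈ F.P ∧ q ∉ F.P ∧ F.d = true) ∨
      (p ∉ F.P ∧ q ∈ F.P ∧ F.d = false) ∨ (p ∉ F.P ∧ q ∉ F.P ∧ abv H p q)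

/-- the creases made by the folds in `H`: the points of the interior of the paper where a rotated part
is joined to the rest of the paper -/
def Crease (R : Rct) (H : List SFold) (p : Pt) : Prop := inn R p ∧ ∃ F ∈ H, p ∈ frontier F.P

/-- The folds in the list `H` (newest first) are one-layer simple folds of the paper `R`, without
unfolding.  For each fold: the rotated part is one layer on one side of the line (it is open and
connected, contains no point of an earlier crease, and its positions are on one side of the line);
the paper is not torn (the rotated part is joined to the rest of the paper only in points whose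
position is on the line of the fold), a crease is made there, and earlier creases are not unfolded;
and no other layer is above the rotated part if it is rotated upwards (below it, if downwards). -/
def OneLayer (R : Rct) : List SFold → Prop
  | [] => True
  | F :: H => OneLayer R H ∧ F.u ≠ 0 ∧ IsOpen F.P ∧ IsConnected F.P ∧
      (∀ p ∈ F.P, inn R p ∧ ¬ Crease R H p ∧ F.s < F.lin (pos H p)) ∧
      (∃ p ∈ frontier F.P, inn R p) ∧
      (∀ p ∈ frontier F.P, inn R p → F.lin (pos H p) = F.s ∧ ¬ Crease R H p) ∧
      ∀ p ∈ F.P, ∀ q, inn R q → q ∉ F.P → ¬ Crease R H q → pos H p = pos H q →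
        if F.d then abv H p q else abv H q p

/-- The points of the valley creases made by the folds in `H` (seen from the upper side of the paper):
the rotated layer has its upper side up and is rotated upwards, or its upper side down and is rotated
downwards. -/
def vly (R : Rct) : List SFold → Pt → Prop
  | [], _ => False
  | F :: H, p => vly R H p ∨ (inn R p ∧ p ∈ frontier F.P ∧ ∃ q ∈ F.P, top H q = F.d)

/-- the points of the mountain creases -/
def mnt (R : Rct) : List SFold → Pt → Prop
  | [], _ => False
  | F :: H, p => mnt R H p ∨ (inn R p ∧ p ∈ frontier F.P ∧ ∃ q ∈ F.P, top H q ≠ F.d)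

/-- The pattern is simply foldable in the one-layer model: some sequence of one-layer simple folds
folds the paper along exactly the given creases, in the assigned directions. -/
def SimplyFoldable (I : Inp) : Prop :=
  ∃ H : List SFold, OneLayer I.1 H ∧ (∀ p, vly I.1 H p ↔ VS I true p) ∧
    ∀ p, mnt I.1 H p ↔ VS I false p

/-! ## The comparison with `ok` -/

/-- `F` describes in the folded plane, where the layer is placed by `g`, the line of `G` -/
def Lk (F : SFold) (G : Fold) (g : Pt → Pt) : Prop :=
  ∀ z, F.lin (g z) - F.s = G.lin z - G.s ∧ F.refl (g z) = g (G.refl z)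

/-- `H` and `K` are the same folds -/
def Mat (R : Rct) : List SFold → List Fold → Prop
  | [], [] => True
  | F :: H, G :: K => Mat R H K ∧ F.P = {p | inn R p ∧ G.cap p} ∧ F.d = G.d ∧ F.u ≠ 0 ∧ G.u ≠ 0 ∧
      ∀ p ∈ F.P, Lk F G (iso K p)
  | _, _ => False

/-- MODULE GAF (120 lines).  The isometries `iso K p`.
PROOF.  By induction on `K` there are `a b c d e f` with `iso K p z = (a z1 + b z2 + e, c z1 + d z2 + f)`,
`a^2 + c^2 = 1`, `b^2 + d^2 = 1`, `a b + c d = 0` (the reflection `G.refl` is of this form, and so is a
composition).  For given `F.u`, `F.s` take `G.u = (a u1 + c u2, b u1 + d u2)`,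
`G.s = F.s - e u1 - f u2`, `G.d = F.d`: `|G.u|^2 = |F.u|^2` and the linear part maps `G.u` to `F.u`
(keep also `a^2 + b^2 = 1`, `c^2 + d^2 = 1`, `a c + b d = 0` in the induction); conversely `F.u` = the image of
`G.u` under the linear part. -/
def SpecGAF : Prop := ∀ (K : List Fold) (p : Pt), (∀ G ∈ K, G.u ≠ 0) →
  (∀ (P : Set Pt) (u : Pt) (s : ℝ) (d : Bool), u ≠ 0 →
    ∃ G : Fold, G.u ≠ 0 ∧ G.d = d ∧ Lk ⟨P, u, s, d⟩ G (iso K p)) ∧
  ∀ (P : Set Pt) (G : Fold), G.u ≠ 0 → ∃ F : SFold, F.P = P ∧ F.u ≠ 0 ∧ F.d = G.d ∧ Lk F G (iso K p)

/-- MODULE GST (60 lines).  A connected set which meets no line of a fold is one layer.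
PROOF.  For `G ∈ K` the set is covered by the open sets `G.s < lin` and `lin < G.s`, so all its points
have the same truth value of `G.cap`; induction on `K`. -/
def SpecGST : Prop := ∀ (K : List Fold) (C : Set Pt), IsPreconnected C →
  (∀ G ∈ K, ∀ p ∈ C, ¬ G.on p) → ∀ p ∈ C, ∀ q ∈ C,
    iso K p = iso K q ∧ hgt K p = hgt K q ∧ face K p = face K q

/-- MODULE GFR (130 lines).  The cap of a line.
PROOF.  All sets are convex (linear inequalities), `inn R` is open and convex.  Frontier: a
point `p` of the interior of the paper on the line is not in the cap, and `p + t u` is for small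
`t > 0`; a point of the interior off the line has a neighbourhood in the cap or in the opposite side.
Last part: the segment between the two points meets the line. -/
def SpecGFR : Prop := ∀ (R : Rct) (G : Fold), G.u ≠ 0 →
  IsOpen {p | inn R p ∧ G.cap p} ∧ IsPreconnected {p | inn R p ∧ G.cap p} ∧
  IsPreconnected {p | inn R p ∧ G.s ≤ G.lin p} ∧
  (∀ p, inn R p → (p ∈ frontier {p | inn R p ∧ G.cap p} ↔ G.on p)) ∧
  ((∃ p, inn R p ∧ G.on p) → (∃ p, inn R p ∧ G.cap p) ∧ ∃ p, inn R p ∧ G.lin p < G.s) ∧
  ((∃ p, inn R p ∧ G.cap p) → (∃ p, inn R p ∧ G.lin p < G.s) → ∃ p, inn R p ∧ G.on p)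

/-- MODULE GCP (50 lines).  USES `SpecGFR`.  The rotated part is the whole cap.
PROOF.  Otherwise `IsPreconnected.inter_frontier_nonempty` for the connected set of all points of the
cap gives a point of the frontier of `P` in the cap, which is on the line. -/
def SpecGCP : Prop := ∀ (R : Rct) (G : Fold) (P : Set Pt), G.u ≠ 0 → P.Nonempty →
  (∀ p ∈ P, inn R p ∧ G.cap p) → (∀ p ∈ frontier P, inn R p → G.on p) →
  P = {p | inn R p ∧ G.cap p}

/-- MODULE GMT (80 lines).  USES `SpecGFR`.  Induction on the lists: if `p ∈ F.P` then
`pos (F :: H) p = F.refl (iso K p p) = iso K p (G.refl p) = iso (G :: K) p p`. -/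
def SpecGMT : Prop := ∀ (R : Rct) (H : List SFold) (K : List Fold), Mat R H K →
  (∀ G ∈ K, G.u ≠ 0) ∧
  (∀ p, inn R p → pos H p = iso K p p ∧ top H p = face K p) ∧
  (∀ p, Crease R H p ↔ inn R p ∧ ∃ G ∈ K, G.on p) ∧
  (∀ p, vly R H p ↔ vall R K p) ∧ ∀ p, mnt R H p ↔ mntn R K p

/-- MODULE GAB (80 lines).  USES `SpecCST` (`Spec.lean`).
PROOF.  Induction; `|hgt K q| ≤ K.length`.  If `p`, `q` are both in the cap of `G` then
`hgt K p = hgt K q` by `SpecCST`, so both sides are false. -/
def SpecGAB : Prop := ∀ (R : Rct) (H : List SFold) (K : List Fold), Mat R H K → ok R K →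
  ∀ p q, inn R p → inn R q → (abv H p q ↔ hgt K q < hgt K p)

/-- MODULE GOK (150 lines).  USES `SpecGST`, `SpecGFR`, `SpecGMT`, `SpecGAB`.
PROOF.  Induction; compare the conditions for `F :: H` and `G :: K`, using `SpecGMT`, `SpecGAB` for
`H`, `K`.  `→`: `G.cap` on `F.P` and `G.on` on the frontier by `Mat`, `SpecGFR`; no earlier
crease meets the cap (`F.P` has no crease points) or the chord, so it is strictly on the other side;
the collision condition is a special case.  `←`: the closed cap `{p | inn R p ∧ G.s ≤ G.lin p}` is
connected and meets no line of `K`, so by `SpecGST` `iso K` is the same for all its points, and for `p`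
on the line `F.lin (pos H p) - F.s = G.lin p - G.s = 0` (`Mat`); a point `q ∉ F.P` of the interior is on
the line (then its position is on the line of `F`, the one of `p` is not) or strictly on the other
side. -/
def SpecGOK : Prop := ∀ (R : Rct) (H : List SFold) (K : List Fold), Mat R H K →
  (OneLayer R H ↔ ok R K)

/-- MODULE GTO (120 lines).  USES `SpecGAF`, `SpecGST`, `SpecGCP`, `SpecGMT`.
PROOF.  Take `p0 ∈ F.P`, `g = iso K p0`, and `G` by `SpecGAF`.  `F.P` is connected and meets no line
of `K` (`SpecGMT`: creases), so `iso K p = g` for `p ∈ F.P` (`SpecGST`): `F.s < F.lin (pos H p)` gives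
`G.cap p`.  For `p` in the frontier, `inn R p`: the set `F.P ∪ {p}` is connected
(`IsPreconnected.subset_closure`) and meets no line of `K`, so `iso K p = g`, and `G.on p`.  `SpecGCP`. -/
def SpecGTO : Prop := ∀ (R : Rct) (F : SFold) (H : List SFold) (K : List Fold), Mat R H K →
  OneLayer R (F :: H) → ∃ G, Mat R (F :: H) (G :: K)

/-- MODULE GFM (60 lines).  USES `SpecGAF`, `SpecGMT`, `SpecCST` (`Spec.lean`).
PROOF.  Take `p0` in the cap, `g = iso K p0`, `F` by `SpecGAF` with `F.P` = the cap;
`iso K p = g` on the cap by `SpecCST`. -/
def SpecGFM : Prop := ∀ (R : Rct) (H : List SFold) (G : Fold) (K : List Fold), Mat R H K →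
  ok R (G :: K) → ∃ F, Mat R (F :: H) (G :: K)

/-- MODULE GEQ (60 lines).  USES `SpecGMT`, `SpecGOK`, `SpecGTO`, `SpecGFM`.
PROOF.  By induction every `H` with `OneLayer R H` has a `K` with `Mat R H K`, and every `K` with
`ok R K` has an `H`; then `SpecGOK` and `SpecGMT`. -/
def SpecGEQ : Prop := ∀ I : Inp, SimplyFoldable I ↔ Foldable I

end Pool.Agent.Lib.MP29559a
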