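import Pool.Agent.Lib.MP_29559a_lc.OL.GSpec

/-!
# GTO: from a fold of the general process to a fold by a cap
-/

set_option autoImplicit false

namespace Pool.Agent.Lib.MP29559a

open Pool.Agent.PolyTime

theorem specGTO (hGAF : SpecGAF) (hGST : SpecGST) (hGCP : SpecGCP) (hGMT : SpecGMT) : SpecGTO := by
  intro R F H K hM hO
  obtain ⟨-, hFu, -, hconn, hin, -, hfr, -⟩ := hO
  obtain ⟨hKu, hpos, hcr, -, -⟩ := hGMT R H K hM
  obtain ⟨p0, hp0⟩ := hconn.nonempty
  obtain ⟨G, hGu, hGd, hL⟩ := (hGAF K p0 hKu).1 F.P F.u F.s F.d hFu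
  have hL' : Lk F G (iso K p0) := hL
  have noK : ∀ p, inn R p → ¬ Crease R H p → ∀ G' ∈ K, ¬ G'.on p := by
    intro p hp hc G' hG' hon
    exact hc ((hcr p).mpr ⟨hp, G', hG', hon⟩)
  have hiso : ∀ p ∈ F.P, iso K p = iso K p0 := by
    intro p hp
    refine (hGST K F.P hconn.isPreconnected ?_ p hp p0 hp0).1
    intro G' hG' q hq
    exact noK q (hin q hq).1 (hin q hq).2.1 G' hG'
  have hcap : ∀ p ∈ F.P, inn R p ∧ G.cap p := by
    intro p hp
    refine ⟨(hin p hp).1, ?_⟩
    have h1 := (hin p hp).2.2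
    rw [(hpos p (hin p hp).1).1, hiso p hp] at h1
    have h2 := (hL' p).1
    show G.s < G.lin p
    linarith
  have hfron : ∀ p ∈ frontier F.P, inn R p → G.on p := by
    intro p hp hi
    have hc := hfr p hp hi
    have hC : IsPreconnected (insert p F.P) := by
      refine hconn.isPreconnected.subset_closure (Set.subset_insert _ _) ?_
      intro q hq
      rcases hq with rfl | hq
      · exact frontier_subset_closure hp
      · exact subset_closure hq
    have he : iso K p = iso K p0 := by
      refine (hGST K (insert p F.P) hC ?_ p (Set.mem_insert _ _) p0 (Set.mem_insert_of_mem _ hp0)).1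
      intro G' hG' q hq
      rcases hq with rfl | hq
      · exact noK q hi hc.2 G' hG'
      · exact noK q (hin q hq).1 (hin q hq).2.1 G' hG'
    have h1 := hc.1
    rw [(hpos p hi).1, he] at h1
    have h2 := (hL' p).1
    show G.lin p = G.s
    linarith
  have hP : F.P = {p | inn R p ∧ G.cap p} := hGCP R G F.P hGu ⟨p0, hp0⟩ hcap hfron
  exact ⟨G, hM, hP, hGd.symm, hFu, hGu, fun p hp => by rw [hiso p hp]; exact hL'⟩

end Pool.Agent.Lib.MP29559a
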