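import Pool.Agent.Lib.MP_29559a_lc.OL.Spec

/-!
# ISO (MP_29559a_lc): the folded state
-/

set_option autoImplicit false

namespace Pool.Agent.Lib.MP29559a

namespace ISOM

lemma sg_succ (n : ℕ) : sg (n + 1) = - sg n := by
  unfold sg
  rcases Nat.mod_two_eq_zero_or_one n with h | h
  · have h1 : ¬ (n + 1) % 2 = 0 := by omega
    rw [if_pos h, if_neg h1]
  · have h1 : (n + 1) % 2 = 0 := by omega
    have h2 : ¬ n % 2 = 0 := by omega
    rw [if_neg h2, if_pos h1]
    norm_num

lemma tm_self (o : List ℕ) (c : ℕ) : tm (c :: o) c = o.length + 1 := by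
  unfold tm
  rw [List.dropWhile_cons]
  simp

lemma tm_other (o : List ℕ) (c i : ℕ) (h : c ≠ i) : tm (c :: o) i = tm o i := by
  unfold tm
  rw [List.dropWhile_cons]
  simp [h]

lemma iso_step (X : Ctx) (c : ℕ) (z : Pt)
    (hr : (mkF X c).refl z = if vt (cr X.1 c) then (2 * (at' (cr X.1 c) : ℝ) - z.1, z.2)
      else (z.1, 2 * (at' (cr X.1 c) : ℝ) - z.2))
    (hn : ∀ v, naO X v (some c) = naO X v (par X c) + (if vt (cr X.1 c) = v then 1 else 0))
    (hb : ∀ v, bbO X v (some c) = bbO X v (par X c) +
      (if vt (cr X.1 c) = v then sg (naO X v (par X c)) * (2 * at' (cr X.1 c)) else 0)) :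
    isoO X (par X c) ((mkF X c).refl z) = isoO X (some c) z := by
  rw [hr]
  unfold isoO
  rw [hn true, hn false, hb true, hb false]
  cases hv : vt (cr X.1 c)
  · simp only [Bool.false_eq_true, if_false, if_true, add_zero, sg_succ]
    ext
    · rfl
    · push_cast
      ring
  · simp only [Bool.true_eq_false, if_false, if_true, add_zero, sg_succ]
    ext
    · push_cast
      ring
    · rfl

end ISOM

open ISOM in
theorem specISO (hDAT : SpecDAT) (hCEL : SpecCEL) (hMKF : SpecMKF) : SpecISO := by
  intro R X hG hr o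
  obtain ⟨hD1, hD2, hD3⟩ := hDAT R X hG hr
  induction o with
  | nil =>
    intro _ q e hq
    have he : e = none := by
      cases e with
      | none => rfl
      | some i => exact absurd (hq.2.1 i rfl).1 (by simp)
    subst he
    refine ⟨?_, rfl, hD2.symm⟩
    show id = isoO X none
    funext p
    unfold isoO
    rw [(hD1 true).1, (hD1 true).2, (hD1 false).1, (hD1 false).2]
    ext
    · simp [sg]
    · simp [sg]
  | cons c o ih =>
    intro hCl q e hq
    obtain ⟨hCl', hcn, hco, hbef⟩ := hCl
    obtain ⟨-, -, h3⟩ := hCEL R X hG hr o hCl'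
    obtain ⟨h3a, h3b⟩ := h3 c hcn hco hbef
    obtain ⟨-, hMd, hMp⟩ := hMKF X c
    obtain ⟨hDf, hDv⟩ := hD3 c hcn
    rcases (h3b q e).1 hq with ⟨hcap, rfl, hinn⟩ | ⟨hcap, hq'⟩
    · have hpar := h3a q hinn (Or.inl hcap)
      obtain ⟨i1, i2, i3⟩ := ih hCl' q (par X c) hpar
      have hc : (mkF X c).cap q := ((hMp q).1).2 hcap
      refine ⟨?_, ?_, ?_⟩
      · show iso (mkF X c :: o.map (mkF X)) q = isoO X (some c)
        rw [iso, if_pos hc, i1]
        funext z
        exact iso_step X c z (hMp z).2.2.2 (fun v => (hDv v).2.1) (fun v => (hDv v).2.2)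
      · show hgt (mkF X c :: o.map (mkF X)) q = htO X (c :: o) (some c)
        rw [hgt, if_pos hc, hMd, List.length_map]
        unfold htO
        simp only [tm_self]
        push_cast
        rfl
      · show face (mkF X c :: o.map (mkF X)) q = faceO X (some c)
        rw [face, if_pos hc, i3, hDf]
    · obtain ⟨i1, i2, i3⟩ := ih hCl' q e hq'
      have hc : ¬ (mkF X c).cap q := fun h => hcap (((hMp q).1).1 h)
      refine ⟨?_, ?_, ?_⟩
      · show iso (mkF X c :: o.map (mkF X)) q = isoO X e
        rw [iso, if_neg hc, i1]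
      · show hgt (mkF X c :: o.map (mkF X)) q = htO X (c :: o) e
        rw [hgt, if_neg hc, i2]
        cases e with
        | none => rfl
        | some i =>
          have hi : i ∈ o := (hq'.2.1 i rfl).1
          have hne : c ≠ i := by
            intro h
            rw [h] at hco
            exact hco hi
          unfold htO
          simp only [tm_other o c i hne]
      · show face (mkF X c :: o.map (mkF X)) q = faceO X e
        rw [face, if_neg hc, i3]

end Pool.Agent.Lib.MP29559a
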