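import Pool.Agent.Lib.MP_29559a_lc.OL.Spec

/-!
# Module LAB: the creases of a complete history
-/

set_option autoImplicit false

namespace Pool.Agent.Lib.MP29559a

open Pool.Agent.PolyTime

namespace LABM

theorem nodup {X : Ctx} : ∀ o : List ℕ, Cl X o → o.Nodup
  | [], _ => List.nodup_nil
  | _ :: o, h => List.nodup_cons.2 ⟨h.2.2.1, nodup o h.1⟩

theorem lt_len {X : Ctx} : ∀ o : List ℕ, Cl X o → ∀ i ∈ o, i < X.1.length
  | [], _, i, hi => by simp at hi
  | _ :: o, h, i, hi => by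
    rcases List.mem_cons.1 hi with h1 | h1
    · rw [h1]; exact h.2.1
    · exact lt_len o h.1 i h1

theorem all_mem {X : Ctx} {o : List ℕ} (h : Cl X o) (hl : o.length = X.1.length) {i : ℕ}
    (hi : i < X.1.length) : i ∈ o := by
  have hsub : o.toFinset ⊆ Finset.range X.1.length := by
    intro j hj
    exact Finset.mem_range.2 (lt_len o h j (List.mem_toFinset.1 hj))
  have hcard : (Finset.range X.1.length).card ≤ o.toFinset.card := by
    rw [List.toFinset_card_of_nodup (nodup o h), hl, Finset.card_range]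
  have heq := Finset.eq_of_subset_of_card_le hsub hcard
  have h2 : i ∈ o.toFinset := by
    rw [heq]; exact Finset.mem_range.2 hi
  exact List.mem_toFinset.1 h2

theorem bool_aux (a b : Bool) : (b = decide (a = b)) ↔ a = true := by
  cases a <;> cases b <;> simp

theorem bool_aux' (a b : Bool) : (b ≠ decide (a = b)) ↔ a = false := by
  cases a <;> cases b <;> simp

theorem main (hCEL : SpecCEL) (hMKF : SpecMKF) (hISO : SpecISO) {R : Rct} {X : Ctx}
    (hG : Geo R X.1) (hr : X.2.1 < X.1.length) : ∀ o : List ℕ, Cl X o → ok R (o.map (mkF X)) →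
    (∀ p, vall R (o.map (mkF X)) p ↔ ∃ c ∈ o, inn R p ∧ onc X.1 c p ∧ vl (cr X.1 c) = true) ∧
    ∀ p, mntn R (o.map (mkF X)) p ↔ ∃ c ∈ o, inn R p ∧ onc X.1 c p ∧ vl (cr X.1 c) = false
  | [], _, _ => by
    constructor
    · intro p
      simp [vall]
    · intro p
      simp [mntn]
  | c :: o, hc, hk => by
    have hk' : ok R (o.map (mkF X)) := hk.1
    obtain ⟨ih1, ih2⟩ := main hCEL hMKF hISO hG hr o hc.1 hk'
    obtain ⟨m1, m2, m3⟩ := hMKF X c
    obtain ⟨p0, hp0, hcap0⟩ := hk.2.2.1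
    have hface : ∀ q, inn R q → (mkF X c).cap q →
        face (o.map (mkF X)) q = faceO X (par X c) := by
      intro q hq hcq
      have h3 := ((hCEL R X hG hr o hc.1).2.2 c hc.2.1 hc.2.2.1 hc.2.2.2).1 q hq
        (Or.inl ((m3 q).1.1 hcq))
      exact (hISO R X hG hr o hc.1 q (par X c) h3).2.2
    constructor
    · intro p
      have e1 : vall R ((c :: o).map (mkF X)) p ↔ (vall R (o.map (mkF X)) p ∨
          (inn R p ∧ (mkF X c).on p ∧ ∃ q, inn R q ∧ (mkF X c).cap q ∧
            face (o.map (mkF X)) q = (mkF X c).d)) := Iff.rfl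
      rw [e1, ih1 p]
      constructor
      · rintro (⟨d, hd, h⟩ | ⟨h1, h2, q, hq, hcq, hf⟩)
        · exact ⟨d, List.mem_cons_of_mem _ hd, h⟩
        · refine ⟨c, List.mem_cons_self, h1, (m3 p).2.1.1 h2, ?_⟩
          rw [hface q hq hcq, m2] at hf
          exact (bool_aux _ _).1 hf
      · rintro ⟨d, hd, h1, h2, h3⟩
        rcases List.mem_cons.1 hd with h4 | h4
        · subst h4
          refine Or.inr ⟨h1, (m3 p).2.1.2 h2, p0, hp0, hcap0, ?_⟩
          rw [hface p0 hp0 hcap0, m2]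
          exact (bool_aux _ _).2 h3
        · exact Or.inl ⟨d, h4, h1, h2, h3⟩
    · intro p
      have e1 : mntn R ((c :: o).map (mkF X)) p ↔ (mntn R (o.map (mkF X)) p ∨
          (inn R p ∧ (mkF X c).on p ∧ ∃ q, inn R q ∧ (mkF X c).cap q ∧
            face (o.map (mkF X)) q ≠ (mkF X c).d)) := Iff.rfl
      rw [e1, ih2 p]
      constructor
      · rintro (⟨d, hd, h⟩ | ⟨h1, h2, q, hq, hcq, hf⟩)
        · exact ⟨d, List.mem_cons_of_mem _ hd, h⟩
        · refine ⟨c, List.mem_cons_self, h1, (m3 p).2.1.1 h2, ?_⟩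
          rw [hface q hq hcq, m2] at hf
          exact (bool_aux' _ _).1 hf
      · rintro ⟨d, hd, h1, h2, h3⟩
        rcases List.mem_cons.1 hd with h4 | h4
        · subst h4
          refine Or.inr ⟨h1, (m3 p).2.1.2 h2, p0, hp0, hcap0, ?_⟩
          rw [hface p0 hp0 hcap0, m2]
          exact (bool_aux' _ _).2 h3
        · exact Or.inl ⟨d, h4, h1, h2, h3⟩

theorem cr_mem {cs : List Crs} {i : ℕ} (h : i < cs.length) : cr cs i ∈ cs := by
  unfold cr
  rw [List.getElem?_eq_getElem h]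
  exact List.getElem_mem h

theorem mem_cr {cs : List Crs} {c : Crs} (h : c ∈ cs) : ∃ i < cs.length, cr cs i = c := by
  obtain ⟨i, hi, he⟩ := List.mem_iff_getElem.1 h
  refine ⟨i, hi, ?_⟩
  unfold cr
  rw [List.getElem?_eq_getElem hi]
  exact he

theorem vs_iff {R : Rct} {X : Ctx} (hG : Geo R X.1) {o : List ℕ} (hc : Cl X o)
    (hl : o.length = X.1.length) (b : Bool) (p : Pt) :
    (∃ c ∈ o, inn R p ∧ onc X.1 c p ∧ vl (cr X.1 c) = b) ↔ VS (R, X.1) b p := by
  constructor
  · rintro ⟨c, hco, h1, h2, h3⟩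
    have hlt := lt_len o hc c hco
    have hf := (hG.full c hlt p h2).1 h1
    exact ⟨h1, cr X.1 c, cr_mem hlt, h3, h2, hf.1.le, hf.2.le⟩
  · rintro ⟨h1, c, hcm, h3, h2, _, _⟩
    obtain ⟨i, hi, he⟩ := mem_cr hcm
    refine ⟨i, all_mem hc hl hi, h1, ?_, ?_⟩
    · show lc (vt (cr X.1 i)) p = at' (cr X.1 i)
      rw [he]; exact h2
    · rw [he]; exact h3

end LABM

theorem specLAB (_hSDC : SpecSDC) (hCEL : SpecCEL) (hMKF : SpecMKF) (hISO : SpecISO) : SpecLAB := by
  intro R X hG hr o hc hl hk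
  obtain ⟨h1, h2⟩ := LABM.main hCEL hMKF hISO hG hr o hc hk
  exact ⟨fun p => (h1 p).trans (LABM.vs_iff hG hc hl true p),
    fun p => (h2 p).trans (LABM.vs_iff hG hc hl false p)⟩

end Pool.Agent.Lib.MP29559a
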