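import Pool.Agent.Lib.MP_29559a_lc.OL.Spec

/-!
# MP_29559a_lc, module LNE
-/

set_option autoImplicit false

namespace Pool.Agent.Lib.MP29559a

theorem specLNE : SpecLNE := by
  intro F v s p q hu hp hq hpq hlp hlq
  obtain ⟨⟨a, b⟩, fs, fd⟩ := F
  obtain ⟨p1, p2⟩ := p
  obtain ⟨q1, q2⟩ := q
  simp only [Fold.on, Fold.lin] at hp hq
  simp only [ne_eq, Prod.mk_eq_zero, not_and_or] at hu
  cases v with
  | true =>
    simp only [lc, if_true] at hlp hlq
    subst hlp
    subst hlq
    have h2 : p2 ≠ q2 := fun h => hpq (by rw [h])
    have hb : b = 0 := by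
      have h3 : b * (p2 - q2) = 0 := by linarith
      rcases mul_eq_zero.1 h3 with h | h
      · exact h
      · exact absurd (sub_eq_zero.1 h) h2
    subst hb
    have ha : a ≠ 0 := by
      rcases hu with h | h
      · exact h
      · exact absurd rfl h
    refine ⟨a, ha, by simp, by simp at hp; linarith, ?_⟩
    intro z
    simp only [Fold.on, Fold.lin, lc, if_true]
    constructor
    · intro h
      have h4 : a * (z.1 - q1) = 0 := by linarith
      rcases mul_eq_zero.1 h4 with h | h
      · exact absurd h ha
      · exact sub_eq_zero.1 h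
    · intro h
      rw [h]
      linarith
  | false =>
    simp only [lc, Bool.false_eq_true, if_false] at hlp hlq
    subst hlp
    subst hlq
    have h2 : p1 ≠ q1 := fun h => hpq (by rw [h])
    have hb : a = 0 := by
      have h3 : a * (p1 - q1) = 0 := by linarith
      rcases mul_eq_zero.1 h3 with h | h
      · exact h
      · exact absurd (sub_eq_zero.1 h) h2
    subst hb
    have ha : b ≠ 0 := by
      rcases hu with h | h
      · exact absurd rfl h
      · exact h
    refine ⟨b, ha, by simp, by simp at hp; linarith, ?_⟩
    intro z
    simp only [Fold.on, Fold.lin, lc, Bool.false_eq_true, if_false]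
    constructor
    · intro h
      have h4 : b * (z.2 - q2) = 0 := by linarith
      rcases mul_eq_zero.1 h4 with h | h
      · exact absurd h ha
      · exact sub_eq_zero.1 h
    · intro h
      rw [h]
      linarith

end Pool.Agent.Lib.MP29559a
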