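import Pool.Agent.Lib.MP_29559a_lc.OL.Spec

/-!
# MP_29559a_lc, module MKF: the fold of a crease
-/

set_option autoImplicit false

namespace Pool.Agent.Lib.MP29559a

open Pool.Agent.PolyTime

/-- **MKF** -/
theorem specMKF : SpecMKF := by
  intro X i
  have hu : (mkF X i).u = (if vt (cr X.1 i) then ((if capU X i then (1 : ℝ) else -1), (0 : ℝ))
      else ((0 : ℝ), (if capU X i then (1 : ℝ) else -1))) := rfl
  have hs : (mkF X i).s = (if capU X i then (1 : ℝ) else -1) * at' (cr X.1 i) := rfl
  refine ⟨?_, rfl, fun p => ?_⟩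
  · rw [hu]
    rcases Bool.eq_false_or_eq_true (vt (cr X.1 i)) with hv | hv <;>
    rcases Bool.eq_false_or_eq_true (capU X i) with hc | hc <;>
    simp [hv, hc]
  · have hlin : (mkF X i).lin p = (if capU X i then (1 : ℝ) else -1) * lc (vt (cr X.1 i)) p := by
      unfold Fold.lin
      rw [hu]
      rcases Bool.eq_false_or_eq_true (vt (cr X.1 i)) with hv | hv <;>
      simp [hv, lc]
    refine ⟨?_, ?_, ?_, ?_⟩
    · unfold Fold.cap capc gtc ltc
      rw [hlin, hs]
      rcases Bool.eq_false_or_eq_true (capU X i) with hc | hc <;> simp [hc]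
    · unfold Fold.on onc
      rw [hlin, hs]
      rcases Bool.eq_false_or_eq_true (capU X i) with hc | hc <;> simp [hc]
    · unfold ncap gtc ltc
      rw [hlin, hs]
      rcases Bool.eq_false_or_eq_true (capU X i) with hc | hc <;> simp [hc]
    · unfold Fold.refl
      rw [hlin, hs, hu]
      obtain ⟨x, y⟩ := p
      rcases Bool.eq_false_or_eq_true (vt (cr X.1 i)) with hv | hv <;>
      rcases Bool.eq_false_or_eq_true (capU X i) with hc | hc <;>
      simp [hv, hc, lc] <;> ring

end Pool.Agent.Lib.MP29559a
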