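import Pool.Agent.Lib.MP_29559a_lc.OL.Spec

/-!
# MP_29559a_lc, module MSK (helper62): a down-closed set is determined by its four numbers
-/

set_option autoImplicit false

namespace Pool.Agent.Lib.MP29559a

open Pool.Agent.PolyTime

namespace MSKM

theorem key (hT : SpecTRN) (R : Rct) (X : Ctx) (hG : Geo R X.1) (hr : X.2.1 < X.1.length)
    (m m' : List Bool)
    (hm : ∀ i < X.1.length, ∀ j < X.1.length, anc X i j = true → gm m j = true → gm m i = true)
    (hm' : ∀ i < X.1.length, ∀ j < X.1.length, anc X i j = true → gm m' j = true → gm m' i = true)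
    (hc : ∀ t, ct X m t = ct X m' t) (i : ℕ) (hi : i < X.1.length) (h1 : gm m i = true) :
    gm m' i = true := by
  by_contra h2
  have hsub : ∀ j, j ∈ (List.range X.1.length).filter (fun j => gm m' j && decide (ty X j = ty X i)) →
      j ∈ (List.range X.1.length).filter (fun j => gm m j && decide (ty X j = ty X i)) := by
    intro j hj
    rw [List.mem_filter, List.mem_range, Bool.and_eq_true, decide_eq_true_eq] at hj ⊢
    obtain ⟨hj1, hj2, hj3⟩ := hj
    refine ⟨hj1, ?_, hj3⟩
    have hne : i ≠ j := by
      intro h
      rw [← h] at hj2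
      exact h2 hj2
    have hv : vt (cr X.1 j) = vt (cr X.1 i) := (Prod.mk.inj hj3).1
    have hu : capU X j = capU X i := (Prod.mk.inj hj3).2
    rcases (hT R X hG hr i hi j hj1).2.2 hne hv.symm hu.symm with h | h
    · exact absurd (hm' i hi j hj1 h hj2) h2
    · exact hm j hj1 i hi h h1
  have hnd : ((List.range X.1.length).filter
      (fun j => gm m' j && decide (ty X j = ty X i))).Nodup := List.nodup_range.filter _
  have hlen : ((List.range X.1.length).filter
      (fun j => gm m j && decide (ty X j = ty X i))).length ≤ ((List.range X.1.length).filter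
      (fun j => gm m' j && decide (ty X j = ty X i))).length := le_of_eq (hc (ty X i))
  have hp := (List.subperm_of_subset hnd hsub).perm_of_length_le hlen
  have hmem : i ∈ (List.range X.1.length).filter
      (fun j => gm m j && decide (ty X j = ty X i)) := by
    rw [List.mem_filter, List.mem_range, Bool.and_eq_true, decide_eq_true_eq]
    exact ⟨hi, h1, rfl⟩
  have hmem' := hp.mem_iff.2 hmem
  rw [List.mem_filter, Bool.and_eq_true] at hmem'
  exact h2 hmem'.2.1

end MSKM

theorem specMSK (hTRN : SpecTRN) : SpecMSK := by
  intro R X hG hr m m' hm hm' hc i hi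
  have h1 := MSKM.key hTRN R X hG hr m m' hm hm' hc i hi
  have h2 := MSKM.key hTRN R X hG hr m' m hm' hm (fun t => (hc t).symm) i hi
  cases h3 : gm m i
  · cases h4 : gm m' i
    · rfl
    · rw [h2 h4] at h3
      cases h3
  · exact (h1 h3).symm

end Pool.Agent.Lib.MP29559a
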