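import Pool.Agent.Lib.MP_29559a_lc.OL.Spec

/-! # MODULE NRM: equivalent descriptions of the folds -/

set_option autoImplicit false

namespace Pool.Agent.Lib.MP29559a

namespace NRMM

theorem lin_eq {F G : Fold} {l : ℝ} (hu : F.u = l • G.u) (p : Pt) : F.lin p = l * G.lin p := by
  unfold Fold.lin
  rw [hu]
  simp only [Prod.smul_fst, Prod.smul_snd, smul_eq_mul]
  ring

theorem cap_iff {F G : Fold} (h : Eqv F G) (p : Pt) : F.cap p ↔ G.cap p := by
  obtain ⟨_, l, hl, hu, hs⟩ := h
  unfold Fold.cap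
  rw [lin_eq hu, hs]
  exact mul_lt_mul_iff_right₀ hl

theorem on_iff {F G : Fold} (h : Eqv F G) (p : Pt) : F.on p ↔ G.on p := by
  obtain ⟨_, l, hl, hu, hs⟩ := h
  unfold Fold.on
  rw [lin_eq hu, hs]
  constructor
  · intro h
    exact mul_left_cancel₀ hl.ne' h
  · intro h
    rw [h]

theorem opp_iff {F G : Fold} (h : Eqv F G) (p : Pt) : F.lin p < F.s ↔ G.lin p < G.s := by
  obtain ⟨_, l, hl, hu, hs⟩ := h
  rw [lin_eq hu, hs]
  exact mul_lt_mul_iff_right₀ hl

theorem ne_iff {F G : Fold} (h : Eqv F G) : F.u ≠ 0 ↔ G.u ≠ 0 := by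
  obtain ⟨_, l, hl, hu, hs⟩ := h
  rw [hu, Ne, Ne, smul_eq_zero]
  simp [hl.ne']

theorem refl_eq {F G : Fold} (h : Eqv F G) (p : Pt) : F.refl p = G.refl p := by
  obtain ⟨_, l, hl, hu, hs⟩ := h
  unfold Fold.refl
  rw [lin_eq hu, hs, hu]
  have h1 : (l • G.u).1 = l * G.u.1 := rfl
  have h2 : (l • G.u).2 = l * G.u.2 := rfl
  rw [h1, h2, smul_smul]
  congr 2
  by_cases h0 : G.u.1 ^ 2 + G.u.2 ^ 2 = 0
  · have e : (l * G.u.1) ^ 2 + (l * G.u.2) ^ 2 = 0 := by
      have : (l * G.u.1) ^ 2 + (l * G.u.2) ^ 2 = l ^ 2 * (G.u.1 ^ 2 + G.u.2 ^ 2) := by ring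
      rw [this, h0, mul_zero]
    rw [h0, e]
    simp
  · have e : (l * G.u.1) ^ 2 + (l * G.u.2) ^ 2 = l ^ 2 * (G.u.1 ^ 2 + G.u.2 ^ 2) := by ring
    rw [e]
    have hl0 := hl.ne'
    field_simp

theorem len {H K : List Fold} (h : List.Forall₂ Eqv H K) : H.length = K.length :=
  h.length_eq

open Classical in
theorem part1 {H K : List Fold} (h : List.Forall₂ Eqv H K) :
    ∀ p, iso H p = iso K p ∧ hgt H p = hgt K p ∧ face H p = face K p := by
  induction h with
  | nil => intro p; exact ⟨rfl, rfl, rfl⟩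
  | @cons F G H K hFG hHK ih =>
    intro p
    obtain ⟨i1, i2, i3⟩ := ih p
    have hc := cap_iff hFG p
    have hd := hFG.1
    have hl := len hHK
    refine ⟨?_, ?_, ?_⟩
    · show (if F.cap p then fun z => iso H p (F.refl z) else iso H p) =
        if G.cap p then fun z => iso K p (G.refl z) else iso K p
      by_cases hp : F.cap p
      · rw [if_pos hp, if_pos (hc.1 hp)]
        funext z
        rw [i1, refl_eq hFG z]
      · rw [if_neg hp, if_neg (fun q => hp (hc.2 q)), i1]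
    · show (if F.cap p then (if F.d then (H.length + 1 : ℤ) else -(H.length + 1 : ℤ)) else hgt H p) =
        if G.cap p then (if G.d then (K.length + 1 : ℤ) else -(K.length + 1 : ℤ)) else hgt K p
      by_cases hp : F.cap p
      · rw [if_pos hp, if_pos (hc.1 hp), hd, hl]
      · rw [if_neg hp, if_neg (fun q => hp (hc.2 q)), i2]
    · show (if F.cap p then !(face H p) else face H p) =
        if G.cap p then !(face K p) else face K p
      by_cases hp : F.cap p
      · rw [if_pos hp, if_pos (hc.1 hp), i3]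
      · rw [if_neg hp, if_neg (fun q => hp (hc.2 q)), i3]

theorem on_ex {H K : List Fold} (h : List.Forall₂ Eqv H K) (p : Pt) :
    (∃ G ∈ H, G.on p) ↔ ∃ G ∈ K, G.on p := by
  induction h with
  | nil => simp
  | @cons F G H K hFG hHK ih =>
    simp only [List.mem_cons, exists_eq_or_imp]
    rw [ih, on_iff hFG p]

theorem nall {H : List Fold} (p : Pt) : (∀ G ∈ H, ¬ G.on p) ↔ ¬ ∃ G ∈ H, G.on p := by
  push Not
  rfl

theorem all5 {H : List Fold} (R : Rct) (F : Fold) :
    (∀ G ∈ H, ∀ p, inn R p → G.on p → F.lin p < F.s) ↔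
      ∀ p, inn R p → (∃ G ∈ H, G.on p) → F.lin p < F.s := by
  constructor
  · rintro h p hp ⟨G, hG, ho⟩
    exact h G hG p hp ho
  · intro h G hG p hp ho
    exact h p hp ⟨G, hG, ho⟩

theorem part2 (R : Rct) {H K : List Fold} (h : List.Forall₂ Eqv H K) : ok R H ↔ ok R K := by
  induction h with
  | nil => exact Iff.rfl
  | @cons F G H K hFG hHK ih =>
    have hd := hFG.1
    have P1 := part1 hHK
    unfold ok
    rw [ih, ne_iff hFG, all5 R F, all5 R G]
    have e1 : (∃ p, inn R p ∧ F.cap p) ↔ ∃ p, inn R p ∧ G.cap p :=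
      exists_congr fun p => and_congr_right fun _ => cap_iff hFG p
    have e2 : (∃ p, inn R p ∧ F.lin p < F.s) ↔ ∃ p, inn R p ∧ G.lin p < G.s :=
      exists_congr fun p => and_congr_right fun _ => opp_iff hFG p
    have e3 : (∀ p, inn R p → (∃ G ∈ H, G.on p) → F.lin p < F.s) ↔
        ∀ p, inn R p → (∃ G ∈ K, G.on p) → G.lin p < G.s :=
      forall_congr' fun p => by rw [on_ex hHK p, opp_iff hFG p]
    have e4 : (∀ p q, inn R p → F.cap p → inn R q → F.lin q < F.s → (∀ G ∈ H, ¬ G.on q) →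
        iso H p p = iso H q q → if F.d then hgt H q < hgt H p else hgt H p < hgt H q) ↔
        ∀ p q, inn R p → G.cap p → inn R q → G.lin q < G.s → (∀ G ∈ K, ¬ G.on q) →
        iso K p p = iso K q q → if G.d then hgt K q < hgt K p else hgt K p < hgt K q :=
      forall_congr' fun p => forall_congr' fun q => by
        rw [cap_iff hFG p, opp_iff hFG q, nall, nall, on_ex hHK q, (P1 p).1, (P1 q).1, (P1 p).2.1,
          (P1 q).2.1, hd]
    rw [e1, e2, e3, e4]

theorem part3 (R : Rct) {H K : List Fold} (h : List.Forall₂ Eqv H K) :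
    ∀ p, vall R H p ↔ vall R K p := by
  induction h with
  | nil => intro p; exact Iff.rfl
  | @cons F G H K hFG hHK ih =>
    intro p
    have hd := hFG.1
    have P1 := part1 hHK
    have e1 : (∃ q, inn R q ∧ F.cap q ∧ face H q = F.d) ↔ ∃ q, inn R q ∧ G.cap q ∧ face K q = G.d :=
      exists_congr fun q => by rw [cap_iff hFG q, (P1 q).2.2, hd]
    unfold vall
    rw [ih p, on_iff hFG p, e1]

theorem part4 (R : Rct) {H K : List Fold} (h : List.Forall₂ Eqv H K) :
    ∀ p, mntn R H p ↔ mntn R K p := by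
  induction h with
  | nil => intro p; exact Iff.rfl
  | @cons F G H K hFG hHK ih =>
    intro p
    have hd := hFG.1
    have P1 := part1 hHK
    have e1 : (∃ q, inn R q ∧ F.cap q ∧ face H q ≠ F.d) ↔ ∃ q, inn R q ∧ G.cap q ∧ face K q ≠ G.d :=
      exists_congr fun q => by rw [cap_iff hFG q, (P1 q).2.2, hd]
    unfold mntn
    rw [ih p, on_iff hFG p, e1]

end NRMM

theorem specNRM : SpecNRM := fun R _ _ h =>
  ⟨NRMM.part1 h, NRMM.part2 R h, NRMM.part3 R h, NRMM.part4 R h⟩

end Pool.Agent.Lib.MP29559a
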