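import Pool.Agent.Lib.MP_29559a_lc.OL.Spec

/-! # MP_29559a_lc, module NST: nesting of the caps -/

set_option autoImplicit false

namespace Pool.Agent.Lib.MP29559a

namespace NSTM

theorem lc_seg (v : Bool) (a b : Pt) (t : ℝ) :
    lc v (a.1 + t * (b.1 - a.1), a.2 + t * (b.2 - a.2)) = lc v a + t * (lc v b - lc v a) := by
  cases v <;> simp [lc]

theorem cross (hCVX : SpecCVX) (R : Rct) (X : Ctx) (i : ℕ) (a b : Pt) (ha : inn R a)
    (hb : inn R b) (h1 : ncap X i a) (h2 : capc X i b) :
    ∃ t : ℝ, 0 < t ∧ t < 1 ∧ inn R (a.1 + t * (b.1 - a.1), a.2 + t * (b.2 - a.2)) ∧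
      onc X.1 i (a.1 + t * (b.1 - a.1), a.2 + t * (b.2 - a.2)) := by
  unfold ncap at h1
  unfold capc at h2
  by_cases hc : capU X i = true
  · rw [if_pos hc] at h1 h2
    obtain ⟨t, h3, h4, h5, h6⟩ := hCVX R (vt (cr X.1 i)) (at' (cr X.1 i)) a b ha hb h1 h2
    exact ⟨t, h3, h4, h5, h6⟩
  · rw [if_neg hc] at h1 h2
    obtain ⟨t, h3, h4, h5, h6⟩ := hCVX R (vt (cr X.1 i)) (at' (cr X.1 i)) b a hb ha h2 h1
    have e1 : b.1 + t * (a.1 - b.1) = a.1 + (1 - t) * (b.1 - a.1) := by ring
    have e2 : b.2 + t * (a.2 - b.2) = a.2 + (1 - t) * (b.2 - a.2) := by ring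
    rw [e1, e2] at h5 h6
    exact ⟨1 - t, by linarith, by linarith, h5, h6⟩

theorem side (X : Ctx) (j : ℕ) (x p : Pt) (t : ℝ) (ht : 0 < t) (hx : onc X.1 j x)
    (hp : capc X j p ∨ onc X.1 j p) :
    ¬ ncap X j (x.1 + t * (p.1 - x.1), x.2 + t * (p.2 - x.2)) := by
  unfold onc at hx
  unfold ncap
  by_cases hc : capU X j = true
  · rw [if_pos hc]
    unfold ltc
    rw [lc_seg, hx]
    have h1 : (at' (cr X.1 j) : ℝ) ≤ lc (vt (cr X.1 j)) p := by
      rcases hp with h | h
      · unfold capc at h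
        rw [if_pos hc] at h
        exact le_of_lt h
      · exact le_of_eq h.symm
    have h2 : 0 ≤ t * (lc (vt (cr X.1 j)) p - at' (cr X.1 j)) :=
      mul_nonneg ht.le (by linarith)
    intro h3
    linarith
  · rw [if_neg hc]
    unfold gtc
    rw [lc_seg, hx]
    have h1 : lc (vt (cr X.1 j)) p ≤ (at' (cr X.1 j) : ℝ) := by
      rcases hp with h | h
      · unfold capc at h
        rw [if_neg hc] at h
        exact le_of_lt h
      · exact le_of_eq h
    have h2 : t * (lc (vt (cr X.1 j)) p - at' (cr X.1 j)) ≤ 0 :=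
      mul_nonpos_of_nonneg_of_nonpos ht.le (by linarith)
    intro h3
    linarith

theorem not_ncap_self (X : Ctx) (j : ℕ) (p : Pt) (hp : capc X j p ∨ onc X.1 j p) :
    ¬ ncap X j p := by
  intro h
  unfold ncap at h
  by_cases hc : capU X j = true
  · rw [if_pos hc] at h
    unfold ltc at h
    rcases hp with h1 | h1
    · unfold capc at h1
      rw [if_pos hc] at h1
      exact lt_asymm h h1
    · unfold onc at h1
      exact h.ne h1
  · rw [if_neg hc] at h
    unfold gtc at h
    rcases hp with h1 | h1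
    · unfold capc at h1
      rw [if_neg hc] at h1
      exact lt_asymm h h1
    · unfold onc at h1
      exact h.ne' h1

theorem trich (X : Ctx) (i : ℕ) (p : Pt) (h : ¬ capc X i p) : onc X.1 i p ∨ ncap X i p := by
  unfold capc at h
  unfold onc ncap
  by_cases hc : capU X i = true
  · rw [if_pos hc] at h ⊢
    unfold gtc at h
    unfold ltc
    rcases lt_trichotomy (lc (vt (cr X.1 i)) p) (at' (cr X.1 i)) with h1 | h1 | h1
    · exact Or.inr h1
    · exact Or.inl h1
    · exact absurd h1 h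
  · rw [if_neg hc] at h ⊢
    unfold ltc at h
    unfold gtc
    rcases lt_trichotomy (lc (vt (cr X.1 i)) p) (at' (cr X.1 i)) with h1 | h1 | h1
    · exact absurd h1 h
    · exact Or.inl h1
    · exact Or.inr h1

end NSTM

open NSTM in
theorem specNST (hCVX : SpecCVX) (hSID : SpecSID) (hSDC : SpecSDC) (hASY : SpecASY) :
    SpecNST := by
  intro R X hG hr i hi j hj hij p hp hpj
  obtain ⟨x, hx, hxj⟩ := (hSID R X.1 hG).1 j hj
  have hij1 := hSDC R X hG hr i hi j hj hij
  have hji1 := hSDC R X hG hr j hj i hi (Ne.symm hij)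
  -- a point of the chord `i` which is not strictly outside of the cap of `j`
  have key : ∀ z, inn R z → onc X.1 i z → ¬ ncap X j z → anc X j i = true := by
    intro z hz hzi hzj
    by_contra hcon
    have h1 : anc X j i = false := by
      cases hb : anc X j i
      · rfl
      · exact absurd hb hcon
    exact hzj (hji1.2.1.mp h1 z hz hzi)
  refine ⟨?_, ?_⟩
  · intro h1
    have hxi : capc X i x := hij1.1.mp h1 x hx hxj
    by_contra hcon
    have h3 : anc X j i = true := by
      rcases trich X i p hcon with h2 | h2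
      · exact key p hp h2 (not_ncap_self X j p hpj)
      · obtain ⟨t, t0, t1, hz, hzi⟩ := cross hCVX R X i p x hp hx h2 hxi
        refine key _ hz hzi ?_
        have e1 : p.1 + t * (x.1 - p.1) = x.1 + (1 - t) * (p.1 - x.1) := by ring
        have e2 : p.2 + t * (x.2 - p.2) = x.2 + (1 - t) * (p.2 - x.2) := by ring
        rw [e1, e2]
        exact side X j x p (1 - t) (by linarith) hxj hpj
    exact hASY R X hG hr i hi j hj ⟨h1, h3⟩
  · intro h1 h2
    have hxi : ncap X i x := hij1.2.1.mp h1 x hx hxj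
    obtain ⟨t, t0, t1, hz, hzi⟩ := cross hCVX R X i x p hx hp hxi h2
    exact key _ hz hzi (side X j x p t t0 hxj hpj)

end Pool.Agent.Lib.MP29559a
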