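import Pool.Agent.Lib.MP_29559a_lc.OL.Spec

set_option autoImplicit false

namespace Pool.Agent.Lib.MP29559a

open Pool.Agent.PolyTime

namespace NUBM

theorem nub_append {T : Type} [DecidableEq T] (l : List T) (a : T) :
    nub (l ++ [a]) = nub l ++ (if a ∈ l then [] else [a]) := by
  unfold nub
  rw [List.length_append, List.length_singleton, List.range_succ, List.filterMap_append]
  congr 1
  · apply List.filterMap_congr
    intro i hi
    rw [List.mem_range] at hi
    rw [List.getElem?_append_left hi, List.take_append_of_le_length hi.le]
  · by_cases h : a ∈ l
    · simp [h]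
    · simp [h]

end NUBM

theorem specNUB : SpecNUB := by
  intro T _ l
  induction l using List.reverseRecOn with
  | nil => simp [nub]
  | append_singleton l a ih =>
    obtain ⟨h1, h2⟩ := ih
    rw [NUBM.nub_append]
    by_cases h : a ∈ l
    · rw [if_pos h, List.append_nil]
      refine ⟨h1, fun b => ?_⟩
      rw [h2 b, List.mem_append, List.mem_singleton]
      constructor
      · exact Or.inl
      · rintro (hb | rfl)
        · exact hb
        · exact h
    · rw [if_neg h]
      refine ⟨?_, fun b => ?_⟩
      · rw [List.nodup_append']
        refine ⟨h1, List.nodup_singleton a, ?_⟩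
        intro b hb hb'
        rw [List.mem_singleton] at hb'
        subst hb'
        exact h ((h2 b).1 hb)
      · rw [List.mem_append, List.mem_append, h2 b]

end Pool.Agent.Lib.MP29559a
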