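import Pool.Agent.Lib.MP_29559a_lc.OL.Spec

/-!
# MP_29559a_lc: module OVB.  The overlap test (helper51)
-/

set_option autoImplicit false

namespace Pool.Agent.Lib.MP29559a

namespace OVBM

/-- `sg n` is `1` or `-1`. -/
theorem sg_sq (n : ℕ) : (sg n : ℝ) * sg n = 1 := by
  unfold sg
  split_ifs <;> norm_num

theorem sat_tr (nx : ℕ) (bx : ℤ) (ny : ℕ) (b' : ℤ) (k : Cn) (x y : ℝ) :
    sat (tr nx bx ny b' k) x y ↔ sat k ((sg nx : ℝ) * (x - bx)) ((sg ny : ℝ) * (y - b')) := by
  unfold sat tr
  simp only
  push_cast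
  constructor
  · intro h
    nlinarith [h]
  · intro h
    nlinarith [h]

/-- `isoO` has the value `(x, y)` at the preimage. -/
theorem iso_pre (X : Ctx) (e : Option ℕ) (x y : ℝ) :
    isoO X e ((sg (naO X true e) : ℝ) * (x - bbO X true e),
      (sg (naO X false e) : ℝ) * (y - bbO X false e)) = (x, y) := by
  unfold isoO
  have h1 := sg_sq (naO X true e)
  have h2 := sg_sq (naO X false e)
  ext
  · simp only
    rw [← mul_assoc, h1]
    ring
  · simp only
    rw [← mul_assoc, h2]
    ring

/-- every point is the preimage of its image -/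
theorem pre_iso (X : Ctx) (e : Option ℕ) (p : Pt) :
    ((sg (naO X true e) : ℝ) * ((isoO X e p).1 - bbO X true e),
      (sg (naO X false e) : ℝ) * ((isoO X e p).2 - bbO X false e)) = p := by
  unfold isoO
  have h1 := sg_sq (naO X true e)
  have h2 := sg_sq (naO X false e)
  ext
  · simp only
    rw [add_sub_cancel_right, ← mul_assoc, h1, one_mul]
  · simp only
    rw [add_sub_cancel_right, ← mul_assoc, h2, one_mul]

theorem sat_rectC (R : Rct) (p : Pt) :
    (∀ k ∈ rectC R, sat k p.1 p.2) ↔ inn R p := by
  unfold rectC sat inn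
  simp only [List.mem_cons, List.not_mem_nil, or_false, forall_eq_or_imp, forall_eq]
  push_cast
  constructor
  · rintro ⟨h1, h2, h3, h4⟩
    refine ⟨by linarith, by linarith, by linarith, by linarith⟩
  · rintro ⟨h1, h2, h3, h4⟩
    refine ⟨by linarith, by linarith, by linarith, by linarith⟩

theorem sat_side (c : Crs) (b : Bool) (p : Pt) :
    sat (sideC c b) p.1 p.2 ↔ (if b then (at' c : ℝ) < lc (vt c) p else lc (vt c) p < at' c) := by
  unfold sat sideC lc
  cases b <;> cases h : vt c <;> simp

theorem sat_cap (X : Ctx) (i : ℕ) (p : Pt) :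
    sat (sideC (cr X.1 i) (capU X i)) p.1 p.2 ↔ capc X i p := by
  rw [sat_side]
  unfold capc gtc ltc
  exact Iff.rfl

theorem sat_ncap (X : Ctx) (i : ℕ) (p : Pt) :
    sat (sideC (cr X.1 i) (!(capU X i))) p.1 p.2 ↔ ncap X i p := by
  rw [sat_side]
  unfold ncap gtc ltc
  cases h : capU X i <;> simp

/-- the inequalities for the cell `e` at the point `q` -/
def CE (R : Rct) (X : Ctx) (m : List Bool) (e : Option ℕ) (q : Pt) : Prop :=
  ∀ k ∈ (rectC R ++ ((if e.isSome then [sideC (cr X.1 (e.getD 0)) (capU X (e.getD 0))] else []) ++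
      (dsc X m e).map fun g => sideC (cr X.1 g) (!(capU X g)))), sat k q.1 q.2

theorem ce_iff (R : Rct) (X : Ctx) (o : List ℕ) (m : List Bool) (e : Option ℕ) (q : Pt)
    (ho : ∀ g ∈ o, g < X.1.length) (hm : ∀ i < X.1.length, gm m i = true ↔ i ∈ o) :
    CE R X m e q ↔ inn R q ∧ (∀ i, e = some i → capc X i q) ∧
      ∀ g ∈ o, (e = none ∨ ∃ i, e = some i ∧ anc X i g = true) → ncap X g q := by
  unfold CE
  rw [List.forall_mem_append, List.forall_mem_append, sat_rectC]
  refine and_congr Iff.rfl (and_congr ?_ ?_)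
  · cases e with
    | none => simp
    | some i =>
      simp only [Option.isSome_some, if_true, Option.getD_some, List.mem_singleton, forall_eq,
        Option.some.injEq]
      rw [sat_cap]
      constructor
      · rintro h j rfl
        exact h
      · intro h
        exact h i rfl
  · unfold dsc
    simp only [List.mem_map, List.mem_filter, List.mem_range, forall_exists_index, and_imp,
      Bool.and_eq_true, Bool.or_eq_true, decide_eq_true_eq]
    constructor
    · intro h g hg he
      rw [← sat_ncap]
      refine h _ g (ho g hg) ((hm g (ho g hg)).2 hg) ?_ rfl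
      rcases he with rfl | ⟨i, rfl, hi⟩
      · exact Or.inl rfl
      · exact Or.inr hi
    · intro h k g hg hmg he hk
      subst hk
      rw [sat_ncap]
      refine h g ((hm g hg).1 hmg) ?_
      rcases he with rfl | hi
      · exact Or.inl rfl
      · cases e with
        | none => exact Or.inl rfl
        | some i => exact Or.inr ⟨i, rfl, hi⟩

end OVBM

open OVBM in
theorem specOVB (hFEA : SpecFEA) : SpecOVB := by
  intro R X o m c e ho hm
  rw [hFEA]
  unfold cons Ov
  constructor
  · rintro ⟨x, y, h⟩
    rw [List.forall_mem_append] at h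
    obtain ⟨h1, h2⟩ := h
    simp only [List.mem_map, forall_exists_index, and_imp, forall_apply_eq_imp_iff₂, sat_tr] at h1 h2
    set p : Pt := ((sg (naO X true (par X c)) : ℝ) * (x - bbO X true (par X c)),
      (sg (naO X false (par X c)) : ℝ) * (y - bbO X false (par X c))) with hp
    set q : Pt := ((sg (naO X true e) : ℝ) * (x - bbO X true e),
      (sg (naO X false e) : ℝ) * (y - bbO X false e)) with hq
    have hc1 : inn R p ∧ capc X c p := by
      rw [← sat_rectC, ← sat_cap]
      refine ⟨fun k hk => h1 k (List.mem_append_left _ hk), h1 _ (List.mem_append_right _ ?_)⟩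
      simp
    have hc2 : CE R X m e q := h2
    rw [ce_iff R X o m e q ho hm] at hc2
    refine ⟨p, q, hc1.1, hc1.2, hc2.1, hc2.2.1, hc2.2.2, ?_⟩
    rw [hp, hq, iso_pre, iso_pre]
  · rintro ⟨p, q, hp, hcp, hq, hcq, hn, he⟩
    have hc2 : CE R X m e q := (ce_iff R X o m e q ho hm).2 ⟨hq, hcq, hn⟩
    refine ⟨(isoO X e q).1, (isoO X e q).2, ?_⟩
    rw [List.forall_mem_append]
    simp only [List.mem_map, forall_exists_index, and_imp, forall_apply_eq_imp_iff₂, sat_tr]
    have e1 := pre_iso X (par X c) p
    have e2 := pre_iso X e q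
    rw [he] at e1
    rw [Prod.ext_iff] at e1 e2
    simp only at e1 e2
    rw [e1.1, e1.2, e2.1, e2.2]
    refine ⟨?_, hc2⟩
    intro k hk
    rw [List.mem_append, List.mem_singleton] at hk
    rcases hk with hk | rfl
    · exact (sat_rectC R p).2 hp k hk
    · exact (sat_cap X c p).2 hcp

end Pool.Agent.Lib.MP29559a
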