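import Pool.Agent.Lib.MP_29559a_lc.OL.Spec

/-!
# MP_29559a_lc: module PRT, the parent of a crease
-/

set_option autoImplicit false

namespace Pool.Agent.Lib.MP29559a

namespace PRTM

theorem anc_irrefl (X : Ctx) (i : ℕ) : anc X i i = false := by
  simp [anc]

theorem par_some {X : Ctx} {i j : ℕ} (h : par X j = some i) :
    i < X.1.length ∧ anc X i j = true ∧
      ∀ k < X.1.length, ¬ (anc X i k = true ∧ anc X k j = true) := by
  unfold par at h
  have h1 := List.mem_of_find?_eq_some h
  have h2 := List.find?_some h
  rw [List.mem_range] at h1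
  simp only [Bool.and_eq_true, List.all_eq_true, List.mem_range, Bool.not_eq_true',
    Bool.and_eq_false_iff] at h2
  refine ⟨h1, h2.1, fun k hk h3 => ?_⟩
  rcases h2.2 k hk with h4 | h4
  · rw [h3.1] at h4; exact Bool.noConfusion h4
  · rw [h3.2] at h4; exact Bool.noConfusion h4

theorem par_none {X : Ctx} {j : ℕ} (h : par X j = none) :
    ∀ i < X.1.length, anc X i j = true →
      ∃ k < X.1.length, anc X i k = true ∧ anc X k j = true := by
  intro i hi h1
  by_contra hcon
  push Not at hcon
  unfold par at h
  rw [List.find?_eq_none] at h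
  apply h i (List.mem_range.2 hi)
  simp only [Bool.and_eq_true, List.all_eq_true, List.mem_range, Bool.not_eq_true',
    Bool.and_eq_false_iff]
  refine ⟨h1, fun k hk => ?_⟩
  by_cases h2 : anc X i k = true
  · right
    exact Bool.eq_false_iff.2 (hcon k hk h2)
  · left
    exact Bool.eq_false_iff.2 h2

end PRTM

open PRTM in
theorem specPRT (_hASY : SpecASY) (hTRN : SpecTRN) : SpecPRT := by
  intro R X hG hr j hj
  have htr : ∀ i < X.1.length, ∀ k < X.1.length, ∀ l < X.1.length, anc X i k = true →
      anc X k l = true → anc X i l = true := fun i hi k hk l hl h1 h2 =>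
    (hTRN R X hG hr i hi k hk).1 l hl h1 h2
  refine ⟨fun i hi => ⟨(par_some hi).1, (par_some hi).2.1⟩, fun k hk => ?_⟩
  rcases hp : par X j with _ | c
  · -- no parent: no ancestors
    have h0 : aoe X k none = false := rfl
    rw [h0]
    by_contra hne
    have hkj : anc X k j = true := by
      rcases h : anc X k j with _ | _
      · rw [h] at hne; exact absurd rfl hne
      · rfl
    classical
    let A : Finset ℕ := (Finset.range X.1.length).filter fun i => anc X i j = true
    have hA : A.Nonempty := ⟨k, Finset.mem_filter.2 ⟨Finset.mem_range.2 hk, hkj⟩⟩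
    obtain ⟨i, hiA, hmax⟩ := A.exists_max_image
      (fun i => ((Finset.range X.1.length).filter fun l => anc X l i = true).card) hA
    have hi := Finset.mem_filter.1 hiA
    obtain ⟨m, hm, h1, h2⟩ := par_none hp i (Finset.mem_range.1 hi.1) hi.2
    have h3 := hmax m (Finset.mem_filter.2 ⟨Finset.mem_range.2 hm, h2⟩)
    have h4 : ((Finset.range X.1.length).filter fun l => anc X l i = true) ⊂
        ((Finset.range X.1.length).filter fun l => anc X l m = true) := by
      rw [Finset.ssubset_iff_of_subset]
      · refine ⟨i, Finset.mem_filter.2 ⟨hi.1, h1⟩, fun h5 => ?_⟩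
        have h6 := (Finset.mem_filter.1 h5).2
        rw [anc_irrefl] at h6
        exact Bool.noConfusion h6
      · intro l hl
        have h5 := Finset.mem_filter.1 hl
        exact Finset.mem_filter.2 ⟨h5.1, htr l (Finset.mem_range.1 h5.1) i
          (Finset.mem_range.1 hi.1) m hm h5.2 h1⟩
    exact absurd (Finset.card_lt_card h4) (not_lt.2 h3)
  · obtain ⟨hc, hcj, hlow⟩ := par_some hp
    have h0 : aoe X k (some c) = (decide (c = k) || anc X k c) := by
      simp [aoe]
    rw [h0]
    by_cases hck : c = k
    · subst hck
      rw [hcj]; simp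
    · rcases hkj : anc X k j with _ | _
      · rcases hkc : anc X k c with _ | _
        · simp [hck]
        · have := htr k hk c hc j hj hkc hcj
          rw [this] at hkj
          exact Bool.noConfusion hkj
      · rcases (hTRN R X hG hr k hk c hc).2.1 j hj (fun h => hck h.symm) hkj hcj with h1 | h1
        · rw [h1]; simp
        · exact absurd ⟨h1, hkj⟩ (hlow k hk)

end Pool.Agent.Lib.MP29559a
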