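import Pool.Agent.Lib.MP_29559a_lc.OL.Spec

/-! # Module PTA: polynomial time, the static relations of the creases -/

set_option autoImplicit false

namespace Pool.Agent.Lib.MP29559a

open Pool.Agent.PolyTime

namespace PTAM

variable {α : Type} [Rep α]

theorem pt_cr {cs : α → List Crs} {i : α → ℕ} (hcs : PT cs) (hi : PT i) :
    PT (fun a => cr (cs a) (i a)) :=
  (PT.getElem? hcs hi).getD (PT.const dC)

theorem pt_vt {c : α → Crs} (hc : PT c) : PT (fun a => vt (c a)) := PT.fst hc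

theorem pt_at {c : α → Crs} (hc : PT c) : PT (fun a => at' (c a)) :=
  pt_zv (PT.fst (PT.snd hc))

theorem pt_lo {c : α → Crs} (hc : PT c) : PT (fun a => lo (c a)) :=
  pt_zv (PT.fst (PT.snd (PT.snd hc)))

theorem pt_hi {c : α → Crs} (hc : PT c) : PT (fun a => hi (c a)) :=
  pt_zv (PT.fst (PT.snd (PT.snd (PT.snd hc))))

theorem pt_loS {cs : α → List Crs} {i j : α → ℕ} (hcs : PT cs) (hi : PT i) (hj : PT j) :
    PT (fun a => loS (cs a) (i a) (j a)) := by
  have hci := pt_cr hcs hi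
  have hcj := pt_cr hcs hj
  exact PT.iteProp (pt_boolEq (pt_vt hci) (pt_vt hcj)) (pt_zlt (pt_at hcj) (pt_at hci))
    (pt_zle (pt_hi hcj) (pt_at hci))

theorem pt_upS {cs : α → List Crs} {i j : α → ℕ} (hcs : PT cs) (hi : PT i) (hj : PT j) :
    PT (fun a => upS (cs a) (i a) (j a)) := by
  have hci := pt_cr hcs hi
  have hcj := pt_cr hcs hj
  exact PT.iteProp (pt_boolEq (pt_vt hci) (pt_vt hcj)) (pt_zlt (pt_at hci) (pt_at hcj))
    (pt_zle (pt_at hci) (pt_lo hcj))

theorem pt_capU {X : α → Ctx} {i : α → ℕ} (hX : PT X) (hi : PT i) :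
    PT (fun a => capU (X a) (i a)) := by
  have hr : PT (fun a => (X a).2.1) := PT.fst (PT.snd hX)
  exact PT.iteProp (PT.natEq hi hr) (PT.snd (PT.snd hX)) (pt_loS (PT.fst hX) hi hr)

theorem pt_neq {f g : α → ℕ} (hf : PT f) (hg : PT g) : PT (fun a => decide (f a ≠ g a)) :=
  (PT.not (PT.natEq hf hg)).congr fun a => by
    by_cases h : f a = g a <;> simp [h]

theorem pt_anc {X : α → Ctx} {i j : α → ℕ} (hX : PT X) (hi : PT i) (hj : PT j) :
    PT (fun a => anc (X a) (i a) (j a)) :=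
  PT.and (pt_neq hi hj) (PT.iteProp (pt_boolTrue (pt_capU hX hi)) (pt_upS (PT.fst hX) hi hj)
    (pt_loS (PT.fst hX) hi hj))

theorem pt_bef {X : α → Ctx} {i j : α → ℕ} (hX : PT X) (hi : PT i) (hj : PT j) :
    PT (fun a => bef (X a) (i a) (j a)) := by
  have hr : PT (fun a => (X a).2.1) := PT.fst (PT.snd hX)
  exact PT.or (pt_anc hX hi hj) (PT.and (PT.natEq hi hr) (pt_neq hj hr))

end PTAM

open PTAM in
theorem specPTA : SpecPTA := fun _ _ _ _ _ hX hi hj =>
  ⟨pt_cr (PT.fst hX) hi, pt_loS (PT.fst hX) hi hj, pt_upS (PT.fst hX) hi hj, pt_capU hX hi,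
    pt_anc hX hi hj, pt_bef hX hi hj⟩

end Pool.Agent.Lib.MP29559a
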