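import Pool.Agent.Lib.MP_29559a_lc.OL.Spec

/-! # Module PTB: polynomial time, the parent -/

set_option autoImplicit false

namespace Pool.Agent.Lib.MP29559a

open Pool.Agent.PolyTime

namespace PTBM

variable {α : Type} [Rep α]

theorem pt_anc' (h : SpecPTA) {X : α → Ctx} {i j : α → ℕ} (hX : PT X) (hi : PT i) (hj : PT j) :
    PT (fun a => anc (X a) (i a) (j a)) := (h α X i j hX hi hj).2.2.2.2.1

theorem pt_par (h : SpecPTA) {X : α → Ctx} {j : α → ℕ} (hX : PT X) (hj : PT j) :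
    PT (fun a => par (X a) (j a)) := by
  have hr : PT (fun a => List.range (X a).1.length) := PT.range (PT.length (PT.fst hX))
  refine PT.find? (g := fun a i => anc (X a) i (j a) &&
    (List.range (X a).1.length).all fun k => !(anc (X a) i k && anc (X a) k (j a))) hr ?_
  have hX1 : PT (fun p : α × ℕ => X p.1) := PT.comp hX (PT.fst PT.id)
  have hj1 : PT (fun p : α × ℕ => j p.1) := PT.comp hj (PT.fst PT.id)
  have hi1 : PT (fun p : α × ℕ => p.2) := PT.snd PT.id
  refine PT.and (pt_anc' h hX1 hi1 hj1) ?_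
  refine PT.all (g := fun (p : α × ℕ) k => !(anc (X p.1) p.2 k && anc (X p.1) k (j p.1)))
    (PT.range (PT.length (PT.fst hX1))) ?_
  have hX2 : PT (fun p : (α × ℕ) × ℕ => X p.1.1) := PT.comp (g := fun p : α × ℕ => X p.1) hX1 (PT.fst PT.id)
  have hj2 : PT (fun p : (α × ℕ) × ℕ => j p.1.1) := PT.comp (g := fun p : α × ℕ => j p.1) hj1 (PT.fst PT.id)
  have hi2 : PT (fun p : (α × ℕ) × ℕ => p.1.2) := PT.comp (g := fun p : α × ℕ => p.2) hi1 (PT.fst PT.id)
  have hk2 : PT (fun p : (α × ℕ) × ℕ => p.2) := PT.snd PT.id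
  exact PT.not (PT.and (pt_anc' h hX2 hi2 hk2) (pt_anc' h hX2 hk2 hj2))

theorem pt_aoe (h : SpecPTA) {X : α → Ctx} {i : α → ℕ} {e : α → Option ℕ} (hX : PT X) (hi : PT i)
    (he : PT e) : PT (fun a => aoe (X a) (i a) (e a)) :=
  PT.and (PT.isSome he) (PT.or (PT.eq he (PT.some hi))
    (pt_anc' h hX hi (PT.getD he (PT.const 0))))

end PTBM

open PTBM in
theorem specPTB (hPTA : SpecPTA) : SpecPTB := fun _ _ _ _ _ hX hi he =>
  ⟨pt_par hPTA hX hi, pt_aoe hPTA hX hi he⟩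

end Pool.Agent.Lib.MP29559a
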