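import Pool.Agent.Lib.MP_29559a_lc.OL.Spec

set_option autoImplicit false

namespace Pool.Agent.Lib.MP29559a

open Pool.Agent.PolyTime

namespace PTCM

section
variable {α : Type} [Rep α]

theorem pt_sg {f : α → ℕ} (hf : PT f) : PT (fun a => sg (f a)) := by
  unfold sg
  exact PT.iteProp (PT.natEq (PT.mod hf (PT.const 2)) (PT.const 0)) (PT.const 1) (PT.const (-1))

theorem pt_tr {nx ny : α → ℕ} {bx by' : α → ℤ} {k : α → Cn} (h1 : PT nx) (h2 : PT bx) (h3 : PT ny)
    (h4 : PT by') (h5 : PT k) : PT (fun a => tr (nx a) (bx a) (ny a) (by' a) (k a)) := by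
  unfold tr
  have e1 : PT (fun a => (k a).1 * sg (nx a)) := pt_zmul h5.fst (pt_sg h1)
  have e2 : PT (fun a => (k a).2.1 * sg (ny a)) := pt_zmul h5.snd.fst (pt_sg h3)
  have e3 : PT (fun a => (k a).2.2 + (k a).1 * sg (nx a) * bx a + (k a).2.1 * sg (ny a) * by' a) :=
    pt_zadd (pt_zadd h5.snd.snd (pt_zmul e1 h2)) (pt_zmul e2 h4)
  exact PT.pair e1 (PT.pair e2 e3)

theorem pt_rectC {R : α → Rct} (hR : PT R) : PT (fun a => rectC (R a)) := by
  have hA : PT (fun a => rA (R a)) := pt_zv hR.fst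
  have hB : PT (fun a => rB (R a)) := pt_zv hR.snd.fst
  have h1 : PT (fun a => r1 (R a)) := pt_zv hR.snd.snd.fst
  have h2 : PT (fun a => r2 (R a)) := pt_zv hR.snd.snd.snd.fst
  have h3 : PT (fun a => r3 (R a)) := pt_zv hR.snd.snd.snd.snd.fst
  have h4 : PT (fun a => r4 (R a)) := pt_zv hR.snd.snd.snd.snd.snd
  unfold rectC
  refine PT.cons (PT.pair hA (PT.pair hB h2)) (PT.cons ?_ (PT.cons ?_ (PT.cons ?_ (PT.const []))))
  · exact PT.pair (pt_zneg hA) (PT.pair (pt_zneg hB) (pt_zneg h1))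
  · exact PT.pair (pt_zneg hB) (PT.pair hA h4)
  · exact PT.pair hB (PT.pair (pt_zneg hA) (pt_zneg h3))

theorem pt_sideC {c : α → Crs} {u : α → Bool} (hc : PT c) (hu : PT u) :
    PT (fun a => sideC (c a) (u a)) := by
  have he : PT (fun a => (if u a = true then (-1 : ℤ) else 1)) := pt_zite hu (PT.const _) (PT.const _)
  have hat : PT (fun a => at' (c a)) := pt_zv hc.snd.fst
  have hm : PT (fun a => (if u a = true then (-1 : ℤ) else 1) * at' (c a)) := pt_zmul he hat
  have hvt : PT (fun a => vt (c a)) := hc.fst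
  have h1 : PT (fun a => (((if u a = true then (-1 : ℤ) else 1), (0 : ℤ),
      (if u a = true then (-1 : ℤ) else 1) * at' (c a)) : Cn)) := PT.pair he (PT.pair (PT.const 0) hm)
  have h2 : PT (fun a => (((0 : ℤ), (if u a = true then (-1 : ℤ) else 1),
      (if u a = true then (-1 : ℤ) else 1) * at' (c a)) : Cn)) := PT.pair (PT.const 0) (PT.pair he hm)
  exact (PT.ite hvt h1 h2).congr fun a => by
    unfold sideC
    cases vt (c a) <;> rfl

end

end PTCM

open PTCM

theorem specPTC (hPTA : SpecPTA) (hPTB : SpecPTB) (hPTD : SpecPTD) : SpecPTC := by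
  intro α _ R X m c e hR hX hm hc he
  have hpar : PT (fun a => par (X a) (c a)) := (hPTB α X c e hX hc he).1
  have hcr : ∀ {β : Type} [Rep β] (Y : β → Ctx) (i : β → ℕ), PT Y → PT i →
      PT (fun b => sideC (cr (Y b).1 (i b)) (capU (Y b) (i b))) := by
    intro β _ Y i hY hi
    obtain ⟨h1, -, -, h4, -, -⟩ := hPTA β Y i i hY hi hi
    exact pt_sideC h1 h4
  have hcr' : ∀ {β : Type} [Rep β] (Y : β → Ctx) (i : β → ℕ), PT Y → PT i →
      PT (fun b => sideC (cr (Y b).1 (i b)) (!(capU (Y b) (i b)))) := by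
    intro β _ Y i hY hi
    obtain ⟨h1, -, -, h4, -, -⟩ := hPTA β Y i i hY hi hi
    exact pt_sideC h1 (PT.not h4)
  have hlist : ∀ (L : α → List Cn) (f : α → Option ℕ), PT L → PT f →
      PT (fun a => (L a).map (tr (naO (X a) true (f a)) (bbO (X a) true (f a)) (naO (X a) false (f a))
        (bbO (X a) false (f a)))) := by
    intro L f hL hf
    obtain ⟨-, a1, a2, -, -, -⟩ := hPTD α X (fun _ => true) c f hX (PT.const true) hc hf
    obtain ⟨-, b1, b2, -, -, -⟩ := hPTD α X (fun _ => false) c f hX (PT.const false) hc hf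
    refine PT.map (g := fun a k => tr (naO (X a) true (f a)) (bbO (X a) true (f a))
      (naO (X a) false (f a)) (bbO (X a) false (f a)) k) hL ?_
    exact pt_tr (k := fun p : α × Cn => p.2) (a1.comp PT.id.fst) (a2.comp PT.id.fst)
      (b1.comp PT.id.fst) (b2.comp PT.id.fst) PT.id.snd
  have hget : PT (fun a => (e a).getD 0) := PT.getD he (PT.const 0)
  have hdsc : PT (fun a => dsc (X a) (m a) (e a)) := by
    unfold dsc
    refine PT.filter (g := fun a g => gm (m a) g && (decide (e a = none) || anc (X a) ((e a).getD 0) g))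
      (PT.range (PT.length hX.fst)) ?_
    refine PT.and ?_ (PT.or ?_ ?_)
    · unfold gm
      exact PT.getD (PT.getElem? (hm.comp PT.id.fst) PT.id.snd) (PT.const false)
    · refine (PT.not (PT.isSome (he.comp (PT.id (α := α × ℕ)).fst))).congr fun p => ?_
      cases e p.1 <;> rfl
    · obtain ⟨-, -, -, -, h5, -⟩ := hPTA (α × ℕ) (fun p => X p.1) (fun p => (e p.1).getD 0)
        (fun p => p.2) (hX.comp PT.id.fst) (hget.comp PT.id.fst) PT.id.snd
      exact h5
  have hl1 : PT (fun a => rectC (R a) ++ [sideC (cr (X a).1 (c a)) (capU (X a) (c a))]) :=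
    PT.append (pt_rectC hR) (PT.cons (hcr X c hX hc) (PT.const []))
  have hl2 : PT (fun a => rectC (R a) ++ ((if (e a).isSome then
      [sideC (cr (X a).1 ((e a).getD 0)) (capU (X a) ((e a).getD 0))] else []) ++
      (dsc (X a) (m a) (e a)).map fun g => sideC (cr (X a).1 g) (!(capU (X a) g)))) := by
    refine PT.append (pt_rectC hR) (PT.append ?_ ?_)
    · refine (PT.ite (PT.isSome he) (PT.cons (hcr X (fun a => (e a).getD 0) hX hget) (PT.const []))
        (PT.const [])).congr fun a => ?_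
      cases (e a).isSome <;> rfl
    · exact PT.map (g := fun a g => sideC (cr (X a).1 g) (!(capU (X a) g))) hdsc
        (hcr' (fun p : α × ℕ => X p.1) (fun p => p.2) (hX.comp PT.id.fst) PT.id.snd)
  exact PT.append (hlist _ _ hl1 hpar) (hlist _ _ hl2 he)

end Pool.Agent.Lib.MP29559a
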