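import Pool.Agent.Lib.MP_29559a_lc.OL.Spec

/-!
# MP_29559a_lc, module PTL: elimination in polynomial time
-/

set_option autoImplicit false

namespace Pool.Agent.Lib.MP29559a

open Pool.Agent.PolyTime

namespace PTLM

section
variable {α : Type} [Rep α]

theorem t0 {L : α → List Cn} (hL : PT L) :
    PT (fun a => (L a).filter fun k => decide (k.2.1 = 0)) :=
  PT.filter (g := fun (_ : α) (k : Cn) => decide (k.2.1 = 0)) hL
    (pt_zeq (f := fun q : α × Cn => q.2.2.1) (g := fun _ => (0 : ℤ)) PT.id.snd.snd.fst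
      (PT.const 0))

theorem t1 {L : α → List Cn} (hL : PT L) :
    PT (fun a => (L a).filter fun k => decide (0 < k.2.1)) :=
  PT.filter (g := fun (_ : α) (k : Cn) => decide (0 < k.2.1)) hL
    (pt_zlt (f := fun _ => (0 : ℤ)) (g := fun q : α × Cn => q.2.2.1)
      (PT.const 0) PT.id.snd.snd.fst)

theorem t2 {L : α → List Cn} (hL : PT L) :
    PT (fun a => (L a).filter fun k => decide (k.2.1 < 0)) :=
  PT.filter (g := fun (_ : α) (k : Cn) => decide (k.2.1 < 0)) hL
    (pt_zlt (f := fun q : α × Cn => q.2.2.1) (g := fun _ => (0 : ℤ)) PT.id.snd.snd.fst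
      (PT.const 0))

theorem t3 {L : α → List Cn} (hL : PT L) :
    PT (fun a => ((L a).filter fun k => decide (k.2.1 = 0)).map fun k => (k.1, k.2.2)) :=
  PT.map (g := fun (_ : α) (k : Cn) => (k.1, k.2.2)) (t0 hL)
    (PT.pair (f := fun q : α × Cn => q.2.1) (g := fun q : α × Cn => q.2.2.2)
      PT.id.snd.fst PT.id.snd.snd.snd)

/-- the combination of two inequalities -/
def cb (p m : Cn) : ℤ × ℤ :=
  (-(m.2.1 * p.1) + p.2.1 * m.1, -(m.2.1 * p.2.2) + p.2.1 * m.2.2)

theorem pt_cb {p m : α → Cn} (hp : PT p) (hm : PT m) : PT (fun a => cb (p a) (m a)) :=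
  PT.pair (f := fun a => -((m a).2.1 * (p a).1) + (p a).2.1 * (m a).1)
    (g := fun a => -((m a).2.1 * (p a).2.2) + (p a).2.1 * (m a).2.2)
    (pt_zadd (pt_zneg (pt_zmul hm.snd.fst hp.fst)) (pt_zmul hp.snd.fst hm.fst))
    (pt_zadd (pt_zneg (pt_zmul hm.snd.fst hp.snd.snd)) (pt_zmul hp.snd.fst hm.snd.snd))

theorem t4 {L : α → List Cn} (hL : PT L) :
    PT (fun q : α × Cn => ((L q.1).filter fun k => decide (k.2.1 < 0)).map fun m => cb q.2 m) :=
  PT.map (g := fun (q : α × Cn) (m : Cn) => cb q.2 m)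
    (t2 (L := fun q : α × Cn => L q.1) (PT.comp hL PT.id.fst))
    (pt_cb (p := fun r : (α × Cn) × Cn => r.1.2) (m := fun r => r.2) PT.id.fst.snd PT.id.snd)

def ng (L : List Cn) : List Cn := L.filter fun k => decide (k.2.1 < 0)

def ps (L : List Cn) : List Cn := L.filter fun k => decide (0 < k.2.1)

def inner (L : List Cn) (p : Cn) : List (ℤ × ℤ) := (ng L).map fun m => cb p m

theorem t4' {L : α → List Cn} (hL : PT L) : PT (fun q : α × Cn => inner (L q.1) q.2) := t4 hL

theorem t1' {L : α → List Cn} (hL : PT L) : PT (fun a => ps (L a)) := t1 hL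

theorem t5 {L : α → List Cn} (hL : PT L) : PT (fun a => (ps (L a)).flatMap (inner (L a))) :=
  PT.flatMap (l := fun a => ps (L a)) (g := fun (a : α) (p : Cn) => inner (L a) p) (t1' hL)
    (t4' hL)

theorem elim_eq (L : List Cn) : elim L =
    ((L.filter fun k => decide (k.2.1 = 0)).map fun k => (k.1, k.2.2)) ++
      (ps L).flatMap (inner L) := rfl

theorem pt_elim {L : α → List Cn} (hL : PT L) : PT (fun a => elim (L a)) :=
  (PT.append (t3 hL) (t5 hL)).congr fun a => by rw [elim_eq]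

/-- the test of a pair -/
def ts (p m : ℤ × ℤ) : Bool :=
  !(decide (0 < p.1) && decide (m.1 < 0)) || decide (0 < -(m.1 * p.2) + p.1 * m.2)

theorem pt_ts {p m : α → ℤ × ℤ} (hp : PT p) (hm : PT m) : PT (fun a => ts (p a) (m a)) :=
  PT.or (PT.not (PT.and (pt_zlt (PT.const 0) hp.fst) (pt_zlt hm.fst (PT.const 0))))
    (pt_zlt (PT.const 0)
      (pt_zadd (pt_zneg (pt_zmul hm.fst hp.snd)) (pt_zmul hp.fst hm.snd)))

theorem t6 {L : α → List (ℤ × ℤ)} (hL : PT L) :
    PT (fun a => (L a).all fun k => !(decide (k.1 = 0)) || decide (0 < k.2)) :=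
  PT.all (g := fun (_ : α) (k : ℤ × ℤ) => !(decide (k.1 = 0)) || decide (0 < k.2)) hL
    (PT.or (f := fun q : α × (ℤ × ℤ) => !(decide (q.2.1 = 0)))
      (g := fun q => decide (0 < q.2.2))
      (PT.not (pt_zeq PT.id.snd.fst (PT.const 0))) (pt_zlt (PT.const 0) PT.id.snd.snd))

theorem t7 {L : α → List (ℤ × ℤ)} (hL : PT L) :
    PT (fun a => (L a).all fun p => (L a).all fun m => ts p m) :=
  PT.all (g := fun (a : α) (p : ℤ × ℤ) => (L a).all fun m => ts p m) hL
    (PT.all (g := fun (q : α × (ℤ × ℤ)) (m : ℤ × ℤ) => ts q.2 m)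
      (l := fun q : α × (ℤ × ℤ) => L q.1) (PT.comp hL PT.id.fst)
      (pt_ts (p := fun r : (α × (ℤ × ℤ)) × (ℤ × ℤ) => r.1.2) (m := fun r => r.2)
        PT.id.fst.snd PT.id.snd))

theorem feas1_eq (L : List (ℤ × ℤ)) : feas1 L =
    ((L.all fun k => !(decide (k.1 = 0)) || decide (0 < k.2)) &&
      L.all fun p => L.all fun m => ts p m) := rfl

theorem pt_feas1 {L : α → List (ℤ × ℤ)} (hL : PT L) : PT (fun a => feas1 (L a)) :=
  (PT.and (t6 hL) (t7 hL)).congr fun a => by rw [feas1_eq]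

end

end PTLM

theorem specPTL : SpecPTL := by
  intro α _ L hL
  exact (PTLM.pt_feas1 (PTLM.pt_elim hL)).congr fun a => by rw [feasB]

end Pool.Agent.Lib.MP29559a
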