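import Pool.Agent.Lib.MP_29559a_lc.OL.Spec

/-!
# MP_29559a_lc, module PTN: the search runs in polynomial time (helper70)

All states of the search are small (bit vectors of length at most `n`), and every list of states in
the iteration has at most `(n+1)^20` elements.
-/

set_option autoImplicit false

namespace Pool.Agent.Lib.MP29559a

open Pool.Agent.PolyTime

namespace PTNM

/-- small states -/
def Sm (n : ℕ) (S : State) : Prop :=
  S.1.length ≤ n ∧ S.2.length ≤ n ∧ ∀ m ∈ S.2, m.length ≤ n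

theorem sz_bl {n : ℕ} {m : List Bool} (h : m.length ≤ n) : sz m ≤ n * 4 + 1 := by
  have h1 := sz_le_of_forall m 3 (fun b _ => sz_bool b)
  omega

theorem sz_small {n : ℕ} {S : State} (h : Sm n S) :
    sz S ≤ (n * 4 + 1) + (n * (n * 4 + 2) + 1) + 1 := by
  obtain ⟨h1, h2, h3⟩ := h
  have e1 := sz_bl h1
  have e2 := sz_le_of_forall S.2 (n * 4 + 1) (fun m hm => sz_bl (h3 m hm))
  have e3 := Nat.mul_le_mul_right (n * 4 + 2) h2
  rw [sz_prod]
  have e4 : S.2.length * (n * 4 + 1 + 1) = S.2.length * (n * 4 + 2) := rfl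
  omega

theorem gJ_le {n : ℕ} {S : State} (h : Sm n S) (k : ℕ) : (gJ S k).length ≤ n := by
  unfold gJ
  cases e : S.2[k]? with
  | none => simp
  | some m => exact h.2.2 m (List.mem_of_getElem? e)

theorem upd_sm {X : Ctx} {S : State} (h : Sm X.1.length S) (c : ℕ) :
    Sm X.1.length (upd X S c) := by
  refine ⟨?_, ?_, ?_⟩
  · simp [upd, addm]
  · simp [upd]
  · intro m hm
    simp only [upd, List.mem_map] at hm
    obtain ⟨k, -, rfl⟩ := hm
    split_ifs
    · simp [addm]
    · simp
    · exact gJ_le h k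

theorem S0_sm (X : Ctx) : Sm X.1.length (S0 X) := by
  refine ⟨by simp [S0], by simp [S0], ?_⟩
  intro m hm
  simp only [S0, List.mem_map] at hm
  obtain ⟨k, -, rfl⟩ := hm
  simp

theorem nub_sub {T : Type} [DecidableEq T] {l : List T} {a : T} (h : a ∈ nub l) : a ∈ l := by
  unfold nub at h
  rw [List.mem_filterMap] at h
  obtain ⟨i, -, hi⟩ := h
  rw [Option.bind_eq_some_iff] at hi
  obtain ⟨b, hb, hb2⟩ := hi
  split_ifs at hb2
  cases hb2
  exact List.mem_of_getElem? hb

/-- all iterates are short lists of small states -/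
theorem iter_sm (R : Rct) (X : Ctx) (m : ℕ) :
    ((nxt R X)^[m] [S0 X]).length ≤ (X.1.length + 1) ^ 20 ∧
      ∀ S ∈ (nxt R X)^[m] [S0 X], Sm X.1.length S := by
  induction m with
  | zero =>
    refine ⟨?_, ?_⟩
    · simpa using Nat.one_le_pow 20 (X.1.length + 1) (Nat.succ_pos _)
    · intro S hS
      simp only [Function.iterate_zero, id_eq, List.mem_singleton] at hS
      rw [hS]
      exact S0_sm X
  | succ m ih =>
    rw [Function.iterate_succ_apply']
    refine ⟨?_, ?_⟩
    · unfold nxt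
      exact List.length_take_le _ _
    · intro S hS
      unfold nxt at hS
      have h1 := nub_sub (List.mem_of_mem_take hS)
      rw [List.mem_flatMap] at h1
      obtain ⟨S', hS', h2⟩ := h1
      unfold succs at h2
      rw [List.mem_map] at h2
      obtain ⟨c, -, rfl⟩ := h2
      exact upd_sm (ih.2 S' hS') c

/-- the bound for the sizes of the iterates -/
def bd (n : ℕ) : ℕ :=
  (n + 1) ^ 20 * (((n * 4 + 1) + (n * (n * 4 + 2) + 1) + 1) + 1) + 1

theorem iter_sz (R : Rct) (X : Ctx) (m : ℕ) :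
    sz ((nxt R X)^[m] [S0 X]) ≤ bd X.1.length := by
  obtain ⟨h1, h2⟩ := iter_sm R X m
  refine (sz_le_of_forall _ _ fun S hS => sz_small (h2 S hS)).trans ?_
  unfold bd
  exact Nat.add_le_add_right (Nat.mul_le_mul_right _ h1) 1

theorem bdd_bd {α : Type} [Rep α] {f : α → ℕ} (hf : Bdd f) : Bdd (fun a => bd (f a)) := by
  unfold bd
  have h1 : Bdd (fun a => (f a + 1) ^ 20) := (hf.add (Bdd.const 1)).pow 20
  have h2 : Bdd (fun a => f a * 4 + 1) := (hf.mul (Bdd.const 4)).add (Bdd.const 1)
  have h3 : Bdd (fun a => f a * (f a * 4 + 2) + 1) :=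
    (hf.mul ((hf.mul (Bdd.const 4)).add (Bdd.const 2))).add (Bdd.const 1)
  exact (h1.mul (((h2.add h3).add (Bdd.const 1)).add (Bdd.const 1))).add (Bdd.const 1)

section
variable {α : Type} [Rep α]

theorem pt_n {X : α → Ctx} (hX : PT X) : PT (fun a => (X a).1.length) := PT.length (PT.fst hX)

theorem pt_S0 {X : α → Ctx} (hX : PT X) : PT (fun a => S0 (X a)) := by
  unfold S0
  exact PT.pair (PT.map (g := fun _ _ => false) (PT.range (pt_n hX)) (PT.const false))
    (PT.map (g := fun _ _ => ([] : List Bool)) (PT.range (pt_n hX)) (PT.const []))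

theorem pt_nxt (hPTS : SpecPTS) {R : α → Rct} {X : α → Ctx} {L : α → List State} (hR : PT R)
    (hX : PT X) (hL : PT L) : PT (fun a => nxt (R a) (X a) (L a)) := by
  unfold nxt
  refine PT.take (PT.nub (PT.flatMap (g := fun a => succs (R a) (X a)) hL ?_))
    (PT.pow (PT.succ (pt_n hX)) 20)
  exact hPTS (α × State) (fun p => R p.1) (fun p => X p.1) (fun p => p.2) (hR.comp PT.id.fst)
    (hX.comp PT.id.fst) PT.id.snd

theorem pt_srch (hPTS : SpecPTS) {R : α → Rct} {X : α → Ctx} (hR : PT R) (hX : PT X) :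
    PT (fun a => srch (R a) (X a)) := by
  unfold srch
  refine PT.not (PT.isNil (pt_iter (n := fun a => (X a).1.length) (f := fun a => [S0 (X a)])
    (g := fun a L => nxt (R a) (X a) L) (pt_n hX) (PT.cons (pt_S0 hX) (PT.const [])) ?_
    (B := fun a => bd (X a).1.length) (bdd_bd (bdd_nat (pt_n hX))) ?_))
  · exact pt_nxt hPTS (hR.comp PT.id.fst) (hX.comp PT.id.fst) PT.id.snd
  · intro a m _
    exact iter_sz (R a) (X a) m

theorem pt_innZ {R : α → Rct} {x y : α → ℤ} (hR : PT R) (hx : PT x) (hy : PT y) :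
    PT (fun a => innZ (R a) (x a) (y a)) := by
  have hA : PT (fun a => rA (R a)) := pt_zv hR.fst
  have hB : PT (fun a => rB (R a)) := pt_zv hR.snd.fst
  have h1 : PT (fun a => r1 (R a)) := pt_zv hR.snd.snd.fst
  have h2 : PT (fun a => r2 (R a)) := pt_zv hR.snd.snd.snd.fst
  have h3 : PT (fun a => r3 (R a)) := pt_zv hR.snd.snd.snd.snd.fst
  have h4 : PT (fun a => r4 (R a)) := pt_zv hR.snd.snd.snd.snd.snd
  have s1 : PT (fun a => rA (R a) * x a + rB (R a) * y a) :=
    pt_zadd (pt_zmul hA hx) (pt_zmul hB hy)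
  have s2 : PT (fun a => rA (R a) * y a - rB (R a) * x a) :=
    pt_zsub (pt_zmul hA hy) (pt_zmul hB hx)
  unfold innZ
  exact ((pt_zlt h1 s1).and (pt_zlt s1 h2)).and ((pt_zlt h3 s2).and (pt_zlt s2 h4))

theorem pt_fullB {R : α → Rct} {c : α → Crs} (hR : PT R) (hc : PT c) :
    PT (fun a => fullB (R a) (c a)) := by
  have hv : PT (fun a => vt (c a)) := hc.fst
  have ha : PT (fun a => at' (c a)) := pt_zv hc.snd.fst
  have hl : PT (fun a => lo (c a)) := pt_zv hc.snd.snd.fst
  have hh : PT (fun a => hi (c a)) := pt_zv hc.snd.snd.snd.fst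
  unfold fullB
  exact PT.ite hv ((pt_innZ hR ha hl).not.and (pt_innZ hR ha hh).not)
    ((pt_innZ hR hl ha).not.and (pt_innZ hR hh ha).not)

theorem pt_sepB (hPTA : SpecPTA) {cs : α → List Crs} (hcs : PT cs) :
    PT (fun a => sepB (cs a)) := by
  unfold sepB
  refine PT.all (g := fun a i => (List.range (cs a).length).all fun j =>
    decide (i = j) || (loS (cs a) i j || upS (cs a) i j)) (PT.range hcs.length) ?_
  refine PT.all (α := α × ℕ) (l := fun p => List.range (cs p.1).length)
    (g := fun p j => decide (p.2 = j) || (loS (cs p.1) p.2 j || upS (cs p.1) p.2 j))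
    (PT.range (hcs.comp PT.id.fst).length) ?_
  have h := hPTA ((α × ℕ) × ℕ) (fun q => ((cs q.1.1, 0, false) : Ctx)) (fun q => q.1.2)
    (fun q => q.2) (PT.pair (hcs.comp PT.id.fst.fst) (PT.const (0, false))) PT.id.fst.snd PT.id.snd
  exact (PT.natEq PT.id.fst.snd PT.id.snd).or (h.2.1.or h.2.2.1)

end

end PTNM

open PTNM in
/-- MODULE PTN. -/
theorem specPTN (hPTA : SpecPTA) (hPTS : SpecPTS) : SpecPTN := by
  unfold SpecPTN
  have hI : PT (fun I : Inp => I) := PT.id
  have h1 : PT (fun I : Inp => I.2.all (fullB I.1)) :=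
    PT.all (g := fun (I : Inp) c => fullB I.1 c) hI.snd (pt_fullB PT.id.fst.fst PT.id.snd)
  have h2 : PT (fun I : Inp => sepB I.2) := pt_sepB hPTA hI.snd
  have h3 : PT (fun I : Inp => decide (I.2.length = 0)) := PT.isZero hI.snd.length
  have h4 : PT (fun I : Inp => (List.range I.2.length).any fun r =>
      srch I.1 (I.2, r, true) || srch I.1 (I.2, r, false)) := by
    refine PT.any (g := fun (I : Inp) r => srch I.1 (I.2, r, true) || srch I.1 (I.2, r, false))
      (PT.range hI.snd.length) ?_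
    have hp : ∀ b : Bool, PT (fun p : Inp × ℕ => srch p.1.1 ((p.1.2, p.2, b) : Ctx)) := fun b =>
      pt_srch hPTS (R := fun p : Inp × ℕ => p.1.1) (X := fun p : Inp × ℕ => (p.1.2, p.2, b))
        PT.id.fst.fst (PT.pair PT.id.fst.snd (PT.pair PT.id.snd (PT.const b)))
    exact (hp true).or (hp false)
  exact (h1.and (h2.and (h3.or h4))).congr fun I => rfl

end Pool.Agent.Lib.MP29559a
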