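import Pool.Agent.Lib.MP_29559a_lc.OL.Spec

/-! # Module PTS: polynomial time, the successor states -/

set_option autoImplicit false

namespace Pool.Agent.Lib.MP29559a

open Pool.Agent.PolyTime

namespace PTSM

section
variable {α : Type} [Rep α]

theorem pt_gm {m : α → List Bool} {i : α → ℕ} (hm : PT m) (hi : PT i) : PT (fun a => gm (m a) (i a)) := by
  unfold gm
  exact PT.getD (PT.getElem? hm hi) (PT.const false)

theorem pt_gJ {S : α → State} {i : α → ℕ} (hS : PT S) (hi : PT i) : PT (fun a => gJ (S a) (i a)) := by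
  unfold gJ
  exact PT.getD (PT.getElem? hS.snd hi) (PT.const [])

theorem pt_rng {X : α → Ctx} (hX : PT X) : PT (fun a => List.range (X a).1.length) :=
  PT.range (PT.length hX.fst)

theorem pt_above (hPTB : SpecPTB) (hPTD : SpecPTD) {X : α → Ctx} {J : α → List Bool} {c : α → ℕ}
    {e : α → Option ℕ} (hX : PT X) (hJ : PT J) (hc : PT c) (he : PT e) :
    PT (fun a => above (X a) (J a) (c a) (e a)) := by
  have hpar : PT (fun a => par (X a) (c a)) := (hPTB α X c e hX hc he).1
  have hg : PT (fun a => (e a).getD 0) := PT.getD he (PT.const 0)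
  have h1 : PT (fun a => dirO (X a) (par (X a) (c a))) :=
    (hPTD α X (fun _ => true) c (fun a => par (X a) (c a)) hX (PT.const true) hc hpar).2.2.2.2.2
  have h2 : PT (fun a => dirS (X a) ((e a).getD 0)) :=
    (hPTD α X (fun _ => true) (fun a => (e a).getD 0) e hX (PT.const true) hg he).2.2.2.2.1
  have h3 : PT (fun a => gm (J a) ((e a).getD 0)) := pt_gm hJ hg
  refine (PT.ite (PT.isSome he) (PT.ite h3 (PT.not h1) h2) (PT.not h1)).congr fun a => ?_
  unfold above
  cases (e a).isSome <;> cases gm (J a) ((e a).getD 0) <;> rfl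

theorem pt_blkB (hPTB : SpecPTB) (hPTD : SpecPTD) (hPTL : SpecPTL) (hPTC : SpecPTC)
    {R : α → Rct} {X : α → Ctx} {m J : α → List Bool} {c : α → ℕ} (hR : PT R) (hX : PT X) (hm : PT m)
    (hJ : PT J) (hc : PT c) : PT (fun a => blkB (R a) (X a) (m a) (J a) (c a)) := by
  unfold blkB
  have hl : PT (fun a => (none :: ((List.range (X a).1.length).filter (gm (m a))).map some : List (Option ℕ))) := by
    refine PT.cons (PT.const none) (PT.map (g := fun _ i => some i) (PT.filter (g := fun a i => gm (m a) i) (pt_rng hX) ?_) ?_)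
    · exact pt_gm (m := fun p : α × ℕ => m p.1) (hm.comp PT.id.fst) PT.id.snd
    · exact PT.some PT.id.snd
  refine PT.any (g := fun a e => !(decide (e = par (X a) (c a))) && (decide (dirS (X a) (c a) = above (X a) (J a) (c a) e) &&
    feasB (cons (R a) (X a) (m a) (c a) e))) hl ?_
  have hR1 : PT (fun p : α × Option ℕ => R p.1) := hR.comp PT.id.fst
  have hX1 : PT (fun p : α × Option ℕ => X p.1) := hX.comp PT.id.fst
  have hm1 : PT (fun p : α × Option ℕ => m p.1) := hm.comp PT.id.fst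
  have hJ1 : PT (fun p : α × Option ℕ => J p.1) := hJ.comp PT.id.fst
  have hc1 : PT (fun p : α × Option ℕ => c p.1) := hc.comp PT.id.fst
  have he1 : PT (fun p : α × Option ℕ => p.2) := PT.id.snd
  have hpar : PT (fun p : α × Option ℕ => par (X p.1) (c p.1)) :=
    (hPTB (α × Option ℕ) (fun p => X p.1) (fun p => c p.1) (fun p => p.2) hX1 hc1 he1).1
  have hdir : PT (fun p : α × Option ℕ => dirS (X p.1) (c p.1)) :=
    (hPTD (α × Option ℕ) (fun p => X p.1) (fun _ => true) (fun p => c p.1) (fun p => p.2) hX1 (PT.const true) hc1 he1).2.2.2.2.1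
  have hab : PT (fun p : α × Option ℕ => above (X p.1) (J p.1) (c p.1) p.2) := pt_above hPTB hPTD hX1 hJ1 hc1 he1
  have hco : PT (fun p : α × Option ℕ => feasB (cons (R p.1) (X p.1) (m p.1) (c p.1) p.2)) :=
    hPTL (α × Option ℕ) _ (hPTC (α × Option ℕ) (fun p => R p.1) (fun p => X p.1) (fun p => m p.1) (fun p => c p.1)
      (fun p => p.2) hR1 hX1 hm1 hc1 he1)
  exact PT.and (PT.not (PT.eq he1 hpar)) (PT.and (PT.eq hdir hab) hco)

theorem pt_avB (hPTA : SpecPTA) {X : α → Ctx} {m : α → List Bool} {c : α → ℕ} (hX : PT X) (hm : PT m) (hc : PT c) :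
    PT (fun a => avB (X a) (m a) (c a)) := by
  unfold avB
  refine PT.and (PT.not (pt_gm hm hc)) (PT.all (g := fun a i => !(bef (X a) i (c a)) || gm (m a) i) (pt_rng hX) ?_)
  have hX1 : PT (fun p : α × ℕ => X p.1) := hX.comp PT.id.fst
  have hm1 : PT (fun p : α × ℕ => m p.1) := hm.comp PT.id.fst
  have hc1 : PT (fun p : α × ℕ => c p.1) := hc.comp PT.id.fst
  have hi1 : PT (fun p : α × ℕ => p.2) := PT.id.snd
  exact PT.or (PT.not (hPTA (α × ℕ) (fun p => X p.1) (fun p => p.2) (fun p => c p.1) hX1 hi1 hc1).2.2.2.2.2)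
    (pt_gm hm1 hi1)

theorem pt_stepB (hPTA : SpecPTA) (hPTB : SpecPTB) (hPTD : SpecPTD) (hPTL : SpecPTL) (hPTC : SpecPTC)
    {R : α → Rct} {X : α → Ctx} {S : α → State} {c : α → ℕ} (hR : PT R) (hX : PT X) (hS : PT S) (hc : PT c) :
    PT (fun a => stepB (R a) (X a) (S a) (c a)) := by
  unfold stepB
  exact PT.and (pt_avB hPTA hX hS.fst hc) (PT.not (pt_blkB hPTB hPTD hPTL hPTC hR hX hS.fst (pt_gJ hS hc) hc))

theorem pt_addm {X : α → Ctx} {m : α → List Bool} {c : α → ℕ} (hX : PT X) (hm : PT m) (hc : PT c) :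
    PT (fun a => addm (X a) (m a) (c a)) := by
  unfold addm
  refine PT.map (g := fun a i => decide (i = c a) || gm (m a) i) (pt_rng hX) ?_
  exact PT.or (PT.natEq PT.id.snd (hc.comp PT.id.fst))
    (pt_gm (m := fun p : α × ℕ => m p.1) (hm.comp PT.id.fst) PT.id.snd)

theorem pt_upd (hPTB : SpecPTB) {X : α → Ctx} {S : α → State} {c : α → ℕ} (hX : PT X) (hS : PT S) (hc : PT c) :
    PT (fun a => upd (X a) (S a) (c a)) := by
  unfold upd
  refine PT.pair (pt_addm hX hS.fst hc) ?_
  refine PT.map (g := fun a k => if par (X a) k = some (c a) then addm (X a) (S a).1 (c a) else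
    if k = c a then [] else gJ (S a) k) (pt_rng hX) ?_
  have hX1 : PT (fun p : α × ℕ => X p.1) := hX.comp PT.id.fst
  have hS1 : PT (fun p : α × ℕ => S p.1) := hS.comp PT.id.fst
  have hc1 : PT (fun p : α × ℕ => c p.1) := hc.comp PT.id.fst
  have hk1 : PT (fun p : α × ℕ => p.2) := PT.id.snd
  have hpar : PT (fun p : α × ℕ => par (X p.1) p.2) :=
    (hPTB (α × ℕ) (fun p => X p.1) (fun p => p.2) (fun _ => none) hX1 hk1 (PT.const none)).1
  refine PT.iteProp (PT.eq hpar (PT.some hc1)) (pt_addm hX1 hS1.fst hc1) ?_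
  exact PT.iteProp (PT.natEq hk1 hc1) (PT.const []) (pt_gJ hS1 hk1)

end

end PTSM

open PTSM

theorem specPTS (hPTA : SpecPTA) (hPTB : SpecPTB) (hPTD : SpecPTD) (hPTL : SpecPTL) (hPTC : SpecPTC) :
    SpecPTS := by
  intro α _ R X S hR hX hS
  unfold succs
  refine PT.map (g := fun a c => upd (X a) (S a) c)
    (PT.filter (g := fun a c => stepB (R a) (X a) (S a) c) (pt_rng hX) ?_) ?_
  · exact pt_stepB hPTA hPTB hPTD hPTL hPTC (c := fun p : α × ℕ => p.2) (hR.comp PT.id.fst) (hX.comp PT.id.fst)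
      (hS.comp PT.id.fst) PT.id.snd
  · exact pt_upd hPTB (c := fun p : α × ℕ => p.2) (hX.comp PT.id.fst) (hS.comp PT.id.fst) PT.id.snd

end Pool.Agent.Lib.MP29559a
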