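import Pool.Agent.Lib.MP_29559a_lc.OL.VSpec

/-! # Module PTV: the test for valid instances in polynomial time -/

set_option autoImplicit false

namespace Pool.Agent.Lib.MP29559a

open Pool.Agent.PolyTime

namespace PTVM

variable {α : Type} [Rep α]

theorem pt_cr {cs : α → List Crs} {i : α → ℕ} (hcs : PT cs) (hi : PT i) :
    PT (fun a => cr (cs a) (i a)) :=
  (PT.getElem? hcs hi).getD (PT.const dC)

theorem pt_vt {c : α → Crs} (hc : PT c) : PT (fun a => vt (c a)) := PT.fst hc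

theorem pt_at {c : α → Crs} (hc : PT c) : PT (fun a => at' (c a)) :=
  pt_zv (PT.fst (PT.snd hc))

theorem pt_lo {c : α → Crs} (hc : PT c) : PT (fun a => lo (c a)) :=
  pt_zv (PT.fst (PT.snd (PT.snd hc)))

theorem pt_hi {c : α → Crs} (hc : PT c) : PT (fun a => hi (c a)) :=
  pt_zv (PT.fst (PT.snd (PT.snd (PT.snd hc))))

theorem pt_vl {c : α → Crs} (hc : PT c) : PT (fun a => vl (c a)) :=
  PT.snd (PT.snd (PT.snd (PT.snd hc)))

theorem pt_rA {R : α → Rct} (h : PT R) : PT (fun a => rA (R a)) := pt_zv (PT.fst h)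

theorem pt_rB {R : α → Rct} (h : PT R) : PT (fun a => rB (R a)) := pt_zv (PT.fst (PT.snd h))

theorem pt_r1 {R : α → Rct} (h : PT R) : PT (fun a => r1 (R a)) :=
  pt_zv (PT.fst (PT.snd (PT.snd h)))

theorem pt_r2 {R : α → Rct} (h : PT R) : PT (fun a => r2 (R a)) :=
  pt_zv (PT.fst (PT.snd (PT.snd (PT.snd h))))

theorem pt_r3 {R : α → Rct} (h : PT R) : PT (fun a => r3 (R a)) :=
  pt_zv (PT.fst (PT.snd (PT.snd (PT.snd (PT.snd h)))))

theorem pt_r4 {R : α → Rct} (h : PT R) : PT (fun a => r4 (R a)) :=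
  pt_zv (PT.snd (PT.snd (PT.snd (PT.snd (PT.snd h)))))

theorem pt_two {f : α → ℤ} (h : PT f) : PT (fun a => 2 * f a) := pt_zmul (PT.const 2) h

/-- the two linear forms -/
theorem pt_l1 {R : α → Rct} {x y : α → ℤ} (h : PT R) (hx : PT x) (hy : PT y) :
    PT (fun a => rA (R a) * x a + rB (R a) * y a) :=
  pt_zadd (pt_zmul (pt_rA h) hx) (pt_zmul (pt_rB h) hy)

theorem pt_l2 {R : α → Rct} {x y : α → ℤ} (h : PT R) (hx : PT x) (hy : PT y) :
    PT (fun a => rA (R a) * y a - rB (R a) * x a) :=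
  pt_zsub (pt_zmul (pt_rA h) hy) (pt_zmul (pt_rB h) hx)

theorem pt_cloZ {R : α → Rct} {x y : α → ℤ} (h : PT R) (hx : PT x) (hy : PT y) :
    PT (fun a => cloZ (R a) (x a) (y a)) :=
  PT.and (PT.and (pt_zle (pt_r1 h) (pt_l1 h hx hy)) (pt_zle (pt_l1 h hx hy) (pt_r2 h)))
    (PT.and (pt_zle (pt_r3 h) (pt_l2 h hx hy)) (pt_zle (pt_l2 h hx hy) (pt_r4 h)))

theorem pt_innH {R : α → Rct} {x y : α → ℤ} (h : PT R) (hx : PT x) (hy : PT y) :
    PT (fun a => innH (R a) (x a) (y a)) :=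
  PT.and (PT.and (pt_zlt (pt_two (pt_r1 h)) (pt_l1 h hx hy))
      (pt_zlt (pt_l1 h hx hy) (pt_two (pt_r2 h))))
    (PT.and (pt_zlt (pt_two (pt_r3 h)) (pt_l2 h hx hy))
      (pt_zlt (pt_l2 h hx hy) (pt_two (pt_r4 h))))

theorem pt_crsB {R : α → Rct} {c : α → Crs} (h : PT R) (hc : PT c) :
    PT (fun a => crsB (R a) (c a)) := by
  have hlo := pt_lo hc
  have hhi := pt_hi hc
  have hat := pt_at hc
  exact PT.and (pt_zlt hlo hhi) (PT.iteProp (pt_boolTrue (pt_vt hc))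
    (PT.and (pt_cloZ h hat hlo) (PT.and (pt_cloZ h hat hhi)
      (pt_innH h (pt_two hat) (pt_zadd hlo hhi))))
    (PT.and (pt_cloZ h hlo hat) (PT.and (pt_cloZ h hhi hat)
      (pt_innH h (pt_zadd hlo hhi) (pt_two hat)))))

theorem pt_disB {cs : α → List Crs} (hcs : PT cs) : PT (fun a => disB (cs a)) := by
  refine PT.all (g := fun a i => (List.range (cs a).length).all fun j =>
    decide (i = j) || (!(decide (vt (cr (cs a) i) = vt (cr (cs a) j)) &&
        (decide (at' (cr (cs a) i) = at' (cr (cs a) j)) &&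
          decide (vl (cr (cs a) i) = vl (cr (cs a) j)))) ||
      (decide (hi (cr (cs a) i) < lo (cr (cs a) j)) ||
        decide (hi (cr (cs a) j) < lo (cr (cs a) i))))) (PT.range (PT.length hcs)) ?_
  have hcs1 : PT (fun p : α × ℕ => cs p.1) := PT.comp hcs (PT.fst PT.id)
  have hi1 : PT (fun p : α × ℕ => p.2) := PT.snd PT.id
  refine PT.all (g := fun (p : α × ℕ) j =>
    decide (p.2 = j) || (!(decide (vt (cr (cs p.1) p.2) = vt (cr (cs p.1) j)) &&
        (decide (at' (cr (cs p.1) p.2) = at' (cr (cs p.1) j)) &&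
          decide (vl (cr (cs p.1) p.2) = vl (cr (cs p.1) j)))) ||
      (decide (hi (cr (cs p.1) p.2) < lo (cr (cs p.1) j)) ||
        decide (hi (cr (cs p.1) j) < lo (cr (cs p.1) p.2))))) (PT.range (PT.length hcs1)) ?_
  have hcs2 : PT (fun p : (α × ℕ) × ℕ => cs p.1.1) :=
    PT.comp (g := fun p : α × ℕ => cs p.1) hcs1 (PT.fst PT.id)
  have hi2 : PT (fun p : (α × ℕ) × ℕ => p.1.2) :=
    PT.comp (g := fun p : α × ℕ => p.2) hi1 (PT.fst PT.id)
  have hj2 : PT (fun p : (α × ℕ) × ℕ => p.2) := PT.snd PT.id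
  have hci := pt_cr hcs2 hi2
  have hcj := pt_cr hcs2 hj2
  exact PT.or (PT.natEq hi2 hj2) (PT.or (PT.not (PT.and (pt_boolEq (pt_vt hci) (pt_vt hcj))
    (PT.and (pt_zeq (pt_at hci) (pt_at hcj)) (pt_boolEq (pt_vl hci) (pt_vl hcj)))))
    (PT.or (pt_zlt (pt_hi hci) (pt_lo hcj)) (pt_zlt (pt_hi hcj) (pt_lo hci))))

end PTVM

open PTVM in
theorem specPTV : SpecPTV := by
  have hR : PT (fun I : Inp => I.1) := PT.fst PT.id
  have hcs : PT (fun I : Inp => I.2) := PT.snd PT.id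
  have h0 : PT (fun _ : Inp => (0 : ℤ)) := PT.const 0
  have hall : PT (fun I : Inp => I.2.all (crsB I.1)) :=
    PT.all (g := fun (I : Inp) c => crsB I.1 c) hcs
      (pt_crsB (PT.comp hR (PT.fst PT.id)) (PT.snd PT.id))
  exact PT.and (PT.not (PT.and (pt_zeq (pt_rA hR) h0) (pt_zeq (pt_rB hR) h0)))
    (PT.and (pt_zlt (pt_r1 hR) (pt_r2 hR)) (PT.and (pt_zlt (pt_r3 hR) (pt_r4 hR))
      (PT.and hall (pt_disB hcs))))

end Pool.Agent.Lib.MP29559a
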