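import Pool.Agent.Lib.MP_29559a_lc.OL.Spec

/-!
# Module SDC: the caps and the relation `anc`
-/

set_option autoImplicit false

namespace Pool.Agent.Lib.MP29559a

open Pool.Agent.PolyTime

namespace SDCM

theorem not_both (hSID : SpecSID) (R : Rct) (cs : List Crs) (hg : Geo R cs) (i j : ℕ)
    (hi : i < cs.length) (hj : j < cs.length) (h1 : loS cs i j = true) (h2 : upS cs i j = true) :
    False := by
  obtain ⟨ha, hb⟩ := hSID R cs hg
  obtain ⟨p, hp, hq⟩ := ha j hj
  obtain ⟨hl, hu⟩ := hb i hi j hj
  have h3 := hl.1 h1 p hp hq
  have h4 := hu.1 h2 p hp hq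
  unfold ltc at h3
  unfold gtc at h4
  exact lt_asymm h3 h4

end SDCM

open SDCM in
theorem specSDC (hSID : SpecSID) : SpecSDC := by
  intro R X hg hr i hi j hj hij
  obtain ⟨ha, hb⟩ := hSID R X.1 hg
  obtain ⟨hl, hu⟩ := hb i hi j hj
  have hanc : anc X i j = (if capU X i then upS X.1 i j else loS X.1 i j) := by
    unfold anc
    rw [decide_eq_true hij, Bool.true_and]
  have hnb := not_both hSID R X.1 hg i j hi hj
  have hsep := hg.sep i hi j hj hij
  refine ⟨?_, ?_, ?_⟩
  · rw [hanc]
    by_cases hc : capU X i = true
    · rw [if_pos hc, hu]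
      simp only [capc, if_pos hc]
    · rw [if_neg hc, hl]
      simp only [capc, if_neg hc]
  · rw [hanc]
    by_cases hc : capU X i = true
    · rw [if_pos hc]
      simp only [ncap, if_pos hc]
      rw [← hl]
      constructor
      · intro h
        rcases hsep with h1 | h1
        · exact h1
        · rw [h] at h1; exact absurd h1 (by decide)
      · intro h
        rcases Bool.eq_false_or_eq_true (upS X.1 i j) with h1 | h1
        · exact absurd (hnb h h1) id
        · exact h1
    · rw [if_neg hc]
      simp only [ncap, if_neg hc]
      rw [← hu]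
      constructor
      · intro h
        rcases hsep with h1 | h1
        · rw [h] at h1; exact absurd h1 (by decide)
        · exact h1
      · intro h
        rcases Bool.eq_false_or_eq_true (loS X.1 i j) with h1 | h1
        · exact absurd (hnb h1 h) id
        · exact h1
  · by_cases hir : i = X.2.1
    · unfold anc
      rw [decide_eq_false (not_not.2 hir), Bool.false_and]
    · have hcap : capU X i = loS X.1 i X.2.1 := by
        unfold capU
        rw [if_neg hir]
      unfold anc
      rw [hcap, decide_eq_true hir, Bool.true_and]
      rcases Bool.eq_false_or_eq_true (loS X.1 i X.2.1) with h1 | h1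
      · rw [if_pos h1]
        rcases Bool.eq_false_or_eq_true (upS X.1 i X.2.1) with h2 | h2
        · exact absurd (not_both hSID R X.1 hg i X.2.1 hi hr h1 h2) id
        · exact h2
      · rw [h1]
        rfl

end Pool.Agent.Lib.MP29559a
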