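import Pool.Agent.Lib.MP_29559a_lc.OL.Spec

/-!
# MP_29559a_lc, module SID: a chord is nonempty, and `loS`, `upS` say on which side it lies
-/

set_option autoImplicit false

namespace Pool.Agent.Lib.MP29559a

open Pool.Agent.PolyTime

namespace SIDM

/-- the point with the coordinate `a` (for the kind `v`) and the other coordinate `s` -/
def mk (v : Bool) (a s : ℝ) : Pt := if v then (a, s) else (s, a)

theorem lc_mk (v : Bool) (a s : ℝ) : lc v (mk v a s) = a := by
  cases v <;> simp [lc, mk]

theorem lc_mk_not (v : Bool) (a s : ℝ) : lc (!v) (mk v a s) = s := by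
  cases v <;> simp [lc, mk]

/-- a point of the chord with a given other coordinate -/
theorem pt {R : Rct} {cs : List Crs} (hG : Geo R cs) {j : ℕ} (hj : j < cs.length) {s : ℝ}
    (h1 : (lo (cr cs j) : ℝ) < s) (h2 : s < hi (cr cs j)) :
    ∃ p, inn R p ∧ onc cs j p ∧ lc (!vt (cr cs j)) p = s := by
  have hon : onc cs j (mk (vt (cr cs j)) (at' (cr cs j)) s) := lc_mk _ _ _
  refine ⟨mk (vt (cr cs j)) (at' (cr cs j)) s, ?_, hon, lc_mk_not _ _ _⟩
  rw [hG.full j hj _ hon, lc_mk_not]
  exact ⟨h1, h2⟩

theorem lt' {R : Rct} {cs : List Crs} (hG : Geo R cs) {j : ℕ} (hj : j < cs.length) :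
    (lo (cr cs j) : ℝ) < hi (cr cs j) := by
  exact_mod_cast hG.lt j hj

theorem ne {R : Rct} {cs : List Crs} (hG : Geo R cs) {j : ℕ} (hj : j < cs.length) :
    ∃ p, inn R p ∧ onc cs j p := by
  have h := lt' hG hj
  obtain ⟨p, hp, hp', -⟩ := pt hG hj (s := ((lo (cr cs j) : ℝ) + hi (cr cs j)) / 2)
    (by linarith) (by linarith)
  exact ⟨p, hp, hp'⟩

theorem notEq {v w : Bool} (h : ¬ v = w) : (!w) = v := by
  cases v <;> cases w <;> simp_all

end SIDM

open SIDM in
theorem specSID : SpecSID := by
  intro R cs hG
  refine ⟨fun i hi' => ne hG hi', fun i hi' j hj => ?_⟩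
  by_cases hv : vt (cr cs i) = vt (cr cs j)
  · constructor
    · unfold loS ltc onc
      rw [if_pos hv, decide_eq_true_iff, hv]
      constructor
      · intro h p hp hon
        rw [hon]
        exact_mod_cast h
      · intro h
        obtain ⟨p, hp, hon⟩ := ne hG hj
        have h1 := h p hp hon
        have h2 : lc (vt (cr cs j)) p = at' (cr cs j) := hon
        rw [h2] at h1
        exact_mod_cast h1
    · unfold upS gtc onc
      rw [if_pos hv, decide_eq_true_iff, hv]
      constructor
      · intro h p hp hon
        rw [hon]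
        exact_mod_cast h
      · intro h
        obtain ⟨p, hp, hon⟩ := ne hG hj
        have h1 := h p hp hon
        have h2 : lc (vt (cr cs j)) p = at' (cr cs j) := hon
        rw [h2] at h1
        exact_mod_cast h1
  · have hn : (!vt (cr cs j)) = vt (cr cs i) := notEq hv
    have hlt := lt' hG hj
    constructor
    · unfold loS
      rw [if_neg hv, decide_eq_true_iff]
      constructor
      · intro h p hp hon
        have h1 := (hG.full j hj p hon).1 hp
        rw [hn] at h1
        have h2 : (hi (cr cs j) : ℝ) ≤ at' (cr cs i) := by exact_mod_cast h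
        exact lt_of_lt_of_le h1.2 h2
      · intro h
        by_contra hc
        have hc' : (at' (cr cs i) : ℝ) < hi (cr cs j) := by
          have := not_le.1 hc
          exact_mod_cast this
        have hm : max (lo (cr cs j) : ℝ) (at' (cr cs i)) < hi (cr cs j) := max_lt hlt hc'
        have ha := le_max_left (lo (cr cs j) : ℝ) (at' (cr cs i))
        have hb := le_max_right (lo (cr cs j) : ℝ) (at' (cr cs i))
        obtain ⟨p, hp, hon, hs⟩ := pt hG hj
          (s := (max (lo (cr cs j) : ℝ) (at' (cr cs i)) + hi (cr cs j)) / 2)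
          (by linarith) (by linarith)
        have h1 : lc (vt (cr cs i)) p < at' (cr cs i) := h p hp hon
        rw [hn] at hs
        rw [hs] at h1
        linarith
    · unfold upS
      rw [if_neg hv, decide_eq_true_iff]
      constructor
      · intro h p hp hon
        have h1 := (hG.full j hj p hon).1 hp
        rw [hn] at h1
        have h2 : (at' (cr cs i) : ℝ) ≤ lo (cr cs j) := by exact_mod_cast h
        exact lt_of_le_of_lt h2 h1.1
      · intro h
        by_contra hc
        have hc' : (lo (cr cs j) : ℝ) < at' (cr cs i) := by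
          have := not_le.1 hc
          exact_mod_cast this
        have hm : (lo (cr cs j) : ℝ) < min (hi (cr cs j) : ℝ) (at' (cr cs i)) := lt_min hlt hc'
        have ha := min_le_left (hi (cr cs j) : ℝ) (at' (cr cs i))
        have hb := min_le_right (hi (cr cs j) : ℝ) (at' (cr cs i))
        obtain ⟨p, hp, hon, hs⟩ := pt hG hj
          (s := ((lo (cr cs j) : ℝ) + min (hi (cr cs j) : ℝ) (at' (cr cs i))) / 2)
          (by linarith) (by linarith)
        have h1 : (at' (cr cs i) : ℝ) < lc (vt (cr cs i)) p := h p hp hon
        rw [hn] at hs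
        rw [hs] at h1
        linarith

end Pool.Agent.Lib.MP29559a
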