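import Pool.Agent.Lib.MP_29559a_lc.OL.Spec

/-!
# MP_29559a_lc, module STJ: the sets `J`
-/

set_option autoImplicit false

namespace Pool.Agent.Lib.MP29559a

open Pool.Agent.PolyTime

namespace STJM

theorem gJ_upd (X : Ctx) (S : State) (c' c : ℕ) (hc : c < X.1.length) :
    gJ (upd X S c') c = if par X c = some c' then addm X S.1 c' else
      if c = c' then [] else gJ S c := by
  unfold gJ upd
  simp only [List.getElem?_map, List.getElem?_range hc, Option.map_some, Option.getD_some]
  rfl

theorem gJ_S0 (X : Ctx) (c : ℕ) (hc : c < X.1.length) : gJ (S0 X) c = [] := by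
  unfold gJ S0
  simp only [List.getElem?_map, List.getElem?_range hc, Option.map_some, Option.getD_some]

theorem len_addm (X : Ctx) (m : List Bool) (c : ℕ) : (addm X m c).length = X.1.length := by
  unfold addm
  simp only [List.length_map, List.length_range]

theorem gm_addm (X : Ctx) (m : List Bool) (c i : ℕ) (hi : i < X.1.length) :
    gm (addm X m c) i = (decide (i = c) || gm m i) := by
  conv_lhs => unfold gm addm
  simp only [List.getElem?_map, List.getElem?_range hi, Option.map_some, Option.getD_some]

theorem anc_self (X : Ctx) (c : ℕ) : anc X c c = false := by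
  unfold anc
  simp

theorem cl_closed (X : Ctx) : ∀ o, Cl X o → ∀ i ∈ o, ∀ j < X.1.length, bef X j i = true → j ∈ o := by
  intro o
  induction o with
  | nil => intro _ i hi; exact absurd hi (by simp)
  | cons c o ih =>
    intro h i hi j hj hb
    obtain ⟨h1, h2, h3, h4⟩ := h
    rcases List.mem_cons.1 hi with hi | hi
    · subst hi
      exact List.mem_cons_of_mem _ (h4 j hj hb)
    · exact List.mem_cons_of_mem _ (ih h1 i hi j hj hb)

theorem drop_self (c : ℕ) (o : List ℕ) :
    (c :: o).dropWhile (fun x => decide (x ≠ c)) = c :: o := by
  rw [List.dropWhile_cons]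
  simp

theorem drop_ne (c p : ℕ) (o : List ℕ) (h : c ≠ p) :
    (c :: o).dropWhile (fun x => decide (x ≠ p)) = o.dropWhile fun x => decide (x ≠ p) := by
  rw [List.dropWhile_cons]
  simp [h]

end STJM

open STJM

theorem specSTJ (hSTM : SpecSTM) (hPRT : SpecPRT) : SpecSTJ := by
  intro R X hG hr o
  induction o with
  | nil =>
    intro _ c hc
    refine ⟨fun p _ _ hp => absurd hp (by simp), fun _ => ?_⟩
    exact gJ_S0 X c hc
  | cons c' o ih =>
    intro hcl c hc
    have hcl0 := hcl
    obtain ⟨h1, h2, h3, h4⟩ := hcl
    obtain ⟨ihA, ihB⟩ := ih h1 c hc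
    have hup : gJ (stOf X (c' :: o)) c = if par X c = some c' then addm X (stOf X o).1 c' else
      if c = c' then [] else gJ (stOf X o) c := gJ_upd X (stOf X o) c' c hc
    obtain ⟨hs1, hs2, hs3⟩ := hSTM X o
    refine ⟨?_, ?_⟩
    · intro p hcn hpar hp
      have hcc : c ≠ c' := fun h => hcn (by rw [h]; exact List.mem_cons_self)
      have hco : c ∉ o := fun h => hcn (List.mem_cons_of_mem _ h)
      by_cases hpc : p = c'
      · rw [hpc] at hpar
        rw [hup, if_pos hpar, hpc, drop_self]
        refine ⟨len_addm X _ _, fun i hi => ?_⟩
        rw [gm_addm X _ _ _ hi, Bool.or_eq_true, decide_eq_true_iff, hs3 i hi, List.mem_cons]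
      · have hpar2 : ¬ par X c = some c' := by
          rw [hpar]
          intro h
          exact hpc (Option.some.inj h)
        have hpo : p ∈ o := by
          rcases List.mem_cons.1 hp with h | h
          · exact absurd h hpc
          · exact h
        rw [hup, if_neg hpar2, if_neg hcc, drop_ne c' p o (fun h => hpc h.symm)]
        exact ihA p hco hpar hpo
    · intro hor
      by_cases hpar : par X c = some c'
      · exfalso
        have hanc : anc X c' c = true := ((hPRT R X hG hr c hc).1 c' hpar).2
        rcases hor with hor | hor
        · rcases List.mem_cons.1 hor with h | h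
          · rw [h, anc_self] at hanc
            exact absurd hanc (by simp)
          · refine h3 (cl_closed X o h1 c h c' h2 ?_)
            unfold bef
            rw [hanc, Bool.true_or]
        · exact hor c' hpar List.mem_cons_self
      · rw [hup, if_neg hpar]
        by_cases hcc : c = c'
        · rw [if_pos hcc]
        · rw [if_neg hcc]
          apply ihB
          rcases hor with hor | hor
          · rcases List.mem_cons.1 hor with h | h
            · exact absurd h hcc
            · exact Or.inl h
          · exact Or.inr fun p hp h => hor p hp (List.mem_cons_of_mem _ h)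

end Pool.Agent.Lib.MP29559a
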