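import Pool.Agent.Lib.MP_29559a_lc.OL.Spec

/-!
# MP_29559a_lc: module STM (the bit vector of the folded creases)
-/

set_option autoImplicit false

namespace Pool.Agent.Lib.MP29559a

namespace STMM

theorem gm_map (n : ℕ) (f : ℕ → Bool) (i : ℕ) (hi : i < n) : gm ((List.range n).map f) i = f i := by
  unfold gm
  rw [List.getElem?_map, List.getElem?_range hi]
  rfl

end STMM

open STMM in
theorem specSTM : SpecSTM := by
  intro X o
  induction o with
  | nil =>
    refine ⟨?_, ?_, ?_⟩
    · show ((List.range X.1.length).map fun _ => false).length = X.1.length
      rw [List.length_map, List.length_range]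
    · show ((List.range X.1.length).map fun _ => ([] : List Bool)).length = X.1.length
      rw [List.length_map, List.length_range]
    · intro i hi
      have h : gm (stOf X []).1 i = false := gm_map X.1.length (fun _ => false) i hi
      rw [h]
      simp
  | cons c o ih =>
    refine ⟨?_, ?_, ?_⟩
    · show (addm X (stOf X o).1 c).length = X.1.length
      unfold addm
      rw [List.length_map, List.length_range]
    · show ((List.range X.1.length).map fun k =>
        if par X k = some c then addm X (stOf X o).1 c else if k = c then [] else gJ (stOf X o) k).length = X.1.length
      rw [List.length_map, List.length_range]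
    · intro i hi
      have h : gm (stOf X (c :: o)).1 i = (decide (i = c) || gm (stOf X o).1 i) :=
        gm_map X.1.length (fun i => decide (i = c) || gm (stOf X o).1 i) i hi
      rw [h, List.mem_cons, ← ih.2.2 i hi]
      simp

end Pool.Agent.Lib.MP29559a
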