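import Pool.Agent.Lib.MP_29559a_lc.OL.Spec

/-!
# MP_29559a_lc, module TRN: order properties of `anc`
-/

set_option autoImplicit false

namespace Pool.Agent.Lib.MP29559a

namespace TRNM

theorem ne_of_anc {X : Ctx} {i j : ℕ} (h : anc X i j = true) : i ≠ j := by
  unfold anc at h
  rw [Bool.and_eq_true, decide_eq_true_eq] at h
  exact h.1

theorem anc_same {X : Ctx} {i j : ℕ} (hij : i ≠ j) (hv : vt (cr X.1 i) = vt (cr X.1 j)) :
    anc X i j = if capU X i then decide (at' (cr X.1 i) < at' (cr X.1 j))
      else decide (at' (cr X.1 j) < at' (cr X.1 i)) := by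
  unfold anc upS loS
  rw [if_pos hv, if_pos hv, decide_eq_true hij, Bool.true_and]

end TRNM

theorem specTRN (hSID : SpecSID) (hSDC : SpecSDC) (hASY : SpecASY) (hNST : SpecNST) : SpecTRN := by
  intro R X hG hr i hi j hj
  refine ⟨?_, ?_, ?_⟩
  · intro k hk hij hjk
    have hne : i ≠ j := TRNM.ne_of_anc hij
    have hjk' : j ≠ k := TRNM.ne_of_anc hjk
    have hik : i ≠ k := by
      intro h
      subst h
      exact hASY R X hG hr i hi j hj ⟨hij, hjk⟩
    rw [(hSDC R X hG hr i hi k hk hik).1]
    intro p hp hpk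
    have h1 : capc X j p := (hSDC R X hG hr j hj k hk hjk').1.1 hjk p hp hpk
    exact (hNST R X hG hr i hi j hj hne p hp (Or.inl h1)).1 hij
  · intro k hk hne hik hjk
    obtain ⟨p, hp, hpk⟩ := (hSID R X.1 hG).1 k hk
    have h1 : capc X i p := (hSDC R X hG hr i hi k hk (TRNM.ne_of_anc hik)).1.1 hik p hp hpk
    have h2 : capc X j p := (hSDC R X hG hr j hj k hk (TRNM.ne_of_anc hjk)).1.1 hjk p hp hpk
    cases hb : anc X i j with
    | true => exact Or.inl rfl
    | false => exact Or.inr ((hNST R X hG hr i hi j hj hne p hp (Or.inl h2)).2 hb h1)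
  · intro hne hv hc
    have hs := hG.sep i hi j hj hne
    unfold loS upS at hs
    rw [if_pos hv, if_pos hv, decide_eq_true_eq, decide_eq_true_eq] at hs
    rw [TRNM.anc_same hne hv, TRNM.anc_same (Ne.symm hne) hv.symm, ← hc]
    cases capU X i with
    | true =>
      rcases hs with h | h
      · right; simpa using h
      · left; simpa using h
    | false =>
      rcases hs with h | h
      · left; simpa using h
      · right; simpa using h

end Pool.Agent.Lib.MP29559a
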