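import Pool.Agent.Lib.MP_29559a_lc.OL.Spec

set_option autoImplicit false

namespace Pool.Agent.Lib.MP29559a

theorem specVCL (hSTM : SpecSTM) : SpecVCL := by
  intro R X o
  induction o with
  | nil => intro _; trivial
  | cons c o ih =>
    rintro ⟨h1, h2, h3⟩
    obtain ⟨_, _, hs⟩ := hSTM X o
    simp only [stepB, avB, Bool.and_eq_true, Bool.not_eq_true', List.all_eq_true, List.mem_range,
      Bool.or_eq_true] at h3
    refine ⟨ih h1, h2, ?_, ?_⟩
    · intro hc
      have h4 := (hs c h2).2 hc
      rw [h3.1.1] at h4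
      cases h4
    · intro i hi hb
      rcases h3.1.2 i hi with h | h
      · rw [hb] at h; cases h
      · exact (hs i hi).1 h

end Pool.Agent.Lib.MP29559a
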