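import Pool.Agent.Lib.MP_29559a_lc.OL.Spec

/-!
# MP_29559a_lc, module VHC: valid histories of the search are the one-layer foldings
-/

set_option autoImplicit false

namespace Pool.Agent.Lib.MP29559a

namespace VHCM

theorem lt_of_mem {X : Ctx} : ∀ {o : List ℕ}, Cl X o → ∀ i ∈ o, i < X.1.length := by
  intro o
  induction o with
  | nil => intro _ i hi; exact absurd hi List.not_mem_nil
  | cons c o ih =>
    intro h i hi
    rcases List.mem_cons.1 hi with h1 | h1
    · rw [h1]; exact h.2.1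
    · exact ih h.1 i h1

theorem avB_iff {X : Ctx} {m : List Bool} {c : ℕ} :
    avB X m c = true ↔ gm m c = false ∧ ∀ i < X.1.length, bef X i c = true → gm m i = true := by
  unfold avB
  rw [Bool.and_eq_true, Bool.not_eq_true', List.all_eq_true]
  constructor
  · rintro ⟨h1, h2⟩
    refine ⟨h1, fun i hi hb => ?_⟩
    have h := h2 i (List.mem_range.2 hi)
    rw [hb, Bool.not_true, Bool.false_or] at h
    exact h
  · rintro ⟨h1, h2⟩
    refine ⟨h1, fun i hi => ?_⟩
    cases hb : bef X i c with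
    | true => rw [Bool.not_true, Bool.false_or]; exact h2 i (List.mem_range.1 hi) hb
    | false => rfl

theorem blkB_iff {R : Rct} {X : Ctx} {m J : List Bool} {c : ℕ} :
    blkB R X m J c = true ↔ ∃ e : Option ℕ, (e = none ∨ ∃ i, (i < X.1.length ∧ gm m i = true) ∧
      e = some i) ∧ e ≠ par X c ∧ dirS X c = above X J c e ∧ feasB (cons R X m c e) = true := by
  unfold blkB
  rw [List.any_eq_true]
  constructor
  · rintro ⟨e, he, h⟩
    rw [Bool.and_eq_true, Bool.and_eq_true, Bool.not_eq_true', decide_eq_false_iff_not,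
      decide_eq_true_eq] at h
    refine ⟨e, ?_, h.1, h.2.1, h.2.2⟩
    rcases List.mem_cons.1 he with h1 | h1
    · exact Or.inl h1
    · obtain ⟨i, hi, hie⟩ := List.mem_map.1 h1
      obtain ⟨hi1, hi2⟩ := List.mem_filter.1 hi
      exact Or.inr ⟨i, ⟨List.mem_range.1 hi1, hi2⟩, hie.symm⟩
  · rintro ⟨e, he, h1, h2, h3⟩
    refine ⟨e, ?_, ?_⟩
    · rcases he with h4 | ⟨i, ⟨hi1, hi2⟩, h4⟩
      · rw [h4]; exact List.mem_cons_self
      · rw [h4]
        exact List.mem_cons_of_mem _ (List.mem_map.2 ⟨i, List.mem_filter.2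
          ⟨List.mem_range.2 hi1, hi2⟩, rfl⟩)
    · rw [Bool.and_eq_true, Bool.and_eq_true, Bool.not_eq_true', decide_eq_false_iff_not,
        decide_eq_true_eq]
      exact ⟨h1, h2, h3⟩

theorem blk_iff (hSTM : SpecSTM) (hABV : SpecABV) (hOVB : SpecOVB) {R : Rct} {X : Ctx}
    (hG : Geo R X.1) (hr : X.2.1 < X.1.length) {c : ℕ} {o : List ℕ} (hC : Cl X (c :: o)) :
    blkB R X (stOf X o).1 (gJ (stOf X o) c) c = true ↔ Blk R X o c := by
  have hlt : ∀ g ∈ o, g < X.1.length := lt_of_mem hC.1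
  have hm : ∀ i < X.1.length, (gm (stOf X o).1 i = true ↔ i ∈ o) := (hSTM X o).2.2
  rw [blkB_iff]
  constructor
  · rintro ⟨e, he, h1, h2, h3⟩
    have he' : e = none ∨ ∃ i ∈ o, e = some i := by
      rcases he with h4 | ⟨i, ⟨hi1, hi2⟩, h4⟩
      · exact Or.inl h4
      · exact Or.inr ⟨i, (hm i hi1).1 hi2, h4⟩
    refine ⟨e, he', h1, ?_, (hOVB R X o _ c e hlt hm).1 h3⟩
    rw [hABV R X hG hr c o hC e he' h1]
    exact h2
  · rintro ⟨e, he, h1, h2, h3⟩
    refine ⟨e, ?_, h1, ?_, (hOVB R X o _ c e hlt hm).2 h3⟩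
    · rcases he with h4 | ⟨i, hi, h4⟩
      · exact Or.inl h4
      · exact Or.inr ⟨i, ⟨hlt i hi, (hm i (hlt i hi)).2 hi⟩, h4⟩
    · rw [← hABV R X hG hr c o hC e he h1]
      exact h2

end VHCM

theorem specVHC (hOKS : SpecOKS) (hSTM : SpecSTM) (hABV : SpecABV) (hOVB : SpecOVB)
    (hVCL : SpecVCL) : SpecVHC := by
  intro R X hG hr o
  induction o with
  | nil =>
    constructor
    · intro _
      exact ⟨trivial, trivial⟩
    · intro _
      exact trivial
  | cons c o ih =>
    constructor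
    · intro h
      have hC : Cl X (c :: o) := hVCL R X _ h
      refine ⟨hC, ?_⟩
      rw [hOKS R X hG hr c o hC]
      refine ⟨(ih.1 h.1).2, fun hB => ?_⟩
      have h1 := h.2.2
      unfold stepB at h1
      rw [Bool.and_eq_true, (VHCM.blk_iff hSTM hABV hOVB hG hr hC).2 hB] at h1
      exact absurd h1.2 (by decide)
    · rintro ⟨hC, hok⟩
      rw [hOKS R X hG hr c o hC] at hok
      refine ⟨ih.2 ⟨hC.1, hok.1⟩, hC.2.1, ?_⟩
      have hm : ∀ i < X.1.length, (gm (stOf X o).1 i = true ↔ i ∈ o) := (hSTM X o).2.2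
      have h1 : blkB R X (stOf X o).1 (gJ (stOf X o) c) c = false := by
        rw [Bool.eq_false_iff]
        intro h
        exact hok.2 ((VHCM.blk_iff hSTM hABV hOVB hG hr hC).1 h)
      unfold stepB
      rw [h1, Bool.not_false, Bool.and_true, VHCM.avB_iff]
      refine ⟨?_, fun i hi hb => (hm i hi).2 (hC.2.2.2 i hi hb)⟩
      rw [Bool.eq_false_iff]
      intro h
      exact hC.2.2.1 ((hm c hC.2.1).1 h)

end Pool.Agent.Lib.MP29559a
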