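import Pool.Agent.Lib.MP_29559a_lc.OL.VSpec

/-!
# VLB (MP_29559a_lc): correctness of the test for valid instances
-/

set_option autoImplicit false

namespace Pool.Agent.Lib.MP29559a

open Pool.Agent.PolyTime

namespace VLBM

lemma aff_le {α β r l h t : ℝ} (h1 : l ≤ t) (h2 : t ≤ h) (h3 : α + β * l ≤ r)
    (h4 : α + β * h ≤ r) : α + β * t ≤ r := by
  rcases le_total 0 β with hb | hb
  · have := mul_le_mul_of_nonneg_left h2 hb
    linarith
  · have := mul_le_mul_of_nonpos_left h1 hb
    linarith

lemma aff_lt {α β r l h t : ℝ} (h0 : l < h) (h3 : α + β * l ≤ r) (h4 : α + β * h ≤ r)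
    (h5 : α + β * t < r) : α + β * ((l + h) / 2) < r := by
  rcases lt_trichotomy β 0 with hb | hb | hb
  · have := mul_lt_mul_of_neg_left (show l < (l + h) / 2 by linarith) hb
    linarith
  · subst hb
    simpa using h5
  · have := mul_lt_mul_of_pos_left (show (l + h) / 2 < h by linarith) hb
    linarith

/-- the point with the coordinate `t` of the line -/
def pt (v : Bool) (a t : ℝ) : Pt := if v then (a, t) else (t, a)

lemma clo_conv (R : Rct) (v : Bool) {a l h t : ℝ} (h1 : l ≤ t) (h2 : t ≤ h)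
    (hl : clo R (pt v a l)) (hh : clo R (pt v a h)) : clo R (pt v a t) := by
  cases v with
  | true =>
    unfold clo pt at *
    simp only [if_true] at *
    obtain ⟨l1, l2, l3, l4⟩ := hl
    obtain ⟨g1, g2, g3, g4⟩ := hh
    refine ⟨?_, ?_, ?_, ?_⟩
    · have := aff_le (α := -(rA R * a)) (β := -(rB R : ℝ)) (r := -(r1 R : ℝ)) h1 h2
        (by linarith) (by linarith)
      linarith
    · have := aff_le (α := rA R * a) (β := (rB R : ℝ)) (r := (r2 R : ℝ)) h1 h2
        (by linarith) (by linarith)
      linarith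
    · have := aff_le (α := rB R * a) (β := -(rA R : ℝ)) (r := -(r3 R : ℝ)) h1 h2
        (by linarith) (by linarith)
      linarith
    · have := aff_le (α := -(rB R * a)) (β := (rA R : ℝ)) (r := (r4 R : ℝ)) h1 h2
        (by linarith) (by linarith)
      linarith
  | false =>
    unfold clo pt at *
    simp only [Bool.false_eq_true, if_false] at *
    obtain ⟨l1, l2, l3, l4⟩ := hl
    obtain ⟨g1, g2, g3, g4⟩ := hh
    refine ⟨?_, ?_, ?_, ?_⟩
    · have := aff_le (α := -(rB R * a)) (β := -(rA R : ℝ)) (r := -(r1 R : ℝ)) h1 h2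
        (by linarith) (by linarith)
      linarith
    · have := aff_le (α := rB R * a) (β := (rA R : ℝ)) (r := (r2 R : ℝ)) h1 h2
        (by linarith) (by linarith)
      linarith
    · have := aff_le (α := -(rA R * a)) (β := (rB R : ℝ)) (r := -(r3 R : ℝ)) h1 h2
        (by linarith) (by linarith)
      linarith
    · have := aff_le (α := rA R * a) (β := -(rB R : ℝ)) (r := (r4 R : ℝ)) h1 h2
        (by linarith) (by linarith)
      linarith

lemma inn_mid (R : Rct) (v : Bool) {a l h t : ℝ} (h0 : l < h)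
    (hl : clo R (pt v a l)) (hh : clo R (pt v a h)) (ht : inn R (pt v a t)) :
    inn R (pt v a ((l + h) / 2)) := by
  cases v with
  | true =>
    unfold clo pt at hl hh
    unfold inn pt at *
    simp only [if_true] at *
    obtain ⟨l1, l2, l3, l4⟩ := hl
    obtain ⟨g1, g2, g3, g4⟩ := hh
    obtain ⟨t1, t2, t3, t4⟩ := ht
    refine ⟨?_, ?_, ?_, ?_⟩
    · have := aff_lt (α := -(rA R * a)) (β := -(rB R : ℝ)) (r := -(r1 R : ℝ)) (t := t) h0
        (by linarith) (by linarith) (by linarith)
      linarith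
    · have := aff_lt (α := rA R * a) (β := (rB R : ℝ)) (r := (r2 R : ℝ)) (t := t) h0
        (by linarith) (by linarith) (by linarith)
      linarith
    · have := aff_lt (α := rB R * a) (β := -(rA R : ℝ)) (r := -(r3 R : ℝ)) (t := t) h0
        (by linarith) (by linarith) (by linarith)
      linarith
    · have := aff_lt (α := -(rB R * a)) (β := (rA R : ℝ)) (r := (r4 R : ℝ)) (t := t) h0
        (by linarith) (by linarith) (by linarith)
      linarith
  | false =>
    unfold clo pt at hl hh
    unfold inn pt at *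
    simp only [Bool.false_eq_true, if_false] at *
    obtain ⟨l1, l2, l3, l4⟩ := hl
    obtain ⟨g1, g2, g3, g4⟩ := hh
    obtain ⟨t1, t2, t3, t4⟩ := ht
    refine ⟨?_, ?_, ?_, ?_⟩
    · have := aff_lt (α := -(rB R * a)) (β := -(rA R : ℝ)) (r := -(r1 R : ℝ)) (t := t) h0
        (by linarith) (by linarith) (by linarith)
      linarith
    · have := aff_lt (α := rB R * a) (β := (rA R : ℝ)) (r := (r2 R : ℝ)) (t := t) h0
        (by linarith) (by linarith) (by linarith)
      linarith
    · have := aff_lt (α := -(rA R * a)) (β := (rB R : ℝ)) (r := -(r3 R : ℝ)) (t := t) h0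
        (by linarith) (by linarith) (by linarith)
      linarith
    · have := aff_lt (α := rA R * a) (β := -(rB R : ℝ)) (r := (r4 R : ℝ)) (t := t) h0
        (by linarith) (by linarith) (by linarith)
      linarith

lemma seg_iff (c : Crs) (p : Pt) :
    seg c p ↔ ∃ t : ℝ, (lo c : ℝ) ≤ t ∧ t ≤ hi c ∧ p = pt (vt c) (at' c) t := by
  unfold seg lc pt
  obtain ⟨x, y⟩ := p
  cases vt c with
  | true =>
    constructor
    · rintro ⟨h1, h2, h3⟩
      simp only [if_true] at h1
      simp only [Bool.not_true, Bool.false_eq_true, if_false] at h2 h3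
      exact ⟨y, h2, h3, by simp [h1]⟩
    · rintro ⟨t, h1, h2, h3⟩
      simp only [if_true, Prod.mk.injEq] at h3
      obtain ⟨rfl, rfl⟩ := h3
      simp [h1, h2]
  | false =>
    constructor
    · rintro ⟨h1, h2, h3⟩
      simp only [Bool.false_eq_true, if_false] at h1
      simp only [Bool.not_false, if_true] at h2 h3
      exact ⟨x, h2, h3, by simp [h1]⟩
    · rintro ⟨t, h1, h2, h3⟩
      simp only [Bool.false_eq_true, if_false, Prod.mk.injEq] at h3
      obtain ⟨rfl, rfl⟩ := h3
      simp [h1, h2]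

lemma cloZ_iff (R : Rct) (x y : ℤ) : cloZ R x y = true ↔ clo R ((x : ℝ), (y : ℝ)) := by
  unfold cloZ clo
  simp only [Bool.and_eq_true, decide_eq_true_eq, and_assoc]
  norm_cast

lemma innH_iff (R : Rct) (x y : ℤ) :
    innH R x y = true ↔ inn R ((x : ℝ) / 2, (y : ℝ) / 2) := by
  unfold innH inn
  simp only [Bool.and_eq_true, decide_eq_true_eq, and_assoc]
  refine and_congr ?_ (and_congr ?_ (and_congr ?_ ?_)) <;>
  · rw [← Int.cast_lt (R := ℝ)]
    push_cast
    constructor <;> intro h <;> linarith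

lemma crsB_iff (R : Rct) (c : Crs) : crsB R c = true ↔
    lo c < hi c ∧ (∀ p, seg c p → clo R p) ∧ ∃ p, seg c p ∧ inn R p := by
  have h1 : crsB R c = true ↔ lo c < hi c ∧ clo R (pt (vt c) (at' c) (lo c)) ∧
      clo R (pt (vt c) (at' c) (hi c)) ∧
      inn R (pt (vt c) (at' c) (((lo c : ℝ) + hi c) / 2)) := by
    unfold crsB
    rw [Bool.and_eq_true, decide_eq_true_eq]
    unfold pt
    cases vt c with
    | true =>
      simp only [if_true, Bool.and_eq_true, cloZ_iff, innH_iff]
      have e : ((2 * at' c : ℤ) : ℝ) / 2 = (at' c : ℝ) := by push_cast; ring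
      rw [e]
      push_cast
      rfl
    | false =>
      simp only [Bool.false_eq_true, if_false, Bool.and_eq_true, cloZ_iff, innH_iff]
      have e : ((2 * at' c : ℤ) : ℝ) / 2 = (at' c : ℝ) := by push_cast; ring
      rw [e]
      push_cast
      rfl
  rw [h1]
  refine and_congr_right fun hlt => ?_
  have hlt' : (lo c : ℝ) < hi c := by exact_mod_cast hlt
  constructor
  · rintro ⟨a1, a2, a3⟩
    refine ⟨?_, ⟨_, (seg_iff c _).2 ⟨((lo c : ℝ) + hi c) / 2, by linarith, by linarith, rfl⟩,
      a3⟩⟩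
    intro p hp
    obtain ⟨t, t1, t2, rfl⟩ := (seg_iff c p).1 hp
    exact clo_conv R (vt c) t1 t2 a1 a2
  · rintro ⟨a1, p, hp, a3⟩
    have b1 := a1 _ ((seg_iff c _).2 ⟨(lo c : ℝ), le_refl _, hlt'.le, rfl⟩)
    have b2 := a1 _ ((seg_iff c _).2 ⟨(hi c : ℝ), hlt'.le, le_refl _, rfl⟩)
    obtain ⟨t, t1, t2, rfl⟩ := (seg_iff c p).1 hp
    exact ⟨b1, b2, inn_mid R (vt c) hlt' b1 b2 a3⟩

lemma cr_eq {cs : List Crs} {i : ℕ} (h : i < cs.length) : cr cs i = cs[i] := by
  unfold cr
  rw [List.getElem?_eq_getElem h]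
  rfl

lemma disB_iff (cs : List Crs) : disB cs = true ↔
    cs.Pairwise fun c c' => vt c = vt c' → at' c = at' c' → vl c = vl c' →
      hi c < lo c' ∨ hi c' < lo c := by
  rw [List.pairwise_iff_getElem]
  unfold disB
  simp only [List.all_eq_true, List.mem_range, Bool.or_eq_true, Bool.not_eq_true',
    decide_eq_true_eq, Bool.and_eq_false_iff, decide_eq_false_iff_not]
  constructor
  · intro h i j hi' hj' hij h1 h2 h3
    have h4 := h i hi' j hj'
    rw [cr_eq hi', cr_eq hj'] at h4
    rcases h4 with h4 | h4 | h4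
    · omega
    · rcases h4 with h4 | h4 | h4
      · exact absurd h1 h4
      · exact absurd h2 h4
      · exact absurd h3 h4
    · exact h4
  · intro h i hi' j hj'
    rw [cr_eq hi', cr_eq hj']
    by_cases hij : i = j
    · exact Or.inl hij
    · right
      by_cases h1 : vt cs[i] = vt cs[j]
      · by_cases h2 : at' cs[i] = at' cs[j]
        · by_cases h3 : vl cs[i] = vl cs[j]
          · right
            rcases Nat.lt_or_gt_of_ne hij with h4 | h4
            · exact h i j hi' hj' h4 h1 h2 h3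
            · exact (h j i hj' hi' h4 h1.symm h2.symm h3.symm).symm
          · exact Or.inl (Or.inr (Or.inr h3))
        · exact Or.inl (Or.inr (Or.inl h2))
      · exact Or.inl (Or.inl h1)

end VLBM

open VLBM in
theorem specVLB : SpecVLB := by
  intro I
  unfold validB
  rw [Bool.and_eq_true, Bool.and_eq_true, Bool.and_eq_true, Bool.and_eq_true, disB_iff,
    List.all_eq_true, decide_eq_true_eq, decide_eq_true_eq]
  have h0 : (!(decide (rA I.1 = 0) && decide (rB I.1 = 0))) = true ↔
      ¬ (rA I.1 = 0 ∧ rB I.1 = 0) := by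
    rw [Bool.not_eq_true', Bool.and_eq_false_iff, decide_eq_false_iff_not,
      decide_eq_false_iff_not, not_and_or]
  rw [h0]
  constructor
  · rintro ⟨a, b, c, d, e⟩
    exact ⟨a, b, c, fun k hk => (crsB_iff I.1 k).1 (d k hk), e⟩
  · rintro ⟨a, b, c, d, e⟩
    exact ⟨a, b, c, fun k hk => (crsB_iff I.1 k).2 (d k hk), e⟩

end Pool.Agent.Lib.MP29559a
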