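import Pool.Agent.Lib.MP_29559a_lc.OL.CVX
import Pool.Agent.Lib.MP_29559a_lc.OL.SID
import Pool.Agent.Lib.MP_29559a_lc.OL.SDC
import Pool.Agent.Lib.MP_29559a_lc.OL.ASY
import Pool.Agent.Lib.MP_29559a_lc.OL.NST
import Pool.Agent.Lib.MP_29559a_lc.OL.TRN
import Pool.Agent.Lib.MP_29559a_lc.OL.PRT
import Pool.Agent.Lib.MP_29559a_lc.OL.DAT
import Pool.Agent.Lib.MP_29559a_lc.OL.CEL
import Pool.Agent.Lib.MP_29559a_lc.OL.MKF
import Pool.Agent.Lib.MP_29559a_lc.OL.ISO
import Pool.Agent.Lib.MP_29559a_lc.OL.OKS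
import Pool.Agent.Lib.MP_29559a_lc.OL.STM
import Pool.Agent.Lib.MP_29559a_lc.OL.STJ
import Pool.Agent.Lib.MP_29559a_lc.OL.ABV
import Pool.Agent.Lib.MP_29559a_lc.OL.FEA
import Pool.Agent.Lib.MP_29559a_lc.OL.OVB
import Pool.Agent.Lib.MP_29559a_lc.OL.VCL
import Pool.Agent.Lib.MP_29559a_lc.OL.VHC
import Pool.Agent.Lib.MP_29559a_lc.OL.LAB
import Pool.Agent.Lib.MP_29559a_lc.OL.NRM
import Pool.Agent.Lib.MP_29559a_lc.OL.CVL
import Pool.Agent.Lib.MP_29559a_lc.OL.LNE
import Pool.Agent.Lib.MP_29559a_lc.OL.CST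
import Pool.Agent.Lib.MP_29559a_lc.OL.EXA
import Pool.Agent.Lib.MP_29559a_lc.OL.EXB
import Pool.Agent.Lib.MP_29559a_lc.OL.EXC
import Pool.Agent.Lib.MP_29559a_lc.OL.EXD
import Pool.Agent.Lib.MP_29559a_lc.OL.MSK
import Pool.Agent.Lib.MP_29559a_lc.OL.CNT
import Pool.Agent.Lib.MP_29559a_lc.OL.NUB
import Pool.Agent.Lib.MP_29559a_lc.OL.BFS
import Pool.Agent.Lib.MP_29559a_lc.OL.FLB
import Pool.Agent.Lib.MP_29559a_lc.OL.PTA
import Pool.Agent.Lib.MP_29559a_lc.OL.PTB
import Pool.Agent.Lib.MP_29559a_lc.OL.PTD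
import Pool.Agent.Lib.MP_29559a_lc.OL.PTL
import Pool.Agent.Lib.MP_29559a_lc.OL.PTC
import Pool.Agent.Lib.MP_29559a_lc.OL.PTS
import Pool.Agent.Lib.MP_29559a_lc.OL.PTN
import Pool.Agent.Lib.MP_29559a_lc.OL.FIN
import Pool.Agent.Lib.MP_29559a_lc.OL.GST
import Pool.Agent.Lib.MP_29559a_lc.OL.GAF
import Pool.Agent.Lib.MP_29559a_lc.OL.GFR
import Pool.Agent.Lib.MP_29559a_lc.OL.GCP
import Pool.Agent.Lib.MP_29559a_lc.OL.GMT
import Pool.Agent.Lib.MP_29559a_lc.OL.GAB
import Pool.Agent.Lib.MP_29559a_lc.OL.GOK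
import Pool.Agent.Lib.MP_29559a_lc.OL.GTO
import Pool.Agent.Lib.MP_29559a_lc.OL.GFM
import Pool.Agent.Lib.MP_29559a_lc.OL.GEQ
import Pool.Agent.Lib.MP_29559a_lc.OL.VLB
import Pool.Agent.Lib.MP_29559a_lc.OL.PTV

/-!
# MP_29559a_lc: the one-layer model is in P.  The main theorem
-/

set_option autoImplicit false

namespace Pool.Agent.Lib.MP29559a

open Pool.Agent.PolyTime

theorem ptDecB : PT decB := by
  have pta := specPTA
  have ptb := specPTB pta
  have ptd := specPTD pta ptb
  have ptl := specPTL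
  have ptc := specPTC pta ptb ptd
  have pts := specPTS pta ptb ptd ptl ptc
  exact specPTN pta pts

theorem decB_correct (I : Inp) (hI : Valid I) : decB I = true ↔ Foldable I := by
  have cvx := specCVX
  have sid := specSID
  have sdc := specSDC sid
  have asy := specASY cvx sid sdc
  have nst := specNST cvx sid sdc asy
  have trn := specTRN sid sdc asy nst
  have prt := specPRT asy trn
  have dat := specDAT prt
  have cel := specCEL sdc asy nst trn prt
  have mkf := specMKF
  have iso' := specISO dat cel mkf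
  have oks := specOKS cvx sid sdc nst cel mkf iso'
  have stm := specSTM
  have stj := specSTJ stm prt
  have abv' := specABV prt stj
  have fea := specFEA
  have ovb := specOVB fea
  have vcl := specVCL stm
  have vhc := specVHC oks stm abv' ovb vcl
  have lab := specLAB sdc cel mkf iso'
  have nrm := specNRM
  have cvl := specCVL
  have lne := specLNE
  have cst := specCST
  have exa := specEXA cvl lne
  have exb := specEXB cvl lne cst exa
  have exc := specEXC cvx exa exb
  have exd := specEXD sid sdc cel mkf iso' nrm lne exa exb exc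
  have msk := specMSK trn
  have cnt := specCNT asy trn prt stm stj msk
  have nub' := specNUB
  have bfs := specBFS vcl cnt nub'
  have flb := specFLB
  exact decB_iff vhc lab nrm exc exd bfs flb I hI

theorem simplyFoldable_iff (I : Inp) : SimplyFoldable I ↔ Foldable I := by
  have gst := specGST
  have gaf := specGAF
  have gfr := specGFR
  have gcp := specGCP gfr
  have gmt := specGMT gfr
  have gab := specGAB specCST
  have gok := specGOK gst gfr gmt gab
  have gto := specGTO gaf gst gcp gmt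
  have gfm := specGFM gaf gmt specCST
  exact specGEQ gmt gok gto gfm I

/-- The one-layer model of simple foldability is in P. -/
theorem main : ∃ dec : Inp → Bool,
    Nonempty (Turing.TM2ComputableInPolyTime (encode (α := Inp)) Computability.encodeBool dec) ∧
    ∀ I : Inp, dec I = true ↔ Valid I ∧ SimplyFoldable I := by
  refine ⟨fun I => validB I && decB I, PT.tm2Bool ?_, fun I => ?_⟩
  · have h1 : PT validB := specPTV
    have h2 := ptDecB
    fun_prop
  · rw [Bool.and_eq_true, specVLB I]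
    constructor
    · rintro ⟨h1, h2⟩
      exact ⟨h1, (simplyFoldable_iff I).2 ((decB_correct I h1).1 h2)⟩
    · rintro ⟨h1, h2⟩
      exact ⟨h1, (decB_correct I h1).2 ((simplyFoldable_iff I).1 h2)⟩

end Pool.Agent.Lib.MP29559a
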