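import Pool.Agent.Lib.MP_29559a_lc.OL.Spec

/-! # Module OKS: one step of the folding. -/

set_option autoImplicit false

namespace Pool.Agent.Lib.MP29559a

open Pool.Agent.PolyTime

namespace OKSM

theorem capc_not_onc {X : Ctx} {i : ℕ} {p : Pt} (h : capc X i p) : ¬ onc X.1 i p := by
  unfold capc at h
  intro h2
  unfold onc at h2
  split_ifs at h
  · unfold gtc at h
    rw [h2] at h
    exact lt_irrefl _ h
  · unfold ltc at h
    rw [h2] at h
    exact lt_irrefl _ h

theorem ncap_not_onc {X : Ctx} {i : ℕ} {p : Pt} (h : ncap X i p) : ¬ onc X.1 i p := by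
  unfold ncap at h
  intro h2
  unfold onc at h2
  split_ifs at h
  · unfold ltc at h
    rw [h2] at h
    exact lt_irrefl _ h
  · unfold gtc at h
    rw [h2] at h
    exact lt_irrefl _ h

theorem ncap_not_capc {X : Ctx} {i : ℕ} {p : Pt} (h : ncap X i p) : ¬ capc X i p := by
  unfold ncap at h
  unfold capc
  intro h2
  split_ifs at h h2
  · exact lt_asymm h h2
  · exact lt_asymm h h2

theorem tri (X : Ctx) (i : ℕ) (p : Pt) : capc X i p ∨ onc X.1 i p ∨ ncap X i p := by
  unfold capc onc ncap gtc ltc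
  rcases lt_trichotomy (lc (vt (cr X.1 i)) p) (at' (cr X.1 i)) with h | h | h
  · by_cases hc : capU X i = true
    · right; right; rw [if_pos hc]; exact h
    · left; rw [if_neg hc]; exact h
  · right; left; exact h
  · by_cases hc : capU X i = true
    · left; rw [if_pos hc]; exact h
    · right; right; rw [if_neg hc]; exact h

theorem inn_open (R : Rct) : IsOpen {p : Pt | inn R p} := by
  have h1 : IsOpen {p : Pt | (r1 R : ℝ) < rA R * p.1 + rB R * p.2} :=
    isOpen_lt continuous_const (by fun_prop)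
  have h2 : IsOpen {p : Pt | rA R * p.1 + rB R * p.2 < (r2 R : ℝ)} :=
    isOpen_lt (by fun_prop) continuous_const
  have h3 : IsOpen {p : Pt | (r3 R : ℝ) < rA R * p.2 - rB R * p.1} :=
    isOpen_lt continuous_const (by fun_prop)
  have h4 : IsOpen {p : Pt | rA R * p.2 - rB R * p.1 < (r4 R : ℝ)} :=
    isOpen_lt (by fun_prop) continuous_const
  exact h1.inter (h2.inter (h3.inter h4))

/-- shift in the direction of a coordinate -/
def sh (v : Bool) (p : Pt) (t : ℝ) : Pt := if v then (p.1 + t, p.2) else (p.1, p.2 + t)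

theorem lc_sh (v : Bool) (p : Pt) (t : ℝ) : lc v (sh v p t) = lc v p + t := by
  cases v <;> simp [lc, sh]

theorem sh_cont (v : Bool) (p : Pt) : Continuous (sh v p) := by
  cases v
  · show Continuous fun t : ℝ => ((p.1, p.2 + t) : Pt)
    fun_prop
  · show Continuous fun t : ℝ => ((p.1 + t, p.2) : Pt)
    fun_prop

theorem sh_zero (v : Bool) (p : Pt) : sh v p 0 = p := by
  cases v <;> simp [sh]

theorem both {R : Rct} {v : Bool} {p : Pt} (h : inn R p) :
    (∃ q, inn R q ∧ lc v p < lc v q) ∧ ∃ q, inn R q ∧ lc v q < lc v p := by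
  have h1 : IsOpen ((sh v p) ⁻¹' {p : Pt | inn R p}) := (inn_open R).preimage (sh_cont v p)
  have h2 : (0 : ℝ) ∈ (sh v p) ⁻¹' {p : Pt | inn R p} := by
    show inn R (sh v p 0)
    rw [sh_zero]
    exact h
  obtain ⟨ε, hε, hb⟩ := Metric.isOpen_iff.mp h1 0 h2
  constructor
  · refine ⟨sh v p (ε / 2), hb ?_, ?_⟩
    · rw [Metric.mem_ball, Real.dist_eq, sub_zero, abs_of_pos (by positivity)]
      linarith
    · rw [lc_sh]
      linarith
  · refine ⟨sh v p (-(ε / 2)), hb ?_, ?_⟩
    · rw [Metric.mem_ball, Real.dist_eq, sub_zero, abs_neg, abs_of_pos (by positivity)]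
      linarith
    · rw [lc_sh]
      linarith

theorem sides {R : Rct} {X : Ctx} {c : ℕ} {p : Pt} (h : inn R p) (ho : onc X.1 c p) :
    (∃ q, inn R q ∧ capc X c q) ∧ ∃ q, inn R q ∧ ncap X c q := by
  obtain ⟨⟨q, hq, h1⟩, q', hq', h2⟩ := both (v := vt (cr X.1 c)) h
  unfold onc at ho
  rw [ho] at h1 h2
  unfold capc ncap gtc ltc
  by_cases hc : capU X c = true
  · simp only [if_pos hc]
    exact ⟨⟨q, hq, h1⟩, q', hq', h2⟩
  · simp only [if_neg hc]
    exact ⟨⟨q', hq', h2⟩, q, hq, h1⟩

theorem Cl_lt {X : Ctx} : ∀ o, Cl X o → ∀ i ∈ o, i < X.1.length := by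
  intro o
  induction o with
  | nil => intro _ i hi; exact absurd hi List.not_mem_nil
  | cons c o ih =>
    intro h i hi
    obtain ⟨h1, h2, _⟩ := h
    rcases List.mem_cons.mp hi with rfl | hi
    · exact h2
    · exact ih h1 i hi

theorem Cl_closed {X : Ctx} : ∀ o, Cl X o → ∀ i ∈ o, ∀ j < X.1.length, bef X j i = true → j ∈ o := by
  intro o
  induction o with
  | nil => intro _ i hi; exact absurd hi List.not_mem_nil
  | cons c o ih =>
    intro h i hi j hj hb
    obtain ⟨h1, _, _, h4⟩ := h
    rcases List.mem_cons.mp hi with rfl | hi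
    · exact List.mem_cons_of_mem _ (h4 j hj hb)
    · exact List.mem_cons_of_mem _ (ih h1 i hi j hj hb)

theorem bef_of_anc {X : Ctx} {i j : ℕ} (h : anc X i j = true) : bef X i j = true := by
  unfold bef
  rw [h, Bool.true_or]

theorem dw : ∀ (o : List ℕ) (i : ℕ), i ∈ o →
    ∃ r, o.dropWhile (fun x => decide (x ≠ i)) = i :: r ∧ (i :: r) <:+ o := by
  intro o
  induction o with
  | nil => intro i hi; exact absurd hi List.not_mem_nil
  | cons c o ih =>
    intro i hi
    by_cases hc : c = i
    · subst hc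
      refine ⟨o, ?_, List.suffix_refl _⟩
      rw [List.dropWhile_cons_of_neg (by simp)]
    · have hi' : i ∈ o := by
        rcases List.mem_cons.mp hi with h | h
        · exact absurd h.symm hc
        · exact h
      obtain ⟨r, h1, h2⟩ := ih i hi'
      refine ⟨r, ?_, h2.trans (List.suffix_cons c o)⟩
      rw [List.dropWhile_cons_of_pos (by simpa using hc), h1]

theorem tm_pos {o : List ℕ} {i : ℕ} (hi : i ∈ o) : 0 < tm o i := by
  obtain ⟨r, h1, _⟩ := dw o i hi
  unfold tm
  rw [h1]
  simp

theorem tm_inj {o : List ℕ} {i j : ℕ} (hi : i ∈ o) (hj : j ∈ o) (h : tm o i = tm o j) : i = j := by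
  obtain ⟨r, h1, h2⟩ := dw o i hi
  obtain ⟨s, h3, h4⟩ := dw o j hj
  unfold tm at h
  rw [h1, h3] at h
  have h5 : (i :: r) <:+ (j :: s) := List.suffix_of_suffix_length_le h2 h4 h.le
  have h6 : (i :: r) = (j :: s) := h5.eq_of_length h
  exact (List.cons.inj h6).1

theorem ht_ne {X : Ctx} {o : List ℕ} {e e' : Option ℕ} (he : e = none ∨ ∃ i ∈ o, e = some i)
    (he' : e' = none ∨ ∃ i ∈ o, e' = some i) (hne : e ≠ e') : htO X o e ≠ htO X o e' := by
  rcases he with rfl | ⟨i, hi, rfl⟩
  · rcases he' with rfl | ⟨j, hj, rfl⟩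
    · exact absurd rfl hne
    · have hp := tm_pos hj
      simp only [htO]
      split_ifs <;> omega
  · rcases he' with rfl | ⟨j, hj, rfl⟩
    · have hp := tm_pos hi
      simp only [htO]
      split_ifs <;> omega
    · have hp := tm_pos hi
      have hq := tm_pos hj
      have hij : tm o i ≠ tm o j := fun h => hne (by rw [tm_inj hi hj h])
      simp only [htO]
      split_ifs <;> omega

theorem sg_ne (n : ℕ) : (sg n : ℝ) ≠ 0 := by
  unfold sg
  split_ifs <;> simp

theorem iso_inj {X : Ctx} {e : Option ℕ} {p q : Pt} (h : isoO X e p = isoO X e q) : p = q := by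
  unfold isoO at h
  obtain ⟨h1, h2⟩ := Prod.mk.inj h
  have h3 := mul_left_cancel₀ (sg_ne _) (add_right_cancel h1)
  have h4 := mul_left_cancel₀ (sg_ne _) (add_right_cancel h2)
  exact Prod.ext h3 h4

end OKSM

open OKSM in
/-- OKS -/
theorem specOKS (_hCVX : SpecCVX) (hSID : SpecSID) (hSDC : SpecSDC) (hNST : SpecNST)
    (hCEL : SpecCEL) (hMKF : SpecMKF) (hISO : SpecISO) : SpecOKS := by
  intro R X hG hr c o hcl
  have hcl' := hcl
  obtain ⟨ho, hc, hco, hbef⟩ := hcl'
  obtain ⟨cel1, cel2, cel3⟩ := hCEL R X hG hr o ho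
  obtain ⟨cel4, _⟩ := cel3 c hc hco hbef
  have hiso := hISO R X hG hr o ho
  obtain ⟨mu, md, mp⟩ := hMKF X c
  -- the cells are of the right form
  have hform : ∀ e q, inC R X o e q → (e = none ∨ ∃ i ∈ o, e = some i) := by
    intro e q he
    cases e with
    | none => exact Or.inl rfl
    | some i => exact Or.inr ⟨i, (he.2.1 i rfl).1, rfl⟩
  -- the chords of the folded creases
  have hch : ∀ g ∈ o, ∀ p, inn R p → onc X.1 g p → ncap X c p := by
    intro g hg p hp hgp
    have hgn := Cl_lt o ho g hg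
    have hcg : c ≠ g := fun h => hco (h ▸ hg)
    refine ((hSDC R X hG hr c hc g hgn hcg).2.1.mp ?_) p hp hgp
    by_contra hne
    exact hco (Cl_closed o ho g hg c hc (bef_of_anc (by simpa using hne)))
  show (ok R (o.map (mkF X)) ∧ (mkF X c).u ≠ 0 ∧ _ ∧ _ ∧ _ ∧ _) ↔ _
  constructor
  · rintro ⟨h1, _, _, _, _, h6⟩
    refine ⟨h1, ?_⟩
    rintro ⟨e, he, hne, hdir, p, q, hp, hcp, hq, hq1, hq2, hpq⟩
    have hqe : inC R X o e q := by
      refine ⟨hq, ?_, ?_⟩
      · intro i hi
        refine ⟨?_, hq1 i hi⟩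
        rcases he with rfl | ⟨j, hj, rfl⟩
        · exact absurd hi (by simp)
        · rw [← Option.some.inj hi]
          exact hj
      · intro g hg hcase
        exact ncap_not_capc (hq2 g hg hcase)
    have hpe : inC R X o (par X c) p := cel4 p hp (Or.inl hcp)
    have hnc : ncap X c q := by
      rcases tri X c q with h | h | h
      · exact absurd (cel2 q e _ hqe (cel4 q hq (Or.inl h))) hne
      · exact absurd (cel2 q e _ hqe (cel4 q hq (Or.inr h))) hne
      · exact h
    have hon : ∀ g ∈ o, ¬ onc X.1 g q := by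
      intro g hg
      rcases he with rfl | ⟨i, hi, rfl⟩
      · exact ncap_not_onc (hq2 g hg (Or.inl rfl))
      · have hci : capc X i q := hq1 i rfl
        by_cases hgi : g = i
        · rw [hgi]
          exact capc_not_onc hci
        · by_cases ha : anc X i g = true
          · exact ncap_not_onc (hq2 g hg (Or.inr ⟨i, rfl, ha⟩))
          · intro hgq
            have hin := Cl_lt o ho i hi
            have hgn := Cl_lt o ho g hg
            have h7 := (hNST R X hG hr i hin g hgn (fun h => hgi h.symm) q hq (Or.inr hgq)).2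
              (by simpa using ha) hci
            have h8 := (hNST R X hG hr g hgn i hin hgi q hq (Or.inl hci)).1 h7
            exact capc_not_onc h8 hgq
    obtain ⟨i1, i2, _⟩ := hiso p _ hpe
    obtain ⟨j1, j2, _⟩ := hiso q _ hqe
    have h9 := h6 p q hp ((mp p).1.mpr hcp) hq ((mp q).2.2.1.mpr hnc) (by
      intro G hG
      obtain ⟨g, hg, rfl⟩ := List.mem_map.mp hG
      intro h
      exact hon g hg (((hMKF X g).2.2 q).2.1.mp h)) (by rw [i1, j1]; exact hpq)
    rw [i2, j2, md] at h9
    by_cases hd : dirS X c = true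
    · rw [if_pos hd] at h9
      rw [hd] at hdir
      have h10 := of_decide_eq_true hdir.symm
      exact lt_asymm h9 h10
    · rw [if_neg hd] at h9
      have hd' : dirS X c = false := by simpa using hd
      rw [hd'] at hdir
      exact of_decide_eq_false hdir.symm h9
  · rintro ⟨h1, hb⟩
    obtain ⟨p0, hp0, hon0⟩ := (hSID R X.1 hG).1 c hc
    obtain ⟨⟨p1, hp1, hp1c⟩, p2, hp2, hp2c⟩ := sides hp0 hon0
    refine ⟨h1, mu, ⟨p1, hp1, (mp p1).1.mpr hp1c⟩, ⟨p2, hp2, (mp p2).2.2.1.mpr hp2c⟩, ?_, ?_⟩
    · intro G hG p hp hGp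
      obtain ⟨g, hg, rfl⟩ := List.mem_map.mp hG
      exact (mp p).2.2.1.mpr (hch g hg p hp (((hMKF X g).2.2 p).2.1.mp hGp))
    · intro p q hp hcp hq hnq hon heq
      have hcp' : capc X c p := (mp p).1.mp hcp
      have hnq' : ncap X c q := (mp q).2.2.1.mp hnq
      have hpe : inC R X o (par X c) p := cel4 p hp (Or.inl hcp')
      obtain ⟨e, hqe⟩ := cel1 q hq
      obtain ⟨i1, i2, _⟩ := hiso p _ hpe
      obtain ⟨j1, j2, _⟩ := hiso q _ hqe
      rw [i1, j1] at heq
      rw [i2, j2, md]
      have hne : e ≠ par X c := by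
        intro h
        rw [h] at heq
        have h11 := iso_inj heq
        rw [h11] at hcp'
        exact ncap_not_capc hnq' hcp'
      have hht := ht_ne (X := X) (hform _ _ hqe) (hform _ _ hpe) hne
      have hov : Ov R X o c e := by
        refine ⟨p, q, hp, hcp', hq, fun i hi => (hqe.2.1 i hi).2, ?_, heq⟩
        intro g hg hcase
        rcases tri X g q with h | h | h
        · exact absurd h (hqe.2.2 g hg hcase)
        · exact absurd (((hMKF X g).2.2 q).2.1.mpr h) (hon _ (List.mem_map.mpr ⟨g, hg, rfl⟩))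
        · exact h
      have hdir : dirS X c ≠ decide (htO X o (par X c) < htO X o e) := fun h =>
        hb ⟨e, hform _ _ hqe, hne, h, hov⟩
      by_cases hd : dirS X c = true
      · rw [if_pos hd]
        have h12 : ¬ htO X o (par X c) < htO X o e := by
          intro h
          exact hdir (by rw [hd, decide_eq_true h])
        omega
      · rw [if_neg hd]
        have hd' : dirS X c = false := by simpa using hd
        by_contra h13
        exact hdir (by rw [hd', decide_eq_false h13])

end Pool.Agent.Lib.MP29559a
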