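import Pool.Agent.Lib.MP_29559a_lc.OL.Spec

/-! # Module PTD: polynomial time, the numbers of folds above a cell and its placement -/

set_option autoImplicit false

namespace Pool.Agent.Lib.MP29559a

open Pool.Agent.PolyTime

namespace PTDM

variable {α : Type} [Rep α]

theorem pt_vtIs (hA : SpecPTA) {X : α → Ctx} {v : α → Bool} {k : α → ℕ} (hX : PT X) (hv : PT v)
    (hk : PT k) : PT (fun a => decide (vt (cr (X a).1 (k a)) = v a)) :=
  pt_boolEq (hA α X k k hX hk hk).1.fst hv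

theorem pt_na (hA : SpecPTA) {X : α → Ctx} {v : α → Bool} {i : α → ℕ} (hX : PT X) (hv : PT v)
    (hi : PT i) : PT (fun a => na (X a) (v a) (i a)) := by
  unfold na
  refine PT.length (PT.filter (g := fun a k => anc (X a) k (i a) &&
    decide (vt (cr (X a).1 k) = v a)) (PT.range (PT.length hX.fst)) ?_)
  have hX1 : PT (fun p : α × ℕ => X p.1) := hX.comp PT.id.fst
  have hi1 : PT (fun p : α × ℕ => i p.1) := hi.comp PT.id.fst
  have hv1 : PT (fun p : α × ℕ => v p.1) := hv.comp PT.id.fst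
  have hk : PT (fun p : α × ℕ => p.2) := PT.id.snd
  exact PT.and (hA (α × ℕ) _ _ _ hX1 hk hi1).2.2.2.2.1 (pt_vtIs hA hX1 hv1 hk)

/-- the list of the creases of kind `v` at or above the cell `e` -/
theorem pt_lO (hA : SpecPTA) (hB : SpecPTB) {X : α → Ctx} {v : α → Bool} {e : α → Option ℕ}
    (hX : PT X) (hv : PT v) (he : PT e) :
    PT (fun a => (List.range (X a).1.length).filter fun k => aoe (X a) k (e a) &&
      decide (vt (cr (X a).1 k) = v a)) := by
  refine PT.filter (g := fun a k => aoe (X a) k (e a) &&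
    decide (vt (cr (X a).1 k) = v a)) (PT.range (PT.length hX.fst)) ?_
  have hX1 : PT (fun p : α × ℕ => X p.1) := hX.comp PT.id.fst
  have he1 : PT (fun p : α × ℕ => e p.1) := he.comp PT.id.fst
  have hv1 : PT (fun p : α × ℕ => v p.1) := hv.comp PT.id.fst
  have hk : PT (fun p : α × ℕ => p.2) := PT.id.snd
  exact PT.and (hB (α × ℕ) _ _ _ hX1 hk he1).2 (pt_vtIs hA hX1 hv1 hk)

theorem pt_naO (hA : SpecPTA) (hB : SpecPTB) {X : α → Ctx} {v : α → Bool} {e : α → Option ℕ}
    (hX : PT X) (hv : PT v) (he : PT e) : PT (fun a => naO (X a) (v a) (e a)) :=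
  PT.length (pt_lO hA hB hX hv he)

theorem pt_sg {f : α → ℕ} (hf : PT f) : PT (fun a => sg (f a)) := by
  unfold sg
  exact PT.iteProp (PT.natEq (PT.mod hf (PT.const 2)) (PT.const 0)) (PT.const 1) (PT.const (-1))

theorem pt_bbO (hA : SpecPTA) (hB : SpecPTB) {X : α → Ctx} {v : α → Bool} {e : α → Option ℕ}
    (hX : PT X) (hv : PT v) (he : PT e) : PT (fun a => bbO (X a) (v a) (e a)) := by
  unfold bbO
  refine pt_zsum (g := fun a k => sg (na (X a) (v a) k) * (2 * at' (cr (X a).1 k)))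
    (pt_lO hA hB hX hv he) ?_
  have hX1 : PT (fun p : α × ℕ => X p.1) := hX.comp PT.id.fst
  have hv1 : PT (fun p : α × ℕ => v p.1) := hv.comp PT.id.fst
  have hk : PT (fun p : α × ℕ => p.2) := PT.id.snd
  have hcr : PT (fun p : α × ℕ => cr (X p.1).1 p.2) := (hA (α × ℕ) _ _ _ hX1 hk hk).1
  have hat : PT (fun p : α × ℕ => at' (cr (X p.1).1 p.2)) := pt_zv hcr.snd.fst
  exact pt_zmul (pt_sg (pt_na hA hX1 hv1 hk)) (pt_zmul (PT.const 2) hat)

theorem pt_faceO (hA : SpecPTA) (hB : SpecPTB) {X : α → Ctx} {e : α → Option ℕ}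
    (hX : PT X) (he : PT e) : PT (fun a => faceO (X a) (e a)) :=
  PT.natEq (PT.mod (PT.add (pt_naO hA hB hX (PT.const true) he)
    (pt_naO hA hB hX (PT.const false) he)) (PT.const 2)) (PT.const 0)

theorem pt_dirS (hA : SpecPTA) (hB : SpecPTB) {X : α → Ctx} {i : α → ℕ}
    (hX : PT X) (hi : PT i) : PT (fun a => dirS (X a) (i a)) := by
  have hcr : PT (fun a => cr (X a).1 (i a)) := (hA α X i i hX hi hi).1
  have hpar : PT (fun a => par (X a) (i a)) := (hB α X i (fun _ => none) hX hi (PT.const none)).1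
  exact pt_boolEq hcr.snd.snd.snd.snd (pt_faceO hA hB hX hpar)

theorem pt_dirO (hA : SpecPTA) (hB : SpecPTB) {X : α → Ctx} {e : α → Option ℕ}
    (hX : PT X) (he : PT e) : PT (fun a => dirO (X a) (e a)) :=
  (PT.ite (PT.isSome he) (pt_dirS hA hB hX (PT.getD he (PT.const 0))) (PT.const true)).congr
    fun a => by
      unfold dirO
      cases (e a).isSome <;> rfl

end PTDM

open PTDM in
theorem specPTD (hPTA : SpecPTA) (hPTB : SpecPTB) : SpecPTD := fun _ _ _ _ _ _ hX hv hi he =>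
  ⟨pt_na hPTA hX hv hi, pt_naO hPTA hPTB hX hv he, pt_bbO hPTA hPTB hX hv he,
    pt_faceO hPTA hPTB hX he, pt_dirS hPTA hPTB hX hi, pt_dirO hPTA hPTB hX he⟩

end Pool.Agent.Lib.MP29559a
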