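import Pool.Agent.Lib.MP_29559a_lc.OL.Ari

/-!
# MP_29559a_lc: the one-layer model is in P.  Specification (captain: helper97)

THEOREM (hand-in `OneLayerInP`).  A deterministic polynomial time Turing machine decides, for a
rectangle of paper in arbitrary position and a crease pattern with creases parallel to the axes
(integer coordinates in binary), whether the pattern is simply foldable in the one-layer model
(`Foldable`, `Base.lean`).

IDEA.  (1) In the one-layer model the rotated part (`cap`) contains no earlier crease, so all creases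
are full chords of the paper which do not cross.  (2) Let `r` be the crease folded first and `sb`
its rotated side.  For `i ≠ r` the rotated part of `i` is the side which does not contain `r`
(`capU`); `anc i j`: `j` is in the cap of `i`.  Then `anc` is a strict partial order, the elements
above a given one form a chain, and creases of the same kind whose caps are on the same side (four
types) form a chain.  A crease can only be folded after its ancestors (and `r`).  (3) The folded
state: the cells are `none` (the part in no cap) and `some i` (in the cap of `i`, in no cap of a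
folded descendant of `i`); the isometry of the cell `e` is `isoO X e` (signs `sg (naO X v e)`,
translations `bbO X v e`), its height is `±` the time of the fold of `i`.  (4) The fold of `c` is
blocked by the cell `e ≠ par c` iff a common point exists (`Ov`, decided by elimination, `feasB`) and
`e` is above (below) the cell `par c`, which only depends on the set `J` of the creases folded up to
the fold of `par c` (`above`).  (5) So the search can be made over the states (set of folded
creases; the sets `J`); a down-closed set is determined by its four numbers of elements of the four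
types, and at most one crease of each type has a nonempty `J`: at most `(n+1)^20` states.

All modules are independent: file `OL/XXX.lean`, `import Pool.Agent.Lib.MP_29559a_lc.OL.Spec` only,
namespace `Pool.Agent.Lib.MP29559a`, `theorem specXXX (hYYY : SpecYYY) ... : SpecXXX` (deps in the
order of USES), own lemmas in a namespace `XXXM`.  `n` is `X.1.length`.  Useful facts:
`fun_prop` proves many `PT` goals (see `Ari.lean`, `PTX.lean`); `lc true p = p.1`, `lc false p = p.2`.
-/

set_option autoImplicit false

namespace Pool.Agent.Lib.MP29559a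

open Pool.Agent.PolyTime

/-! ## Real versions of the static notions -/

/-- the line of the crease `i` -/
def onc (cs : List Crs) (i : ℕ) (p : Pt) : Prop := lc (vt (cr cs i)) p = at' (cr cs i)

/-- strictly above the line of the crease `i` -/
def gtc (cs : List Crs) (i : ℕ) (p : Pt) : Prop := (at' (cr cs i) : ℝ) < lc (vt (cr cs i)) p

/-- strictly below the line of the crease `i` -/
def ltc (cs : List Crs) (i : ℕ) (p : Pt) : Prop := lc (vt (cr cs i)) p < at' (cr cs i)

/-- the cap of the crease `i` -/
def capc (X : Ctx) (i : ℕ) (p : Pt) : Prop := if capU X i then gtc X.1 i p else ltc X.1 i p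

/-- the strict opposite side -/
def ncap (X : Ctx) (i : ℕ) (p : Pt) : Prop := if capU X i then ltc X.1 i p else gtc X.1 i p

/-- all creases are full chords of a nondegenerate rectangle and do not cross -/
structure Geo (R : Rct) (cs : List Crs) : Prop where
  dir : ¬ (rA R = 0 ∧ rB R = 0)
  lt : ∀ i < cs.length, lo (cr cs i) < hi (cr cs i)
  full : ∀ i < cs.length, ∀ p, onc cs i p →
    (inn R p ↔ (lo (cr cs i) : ℝ) < lc (!vt (cr cs i)) p ∧ lc (!vt (cr cs i)) p < hi (cr cs i))
  sep : ∀ i < cs.length, ∀ j < cs.length, i ≠ j → loS cs i j = true ∨ upS cs i j = true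

/-! ## Part 1: static geometry -/

/-- MODULE CVX (60 lines).  PROOF.  `t = (s - lc v p) / (lc v q - lc v p)`; the four inequalities of
`inn` are linear. -/
def SpecCVX : Prop := ∀ (R : Rct) (v : Bool) (s : ℝ) (p q : Pt), inn R p → inn R q →
  lc v p < s → s < lc v q → ∃ t : ℝ, 0 < t ∧ t < 1 ∧
    inn R (p.1 + t * (q.1 - p.1), p.2 + t * (q.2 - p.2)) ∧
    lc v (p.1 + t * (q.1 - p.1), p.2 + t * (q.2 - p.2)) = s

/-- MODULE SID (110 lines).  A chord is nonempty, and `loS`, `upS` say on which side it lies.
PROOF.  First part: the midpoint (`Geo.lt`, `Geo.full`).  If the kinds are equal `lc (vt i)` is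
constant on the line of `j`.  Otherwise `!vt j = vt i`, and the chord `j` in the interior is exactly
`lo j < lc (vt i) < hi j`: `→` clear; `←` if `at i < hi j` take a point of the chord with
`lc (vt i)` between `max (lo j) (at i)` and `hi j`. -/
def SpecSID : Prop := ∀ (R : Rct) (cs : List Crs), Geo R cs →
  (∀ i < cs.length, ∃ p, inn R p ∧ onc cs i p) ∧
  ∀ i < cs.length, ∀ j < cs.length,
    (loS cs i j = true ↔ ∀ p, inn R p → onc cs j p → ltc cs i p) ∧
    (upS cs i j = true ↔ ∀ p, inn R p → onc cs j p → gtc cs i p)

/-- MODULE SDC (60 lines).  USES `SpecSID`.  The same for caps: `anc` and its negation.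
PROOF.  `Geo.sep` and the definitions; `loS` and `upS` are not both true as the chord is not
empty.  Third: for `i ≠ r` `capU X i = loS i r`.  Fourth: `r ≠ i` is in `ncap i`. -/
def SpecSDC : Prop := ∀ (R : Rct) (X : Ctx), Geo R X.1 → X.2.1 < X.1.length →
  ∀ i < X.1.length, ∀ j < X.1.length, i ≠ j →
    (anc X i j = true ↔ ∀ p, inn R p → onc X.1 j p → capc X i p) ∧
    (anc X i j = false ↔ ∀ p, inn R p → onc X.1 j p → ncap X i p) ∧
    anc X i X.2.1 = false

/-- MODULE ASY (90 lines).  USES `SpecCVX`, `SpecSID`, `SpecSDC`.  `anc` is asymmetric.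
PROOF.  Let `anc i j` and `anc j i`, so `i ≠ j` and both are different from `r` (`SpecSDC`, third
part).  `x` a point of the chord `r` (in `ncap i` and `ncap j`), `y` a point of the chord `i`, so
`capc j y`.  The segment from `x` to `y` crosses the line of `j` in a point `z` of the interior of the
paper with parameter `t < 1` (`SpecCVX`), so `z` is in `ncap i` (`x` is, and `y` is on the line of
`i`).  But the chord `j` is in the cap of `i`. -/
def SpecASY : Prop := ∀ (R : Rct) (X : Ctx), Geo R X.1 → X.2.1 < X.1.length →
  ∀ i < X.1.length, ∀ j < X.1.length, ¬ (anc X i j = true ∧ anc X j i = true)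

/-- MODULE NST (140 lines).  USES `SpecCVX`, `SpecSID`, `SpecSDC`, `SpecASY`.  Nesting of the caps.
PROOF.  Let `p` be in the interior of the paper and `capc j p` or on the line of `j`; `x` a point of
the chord `j`.  Second part: `anc i j = false`, so `x` is in `ncap i`, `p` in `capc i`; the segment from
`x` to `p` meets the line of `i` in a point `z` of the interior, `z` is in the cap or on the line of
`j`; so not all points of the chord `i` are in `ncap j`, hence `anc j i` (`SpecSDC`).  First part:
`anc i j`, so `x` is in `capc i`; if `p` is not in `capc i` then it is on the line of `i` or in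
`ncap i` and the segment from `p` to `x` meets the line of `i`: again a point of the chord `i` in the
cap or on the line of `j`, so `anc j i`: contradiction to `SpecASY`. -/
def SpecNST : Prop := ∀ (R : Rct) (X : Ctx), Geo R X.1 → X.2.1 < X.1.length →
  ∀ i < X.1.length, ∀ j < X.1.length, i ≠ j → ∀ p, inn R p → (capc X j p ∨ onc X.1 j p) →
    (anc X i j = true → capc X i p) ∧ (anc X i j = false → capc X i p → anc X j i = true)

/-- MODULE TRN (110 lines).  USES `SpecSID`, `SpecSDC`, `SpecASY`, `SpecNST`.  Order properties.
PROOF.  Transitivity: `i ≠ k` by `SpecASY`; a point `p` of the chord `k` is in `capc j`, so in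
`capc i` by `SpecNST`; `SpecSDC`.  Chain: a point of the chord `k` is in both caps; `SpecNST` for
`(i, j)`.  Type: `at i < at j` or `at j < at i` by `Geo.sep`; then the chord of one is in the cap of the
other by definition of `anc`. -/
def SpecTRN : Prop := ∀ (R : Rct) (X : Ctx), Geo R X.1 → X.2.1 < X.1.length →
  ∀ i < X.1.length, ∀ j < X.1.length,
    (∀ k < X.1.length, anc X i j = true → anc X j k = true → anc X i k = true) ∧
    (∀ k < X.1.length, i ≠ j → anc X i k = true → anc X j k = true →
      anc X i j = true ∨ anc X j i = true) ∧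
    (i ≠ j → vt (cr X.1 i) = vt (cr X.1 j) → capU X i = capU X j →
      anc X i j = true ∨ anc X j i = true)

/-- MODULE PRT (110 lines).  USES `SpecASY`, `SpecTRN`.  The parent.
PROOF.  The ancestors of `j` form a finite chain; if there is one, there is a lowest one (e.g. the
ancestor with the largest number of ancestors, or induction), which satisfies the test, and the
element found satisfies the test, so it is an ancestor below every other one.  `aoe k (par j)`:
`k = par j` or `anc k (par j)` iff `anc k j`. -/
def SpecPRT : Prop := ∀ (R : Rct) (X : Ctx), Geo R X.1 → X.2.1 < X.1.length →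
  ∀ j < X.1.length, (∀ i, par X j = some i → i < X.1.length ∧ anc X i j = true) ∧
    (∀ k < X.1.length, aoe X k (par X j) = anc X k j)

/-- MODULE DAT (150 lines).  USES `SpecPRT`.  The data of a cell from those of its parent.
PROOF.  `aoe k none = false`.  `aoe k (some c)` iff `k = c` or `anc k c`, and `anc k c = aoe k (par c)`,
`anc c c = false`: so the filtered list of `some c` is a permutation of `c ::` (or equal to, if the
kind of `c` is not `v`) the one of `par c`; `List.Perm.length_eq`, `List.Perm.sum_eq`; or write the
length and the sum as sums over `Finset.range n` of `if .. then .. else 0` and use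
`Finset.sum_ite_eq`. -/
def SpecDAT : Prop := ∀ (R : Rct) (X : Ctx), Geo R X.1 → X.2.1 < X.1.length →
  (∀ v, naO X v none = 0 ∧ bbO X v none = 0) ∧ faceO X none = true ∧
  ∀ c < X.1.length, faceO X (some c) = !faceO X (par X c) ∧ ∀ v,
    na X v c = naO X v (par X c) ∧
    naO X v (some c) = naO X v (par X c) + (if vt (cr X.1 c) = v then 1 else 0) ∧
    bbO X v (some c) = bbO X v (par X c) +
      (if vt (cr X.1 c) = v then sg (naO X v (par X c)) * (2 * at' (cr X.1 c)) else 0)

/-! ## Part 2: histories -/

/-- `o` (newest first) is a sequence of creases in which every crease comes after all those which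
have to be folded before it -/
def Cl (X : Ctx) : List ℕ → Prop
  | [] => True
  | c :: o => Cl X o ∧ c < X.1.length ∧ c ∉ o ∧ ∀ i < X.1.length, bef X i c = true → i ∈ o

/-- the point `q` is in the cell `e` -/
def inC (R : Rct) (X : Ctx) (o : List ℕ) (e : Option ℕ) (q : Pt) : Prop :=
  inn R q ∧ (∀ i, e = some i → i ∈ o ∧ capc X i q) ∧
    ∀ g ∈ o, (e = none ∨ ∃ i, e = some i ∧ anc X i g = true) → ¬ capc X g q

/-- the fold of the crease `i` -/
noncomputable def mkF (X : Ctx) (i : ℕ) : Fold :=
  let e : ℝ := if capU X i then 1 else -1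
  ⟨if vt (cr X.1 i) then (e, 0) else (0, e), e * at' (cr X.1 i), dirS X i⟩

/-- the isometry of the cell `e` -/
noncomputable def isoO (X : Ctx) (e : Option ℕ) (p : Pt) : Pt :=
  ((sg (naO X true e) : ℝ) * p.1 + bbO X true e, (sg (naO X false e) : ℝ) * p.2 + bbO X false e)

/-- the time of the fold of `i` -/
def tm (o : List ℕ) (i : ℕ) : ℕ := (o.dropWhile fun x => decide (x ≠ i)).length

/-- the height of the cell `e` -/
def htO (X : Ctx) (o : List ℕ) (e : Option ℕ) : ℤ :=
  match e with
  | none => 0
  | some i => if dirS X i then (tm o i : ℤ) else -(tm o i : ℤ)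

/-- MODULE CEL (180 lines).  USES `SpecSDC`, `SpecASY`, `SpecNST`, `SpecTRN`, `SpecPRT`.  The cells.
(1) every point is in a cell; (2) in only one; (3) the cap of a crease `c` which can be folded next
and its chord are in the cell `par c`; (4) the cells after the fold of `c`.
PROOF.  All elements of `o` are `< n`, and if `i ∈ o`, `bef j i` then `j ∈ o` (induction on `o`).
(1) if no `g ∈ o` has `capc g q` take `none`, otherwise the lowest one of the `g ∈ o` with
`capc g q` (by `SpecNST` they form a chain).  (2) `some i`, `some j` with `i ≠ j`: by `SpecNST`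
comparable, and the third condition of one excludes the other; `none`: clear.
(3) Let `g ∈ o` with `capc g q`, `par c = none` or `anc (par c) g`.  `g ≠ c`; by `SpecNST` `anc g c` or
`anc c g`; `anc c g` gives `bef c g`, so `c ∈ o`, no.  So `anc g c`, `aoe g (par c)` (`SpecPRT`):
`g = par c` or `anc g (par c)`, against `anc (par c) g` (`SpecASY`).  If `par c = some i` then
`anc i c`, so `bef i c`, `i ∈ o`, and `capc i q` by `SpecNST`.
(4) If `capc c q` and `inC (c :: o) e q` then `e ≠ none`; if `e = some i`, `i ≠ c`, then not
`anc i c`, so `anc c i` by `SpecNST`, so `c ∈ o`, no.  Conversely for `e = some c` the `g ∈ o` with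
`anc c g` do not exist.  If not `capc c q`: immediate. -/
def SpecCEL : Prop := ∀ (R : Rct) (X : Ctx), Geo R X.1 → X.2.1 < X.1.length → ∀ o, Cl X o →
  (∀ q, inn R q → ∃ e, inC R X o e q) ∧
  (∀ q e e', inC R X o e q → inC R X o e' q → e = e') ∧
  ∀ c < X.1.length, c ∉ o → (∀ i < X.1.length, bef X i c = true → i ∈ o) →
    (∀ q, inn R q → (capc X c q ∨ onc X.1 c q) → inC R X o (par X c) q) ∧
    ∀ q e, inC R X (c :: o) e q ↔
      (capc X c q ∧ e = some c ∧ inn R q) ∨ (¬ capc X c q ∧ inC R X o e q)

/-- MODULE MKF (60 lines).  The fold `mkF`.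
PROOF.  Cases of `vt`, `capU`; `u.1^2 + u.2^2 = 1`. -/
def SpecMKF : Prop := ∀ (X : Ctx) (i : ℕ),
  (mkF X i).u ≠ 0 ∧ (mkF X i).d = dirS X i ∧
  ∀ p, ((mkF X i).cap p ↔ capc X i p) ∧ ((mkF X i).on p ↔ onc X.1 i p) ∧
    ((mkF X i).lin p < (mkF X i).s ↔ ncap X i p) ∧
    (mkF X i).refl p = if vt (cr X.1 i) then (2 * (at' (cr X.1 i) : ℝ) - p.1, p.2)
      else (p.1, 2 * (at' (cr X.1 i) : ℝ) - p.2)

/-- MODULE ISO (150 lines).  USES `SpecDAT`, `SpecCEL`, `SpecMKF`.  The folded state.
PROOF.  Induction on `o`, for `c :: o` by `SpecCEL` (4): if `capc c q` then `e = some c`, `q` is in the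
cell `par c` for `o` (3), and `isoO (some c) = isoO (par c) ∘ refl c` by `SpecDAT`
(`sg (n + 1) = - sg n`), `faceO` is negated, `tm (c :: o) c = length o + 1`.  If not `capc c q` nothing
changes: `tm (c :: o) i = tm o i` for `i ≠ c`. -/
def SpecISO : Prop := ∀ (R : Rct) (X : Ctx), Geo R X.1 → X.2.1 < X.1.length → ∀ o, Cl X o →
  ∀ q e, inC R X o e q → iso (o.map (mkF X)) q = isoO X e ∧ hgt (o.map (mkF X)) q = htO X o e ∧
    face (o.map (mkF X)) q = faceO X e

/-- the cap of `c` and the cell `e` have a common point in the folded state -/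
def Ov (R : Rct) (X : Ctx) (o : List ℕ) (c : ℕ) (e : Option ℕ) : Prop :=
  ∃ p q, inn R p ∧ capc X c p ∧ inn R q ∧ (∀ i, e = some i → capc X i q) ∧
    (∀ g ∈ o, (e = none ∨ ∃ i, e = some i ∧ anc X i g = true) → ncap X g q) ∧
    isoO X (par X c) p = isoO X e q

/-- the fold of `c` is blocked -/
def Blk (R : Rct) (X : Ctx) (o : List ℕ) (c : ℕ) : Prop :=
  ∃ e, (e = none ∨ ∃ i ∈ o, e = some i) ∧ e ≠ par X c ∧
    dirS X c = decide (htO X o (par X c) < htO X o e) ∧ Ov R X o c e

/-- MODULE OKS (200 lines).  USES `SpecCVX`, `SpecSID`, `SpecSDC`, `SpecNST`, `SpecCEL`, `SpecMKF`,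
`SpecISO`.  One step.
PROOF.  The first conditions of `ok` hold for `mkF c`: there are points of the interior of the paper
on both sides of the chord `c` (take a point `p` of the chord, `inn` is open: `p` plus a small
multiple of the unit vector), and for `g ∈ o` the chord `g` is in `ncap c` (`SpecSDC`: `anc c g` would
give `bef c g` and `c ∈ o`).  The last condition: `p` is in the cell `par c` (`SpecCEL` (3)), so
`iso = isoO (par c)`, height `htO o (par c)`.  Let `q` be in the interior, in `ncap c`, on no line of
a `g ∈ o`; `q` is in a cell `e` (1), `iso = isoO e`, height `htO o e`.  If `e = par c` then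
`isoO e` is injective, so `p = q`, a contradiction.  If `e ≠ par c` then the heights are different
(the times `tm` are positive and different for different elements of `o`), and the conditions of
`Ov` hold (`ncap g` for `¬ capc g`, not on the line).  Conversely let `Ov o c e` with `p`, `q`, `e ≠
par c`, `e = none` or `e = some i`, `i ∈ o`: `q` is in the cell `e`.  `q` is not in `capc c` and not on
the line of `c` (else it is in the cell `par c` by (3), `e = par c` by (2)), so `ncap c q`.  `q` is on
no line of a `g ∈ o`: if `e = none` or `anc e g`: `ncap g q`; `g = e`: `capc e q`; `anc g e`: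
`capc g q` by `SpecNST`; otherwise (`g`, `e` incomparable) `q` on the line of `g`, in `capc e`:
`SpecNST` for `(i, j) = (e, g)` gives `anc e g` or `anc g e`. -/
def SpecOKS : Prop := ∀ (R : Rct) (X : Ctx), Geo R X.1 → X.2.1 < X.1.length → ∀ c o,
  Cl X (c :: o) → (ok R ((c :: o).map (mkF X)) ↔ ok R (o.map (mkF X)) ∧ ¬ Blk R X o c)

/-! ## Part 3: the states of the search -/

/-- the state after the history `o` -/
def stOf (X : Ctx) : List ℕ → State
  | [] => S0 X
  | c :: o => upd X (stOf X o) c

/-- valid histories of the search -/
def VH (R : Rct) (X : Ctx) : List ℕ → Prop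
  | [] => True
  | c :: o => VH R X o ∧ c < X.1.length ∧ stepB R X (stOf X o) c = true

/-- MODULE STM (60 lines).  The bit vector of the folded creases. -/
def SpecSTM : Prop := ∀ (X : Ctx) (o : List ℕ), (stOf X o).1.length = X.1.length ∧
  (stOf X o).2.length = X.1.length ∧
  ∀ i < X.1.length, gm (stOf X o).1 i = true ↔ i ∈ o

/-- MODULE STJ (130 lines).  USES `SpecSTM`, `SpecPRT`.  The sets `J`.
(1) for `c ∉ o` with folded parent `p`: `J` is the set of the creases folded up to `p`.
(2) `c` without parent or with a parent which is not folded, or folded itself: `J = []`.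
PROOF.  Induction on `o`.  When `c'` is folded: `par c = some c'`: `J` becomes the bit vector of
`c' :: o = (c' :: o).dropWhile (≠ c')`; `c = c'`: `[]` (`par c ≠ some c`, as `anc c c = false`);
otherwise unchanged, and `(c' :: o).dropWhile (≠ p) = o.dropWhile (≠ p)`. -/
def SpecSTJ : Prop := ∀ (R : Rct) (X : Ctx), Geo R X.1 → X.2.1 < X.1.length → ∀ o, Cl X o →
  ∀ c < X.1.length,
    (∀ p, c ∉ o → par X c = some p → p ∈ o → (gJ (stOf X o) c).length = X.1.length ∧
      ∀ i < X.1.length, gm (gJ (stOf X o) c) i = true ↔ i ∈ o.dropWhile fun x => decide (x ≠ p)) ∧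
    ((c ∈ o ∨ ∀ p, par X c = some p → p ∉ o) → gJ (stOf X o) c = [])

/-- MODULE ABV (120 lines).  USES `SpecPRT`, `SpecSTJ`.  The comparison of heights.
PROOF.  `par c` is `none` or an element of `o` (it has to be folded before `c`).  The times are
positive and different for different elements of `o` (`Nodup`), and for `par c = some p`,
`i ∈ o.dropWhile (≠ p)` iff `tm o i ≤ tm o p`.  If `e = some i` is later than `par c` (or
`par c = none`) the comparison is decided by the direction of `i`, otherwise by the opposite of the
direction of `par c`. -/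
def SpecABV : Prop := ∀ (R : Rct) (X : Ctx), Geo R X.1 → X.2.1 < X.1.length → ∀ c o,
  Cl X (c :: o) → ∀ e, (e = none ∨ ∃ i ∈ o, e = some i) → e ≠ par X c →
  decide (htO X o (par X c) < htO X o e) = above X (gJ (stOf X o) c) c e

/-- MODULE FEA (170 lines).  Elimination.
PROOF.  `feas1 L` iff there is a real `x` with `A x < C` for all `(A, C) ∈ L`: the upper bounds
`C/A` (`A > 0`) and the lower bounds (`A < 0`) are compared in pairs; if both kinds occur take `x`
between the largest lower and the smallest upper bound, if one kind is missing a large or small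
`x`.  For fixed `x` the `y` exists iff the inequalities with `B = 0` hold and all pairs `0 < B`,
`B' < 0` are compatible; multiply by `B (-B')`. -/
def SpecFEA : Prop := ∀ L : List Cn, feasB L = true ↔ ∃ x y : ℝ, ∀ k ∈ L, sat k x y

/-- MODULE OVB (150 lines).  USES `SpecFEA`.  The overlap test.
PROOF.  For `sg nx, sg ny = ±1`: `sat (tr nx bx ny by' k) x y` iff `sat k` at the preimage
`(sg nx * (x - bx), sg ny * (y - by'))`.  `sat k` for all `k ∈ rectC R` iff `inn R`;
`sat (sideC (cr i) (capU i))` iff `capc i`, with `!` iff `ncap i`.  A common value of `isoO (par c) p`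
and `isoO e q` is a point `(x, y)` with preimages `p`, `q`. -/
def SpecOVB : Prop := ∀ (R : Rct) (X : Ctx) (o : List ℕ) (m : List Bool) (c : ℕ) (e : Option ℕ),
  (∀ g ∈ o, g < X.1.length) → (∀ i < X.1.length, gm m i = true ↔ i ∈ o) →
  (feasB (cons R X m c e) = true ↔ Ov R X o c e)

/-- MODULE VCL (50 lines).  USES `SpecSTM`.  Valid histories are closed.
PROOF.  Induction; `avB` says `c ∉ o` and `bef i c → i ∈ o`. -/
def SpecVCL : Prop := ∀ (R : Rct) (X : Ctx) (o : List ℕ), VH R X o → Cl X o

/-- MODULE VHC (110 lines).  USES `SpecOKS`, `SpecSTM`, `SpecABV`, `SpecOVB`, `SpecVCL`.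
PROOF.  Induction on `o`; for `c :: o` with `Cl X (c :: o)`: `avB` is true, and `blkB` iff `Blk`: the
list in `blkB` consists of `none` and the `some i`, `i ∈ o`. -/
def SpecVHC : Prop := ∀ (R : Rct) (X : Ctx), Geo R X.1 → X.2.1 < X.1.length → ∀ o,
  VH R X o ↔ Cl X o ∧ ok R (o.map (mkF X))

/-- MODULE LAB (150 lines).  USES `SpecSDC`, `SpecCEL`, `SpecMKF`, `SpecISO`.  The creases of a
complete history.
PROOF.  `o` has `n` different elements `< n`, so it contains all `i < n`.  `vall (o.map mkF) p` iff
there is a splitting `o = o1 ++ c :: o'` with `inn p`, `onc c p` and a point `q` of the cap with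
`face (o'.map mkF) q = dirS c` (induction); by `SpecCEL` (3), `SpecISO` this face is
`faceO (par c)` for all points of the cap, and there is one (`hcap`); `dirS c = faceO (par c)` iff
`vl c = true`.  `VS`: for `inn p` and `onc c p` the segment condition holds by `Geo.full`. -/
def SpecLAB : Prop := ∀ (R : Rct) (X : Ctx), Geo R X.1 → X.2.1 < X.1.length →
  ∀ o, Cl X o → o.length = X.1.length → ok R (o.map (mkF X)) →
    (∀ p, vall R (o.map (mkF X)) p ↔ VS (R, X.1) true p) ∧
    ∀ p, mntn R (o.map (mkF X)) p ↔ VS (R, X.1) false p

/-! ## Part 4: from a folding to a history -/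

/-- the same fold with another description -/
def Eqv (F G : Fold) : Prop := F.d = G.d ∧ ∃ l : ℝ, 0 < l ∧ F.u = l • G.u ∧ F.s = l * G.s

/-- MODULE NRM (120 lines).  PROOF.  `F` and `G` have the same `cap`, `on`, opposite side and
`refl`; induction on the lists. -/
def SpecNRM : Prop := ∀ (R : Rct) (H K : List Fold), List.Forall₂ Eqv H K →
  (∀ p, iso H p = iso K p ∧ hgt H p = hgt K p ∧ face H p = face K p) ∧ (ok R H ↔ ok R K) ∧
  (∀ p, vall R H p ↔ vall R K p) ∧ ∀ p, mntn R H p ↔ mntn R K p

/-- MODULE CVL (110 lines).  Coverings of a segment of a line by finitely many lines or segments.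
PROOF.  The open segment is infinite and the list is finite, so some element `z` of the list
satisfies `P z p` for two different points `p` (`Set.infinite_..`, pigeonhole). -/
def SpecCVL : Prop := ∀ (T : Type) (L : List T) (P : T → Pt → Prop) (v : Bool) (s l h : ℝ), l < h →
  (∀ p, lc v p = s → l < lc (!v) p → lc (!v) p < h → ∃ z ∈ L, P z p) →
  ∃ z ∈ L, ∃ p q, P z p ∧ P z q ∧ p ≠ q ∧ lc v p = s ∧ lc v q = s ∧ l < lc (!v) p ∧ lc (!v) p < h ∧
    l < lc (!v) q ∧ lc (!v) q < h

/-- MODULE LNE (80 lines).  A line which contains two points of an axis-parallel line is this line.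
-/
def SpecLNE : Prop := ∀ (F : Fold) (v : Bool) (s : ℝ) (p q : Pt), F.u ≠ 0 → F.on p → F.on q →
  p ≠ q → lc v p = s → lc v q = s → ∃ l : ℝ, l ≠ 0 ∧
    F.u = (if v then (l, 0) else (0, l)) ∧ F.s = l * s ∧ ∀ z, F.on z ↔ lc v z = s

/-- MODULE CST (110 lines).  The rotated part is one layer.
PROOF.  Two points `p`, `q` of the interior of the paper in the cap of `F` are joined by a segment
inside the cap, which does not meet the line of any `G ∈ H`; so `G.cap p ↔ G.cap q`.  Induction on
the suffixes of `H`: `iso`, `hgt`, `face` only depend on the truth values of `G.cap p`. -/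
def SpecCST : Prop := ∀ (R : Rct) (F : Fold) (H : List Fold), ok R (F :: H) → ∀ p q,
  inn R p → inn R q → F.cap p → F.cap q → iso H p = iso H q ∧ hgt H p = hgt H q ∧ face H p = face H q

/-- MODULE EXA (180 lines).  USES `SpecCVL`, `SpecLNE`.  The creases of the pattern are full chords.
PROOF.  Let `c ∈ I.2`, `b = vl c`, and `W = vall` or `mntn` (the argument is the same).  `c` has a
point in the interior; the rectangle is convex, so the open segment of `c` is in the interior (points
between a point of `clo` and one of `inn`), so all its points satisfy `VS I b`, hence `W H`, and are on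
a line of a fold `F ∈ H` of kind `b` (`W H p` implies: a splitting `H = H1 ++ F :: H'` with `F.on p`
and a `q` as in the statement, and then every interior point of `F.on` satisfies `W H`; induction).
By `SpecCVL` (list of the splittings), `SpecLNE` one such `F.on` is the line of `c`.  So all points of the interior on the line of `c` satisfy `W H`, hence `VS I b`.
Suppose the end `hi c` is in the interior.  All points of the line with `lc (!vt)` in
`(hi c, hi c + ε)` are in the interior, so covered by the finitely many segments of kind `b`.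
Choose `ε` smaller than the distance of `hi c` to all `lo c'` with `lo c' > hi c` (`c'` on the same
line); by `SpecCVL` some segment `c'` contains two of these points, so it is on the same line
(`vt c' = vt c`, `at' c' = at' c`), `lo c' ≤ hi c < hi c'`: so `c' ≠ c`, against `Valid.dis`
(`List.pairwise_iff_getElem`; symmetric condition).  Same for `lo c`.  So both ends are in `clo` and not
in `inn`, and with an interior point between them: an interior point of the line is between them
(convexity: a point beyond the end and the interior point would give that the end is in `inn`). -/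
def SpecEXA : Prop := ∀ (I : Inp), Valid I → ∀ H, ok I.1 H → (∀ p, vall I.1 H p ↔ VS I true p) →
  (∀ p, mntn I.1 H p ↔ VS I false p) → ∀ i < I.2.length,
    (∀ p, onc I.2 i p → (inn I.1 p ↔ (lo (cr I.2 i) : ℝ) < lc (!vt (cr I.2 i)) p ∧
      lc (!vt (cr I.2 i)) p < hi (cr I.2 i))) ∧
    ∃ H1 F H', H = H1 ++ F :: H' ∧ (∀ z, F.on z ↔ onc I.2 i z) ∧
      ∃ q, inn I.1 q ∧ F.cap q ∧ (vl (cr I.2 i) = true ↔ face H' q = F.d)

/-- MODULE EXB (180 lines).  USES `SpecCVL`, `SpecLNE`, `SpecCST`, `SpecEXA`.  Every fold belongs to a
crease; different creases are on different lines.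
PROOF.  First part: `ok I.1 (F :: H')` (a suffix of `H`), so by `SpecCST` `face H'` is constant on the
cap of `F` in the interior; the chord of `F` is contained in `vall H` if it is `F.d`, in `mntn H`
otherwise.  There are points of the interior on both sides of the line, so the chord contains an
open segment: it is infinite (if `F.on` were not parallel to an axis use the finitely many segments:
two points of the chord are in one `seg c`, by pigeonhole).  So two different points of the chord
are in one `seg c`, `c ∈ I.2` of the right kind; `SpecLNE`.  `i` = an index of `c`.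
Second part: let `i ≠ j` be on the same line.  If `vl i = vl j`: both are full chords (`SpecEXA`), so
`lo`, `hi` are equal (`Valid.dis` gives a contradiction).  If `vl i = true`, `vl j = false`: the
chord is in `VS true` and in `VS false`, so in `vall H` and `mntn H`; as in `SpecEXA` there are
folds `F`, `F'` in `H` with this line, made as a valley and as a mountain fold; they are at different
places of `H` (`SpecCST`: one fold has only one kind), and `ok` for the later one says that the
chord of the earlier one is strictly on one side: contradiction. -/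
def SpecEXB : Prop := ∀ (I : Inp), Valid I → ∀ H, ok I.1 H → (∀ p, vall I.1 H p ↔ VS I true p) →
  (∀ p, mntn I.1 H p ↔ VS I false p) →
  (∀ H1 F H', H = H1 ++ F :: H' → ∃ i < I.2.length, (∀ z, F.on z ↔ onc I.2 i z) ∧
    ∀ q, inn I.1 q → F.cap q → (vl (cr I.2 i) = true ↔ face H' q = F.d)) ∧
  ∀ i < I.2.length, ∀ j < I.2.length, i ≠ j →
    ¬ (vt (cr I.2 i) = vt (cr I.2 j) ∧ at' (cr I.2 i) = at' (cr I.2 j))

/-- MODULE EXC (130 lines).  USES `SpecCVX`, `SpecEXA`, `SpecEXB`.  The creases do not cross.
PROOF.  `i ≠ j` belong to folds of `H` (`SpecEXA`), which have different lines, so one of them is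
later and `ok` says that no point of the interior is on both lines.  If the kinds are equal the
lines are different: `at i ≠ at j`.  Otherwise the chord `j` is `lo j < lc (vt i) < hi j` on its line;
if `lo j < at i < hi j` then the point of the line of `j` with `lc (vt i) = at i` is in the interior
and on the line of `i`. -/
def SpecEXC : Prop := ∀ (I : Inp), Valid I → ∀ H, ok I.1 H → (∀ p, vall I.1 H p ↔ VS I true p) →
  (∀ p, mntn I.1 H p ↔ VS I false p) → Geo I.1 I.2

/-- MODULE EXD (220 lines).  USES `SpecSID`, `SpecSDC`, `SpecCEL`, `SpecMKF`, `SpecISO`, `SpecNRM`,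
`SpecLNE`, `SpecEXA`, `SpecEXB`, `SpecEXC`.  The history of a folding.
PROOF.  `I.2 ≠ []`, so `H ≠ []` (`SpecEXA`).  Let `F1` be the oldest fold (last element of `H`), `r` its
crease (`SpecEXB`), `sb` its side (`F1.u` has a positive coordinate; `SpecLNE`).  For a suffix
`K` of `H` let `o` be the list of the indices of its folds; claim: `Cl X o` and
`List.Forall₂ Eqv K (o.map (mkF X))`, by induction on `K`.  For `F :: K`, `F` with index `i`:
`i ∉ o`: `ok` says that the chord of an earlier fold is strictly on one side of `F`.
Side: if `i ≠ r` then `F1 ∈ K` and by `ok` the chord `r` is on the side opposite to the cap of `F`; so the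
cap of `F` is the one given by `capU` (`SpecSID`, `SpecSDC`); for `K = []`, `i = r`.
`bef j i → j ∈ o`: if `j = r` and `i ≠ r`: `F1 ∈ K`.  If `anc j i` and `j ∉ o`: `j` is the index of a
fold `F'` of `H` (`SpecEXA`; two folds with the same line are equal), later than `F`, and `ok` for
`F'` says that the chord `i` is not in the cap of `F'`; the cap of `F'` is `capc j` (side as above,
`j ≠ r` because `F1` is the oldest), contradiction to `anc j i`, `SpecSDC`.  Direction: `F.d` is
determined by `face K q` for a point of the cap (`SpecEXB`), `face K = face (o.map mkF)`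
(`SpecNRM`) `= faceO (par i)` (`SpecCEL` (3), `SpecISO`), so `F.d = dirS i`. -/
def SpecEXD : Prop := ∀ (I : Inp), Valid I → I.2 ≠ [] → ∀ H, ok I.1 H →
  (∀ p, vall I.1 H p ↔ VS I true p) → (∀ p, mntn I.1 H p ↔ VS I false p) →
  ∃ r < I.2.length, ∃ sb : Bool, ∃ o : List ℕ, Cl (I.2, r, sb) o ∧ o.length = I.2.length ∧
    List.Forall₂ Eqv H (o.map (mkF (I.2, r, sb)))

/-! ## Part 5: the search -/

/-- the type of a crease -/
def ty (X : Ctx) (i : ℕ) : Bool × Bool := (vt (cr X.1 i), capU X i)

/-- number of elements of type `t` of the set `m` -/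
def ct (X : Ctx) (m : List Bool) (t : Bool × Bool) : ℕ :=
  ((List.range X.1.length).filter fun i => gm m i && decide (ty X i = t)).length

/-- MODULE MSK (110 lines).  USES `SpecTRN`.  A down-closed set is determined by its four numbers.
PROOF.  Let `i ∈ m`, `i ∉ m'`, type `t`.  The elements of `m'` of type `t` are all in `m`: for such
a `j`, `i` and `j` are comparable (`SpecTRN`), `anc i j` would give `i ∈ m'`, so `anc j i` and
`j ∈ m`.  So `ct m' t < ct m t`. -/
def SpecMSK : Prop := ∀ (R : Rct) (X : Ctx), Geo R X.1 → X.2.1 < X.1.length →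
  ∀ m m' : List Bool,
  (∀ i < X.1.length, ∀ j < X.1.length, anc X i j = true → gm m j = true → gm m i = true) →
  (∀ i < X.1.length, ∀ j < X.1.length, anc X i j = true → gm m' j = true → gm m' i = true) →
  (∀ t, ct X m t = ct X m' t) → ∀ i < X.1.length, gm m i = gm m' i

/-- MODULE CNT (220 lines).  USES `SpecASY`, `SpecTRN`, `SpecPRT`, `SpecSTM`, `SpecSTJ`, `SpecMSK`.
PROOF.  Map the state `S` to the numbers `ct S.1 t` (4 numbers `≤ n`) and, for each type `t`, the four
numbers `∑_(c < n, ty c = t) ct (gJ S c) t'`.  At most one `c` of type `t` has `gJ S c ≠ []`: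
by `SpecSTJ` such a `c` is not folded and its parent is; two of them are comparable, say
`anc c c'`, and `c'` has a folded parent `p`, `aoe c (some p)` (`SpecPRT`), so `c = p` or
`anc c p`, hence `c` is folded (`Cl`), a contradiction.  So the sums are `≤ n`.  The map is
injective: `S.1` is down-closed (`Cl`), so it is determined (`SpecMSK`; equal lengths, `SpecSTM`);
for each `c`, `gJ S c = []` unless `c ∉ S.1`, `par c ∈ S.1`, and then it is the only one of its type,
so its four numbers are known, and it is down-closed (it is the set of the elements of the suffix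
`o.dropWhile (≠ p)`, which is closed), so determined.  Number of values: `(n+1)^4 ((n+1)^4)^4`.
Use `Finset.card_le_card_of_injOn` or `List.Nodup.length_le_card` for the image in
`(Bool × Bool → Fin (n+1)) × (Bool × Bool → Bool × Bool → Fin (n+1))`. -/
def SpecCNT : Prop := ∀ (R : Rct) (X : Ctx), Geo R X.1 → X.2.1 < X.1.length →
  ∀ L : List State, L.Nodup → (∀ S ∈ L, ∃ o, Cl X o ∧ S = stOf X o) →
    L.length ≤ (X.1.length + 1) ^ 20

/-- MODULE NUB (40 lines).  `nub` has no duplicates and the same elements. -/
def SpecNUB : Prop := ∀ (T : Type) [DecidableEq T] (l : List T), (nub l).Nodup ∧ ∀ a, a ∈ nub l ↔ a ∈ l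

/-- MODULE BFS (120 lines).  USES `SpecVCL`, `SpecCNT`, `SpecNUB`.
PROOF.  By induction on `k` the list `(nxt R X)^[k] [S0 X]` has no duplicates and its elements are the
states `stOf X o` with `VH R X o`, `o.length = k` (`SpecCNT`: the `take` does nothing). -/
def SpecBFS : Prop := ∀ (R : Rct) (X : Ctx), Geo R X.1 → X.2.1 < X.1.length →
  (srch R X = true ↔ ∃ o, VH R X o ∧ o.length = X.1.length)

/-- MODULE FLB (130 lines).  The test for full chords.
PROOF.  `innZ R x y` iff `inn R (x, y)` (casts).  `→`: the ends are in `clo` and not in `inn`, some point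
of the segment is in `inn`: so the open segment is in `inn` (convexity) and no other point of the line
is (a point of `inn` beyond or at an end, together with the interior point, would give that the end is in
`inn`).  `←`: the ends do not satisfy the strict inequalities. -/
def SpecFLB : Prop := ∀ (I : Inp), Valid I → ∀ c ∈ I.2,
  (fullB I.1 c = true ↔ ∀ p, lc (vt c) p = at' c → (inn I.1 p ↔ (lo c : ℝ) < lc (!vt c) p ∧
    lc (!vt c) p < hi c))

/-! ## Part 6: polynomial time -/

/-- MODULE PTA (90 lines).  PROOF.  `unfold`, `fun_prop` (with `pt_zv`, `pt_zlt`, .. from `Ari.lean`); a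
projection of a variable of product type is `PT.fst`, `PT.snd`. -/
def SpecPTA : Prop := ∀ (α : Type) [Rep α] (X : α → Ctx) (i j : α → ℕ), PT X → PT i → PT j →
  PT (fun a => cr (X a).1 (i a)) ∧ PT (fun a => loS (X a).1 (i a) (j a)) ∧
  PT (fun a => upS (X a).1 (i a) (j a)) ∧ PT (fun a => capU (X a) (i a)) ∧
  PT (fun a => anc (X a) (i a) (j a)) ∧ PT (fun a => bef (X a) (i a) (j a))

/-- MODULE PTB (90 lines).  USES `SpecPTA`.  PROOF.  `PT.find?`, `PT.all`, `PT.range`, .. -/
def SpecPTB : Prop := ∀ (α : Type) [Rep α] (X : α → Ctx) (i : α → ℕ) (e : α → Option ℕ), PT X →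
  PT i → PT e → PT (fun a => par (X a) (i a)) ∧ PT (fun a => aoe (X a) (i a) (e a))

/-- MODULE PTD (130 lines).  USES `SpecPTA`, `SpecPTB`.  PROOF.  `PT.filter`, `PT.length`, `pt_zsum`. -/
def SpecPTD : Prop := ∀ (α : Type) [Rep α] (X : α → Ctx) (v : α → Bool) (i : α → ℕ)
  (e : α → Option ℕ), PT X → PT v → PT i → PT e →
  PT (fun a => na (X a) (v a) (i a)) ∧ PT (fun a => naO (X a) (v a) (e a)) ∧
  PT (fun a => bbO (X a) (v a) (e a)) ∧ PT (fun a => faceO (X a) (e a)) ∧
  PT (fun a => dirS (X a) (i a)) ∧ PT (fun a => dirO (X a) (e a))

/-- MODULE PTL (110 lines).  PROOF.  `PT.filter`, `PT.map`, `PT.flatMap`, `PT.append`, `PT.all`, `pt_z..`. -/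
def SpecPTL : Prop := ∀ (α : Type) [Rep α] (L : α → List Cn), PT L → PT (fun a => feasB (L a))

/-- MODULE PTC (150 lines).  USES `SpecPTA`, `SpecPTB`, `SpecPTD`. -/
def SpecPTC : Prop := ∀ (α : Type) [Rep α] (R : α → Rct) (X : α → Ctx) (m : α → List Bool)
  (c : α → ℕ) (e : α → Option ℕ), PT R → PT X → PT m → PT c → PT e →
  PT (fun a => cons (R a) (X a) (m a) (c a) (e a))

/-- MODULE PTS (150 lines).  USES `SpecPTA`, `SpecPTB`, `SpecPTD`, `SpecPTL`, `SpecPTC`. -/
def SpecPTS : Prop := ∀ (α : Type) [Rep α] (R : α → Rct) (X : α → Ctx) (S : α → State), PT R →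
  PT X → PT S → PT (fun a => succs (R a) (X a) (S a))

/-- MODULE PTN (170 lines).  USES `SpecPTA`, `SpecPTS`.
PROOF.  `PT.nub` (`State` has `InjRep`), `PT.take`, `PT.pow`; the iteration is `pt_iter` with the
following bound: call a state small if its first list has length `≤ n`, its second list has length
`≤ n` and consists of lists of length `≤ n`; `upd` of any small state (of any state with small
entries) is small, `S0` is small; all lists in the iteration consist of small states and have at most
`(n+1)^20` elements (the first one has one); `sz` of a small state is at most a polynomial in `n`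
(`sz_le_of_forall`, `sz_boolList_le`), `n = length ≤ sz`.  Then `decB` by `PT.all`, `PT.any`; `fullB`
and `sepB` as in PTA. -/
def SpecPTN : Prop := PT decB

/-! ## The theorem -/

/-- MODULE FIN (120 lines).  USES `SpecVHC`, `SpecLAB`, `SpecNRM`, `SpecEXC`, `SpecEXD`, `SpecBFS`,
`SpecFLB`, `SpecPTN`.
PROOF.  `dec = decB`, `PT.tm2Bool`.  If `Foldable I` by `H`: `Geo` by `SpecEXC` gives `fullB` (`SpecFLB`;
`cr cs i` for `i < n` are the elements) and `sepB`; if `I.2 ≠ []`, `SpecEXD` gives `r, sb, o`,
`ok (o.map mkF)` by `SpecNRM`, so `VH` by `SpecVHC`, and `srch` by `SpecBFS`.  Conversely: `Geo` from the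
tests and `Valid`; if `I.2 = []` the empty list of folds works; otherwise `SpecBFS`, `SpecVHC`,
`SpecLAB` with `H = o.map mkF`. -/
def SpecFIN : Prop := ∃ dec : Inp → Bool,
  Nonempty (Turing.TM2ComputableInPolyTime (encode (α := Inp)) Computability.encodeBool dec) ∧
    ∀ I : Inp, Valid I → (dec I = true ↔ Foldable I)

end Pool.Agent.Lib.MP29559a
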