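import Pool.Agent.Lib.MP_29559a_lc.OL.Spec

/-!
# MP_29559a_lc: the test for valid instances.  Specification (captain: helper97)

Two modules, so that the final theorem is about ALL inputs: the machine decides whether the input is
a valid instance and simply foldable.  Import only `Pool.Agent.Lib.MP_29559a_lc.OL.VSpec`.
-/

set_option autoImplicit false

namespace Pool.Agent.Lib.MP29559a

open Pool.Agent.PolyTime

/-- the point `(x, y)` is in the paper -/
def cloZ (R : Rct) (x y : ℤ) : Bool :=
  decide (r1 R ≤ rA R * x + rB R * y) && decide (rA R * x + rB R * y ≤ r2 R) &&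
    (decide (r3 R ≤ rA R * y - rB R * x) && decide (rA R * y - rB R * x ≤ r4 R))

/-- the point `(x / 2, y / 2)` is in the interior of the paper -/
def innH (R : Rct) (x y : ℤ) : Bool :=
  decide (2 * r1 R < rA R * x + rB R * y) && decide (rA R * x + rB R * y < 2 * r2 R) &&
    (decide (2 * r3 R < rA R * y - rB R * x) && decide (rA R * y - rB R * x < 2 * r4 R))

/-- one crease is valid -/
def crsB (R : Rct) (c : Crs) : Bool :=
  decide (lo c < hi c) &&
    (if vt c then cloZ R (at' c) (lo c) && (cloZ R (at' c) (hi c) && innH R (2 * at' c) (lo c + hi c))
    else cloZ R (lo c) (at' c) && (cloZ R (hi c) (at' c) && innH R (lo c + hi c) (2 * at' c)))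

/-- two creases of the same kind on the same line are disjoint -/
def disB (cs : List Crs) : Bool :=
  (List.range cs.length).all fun i => (List.range cs.length).all fun j =>
    decide (i = j) || (!(decide (vt (cr cs i) = vt (cr cs j)) &&
        (decide (at' (cr cs i) = at' (cr cs j)) && decide (vl (cr cs i) = vl (cr cs j)))) ||
      (decide (hi (cr cs i) < lo (cr cs j)) || decide (hi (cr cs j) < lo (cr cs i))))

def validB (I : Inp) : Bool :=
  !(decide (rA I.1 = 0) && decide (rB I.1 = 0)) && (decide (r1 I.1 < r2 I.1) &&
    (decide (r3 I.1 < r4 I.1) && (I.2.all (crsB I.1) && disB I.2)))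

/-- MODULE VLB (130 lines).  PROOF.  Creases: the ends of the segment are in the paper iff the whole
segment is (convexity); if a point `p` of the segment is in the interior, then so is the midpoint: it
is a convex combination of `p` (with a positive coefficient) and an end, which is in the paper (linear
inequalities, `nlinarith` or explicit).  Casts from `ℤ`.  `dis`: `List.pairwise_iff_getElem`, the
condition is symmetric, `cr cs i = cs[i]` for `i < n`. -/
def SpecVLB : Prop := ∀ I : Inp, validB I = true ↔ Valid I

/-- MODULE PTV (80 lines).  PROOF.  `fun_prop` with the lemmas of `Ari.lean`; `PT.all`, `PT.range`, `cr` as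
in module PTA. -/
def SpecPTV : Prop := PT validB

end Pool.Agent.Lib.MP29559a
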